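import Mathlib

set_option autoImplicit false

/-!
PROJECT FF (MP_bf82d2_ag, BoundedGroup, note 6093), module Ar.
Arithmetic of the sums of the `1 - 1 / k_i`.
PROOF. Each term is `0` (`k = 1`) or `≥ 1/2`. `ar_six`: the terms with `j ≠ i` have sum `1 + 1/k_i`; three nonzero ones: `1/k_i ≥ 1/2`;
exactly two, `a`, `b`: `1/a + 1/b = 1 - 1/k_i`, for `k_i ≥ 7` it is in `[6/7, 1)`, impossible (`(2,2)`: `1`, `(2,3)`: `5/6`, smaller
otherwise); at most one: sum `< 1`. `ar_lt`: four nonzero terms have sum `≥ 2`; three: `1 < 1/a + 1/b + 1/c < 1 + 1/60` and at most one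
of them `2`: `(2,3,c)` with `c ≤ 5` gives `≥ 1 + 1/30`, all others `≤ 1`.
-/

namespace Pool.Agent.H6.FF

open Finset

private theorem inv_Ar {m n : ℕ} (hm : 0 < m) (h : m ≤ n) : 1 / (n : ℝ) ≤ 1 / (m : ℝ) :=
  one_div_le_one_div_of_le (by exact_mod_cast hm) (by exact_mod_cast h)

private theorem half_Ar {n : ℕ} (h : 2 ≤ n) : 1 / 2 ≤ 1 - 1 / (n : ℝ) := by
  have h1 := inv_Ar (by norm_num : 0 < 2) h
  push_cast at h1
  linarith

private theorem lt_one_Ar {n : ℕ} (h : 0 < n) : 1 - 1 / (n : ℝ) < 1 := by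
  have h1 : (0 : ℝ) < n := by exact_mod_cast h
  have h2 : 0 < 1 / (n : ℝ) := one_div_pos.2 h1
  linarith

private theorem sum_Ar {N : ℕ} (k : Fin N → ℕ) (hk : ∀ i, 0 < k i) :
    ∑ i, (1 - 1 / (k i : ℝ)) = ∑ i ∈ univ.filter (fun i => 2 ≤ k i), (1 - 1 / (k i : ℝ)) := by
  symm
  refine sum_subset (subset_univ _) fun i _ hi => ?_
  have h1 : k i = 1 := by
    have := hk i
    have h2 : ¬ 2 ≤ k i := fun h => hi (mem_filter.2 ⟨mem_univ _, h⟩)
    omega
  rw [h1]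
  norm_num

private theorem card_Ar {N : ℕ} (k : Fin N → ℕ) (T : Finset (Fin N)) (hT : ∀ i ∈ T, 2 ≤ k i) :
    (T.card : ℝ) * (1 / 2) ≤ ∑ i ∈ T, (1 - 1 / (k i : ℝ)) := by
  rw [← nsmul_eq_mul]
  exact card_nsmul_le_sum T _ _ fun i hi => half_Ar (hT i hi)

private theorem small_Ar {N : ℕ} (k : Fin N → ℕ) (hk : ∀ i, 0 < k i) (T : Finset (Fin N)) (hT : T.card ≤ 1) :
    ∑ i ∈ T, (1 - 1 / (k i : ℝ)) < 1 := by
  rcases Nat.le_one_iff_eq_zero_or_eq_one.1 hT with h | h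
  · rw [card_eq_zero.1 h, sum_empty]
    norm_num
  · obtain ⟨a, ha⟩ := card_eq_one.1 h
    rw [ha, sum_singleton]
    exact lt_one_Ar (hk a)

private theorem sorted_Ar {x y z : ℕ} (hx : 2 ≤ x) (hxy : x ≤ y) (hyz : y ≤ z)
    (h1 : 1 < 1 / (x : ℝ) + 1 / (y : ℝ) + 1 / (z : ℝ))
    (h2 : 1 / (x : ℝ) + 1 / (y : ℝ) + 1 / (z : ℝ) < 1 + 1 / 60) : x = 2 ∧ y = 2 := by
  have hx2 : x = 2 := by
    by_contra hx'
    have e1 := inv_Ar (by norm_num : 0 < 3) (by omega : 3 ≤ x)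
    have e2 := inv_Ar (by norm_num : 0 < 3) (by omega : 3 ≤ y)
    have e3 := inv_Ar (by norm_num : 0 < 3) (by omega : 3 ≤ z)
    push_cast at e1 e2 e3
    linarith
  refine ⟨hx2, ?_⟩
  by_contra hy
  subst hx2
  have hy3 : y = 3 := by
    by_contra hy'
    have e2 := inv_Ar (by norm_num : 0 < 4) (by omega : 4 ≤ y)
    have e3 := inv_Ar (by norm_num : 0 < 4) (by omega : 4 ≤ z)
    push_cast at e2 e3 h1
    linarith
  subst hy3
  have hz : z ≤ 5 := by
    by_contra hz'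
    have e3 := inv_Ar (by norm_num : 0 < 6) (by omega : 6 ≤ z)
    push_cast at e3 h1
    linarith
  have e3 := inv_Ar (by omega : 0 < z) hz
  push_cast at e3 h2
  linarith

private theorem three_Ar {x y z : ℕ} (hx : 2 ≤ x) (hy : 2 ≤ y) (hz : 2 ≤ z)
    (h1 : 1 < 1 / (x : ℝ) + 1 / (y : ℝ) + 1 / (z : ℝ))
    (h2 : 1 / (x : ℝ) + 1 / (y : ℝ) + 1 / (z : ℝ) < 1 + 1 / 60) :
    (x = 2 ∧ y = 2) ∨ (x = 2 ∧ z = 2) ∨ (y = 2 ∧ z = 2) := by
  rcases le_total x y with a | a <;> rcases le_total y z with b | b <;> rcases le_total x z with c | c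
  · exact Or.inl (sorted_Ar hx a b h1 h2)
  · exact Or.inl (sorted_Ar hx a b h1 h2)
  · exact Or.inr (Or.inl (sorted_Ar hx c b (by linarith) (by linarith)))
  · have := sorted_Ar hz c a (by linarith) (by linarith)
    exact Or.inr (Or.inl ⟨this.2, this.1⟩)
  · have := sorted_Ar hy a c (by linarith) (by linarith)
    exact Or.inl ⟨this.2, this.1⟩
  · have := sorted_Ar hy b c (by linarith) (by linarith)
    exact Or.inr (Or.inr this)
  · have := sorted_Ar hz b a (by linarith) (by linarith)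
    exact Or.inr (Or.inr ⟨this.2, this.1⟩)
  · have := sorted_Ar hz b a (by linarith) (by linarith)
    exact Or.inr (Or.inr ⟨this.2, this.1⟩)

theorem ar_six {N : ℕ} (k : Fin N → ℕ) (hk : ∀ i, 0 < k i) (h : ∑ i, (1 - 1 / (k i : ℝ)) = 2) (i : Fin N) : k i ≤ 6 := by
  by_contra hi
  obtain ⟨T, hT⟩ : ∃ T, T = univ.filter (fun i => 2 ≤ k i) := ⟨_, rfl⟩
  have hiT : i ∈ T := by
    rw [hT]
    exact mem_filter.2 ⟨mem_univ _, by omega⟩
  have h1 := sum_Ar k hk
  rw [← hT, h, ← add_sum_erase T _ hiT] at h1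
  have h7 := inv_Ar (by norm_num : 0 < 7) (by omega : 7 ≤ k i)
  push_cast at h7
  have hpos : 0 < 1 / (k i : ℝ) := one_div_pos.2 (by exact_mod_cast hk i)
  have hR : ∀ j ∈ T.erase i, 2 ≤ k j := by
    intro j hj
    have := mem_of_mem_erase hj
    rw [hT] at this
    exact (mem_filter.1 this).2
  rcases le_or_gt (T.erase i).card 1 with h2 | h2
  · have := small_Ar k hk _ h2
    linarith
  · rcases eq_or_lt_of_le (Nat.succ_le_of_lt h2) with h3 | h3
    · obtain ⟨a, b, hab, he⟩ := card_eq_two.1 h3.symm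
      have ha := hR a (by rw [he]; simp)
      have hb := hR b (by rw [he]; simp)
      rw [he, sum_pair hab] at h1
      by_cases ha2 : k a = 2
      · by_cases hb2 : k b = 2
        · rw [ha2, hb2] at h1
          push_cast at h1
          linarith
        · have e := inv_Ar (by norm_num : 0 < 3) (by omega : 3 ≤ k b)
          rw [ha2] at h1
          push_cast at h1 e
          linarith
      · have e := inv_Ar (by norm_num : 0 < 3) (by omega : 3 ≤ k a)
        have e2 := inv_Ar (by norm_num : 0 < 2) hb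
        push_cast at h1 e e2
        linarith
    · have h4 := card_Ar k _ hR
      have h5 : (3 : ℝ) ≤ (T.erase i).card := by exact_mod_cast h3
      linarith

theorem ar_four {N : ℕ} (hN : 4 ≤ N) (k : Fin N → ℕ) (hk : ∀ i, 2 ≤ k i) (h : ∑ i, (1 - 1 / (k i : ℝ)) = 2) :
    N = 4 ∧ ∀ i, k i = 2 := by
  have h1 := card_Ar k univ (fun i _ => hk i)
  rw [h, card_univ, Fintype.card_fin] at h1
  have h2 : N ≤ 4 := by
    have : (N : ℝ) ≤ 4 := by linarith
    exact_mod_cast this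
  refine ⟨le_antisymm h2 hN, fun i => ?_⟩
  by_contra hi
  have h3 := card_Ar k (univ.erase i) (fun j _ => hk j)
  rw [card_erase_of_mem (mem_univ _), card_univ, Fintype.card_fin] at h3
  rw [← add_sum_erase univ _ (mem_univ i)] at h
  have e := inv_Ar (by norm_num : 0 < 3) (by have := hk i; omega : 3 ≤ k i)
  push_cast at e
  have h4 : (3 : ℝ) ≤ ((N - 1 : ℕ) : ℝ) := by
    have : 3 ≤ N - 1 := by omega
    exact_mod_cast this
  linarith

theorem ar_mix {N : ℕ} (k : Fin N → ℕ) (hk : ∀ i, k i = 1 ∨ k i = 2) (h : ∑ i, (1 - 1 / (k i : ℝ)) = 2) :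
    (univ.filter fun i => k i = 2).card = 4 := by
  have h1 : ∀ i, (1 - 1 / (k i : ℝ)) = if k i = 2 then 1 / 2 else 0 := by
    intro i
    rcases hk i with h2 | h2
    · rw [h2]
      norm_num
    · rw [h2]
      norm_num
  rw [sum_congr rfl fun i _ => h1 i, ← sum_filter, sum_const, nsmul_eq_mul] at h
  have h2 : ((univ.filter fun i => k i = 2).card : ℝ) = 4 := by linarith
  exact_mod_cast h2

theorem ar_lt {N : ℕ} (k : Fin N → ℕ) (hk : ∀ i, 0 < k i) (h : ∑ i, (1 - 1 / (k i : ℝ)) < 2)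
    (h' : 2 - 1 / 60 < ∑ i, (1 - 1 / (k i : ℝ))) :
    (∃ α β : Fin N, α ≠ β ∧ ∀ i, i ≠ α → i ≠ β → k i = 1) ∨
      ∃ α β r : Fin N, α ≠ β ∧ α ≠ r ∧ β ≠ r ∧ k α = 2 ∧ k β = 2 ∧ ∀ i, i ≠ α → i ≠ β → i ≠ r → k i = 1 := by
  rw [sum_Ar k hk] at h h'
  obtain ⟨T, hT⟩ : ∃ T, T = univ.filter (fun i => 2 ≤ k i) := ⟨_, rfl⟩
  rw [← hT] at h h'
  have hR : ∀ j ∈ T, 2 ≤ k j := by
    intro j hj
    rw [hT] at hj
    exact (mem_filter.1 hj).2
  have hone : ∀ j, j ∉ T → k j = 1 := by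
    intro j hj
    have h1 := hk j
    have h2 : ¬ 2 ≤ k j := fun h => hj (by rw [hT]; exact mem_filter.2 ⟨mem_univ _, h⟩)
    omega
  have hc := card_Ar k T hR
  have hc4 : T.card < 4 := by
    have : (T.card : ℝ) < 4 := by linarith
    exact_mod_cast this
  have hc2 : 2 ≤ T.card := by
    by_contra hh
    have := small_Ar k hk T (by omega)
    linarith
  rcases (show T.card = 2 ∨ T.card = 3 by omega) with h2 | h2
  · obtain ⟨a, b, hab, he⟩ := card_eq_two.1 h2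
    refine Or.inl ⟨a, b, hab, fun i h3 h4 => hone i ?_⟩
    rw [he]
    simp [h3, h4]
  · obtain ⟨a, b, c, hab, hac, hbc, he⟩ := card_eq_three.1 h2
    have ha := hR a (by rw [he]; simp)
    have hb := hR b (by rw [he]; simp)
    have hcc := hR c (by rw [he]; simp)
    have hs : ∑ i ∈ T, (1 - 1 / (k i : ℝ)) = (1 - 1 / (k a : ℝ)) + ((1 - 1 / (k b : ℝ)) + (1 - 1 / (k c : ℝ))) := by
      rw [he, sum_insert (by simp [hab, hac]), sum_pair hbc]
    rw [hs] at h h'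
    have hnot : ∀ i, i ≠ a → i ≠ b → i ≠ c → k i = 1 := by
      intro i h3 h4 h5
      refine hone i ?_
      rw [he]
      simp [h3, h4, h5]
    right
    rcases three_Ar ha hb hcc (by linarith) (by linarith) with h3 | h3 | h3
    · exact ⟨a, b, c, hab, hac, hbc, h3.1, h3.2, hnot⟩
    · exact ⟨a, c, b, hac, hab, hbc.symm, h3.1, h3.2, fun i h4 h5 h6 => hnot i h4 h6 h5⟩
    · exact ⟨b, c, a, hbc, hab.symm, hac.symm, h3.1, h3.2, fun i h4 h5 h6 => hnot i h6 h4 h5⟩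

end Pool.Agent.H6.FF
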