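import Mathlib
import Pool.Agent.H82.CO.Defs
import Pool.Agent.H11.GQ.Defs
import Pool.Agent.H52.VC.Defs

set_option autoImplicit false

/-!
PROJECT FF (MP_bf82d2_ag, BoundedGroup, note 6093).  Definitions.
-/

namespace Pool.Agent.H6.FF

open Finset Module
open Pool.Agent.H82.CO (chi quadInv nu genus eps zeta)
open Pool.Agent.H11.GQ (nuK)

section Abs0

variable {H : Type} [Group H]

/-- `ψ` is the character of an irreducible representation -/
def IsIrr (ψ : H → ℂ) : Prop :=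
  ∃ (n : ℕ) (ρ : Representation ℂ H (EuclideanSpace ℂ (Fin n))),
    Pool.Agent.H93.Hup.Irr ρ ∧ (∀ g, Pool.Agent.H52.VC.IsU (ρ g)) ∧
      ∀ g, ψ g = LinearMap.trace ℂ (EuclideanSpace ℂ (Fin n)) (ρ g)

/-- class functions -/
def IsCl (f : H → ℂ) : Prop := ∀ g x, f (x * g * x⁻¹) = f g

/-- the complex conjugate -/
noncomputable def cj (f : H → ℂ) : H → ℂ := fun x => (starRingEnd ℂ) (f x)

/-- the product of two functions -/
def tw (f θ : H → ℂ) : H → ℂ := fun x => f x * θ x

/-- multiplicative functions of absolute value `1` -/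
def IsLin (θ : H → ℂ) : Prop := θ 1 = 1 ∧ (∀ x y, θ (x * y) = θ x * θ y) ∧ ∀ x, ‖θ x‖ = 1

/-- the sum of the angles (in `[0, 1)`) of the eigenvalues of `c`, `c ^ o = 1` -/
noncomputable def angs (ψ : H → ℂ) (c : H) (o : ℕ) : ℂ :=
  (1 / (o : ℂ)) * ∑ j ∈ range o, eps o j * (starRingEnd ℂ) (ψ (c ^ j))

/-- the dimension of the fixed space of `c`, `c ^ o = 1` -/
noncomputable def fixs (ψ : H → ℂ) (c : H) (o : ℕ) : ℂ := (1 / (o : ℂ)) * ∑ j ∈ range o, ψ (c ^ j)

end Abs0

section Abs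

variable {H : Type} [Group H] [Fintype H]

/-- the Hermitian product -/
noncomputable def ip (f g : H → ℂ) : ℂ := (1 / (Nat.card H : ℂ)) * ∑ x, f x * (starRingEnd ℂ) (g x)

open Classical in
/-- the finite set of the irreducible characters -/
noncomputable def irr (H : Type) [Group H] : Finset (H → ℂ) :=
  if h : {ψ : H → ℂ | IsIrr ψ}.Finite then h.toFinset else ∅

/-- the twisted Frobenius-Schur indicator: `τ` is the conjugation by `w`, `z = w ^ 2`, `x * τ x * z = (x * w) ^ 2` -/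
noncomputable def fs (τ : H ≃* H) (z : H) (ψ : H → ℂ) : ℂ :=
  (1 / (Nat.card H : ℂ)) * ∑ x, ψ (x * τ x * z)

open Classical in
/-- the linear characters trivial on `K` -/
noncomputable def lin {H : Type} [Group H] (K : Subgroup H) : Finset (H → ℂ) :=
  (irr H).filter fun θ => θ 1 = 1 ∧ ∀ k ∈ K, θ k = 1

/-- the contribution of `ψ` to the sum -/
noncomputable def TT (τ : H ≃* H) (z : H) (f ψ : H → ℂ) : ℝ :=
  (ip f ψ * ip f (cj ψ) + fs τ z ψ * ip f ψ).re

open Classical in
/-- the pairing over `K`, divided by `|H|` -/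
noncomputable def mu (K : Subgroup H) (F ψ : H → ℂ) : ℂ :=
  (1 / (Nat.card H : ℂ)) * ∑ x, if x ∈ K then F x * (starRingEnd ℂ) (ψ x) else 0

end Abs

section Grp

variable {G : Type} [Group G] {N : ℕ}

/-- the number of the fixed points of `g` on `C` -/
noncomputable def fx (s : Fin N → G) (g : G) : ℝ :=
  ∑ i, (1 / (orderOf (s i) : ℝ)) * (Nat.card {u : G // u⁻¹ * g * u ∈ Subgroup.zpowers (s i)} : ℝ)

/-- the order modulo `K` -/
noncomputable def ko (K : Subgroup G) [K.Normal] (g : G) : ℕ := orderOf (QuotientGroup.mk g : G ⧸ K)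

open Classical in
/-- an element of `H` (`1` if it is not in `H`) -/
noncomputable def cel (H : Subgroup G) (g : G) : H := if h : g ∈ H then ⟨g, h⟩ else 1

/-- `(g ^ ko) ^ j` generates the intersection of `K` with the cyclic group of `g`; its conjugate by `u`, in `H` -/
noncomputable def cc (K H : Subgroup G) [K.Normal] (g u : G) : H := cel H (u * g ^ ko K g * u⁻¹)

/-- the order of `g ^ ko` -/
noncomputable def oo (K : Subgroup G) [K.Normal] (g : G) : ℕ := orderOf (g ^ ko K g)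

open Classical in
/-- the term of `chi s` belonging to `s i` -/
noncomputable def gt [Fintype G] (s : Fin N → G) (i : Fin N) (g : G) : ℂ :=
  (1 / (orderOf (s i) : ℂ)) * ∑ x : G, ∑ k ∈ range (orderOf (s i)),
    if x * s i ^ k * x⁻¹ = g then eps (orderOf (s i)) k else 0

/-- the sum of the ranks of `1 - ρ(c)`, `c` the conjugates of the `s i ^ ko`, `i` in `I` -/
noncomputable def Rk [Fintype G] (I : Finset (Fin N)) (s : Fin N → G) (K H : Subgroup G) [K.Normal] (ψ : H → ℂ) : ℝ :=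
  (1 / (Nat.card H : ℝ)) * ∑ i ∈ I, (1 / (ko K (s i) : ℝ)) *
    ∑ u : G, (ψ 1 - fixs ψ (cc K H (s i) u) (oo K (s i))).re

/-- the same with the angles -/
noncomputable def Ak [Fintype G] (I : Finset (Fin N)) (s : Fin N → G) (K H : Subgroup G) [K.Normal] (ψ : H → ℂ) : ℂ :=
  (1 / (Nat.card H : ℂ)) * ∑ i ∈ I, (1 / (ko K (s i) : ℂ)) *
    ∑ u : G, angs ψ (cc K H (s i) u) (oo K (s i))

/-- the data: `H / K` is abelian, inverted by `w`, of large index; bounds by `b` -/
structure Dat (s : Fin N → G) (K H : Subgroup G) (w : G) (b : ℝ) : Prop where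
  KH : K ≤ H
  wH : w ∉ H
  sq : ∀ g, w⁻¹ * g ∈ H → g * g ∈ K
  fxb : ∀ g, g ∉ K → fx s g ≤ b
  ob : ∀ i, s i ∉ H → (orderOf (s i) : ℝ) ≤ b
  cnt : (Nat.card {g : G // w⁻¹ * g ∉ H ∧ g * g ∈ K} : ℝ) ≤ b
  ind : (Nat.card G : ℝ) ≤ b * Nat.card H
  kb : (Nat.card K : ℝ) ≤ b

end Grp

end Pool.Agent.H6.FF
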