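import Pool.Agent.H6.FF.Fx
import Pool.Agent.H11.GQ.Rep
import Pool.Agent.H11.GQ.Trf

set_option autoImplicit false

/-!
PROJECT FF (MP_bf82d2_ag, BoundedGroup, note 6093), module EK.
The vectors fixed by `K`: at most one-dimensional.
PROOF. `Pool.Agent.H11.GQ.exists_chi s hp hg` (`E`, `σ`), `fixG σ K` with the character `Φ g = (1/|K|) ∑_{k ∈ K} chi s (g k)` (`trace_fix`).
`Φ 1 = 1 + n (nuK - 2) / (2 |K|)`: `chi_one'`, `re_chi`, `∑_{1 ≠ k ∈ K} fx s k = n ∑ (1/k_i - 1/m_i)` (for each `i`: the pairs `(u, c)`,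
`1 ≠ c ∈ zpowers (s i) ∩ K`; `|zpowers (s i) ∩ K| = m_i / k_i`), or `KSum.mu_all` for `H = ⊤`, `ψ = 1`. It is the dimension of
`fixG σ K`, a natural number, `≤ 1` as `nuK ≤ 2`. For `g ∉ K`: `Re Φ g = 1 - (1/(2|K|)) ∑_{k ∈ K} fx s (g k)` (`re_chi`). If the dimension
is `0`, `Φ = 0`. If it is `1`, `Φ` is multiplicative, of absolute value `1`, `1` on `K`: `F`. In both cases `|Re Φ g| ≤ 1` gives
`∑_k fx s (g k) ≤ 4 |K|`, and `fx ≥ 0`.
-/

namespace Pool.Agent.H6.FF

open Finset Module
open Pool.Agent.H82.CO (chi quadInv nu genus eps zeta)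
open Pool.Agent.H11.GQ (nuK)

variable {G : Type} [Group G] [Fintype G] {N : ℕ}

open Classical in
/-- `F` is the character of the one-dimensional space of the vectors fixed by `K` -/
def FData (s : Fin N → G) (K : Subgroup G) (F : G →* ℂˣ) : Prop :=
  (∀ k ∈ K, F k = 1) ∧ (∀ g, ‖(F g : ℂ)‖ = 1) ∧
    ∀ g, g ∉ K → ∑ k : G, (if k ∈ K then fx s (g * k) else 0) = 2 * (Nat.card K : ℝ) * (1 - (F g : ℂ).re)

/-- the intersection of a cyclic group with `K` -/
private theorem card_inter_EK (K : Subgroup G) [K.Normal] (g : G) :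
    Nat.card {c : G // c ∈ Subgroup.zpowers g ∧ c ∈ K} * orderOf (QuotientGroup.mk g : G ⧸ K) = orderOf g := by
  let f : Subgroup.zpowers g →* G ⧸ K := (QuotientGroup.mk' K).comp (Subgroup.zpowers g).subtype
  have h1 : f.range = Subgroup.zpowers (QuotientGroup.mk g : G ⧸ K) := by
    rw [MonoidHom.range_comp, Subgroup.range_subtype, MonoidHom.map_zpowers]
    rfl
  have h2 := f.ker.card_mul_index
  rw [Subgroup.index_ker, h1, Nat.card_zpowers, Nat.card_zpowers] at h2
  rw [← h2]
  congr 1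
  refine Nat.card_congr ?_
  refine
    { toFun := fun c => ⟨⟨c.1, c.2.1⟩, ?_⟩
      invFun := fun c => ⟨c.1.1, c.1.2, ?_⟩
      left_inv := fun c => rfl
      right_inv := fun c => rfl }
  · rw [MonoidHom.mem_ker]
    exact (QuotientGroup.eq_one_iff _).2 c.2.2
  · have h3 := c.2
    rw [MonoidHom.mem_ker] at h3
    exact (QuotientGroup.eq_one_iff _).1 h3

open Classical in
private theorem sum_card_EK (K : Subgroup G) [K.Normal] (Z : Subgroup G) :
    (∑ k : G, if k ∈ K then (Nat.card {u : G // u⁻¹ * k * u ∈ Z} : ℝ) else 0) =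
      (Nat.card G : ℝ) * (Nat.card {c : G // c ∈ Z ∧ c ∈ K} : ℝ) := by
  have h1 : ∀ k : G, (if k ∈ K then (Nat.card {u : G // u⁻¹ * k * u ∈ Z} : ℝ) else 0) =
      ∑ u : G, if u⁻¹ * k * u ∈ Z ∧ u⁻¹ * k * u ∈ K then (1 : ℝ) else 0 := by
    intro k
    have hK : ∀ u : G, u⁻¹ * k * u ∈ K ↔ k ∈ K := by
      intro u
      constructor
      · intro h
        have h2 := Subgroup.Normal.conj_mem (inferInstance : K.Normal) _ h u
        have h3 : u * (u⁻¹ * k * u) * u⁻¹ = k := by group
        rwa [h3] at h2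
      · intro h
        have h2 := Subgroup.Normal.conj_mem (inferInstance : K.Normal) _ h u⁻¹
        rwa [inv_inv] at h2
    simp only [hK]
    split_ifs with h
    · simp only [h, and_true]
      rw [Finset.sum_boole, Nat.card_eq_fintype_card, Fintype.card_subtype]
    · simp only [h, and_false, if_false, sum_const_zero]
  simp only [h1]
  rw [sum_comm]
  have h2 : ∀ u : G, (∑ k : G, if u⁻¹ * k * u ∈ Z ∧ u⁻¹ * k * u ∈ K then (1 : ℝ) else 0) =
      (Nat.card {c : G // c ∈ Z ∧ c ∈ K} : ℝ) := by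
    intro u
    have h3 : (∑ k : G, if u⁻¹ * k * u ∈ Z ∧ u⁻¹ * k * u ∈ K then (1 : ℝ) else 0) =
        ∑ c : G, if c ∈ Z ∧ c ∈ K then (1 : ℝ) else 0 := by
      refine Fintype.sum_equiv (MulAut.conj u⁻¹).toEquiv _ _ fun k => ?_
      have h4 : (MulAut.conj u⁻¹).toEquiv k = u⁻¹ * k * u := by
        show u⁻¹ * k * u⁻¹⁻¹ = _
        rw [inv_inv]
      rw [h4]
    rw [h3, Finset.sum_boole, Nat.card_eq_fintype_card, Fintype.card_subtype]
  rw [sum_congr rfl fun u _ => h2 u, sum_const, card_univ, nsmul_eq_mul, ← Nat.card_eq_fintype_card]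

open Classical in
private theorem sum_fx_EK (s : Fin N → G) (K : Subgroup G) [K.Normal] :
    (∑ k : G, if k ∈ K then fx s k else 0) =
      (Nat.card G : ℝ) * ∑ i, 1 / (orderOf (QuotientGroup.mk (s i) : G ⧸ K) : ℝ) := by
  have h1 : ∀ k : G, (if k ∈ K then fx s k else 0) = ∑ i, (1 / (orderOf (s i) : ℝ)) *
      (if k ∈ K then (Nat.card {u : G // u⁻¹ * k * u ∈ Subgroup.zpowers (s i)} : ℝ) else 0) := by
    intro k
    split_ifs with h
    · rfl
    · simp
  simp only [h1]
  rw [sum_comm, mul_sum]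
  refine sum_congr rfl fun i _ => ?_
  rw [← mul_sum, sum_card_EK K (Subgroup.zpowers (s i))]
  have h2 := card_inter_EK K (s i)
  have h3 : (orderOf (s i) : ℝ) ≠ 0 := by
    rw [Nat.cast_ne_zero]
    exact (orderOf_pos (s i)).ne'
  have h4 : (orderOf (QuotientGroup.mk (s i) : G ⧸ K) : ℝ) ≠ 0 := by
    rw [Nat.cast_ne_zero]
    exact (orderOf_pos _).ne'
  have h5 : (Nat.card {c : G // c ∈ Subgroup.zpowers (s i) ∧ c ∈ K} : ℝ) *
      (orderOf (QuotientGroup.mk (s i) : G ⧸ K) : ℝ) = (orderOf (s i) : ℝ) := by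
    exact_mod_cast h2
  rw [← h5]
  have h6 : (Nat.card {c : G // c ∈ Subgroup.zpowers (s i) ∧ c ∈ K} : ℝ) ≠ 0 := by
    intro h0
    rw [h0, zero_mul] at h5
    exact h3 h5.symm
  field_simp

private theorem fx_one_EK (s : Fin N → G) : fx s 1 = (Nat.card G : ℝ) * ∑ i, 1 / (orderOf (s i) : ℝ) := by
  unfold fx
  rw [mul_sum]
  refine sum_congr rfl fun i _ => ?_
  have h1 : Nat.card {u : G // u⁻¹ * 1 * u ∈ Subgroup.zpowers (s i)} = Nat.card G := by
    refine Nat.card_congr (Equiv.subtypeUnivEquiv fun u => ?_)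
    rw [mul_one, inv_mul_cancel]
    exact Subgroup.one_mem _
  rw [h1]
  ring

open Classical in
private theorem re_all_EK (s : Fin N → G) (k : G) :
    (chi s k).re = 1 - fx s k / 2 + if k = 1 then (Nat.card G : ℝ) * (N - 2) / 2 else 0 := by
  split_ifs with h
  · rw [h, chi_one', Complex.ofReal_re, fx_one_EK]
    unfold nu
    rw [sum_sub_distrib, sum_const, card_univ, Fintype.card_fin, nsmul_eq_mul, mul_one]
    ring
  · rw [re_chi s h, add_zero]

open Classical in
private theorem sum_one_EK (K : Subgroup G) : (∑ k : G, if k ∈ K then (1 : ℝ) else 0) = Nat.card K := by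
  rw [Finset.sum_boole, Nat.card_eq_fintype_card, Fintype.card_subtype]

open Classical in
private theorem sum_re_EK (s : Fin N → G) (K : Subgroup G) [K.Normal] :
    (∑ k : G, if k ∈ K then (chi s k).re else 0) = (Nat.card K : ℝ) + (Nat.card G : ℝ) * (nuK s K - 2) / 2 := by
  have h1 : ∀ k : G, (if k ∈ K then (chi s k).re else 0) = (if k ∈ K then (1 : ℝ) else 0) -
      (if k ∈ K then fx s k else 0) / 2 + if k = 1 then (Nat.card G : ℝ) * (N - 2) / 2 else 0 := by
    intro k
    by_cases hk : k ∈ K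
    · simp only [if_pos hk]
      exact re_all_EK s k
    · have h2 : k ≠ 1 := fun h0 => hk (by rw [h0]; exact K.one_mem)
      simp only [if_neg hk, if_neg h2]
      ring
  simp only [h1]
  rw [sum_add_distrib, sum_sub_distrib, sum_one_EK, ← sum_div, sum_fx_EK, sum_ite_eq' univ (1 : G), if_pos (mem_univ _)]
  unfold nuK
  rw [sum_sub_distrib, sum_const, card_univ, Fintype.card_fin, nsmul_eq_mul, mul_one]
  ring

open Classical in
private theorem re_sum_EK (s : Fin N → G) (K : Subgroup G) (g : G) :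
    ((1 / (Nat.card K : ℂ)) * ∑ k : G, if k ∈ K then chi s (g * k) else 0).re =
      (1 / (Nat.card K : ℝ)) * ∑ k : G, if k ∈ K then (chi s (g * k)).re else 0 := by
  have h1 : (1 / (Nat.card K : ℂ)) = ((1 / (Nat.card K : ℝ) : ℝ) : ℂ) := by
    push_cast
    rfl
  rw [h1, Complex.re_ofReal_mul, Complex.re_sum]
  congr 1
  refine sum_congr rfl fun k _ => ?_
  split_ifs
  · rfl
  · rfl

open Classical in
private theorem sum_out_EK (s : Fin N → G) (K : Subgroup G) {g : G} (hg : g ∉ K) :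
    (∑ k : G, if k ∈ K then (chi s (g * k)).re else 0) =
      (Nat.card K : ℝ) - (∑ k : G, if k ∈ K then fx s (g * k) else 0) / 2 := by
  have h1 : ∀ k : G, (if k ∈ K then (chi s (g * k)).re else 0) = (if k ∈ K then (1 : ℝ) else 0) -
      (if k ∈ K then fx s (g * k) else 0) / 2 := by
    intro k
    by_cases hk : k ∈ K
    · have h2 : g * k ≠ 1 := by
        intro h0
        apply hg
        rw [eq_inv_of_mul_eq_one_left h0]
        exact K.inv_mem hk
      simp only [if_pos hk]
      exact re_chi s h2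
    · simp only [if_neg hk]
      ring
  simp only [h1]
  rw [sum_sub_distrib, sum_one_EK, ← sum_div]

open Classical in
private theorem le_sum_EK (s : Fin N → G) (K : Subgroup G) (g : G) :
    fx s g ≤ ∑ k : G, if k ∈ K then fx s (g * k) else 0 := by
  have h1 : fx s g = if (1 : G) ∈ K then fx s (g * 1) else 0 := by
    rw [if_pos K.one_mem, mul_one]
  rw [h1]
  refine single_le_sum (f := fun k : G => if k ∈ K then fx s (g * k) else 0) (fun k _ => ?_) (mem_univ (1 : G))
  show (0 : ℝ) ≤ if k ∈ K then fx s (g * k) else 0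
  split_ifs
  · exact fx_nonneg s _
  · exact le_refl _

theorem ek (s : Fin N → G) (hp : (List.ofFn s).prod = 1) (hg : Subgroup.closure (Set.range s) = ⊤) (K : Subgroup G)
    [K.Normal] (hν : nuK s K ≤ 2) :
    (∀ g, g ∉ K → fx s g ≤ 4 * (Nat.card K : ℝ)) ∧
      ((nuK s K = 2 ∧ ∃ F : G →* ℂˣ, FData s K F) ∨
        (Nat.card G : ℝ) * (2 - nuK s K) = 2 * (Nat.card K : ℝ)) := by
  classical
  obtain ⟨E, i1, i2, i3, σ, hσ, -⟩ := Pool.Agent.H11.GQ.exists_chi s hp hg
  have hK0 : (0 : ℝ) < Nat.card K := by exact_mod_cast Nat.card_pos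
  have hG0 : (0 : ℝ) < Nat.card G := by exact_mod_cast Nat.card_pos
  set W := Pool.Agent.H52.VC.fixG σ K with hW
  set τ : Representation ℂ G W := Pool.Agent.H52.VC.subR σ W (Pool.Agent.H11.GQ.inv_fixG σ K) with hτ
  have htr : ∀ g : G, LinearMap.trace ℂ W (τ g) =
      (1 / (Nat.card K : ℂ)) * ∑ k : G, if k ∈ K then chi s (g * k) else 0 := by
    intro g
    have h1 := Pool.Agent.H11.GQ.trace_fix σ K g
    simp only [hσ] at h1
    exact h1
  -- the dimension
  have hdim : (finrank ℂ W : ℝ) = 1 + (Nat.card G : ℝ) * (nuK s K - 2) / (2 * Nat.card K) := by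
    have h1 := htr 1
    rw [map_one, LinearMap.trace_one] at h1
    have h2 := congrArg Complex.re h1
    rw [re_sum_EK, Complex.natCast_re] at h2
    simp only [one_mul] at h2
    rw [sum_re_EK] at h2
    rw [h2]
    field_simp
  have hle : (finrank ℂ W : ℝ) ≤ 1 := by
    rw [hdim]
    have h1 : (Nat.card G : ℝ) * (nuK s K - 2) / (2 * Nat.card K) ≤ 0 := by
      refine div_nonpos_of_nonpos_of_nonneg ?_ (by positivity)
      exact mul_nonpos_of_nonneg_of_nonpos hG0.le (by linarith)
    linarith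
  have hle' : finrank ℂ W ≤ 1 := by exact_mod_cast hle
  -- outside of `K`
  have hout : ∀ g, g ∉ K → ∑ k : G, (if k ∈ K then fx s (g * k) else 0) =
      2 * (Nat.card K : ℝ) * (1 - (LinearMap.trace ℂ W (τ g)).re) := by
    intro g hgK
    rw [htr, re_sum_EK, sum_out_EK s K hgK]
    field_simp
    ring
  rcases Nat.lt_or_ge (finrank ℂ W) 1 with h0 | h0
  · -- dimension `0`
    have hd : finrank ℂ W = 0 := by omega
    have htr0 : ∀ g, LinearMap.trace ℂ W (τ g) = 0 := by
      intro g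
      have hs : Subsingleton W := Module.finrank_zero_iff.1 hd
      have h1 : τ g = 0 := by
        ext x
        have h2 : (τ g) x = 0 := Subsingleton.elim _ _
        rw [h2]
        rfl
      rw [h1, map_zero]
    refine ⟨fun g hgK => ?_, Or.inr ?_⟩
    · refine (le_sum_EK s K g).trans ?_
      rw [hout g hgK, htr0, Complex.zero_re]
      linarith
    · rw [hd, Nat.cast_zero] at hdim
      field_simp at hdim
      linarith
  · -- dimension `1`
    have hd : finrank ℂ W = 1 := le_antisymm hle' h0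
    have hsc : ∀ g, ∃ c : ℂ, τ g = c • LinearMap.id := by
      intro g
      obtain ⟨v, _, hv⟩ := (finrank_eq_one_iff' (K := ℂ) (V := W)).1 hd
      obtain ⟨c, hc⟩ := hv (τ g v)
      refine ⟨c, LinearMap.ext fun w => ?_⟩
      obtain ⟨a, rfl⟩ := hv w
      rw [map_smul, ← hc]
      show a • c • v = c • a • v
      rw [smul_comm]
    let F : G →* ℂˣ := ((LinearMap.det : (W →ₗ[ℂ] W) →* ℂ).comp τ).toHomUnits
    have hF : ∀ g, (F g : ℂ) = LinearMap.trace ℂ W (τ g) := by
      intro g
      show LinearMap.det (τ g) = _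
      obtain ⟨c, hc⟩ := hsc g
      rw [hc, LinearMap.det_smul, map_smul, LinearMap.trace_id, LinearMap.det_id, hd]
      simp
    have hF1 : ∀ k ∈ K, F k = 1 := by
      intro k hk
      refine Units.ext ?_
      show LinearMap.det (τ k) = 1
      have h1 : τ k = 1 := by
        ext x
        exact x.2 k hk
      rw [h1, map_one]
    have hFn : ∀ g, ‖(F g : ℂ)‖ = 1 := by
      intro g
      refine Complex.norm_eq_one_of_pow_eq_one (n := orderOf g) ?_ (orderOf_pos g).ne'
      rw [← Units.val_pow_eq_pow_val, ← map_pow, pow_orderOf_eq_one, map_one, Units.val_one]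
    have hν2 : nuK s K = 2 := by
      rw [hd, Nat.cast_one] at hdim
      have h1 : (Nat.card G : ℝ) * (nuK s K - 2) / (2 * Nat.card K) = 0 := by linarith
      rcases div_eq_zero_iff.1 h1 with h2 | h2
      · rcases mul_eq_zero.1 h2 with h3 | h3
        · linarith
        · linarith
      · linarith
    have hF3 : ∀ g, g ∉ K → ∑ k : G, (if k ∈ K then fx s (g * k) else 0) =
        2 * (Nat.card K : ℝ) * (1 - (F g : ℂ).re) := by
      intro g hgK
      rw [hout g hgK, hF]
    refine ⟨fun g hgK => ?_, Or.inl ⟨hν2, F, hF1, hFn, hF3⟩⟩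
    refine (le_sum_EK s K g).trans ?_
    rw [hF3 g hgK]
    have h1 : -1 ≤ (F g : ℂ).re := by
      have h2 := Complex.abs_re_le_norm (F g : ℂ)
      rw [hFn] at h2
      exact (abs_le.1 h2).1
    nlinarith

end Pool.Agent.H6.FF
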