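import Pool.Agent.H6.FF.Defs
import Pool.Agent.H52.VC.Irr

set_option autoImplicit false

/-!
PROJECT FF (MP_bf82d2_ag, BoundedGroup, note 6093), module IrrA.
Basic facts on irreducible characters.
PROOF. `IsIrr` gives a unitary irreducible `ρ` on `EuclideanSpace ℂ (Fin n)`. Class function, `ψ x⁻¹ = conj (ψ x)`:
`trace_mul_cycle`, `Pool.Agent.H52.VC.trace_inv`. `ψ 1 = n` (`LinearMap.trace_one`), `n ≥ 1` as the space is not `0`.
`‖ψ x‖ ≤ n`: the trace in an orthonormal basis is a sum of `n` numbers of norm `≤ 1` (`IsU`). `ip_irr`: Mathlib's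
`Representation.char_orthonormal` as in `Pool/Agent/H52/VC/Irr.lean` (`minInv_self`, `minInv_ne`); two irreducible representations
are isomorphic iff their characters are equal. Finiteness: orthonormal functions are linearly independent in `H → ℂ`
(e.g. `LinearIndependent` for the sesquilinear form, or: every finite set of them has at most `|H|` elements,
`Set.infinite` otherwise; `LinearIndependent.finite`).
-/

namespace Pool.Agent.H6.FF

open Finset Module

variable {H : Type} [Group H] [Fintype H]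

omit [Fintype H] in
private theorem isIrr_IrrA {V : Type} [AddCommGroup V] [Module ℂ V] {ρ : Representation ℂ H V}
    (h : Pool.Agent.H93.Hup.Irr ρ) : ρ.IsIrreducible := by
  refine { exists_pair_ne := ⟨⊥, ⊤, ?_⟩, eq_bot_or_eq_top := ?_ }
  · intro hh
    have h3 : (⊥ : Submodule ℂ V) = ⊤ := congrArg Subrepresentation.toSubmodule hh
    obtain ⟨x, hx⟩ := h.1
    apply hx
    have h4 : x ∈ (⊥ : Submodule ℂ V) := by rw [h3]; trivial
    exact (Submodule.mem_bot ℂ).1 h4
  · intro τ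
    by_cases hτ : τ.toSubmodule = ⊥
    · left
      apply Subrepresentation.toSubmodule_injective
      exact hτ
    · right
      apply Subrepresentation.toSubmodule_injective
      exact h.2 τ.toSubmodule (fun g v hv => τ.apply_mem_toSubmodule g hv) hτ

theorem cl_of_irr {ψ : H → ℂ} (h : IsIrr ψ) : IsCl ψ := by
  obtain ⟨n, ρ, _, _, h3⟩ := h
  intro g x
  rw [h3, h3]
  exact Representation.char_conj ρ g x

theorem inv_of_irr {ψ : H → ℂ} (h : IsIrr ψ) (x : H) : ψ x⁻¹ = (starRingEnd ℂ) (ψ x) := by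
  obtain ⟨n, ρ, _, _, h3⟩ := h
  rw [h3, h3]
  exact Pool.Agent.H52.VC.trace_inv ρ x

theorem deg_of_irr {ψ : H → ℂ} (h : IsIrr ψ) : ∃ d : ℕ, 1 ≤ d ∧ ψ 1 = d := by
  obtain ⟨n, ρ, h1, _, h3⟩ := h
  refine ⟨n, ?_, ?_⟩
  · rcases Nat.eq_zero_or_pos n with h0 | h0
    · subst h0
      obtain ⟨x, hx⟩ := h1.1
      exact absurd (Subsingleton.elim x 0) hx
    · exact h0
  · rw [h3, map_one, LinearMap.trace_one, finrank_euclideanSpace_fin]

theorem norm_le_of_irr {ψ : H → ℂ} (h : IsIrr ψ) (x : H) : ‖ψ x‖ ≤ (ψ 1).re := by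
  obtain ⟨n, ρ, h1, h2, h3⟩ := h
  have hu : ∀ v, ‖ρ x v‖ = ‖v‖ := by
    intro v
    have h4 := h2 x v v
    rw [inner_self_eq_norm_sq_to_K, inner_self_eq_norm_sq_to_K] at h4
    have h5 : ‖ρ x v‖ ^ 2 = ‖v‖ ^ 2 := by exact_mod_cast h4
    exact (pow_left_inj₀ (norm_nonneg _) (norm_nonneg _) two_ne_zero).1 h5
  have b := stdOrthonormalBasis ℂ (EuclideanSpace ℂ (Fin n))
  rw [h3 1, map_one, LinearMap.trace_one, finrank_euclideanSpace_fin, h3 x,
    LinearMap.trace_eq_sum_inner (ρ x) b]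
  calc ‖∑ i, inner ℂ (b i) (ρ x (b i))‖ ≤ ∑ i, ‖inner ℂ (b i) (ρ x (b i))‖ := norm_sum_le _ _
    _ ≤ ∑ i : Fin (finrank ℂ (EuclideanSpace ℂ (Fin n))), (1 : ℝ) := by
        refine sum_le_sum fun i _ => ?_
        refine (norm_inner_le_norm _ _).trans ?_
        rw [hu, b.orthonormal.1 i, mul_one]
    _ = ((n : ℂ)).re := by
        rw [sum_const, card_univ, Fintype.card_fin, finrank_euclideanSpace_fin, nsmul_eq_mul, mul_one,
          Complex.natCast_re]

private theorem ip_char_IrrA {ψ ψ' : H → ℂ} (h : IsIrr ψ) (h' : IsIrr ψ') :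
    (ψ = ψ' → ip ψ ψ' = 1) ∧ (ψ ≠ ψ' → ip ψ ψ' = 0) := by
  classical
  have hinv := inv_of_irr h'
  obtain ⟨n, ρ, h1, h2, h3⟩ := h
  obtain ⟨n', ρ', h1', h2', h3'⟩ := h'
  have hn : (Nat.card H : ℂ) ≠ 0 := by exact_mod_cast Nat.card_pos.ne'
  have : Invertible (Nat.card H : ℂ) := invertibleOfNonzero hn
  have := isIrr_IrrA h1
  have := isIrr_IrrA h1'
  have h0 := Representation.char_orthonormal ρ ρ'
  have h4 : ip ψ ψ' = (Nat.card H : ℂ)⁻¹ * ∑ g : H, ρ.character g * ρ'.character g⁻¹ := by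
    unfold ip
    rw [one_div]
    congr 1
    refine sum_congr rfl fun g _ => ?_
    rw [← hinv g, h3, h3']
    rfl
  rw [h4, h0]
  constructor
  · intro heq
    by_contra hcon
    have hne : ¬ Nonempty (ρ'.Equiv ρ) := fun hh => hcon (if_pos hh)
    rw [if_neg hne] at h0
    have h5 := Representation.char_orthonormal ρ ρ
    rw [if_pos ⟨Representation.Equiv.refl _⟩] at h5
    have h6 : ∑ g : H, ρ.character g * ρ'.character g⁻¹ = ∑ g : H, ρ.character g * ρ.character g⁻¹ := by
      refine sum_congr rfl fun g _ => ?_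
      have h7 : ρ'.character g⁻¹ = ρ.character g⁻¹ := by
        have h8 := congrFun heq g⁻¹
        rw [h3, h3'] at h8
        exact h8.symm
      rw [h7]
    rw [h6, h5] at h0
    exact one_ne_zero h0
  · intro hne
    refine if_neg ?_
    rintro ⟨φ⟩
    apply hne
    funext g
    rw [h3, h3']
    exact (congrFun (Representation.char_iso φ) g).symm

theorem ip_self {ψ : H → ℂ} (h : IsIrr ψ) : ip ψ ψ = 1 := (ip_char_IrrA h h).1 rfl

theorem ip_ne {ψ ψ' : H → ℂ} (h : IsIrr ψ) (h' : IsIrr ψ') (hne : ψ ≠ ψ') : ip ψ ψ' = 0 :=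
  (ip_char_IrrA h h').2 hne

theorem finite_irr : {ψ : H → ℂ | IsIrr ψ}.Finite := by
  classical
  have hli : LinearIndependent ℂ (fun x : {ψ : H → ℂ | IsIrr ψ} => (x : H → ℂ)) := by
    rw [linearIndependent_iff']
    intro s g hg i hi
    have h1 : ip (∑ j ∈ s, g j • (j : H → ℂ)) (i : H → ℂ) = ∑ j ∈ s, g j * ip (j : H → ℂ) (i : H → ℂ) := by
      unfold ip
      rw [mul_sum]
      simp only [Finset.sum_apply, Pi.smul_apply, smul_eq_mul, sum_mul, mul_sum]
      rw [sum_comm]
      refine sum_congr rfl fun j _ => sum_congr rfl fun x _ => ?_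
      ring
    have h2 : ip (∑ j ∈ s, g j • (j : H → ℂ)) (i : H → ℂ) = 0 := by
      rw [hg]
      unfold ip
      simp
    rw [h2, sum_eq_single i] at h1
    · rw [ip_self i.2, mul_one] at h1
      exact h1.symm
    · intro j _ hji
      rw [ip_ne j.2 i.2 (fun hh => hji (Subtype.ext hh)), mul_zero]
    · intro hh
      exact absurd hi hh
  exact hli.setFinite

theorem mem_irr {ψ : H → ℂ} : ψ ∈ irr H ↔ IsIrr ψ := by
  unfold irr
  rw [dif_pos finite_irr, Set.Finite.mem_toFinset]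
  rfl

/-- a minimal invariant subspace of the regular representation gives an irreducible character -/
theorem isIrr_min (W : Submodule ℂ (H → ℂ)) (hW : Pool.Agent.H93.Hup.MinInv (Pool.Agent.H52.VC.lam (G := H)) W) :
    IsIrr fun g => LinearMap.trace ℂ W (Pool.Agent.H52.VC.subR Pool.Agent.H52.VC.lam W hW.2.1 g) := by
  obtain ⟨ρ', e, hu, he⟩ := Pool.Agent.H52.VC.exists_unitary
    (Pool.Agent.H52.VC.subR Pool.Agent.H52.VC.lam W hW.2.1)
  refine ⟨finrank ℂ W, ρ', ⟨?_, ?_⟩, hu, fun g => Pool.Agent.H52.VC.trace_tr _ ρ' e he g⟩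
  · obtain ⟨x, hx, hx0⟩ := Submodule.exists_mem_ne_zero_of_ne_bot hW.1
    refine ⟨e ⟨x, hx⟩, fun hh => hx0 ?_⟩
    have h1 := (e.map_eq_zero_iff).1 hh
    exact congrArg Subtype.val h1
  · intro U hU hne
    have hmap : (U.comap (e : W →ₗ[ℂ] EuclideanSpace ℂ (Fin (finrank ℂ W)))).map W.subtype = W := by
      apply hW.2.2
      · rintro g v ⟨w, hw, rfl⟩
        refine ⟨Pool.Agent.H52.VC.subR Pool.Agent.H52.VC.lam W hW.2.1 g w, ?_, rfl⟩
        show e (Pool.Agent.H52.VC.subR Pool.Agent.H52.VC.lam W hW.2.1 g w) ∈ U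
        rw [he]
        exact hU g _ hw
      · rintro v ⟨w, _, rfl⟩
        exact w.2
      · intro hh
        apply hne
        rw [Submodule.eq_bot_iff]
        intro y hy
        have h1 : ((e.symm y : W) : H → ℂ) ∈ (U.comap (e : W →ₗ[ℂ] EuclideanSpace ℂ (Fin (finrank ℂ W)))).map W.subtype := by
          refine ⟨e.symm y, ?_, rfl⟩
          show e (e.symm y) ∈ U
          rw [e.apply_symm_apply]
          exact hy
        rw [hh, Submodule.mem_bot] at h1
        have h2 : e.symm y = 0 := Subtype.ext h1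
        exact (e.symm.map_eq_zero_iff).1 h2
    rw [eq_top_iff]
    intro y _
    have h1 : ((e.symm y : W) : H → ℂ) ∈ (U.comap (e : W →ₗ[ℂ] EuclideanSpace ℂ (Fin (finrank ℂ W)))).map W.subtype := by
      rw [hmap]
      exact (e.symm y).2
    obtain ⟨w, hw, hwx⟩ := h1
    have h2 : w = e.symm y := Subtype.ext hwx
    have h3 : e w ∈ U := hw
    rw [h2, e.apply_symm_apply] at h3
    exact h3

end Pool.Agent.H6.FF
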