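import Pool.Agent.H6.FF.Defs
import Pool.Agent.H6.FF.IrrA

set_option autoImplicit false

/-!
PROJECT FF (MP_bf82d2_ag, BoundedGroup, note 6093), module IrrC.
New irreducible characters from old ones.
PROOFS. With the unitary irreducible `ρ` on `EuclideanSpace ℂ (Fin n)`: `irr_cj`: the matrices of `ρ g` in the standard basis, complex
conjugated (or the dual representation and `Pool.Agent.H52.VC.exists_unitary`); `irr_aut`: `ρ ∘ τ`, the same invariant subspaces; `irr_tw`:
`θ g • ρ g`, the same invariant subspaces; `irr_lin`: on `EuclideanSpace ℂ (Fin 1)`. `lin_of_deg`: `n = 1`, the trace of an operator on a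
space of dimension 1 is multiplicative and `ρ g` is multiplication by the trace.
-/

namespace Pool.Agent.H6.FF

open Finset Module

variable {H : Type} [Group H] [Fintype H]

/-- the complex conjugate of a vector -/
private noncomputable def cvIrrC {n : ℕ} (v : EuclideanSpace ℂ (Fin n)) : EuclideanSpace ℂ (Fin n) :=
  WithLp.toLp 2 fun i => (starRingEnd ℂ) (v i)

private theorem cv_applyIrrC {n : ℕ} (v : EuclideanSpace ℂ (Fin n)) (i : Fin n) :
    cvIrrC v i = (starRingEnd ℂ) (v i) := rfl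

private theorem cv_cvIrrC {n : ℕ} (v : EuclideanSpace ℂ (Fin n)) : cvIrrC (cvIrrC v) = v := by
  ext i
  rw [cv_applyIrrC, cv_applyIrrC, Complex.conj_conj]

private theorem cv_addIrrC {n : ℕ} (v w : EuclideanSpace ℂ (Fin n)) : cvIrrC (v + w) = cvIrrC v + cvIrrC w := by
  ext i
  exact map_add _ _ _

private theorem cv_smulIrrC {n : ℕ} (c : ℂ) (v : EuclideanSpace ℂ (Fin n)) :
    cvIrrC (c • v) = (starRingEnd ℂ) c • cvIrrC v := by
  ext i
  exact map_mul _ _ _

private theorem cv_zeroIrrC {n : ℕ} : cvIrrC (0 : EuclideanSpace ℂ (Fin n)) = 0 := by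
  ext i
  exact map_zero _

private theorem cv_innerIrrC {n : ℕ} (v w : EuclideanSpace ℂ (Fin n)) :
    inner ℂ (cvIrrC v) (cvIrrC w) = (starRingEnd ℂ) (inner ℂ v w) := by
  rw [PiLp.inner_apply, PiLp.inner_apply, map_sum]
  refine sum_congr rfl fun i _ => ?_
  rw [cv_applyIrrC, cv_applyIrrC, RCLike.inner_apply, RCLike.inner_apply, map_mul]

/-- the conjugate representation -/
private noncomputable def crIrrC {n : ℕ} (ρ : Representation ℂ H (EuclideanSpace ℂ (Fin n))) :
    Representation ℂ H (EuclideanSpace ℂ (Fin n)) where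
  toFun g :=
    { toFun := fun v => cvIrrC (ρ g (cvIrrC v))
      map_add' := by
        intro v w
        rw [cv_addIrrC, map_add, cv_addIrrC]
      map_smul' := by
        intro c v
        rw [cv_smulIrrC, map_smul, cv_smulIrrC, Complex.conj_conj, RingHom.id_apply] }
  map_one' := by
    refine LinearMap.ext fun v => ?_
    show cvIrrC (ρ 1 (cvIrrC v)) = v
    rw [map_one, Module.End.one_apply, cv_cvIrrC]
  map_mul' := by
    intro g k
    refine LinearMap.ext fun v => ?_
    show cvIrrC (ρ (g * k) (cvIrrC v)) = cvIrrC (ρ g (cvIrrC (cvIrrC (ρ k (cvIrrC v)))))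
    rw [cv_cvIrrC, map_mul, Module.End.mul_apply]

private theorem cr_applyIrrC {n : ℕ} (ρ : Representation ℂ H (EuclideanSpace ℂ (Fin n))) (g : H)
    (v : EuclideanSpace ℂ (Fin n)) : crIrrC ρ g v = cvIrrC (ρ g (cvIrrC v)) := rfl

theorem irr_cj {ψ : H → ℂ} (h : IsIrr ψ) : IsIrr (cj ψ) := by
  obtain ⟨n, ρ, ⟨⟨x, hx⟩, hirr⟩, hu, ht⟩ := h
  refine ⟨n, crIrrC ρ, ⟨⟨x, hx⟩, fun U hU hne => ?_⟩, fun g v w => ?_, fun g => ?_⟩
  · let U' : Submodule ℂ (EuclideanSpace ℂ (Fin n)) :=
      { carrier := {v | cvIrrC v ∈ U}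
        add_mem' := by
          intro v w hv hw
          show cvIrrC (v + w) ∈ U
          rw [cv_addIrrC]
          exact U.add_mem hv hw
        zero_mem' := by
          show cvIrrC 0 ∈ U
          rw [cv_zeroIrrC]
          exact U.zero_mem
        smul_mem' := by
          intro c v hv
          show cvIrrC (c • v) ∈ U
          rw [cv_smulIrrC]
          exact U.smul_mem _ hv }
    have hmem : ∀ v, v ∈ U' ↔ cvIrrC v ∈ U := fun v => Iff.rfl
    have hU' : Pool.Agent.H93.Hup.Inv ρ U' := by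
      intro g v hv
      rw [hmem] at hv ⊢
      have h1 := hU g _ hv
      rwa [cr_applyIrrC, cv_cvIrrC] at h1
    have hne' : U' ≠ ⊥ := by
      intro h0
      apply hne
      rw [Submodule.eq_bot_iff]
      intro v hv
      have h1 : cvIrrC v ∈ U' := by rw [hmem, cv_cvIrrC]; exact hv
      rw [h0, Submodule.mem_bot] at h1
      rw [← cv_cvIrrC v, h1, cv_zeroIrrC]
    have htop := hirr U' hU' hne'
    rw [eq_top_iff]
    intro v _
    have h1 : cvIrrC v ∈ U' := by rw [htop]; trivial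
    rw [hmem, cv_cvIrrC] at h1
    exact h1
  · rw [cr_applyIrrC, cr_applyIrrC, cv_innerIrrC, hu, cv_innerIrrC, Complex.conj_conj]
  · show (starRingEnd ℂ) (ψ g) = _
    rw [ht, LinearMap.trace_eq_sum_inner (ρ g) (EuclideanSpace.basisFun (Fin n) ℂ),
      LinearMap.trace_eq_sum_inner (crIrrC ρ g) (EuclideanSpace.basisFun (Fin n) ℂ), map_sum]
    refine sum_congr rfl fun i _ => ?_
    have h1 : cvIrrC (EuclideanSpace.basisFun (Fin n) ℂ i) = EuclideanSpace.basisFun (Fin n) ℂ i := by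
      ext j
      rw [cv_applyIrrC, EuclideanSpace.basisFun_apply, PiLp.single_apply]
      split_ifs
      · exact map_one _
      · exact map_zero _
    rw [cr_applyIrrC, h1, ← cv_innerIrrC, h1]

theorem irr_aut {ψ : H → ℂ} (h : IsIrr ψ) (τ : H ≃* H) : IsIrr (fun x => ψ (τ x)) := by
  obtain ⟨n, ρ, ⟨hx, hirr⟩, hu, ht⟩ := h
  refine ⟨n, ρ.comp τ.toMonoidHom, ⟨hx, fun U hU hne => ?_⟩, fun g v w => hu (τ g) v w, fun g => ht (τ g)⟩
  refine hirr U (fun g v hv => ?_) hne
  have h1 := hU (τ.symm g) v hv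
  rw [MonoidHom.comp_apply] at h1
  have h2 : τ.toMonoidHom (τ.symm g) = g := τ.apply_symm_apply g
  rwa [h2] at h1

/-- the representation multiplied by a linear character -/
private noncomputable def twIrrC {n : ℕ} (ρ : Representation ℂ H (EuclideanSpace ℂ (Fin n))) {θ : H → ℂ}
    (hθ : IsLin θ) : Representation ℂ H (EuclideanSpace ℂ (Fin n)) where
  toFun g := θ g • ρ g
  map_one' := by
    rw [hθ.1, map_one, one_smul]
  map_mul' := by
    intro g k
    rw [hθ.2.1, map_mul, smul_mul_smul_comm]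

private theorem tw_applyIrrC {n : ℕ} (ρ : Representation ℂ H (EuclideanSpace ℂ (Fin n))) {θ : H → ℂ}
    (hθ : IsLin θ) (g : H) : twIrrC ρ hθ g = θ g • ρ g := rfl

theorem irr_tw {ψ θ : H → ℂ} (h : IsIrr ψ) (hθ : IsLin θ) : IsIrr (tw ψ θ) := by
  obtain ⟨n, ρ, ⟨hx, hirr⟩, hu, ht⟩ := h
  have h0 : ∀ g, θ g ≠ 0 := by
    intro g h1
    have h2 := hθ.2.2 g
    rw [h1, norm_zero] at h2
    exact zero_ne_one h2
  refine ⟨n, twIrrC ρ hθ, ⟨hx, fun U hU hne => ?_⟩, fun g v w => ?_, fun g => ?_⟩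
  · refine hirr U (fun g v hv => ?_) hne
    have h1 := U.smul_mem (θ g)⁻¹ (hU g v hv)
    rwa [tw_applyIrrC, LinearMap.smul_apply, smul_smul, inv_mul_cancel₀ (h0 g), one_smul] at h1
  · rw [tw_applyIrrC, LinearMap.smul_apply, LinearMap.smul_apply, inner_smul_left, inner_smul_right, hu,
      ← mul_assoc, Complex.conj_mul', hθ.2.2]
    norm_num
  · rw [tw_applyIrrC, map_smul, smul_eq_mul, ← ht, mul_comm]
    rfl

private theorem irr_oneIrrC : IsIrr (fun _ : H => (1 : ℂ)) := by
  refine ⟨1, 1, ⟨⟨EuclideanSpace.single 0 1, ?_⟩, fun U _ hne => ?_⟩, fun g v w => rfl, fun g => ?_⟩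
  · intro h
    have h1 := congrArg (fun v : EuclideanSpace ℂ (Fin 1) => v 0) h
    simp at h1
  · obtain ⟨v, hv, hv0⟩ := (Submodule.ne_bot_iff _).1 hne
    have h1 : v 0 ≠ 0 := by
      intro h1
      apply hv0
      ext i
      rw [Subsingleton.elim i 0, h1]
      rfl
    rw [eq_top_iff]
    intro w _
    have h2 : w = (w 0 / v 0) • v := by
      ext i
      rw [Subsingleton.elim i 0, PiLp.smul_apply, smul_eq_mul, div_mul_cancel₀ _ h1]
    rw [h2]
    exact U.smul_mem _ hv
  · have h1 : (1 : Representation ℂ H (EuclideanSpace ℂ (Fin 1))) g = 1 := rfl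
    rw [h1, LinearMap.trace_one, finrank_euclideanSpace_fin, Nat.cast_one]

theorem irr_lin {θ : H → ℂ} (hθ : IsLin θ) : IsIrr θ := by
  have h := irr_tw irr_oneIrrC hθ
  have h1 : tw (fun _ : H => (1 : ℂ)) θ = θ := by
    funext x
    show 1 * θ x = θ x
    rw [one_mul]
  rwa [h1] at h

theorem lin_of_deg {θ : H → ℂ} (h : IsIrr θ) (h1 : θ 1 = 1) : IsLin θ := by
  obtain ⟨n, ρ, -, hu, ht⟩ := h
  have hn : n = 1 := by
    have h2 := ht 1
    rw [h1, map_one, LinearMap.trace_one, finrank_euclideanSpace_fin] at h2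
    exact_mod_cast h2.symm
  subst hn
  -- every operator is the multiplication by its trace
  have key : ∀ (T : EuclideanSpace ℂ (Fin 1) →ₗ[ℂ] EuclideanSpace ℂ (Fin 1)) (v : EuclideanSpace ℂ (Fin 1)),
      T v = LinearMap.trace ℂ _ T • v := by
    intro T v
    rw [LinearMap.trace_eq_sum_inner T (EuclideanSpace.basisFun (Fin 1) ℂ)]
    have h2 : v = v 0 • EuclideanSpace.basisFun (Fin 1) ℂ 0 := by
      ext i
      rw [Subsingleton.elim i 0]
      simp
    have h3 : T (EuclideanSpace.basisFun (Fin 1) ℂ 0) =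
        (inner ℂ (EuclideanSpace.basisFun (Fin 1) ℂ 0) (T (EuclideanSpace.basisFun (Fin 1) ℂ 0))) •
          EuclideanSpace.basisFun (Fin 1) ℂ 0 := by
      ext i
      rw [Subsingleton.elim i 0, EuclideanSpace.basisFun_apply, EuclideanSpace.inner_single_left]
      simp
    conv_lhs => rw [h2, map_smul, h3]
    conv_rhs => rw [h2]
    rw [Fin.sum_univ_one, smul_comm]
  have key2 : ∀ g v, ρ g v = θ g • v := fun g v => by rw [key (ρ g) v, ← ht]
  have hb : (EuclideanSpace.basisFun (Fin 1) ℂ 0) ≠ 0 := by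
    intro h2
    have h3 := (EuclideanSpace.basisFun (Fin 1) ℂ).norm_eq_one 0
    rw [h2, norm_zero] at h3
    exact zero_ne_one h3
  refine ⟨h1, fun x y => ?_, fun x => ?_⟩
  · have h2 := key2 (x * y) (EuclideanSpace.basisFun (Fin 1) ℂ 0)
    rw [map_mul, Module.End.mul_apply, key2 y, key2 x, smul_smul, mul_comm] at h2
    exact (smul_left_injective ℂ hb h2).symm.trans (mul_comm _ _)
  · have h2 := hu x (EuclideanSpace.basisFun (Fin 1) ℂ 0) (EuclideanSpace.basisFun (Fin 1) ℂ 0)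
    have h3 : ‖ρ x (EuclideanSpace.basisFun (Fin 1) ℂ 0)‖ = ‖EuclideanSpace.basisFun (Fin 1) ℂ 0‖ := by
      rw [inner_self_eq_norm_sq_to_K, inner_self_eq_norm_sq_to_K] at h2
      have h4 : ‖ρ x (EuclideanSpace.basisFun (Fin 1) ℂ 0)‖ ^ 2 = ‖EuclideanSpace.basisFun (Fin 1) ℂ 0‖ ^ 2 := by
        exact_mod_cast h2
      exact (pow_left_inj₀ (norm_nonneg _) (norm_nonneg _) two_ne_zero).1 h4
    rw [key2, norm_smul, (EuclideanSpace.basisFun (Fin 1) ℂ).norm_eq_one 0, mul_one] at h3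
    exact h3

end Pool.Agent.H6.FF
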