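import Pool.Agent.H6.FF.Defs
import Pool.Agent.H6.FF.IrrA
import Pool.Agent.H6.FF.IrrC
import Pool.Agent.H52.VC.Udg
import Pool.Agent.H82.CO.Eps

set_option autoImplicit false

/-!
PROJECT FF (MP_bf82d2_ag, BoundedGroup, note 6093), module Eig.
The eigenvalues of `c`, `c ^ o = 1`.
PROOF. `eig`: an orthonormal eigenbasis of the unitary `ρ c` (`Pool.Agent.H52.VC` module Udg; or Mathlib, `ρ c` is annihilated by
`X ^ o - 1`, so diagonalizable), the eigenvalues are `o`-th roots of unity, powers of `zeta o` (`Pool.Agent.H82.CO.zeta_prim`,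
`IsPrimitiveRoot.eq_pow_of_pow_eq_one`); the trace of `ρ c ^ k` is the sum of the `k`-th powers of the eigenvalues.
`angs_eq`: `eps o j = ∑ a < o, (a/o) zeta o ^ (a j)`, `conj (zeta o ^ (t j)) = (zeta o ^ (t j))⁻¹` and
`Pool.Agent.H82.CO.ortho`. `fixs_eq`: the same. `ang_facts`: with the exponents `t l` of `ψ` and `(o - t l) % o` of `cj ψ` (from
`cj ψ (c^k) = ∑ conj ..`; `angs_eq` holds for all functions with such an expansion): `a = ∑ t l / o`, `r` = number of the `l` with `t l ≠ 0`,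
each such term is between `1/o` and `1 - 1/o`.
-/

namespace Pool.Agent.H6.FF

open Finset Module
open Pool.Agent.H82.CO (eps zeta)

variable {H : Type} [Group H] [Fintype H]

private theorem ee_mul_eig (x y : ℝ) : Pool.Agent.H52.VC.ee (x + y) =
    Pool.Agent.H52.VC.ee x * Pool.Agent.H52.VC.ee y := by
  unfold Pool.Agent.H52.VC.ee
  rw [← Complex.exp_add]
  congr 1
  push_cast
  ring

private theorem trace_eig {V : Type} [AddCommGroup V] [Module ℂ V] {ι : Type} [Fintype ι]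
    (U : V →ₗ[ℂ] V) (b : Basis ι ℂ V) (c : ι → ℂ) (h : ∀ j, U (b j) = c j • b j) :
    LinearMap.trace ℂ V U = ∑ j, c j := by
  classical
  rw [LinearMap.trace_eq_matrix_trace ℂ b U]
  have h1 : LinearMap.toMatrix b b U = Matrix.diagonal c := by
    ext i j
    rw [LinearMap.toMatrix_apply, h j, map_smul, Basis.repr_self, Finsupp.smul_apply, Finsupp.single_apply,
      Matrix.diagonal_apply, smul_eq_mul]
    by_cases hij : i = j
    · subst hij
      simp
    · rw [if_neg (fun h' => hij h'.symm), if_neg hij, mul_zero]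
  rw [h1, Matrix.trace_diagonal]

theorem eig {ψ : H → ℂ} (h : IsIrr ψ) (c : H) {o : ℕ} (ho : 0 < o) (hc : c ^ o = 1) :
    ∃ (d : ℕ) (t : Fin d → ℕ), ψ 1 = d ∧ (∀ l, t l < o) ∧ ∀ k : ℕ, ψ (c ^ k) = ∑ l, zeta o ^ (t l * k) := by
  obtain ⟨n, ρ, _, hU, hψ⟩ := h
  obtain ⟨b, x, _, hb⟩ := Pool.Agent.H52.VC.udiag (ρ c) (hU c)
  have hb' : ∀ j, ρ c (b.toBasis j) = Pool.Agent.H52.VC.ee (x j) • b.toBasis j := by
    intro j
    rw [OrthonormalBasis.coe_toBasis]
    exact hb j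
  have hpow : ∀ (k : ℕ) j, ρ (c ^ k) (b.toBasis j) = Pool.Agent.H52.VC.ee (x j) ^ k • b.toBasis j := by
    intro k j
    induction k with
    | zero => rw [pow_zero, map_one, pow_zero, one_smul]; rfl
    | succ k ih =>
      rw [pow_succ, map_mul]
      show ρ (c ^ k) (ρ c (b.toBasis j)) = _
      rw [hb', map_smul, ih, smul_smul, ← pow_succ']
  have hord : ∀ j, Pool.Agent.H52.VC.ee (x j) ^ o = 1 := by
    intro j
    have h1 := hpow o j
    rw [hc, map_one] at h1
    have h2 : (1 - Pool.Agent.H52.VC.ee (x j) ^ o) • b.toBasis j = 0 := by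
      rw [sub_smul, one_smul, ← h1]
      exact sub_self _
    rcases smul_eq_zero.1 h2 with h3 | h3
    · exact (sub_eq_zero.1 h3).symm
    · exact absurd h3 (b.toBasis.ne_zero j)
  have hne : NeZero o := ⟨ho.ne'⟩
  have hex : ∀ j, ∃ i < o, zeta o ^ i = Pool.Agent.H52.VC.ee (x j) := fun j =>
    (Pool.Agent.H82.CO.zeta_prim ho).eq_pow_of_pow_eq_one (hord j)
  choose t ht1 ht2 using hex
  refine ⟨_, t, ?_, ht1, fun k => ?_⟩
  · rw [hψ, map_one, LinearMap.trace_one]
  · rw [hψ, trace_eig _ b.toBasis _ (hpow k)]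
    refine sum_congr rfl fun j _ => ?_
    rw [← ht2, ← pow_mul]

theorem angs_eq {ψ : H → ℂ} {c : H} {o : ℕ} (ho : 0 < o) {d : ℕ} {t : Fin d → ℕ} (ht : ∀ l, t l < o)
    (hψ : ∀ k : ℕ, ψ (c ^ k) = ∑ l, zeta o ^ (t l * k)) : angs ψ c o = ((∑ l, (t l : ℝ) / o : ℝ) : ℂ) := by
  have hoC : (o : ℂ) ≠ 0 := by exact_mod_cast ho.ne'
  unfold angs
  have h1 : ∀ j ∈ range o, eps o j * (starRingEnd ℂ) (ψ (c ^ j)) =
      ∑ l, ∑ a ∈ range o, ((a : ℂ) / o) * (zeta o ^ (a * j) * (starRingEnd ℂ) (zeta o ^ (t l * j))) := by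
    intro j _
    rw [hψ, map_sum, mul_sum]
    refine sum_congr rfl fun l _ => ?_
    unfold eps
    rw [sum_mul]
    exact sum_congr rfl fun a _ => by rw [mul_assoc]
  rw [sum_congr rfl h1, sum_comm, mul_sum]
  push_cast
  refine sum_congr rfl fun l _ => ?_
  rw [sum_comm]
  have h2 : ∀ a ∈ range o, ∑ j ∈ range o, ((a : ℂ) / o) *
      (zeta o ^ (a * j) * (starRingEnd ℂ) (zeta o ^ (t l * j))) = if a = t l then (a : ℂ) else 0 := by
    intro a ha
    rw [← mul_sum, Pool.Agent.H82.CO.ortho ho (mem_range.1 ha) (ht l)]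
    split_ifs
    · field_simp
    · rw [mul_zero]
  rw [sum_congr rfl h2, sum_ite_eq' (range o) (t l), if_pos (mem_range.2 (ht l))]
  rw [one_div, inv_mul_eq_div]

theorem fixs_eq {ψ : H → ℂ} {c : H} {o : ℕ} (ho : 0 < o) {d : ℕ} {t : Fin d → ℕ} (ht : ∀ l, t l < o)
    (hψ : ∀ k : ℕ, ψ (c ^ k) = ∑ l, zeta o ^ (t l * k)) :
    fixs ψ c o = ((∑ l, (if t l = 0 then 1 else 0) : ℝ) : ℂ) := by
  have hoC : (o : ℂ) ≠ 0 := by exact_mod_cast ho.ne'
  unfold fixs
  rw [sum_congr rfl fun j _ => hψ j, sum_comm, mul_sum]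
  push_cast
  refine sum_congr rfl fun l _ => ?_
  have h1 := Pool.Agent.H82.CO.ortho ho (ht l) ho
  have h2 : ∀ k ∈ range o, zeta o ^ (t l * k) * (starRingEnd ℂ) (zeta o ^ (0 * k)) = zeta o ^ (t l * k) := by
    intro k _
    rw [zero_mul, pow_zero, map_one, mul_one]
  rw [sum_congr rfl h2] at h1
  rw [h1]
  split_ifs
  · rw [one_div, inv_mul_cancel₀ hoC, Complex.ofReal_one]
  · rw [mul_zero, Complex.ofReal_zero]

theorem ang_facts {ψ : H → ℂ} (h : IsIrr ψ) (c : H) {o : ℕ} (ho : 0 < o) (hc : c ^ o = 1) :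
    ∃ a a' r : ℝ, angs ψ c o = a ∧ angs (cj ψ) c o = a' ∧ fixs ψ c o = ψ 1 - r ∧ fixs (cj ψ) c o = ψ 1 - r ∧
      a + a' = r ∧ 0 ≤ r ∧ r ≤ (ψ 1).re ∧ r / o ≤ a ∧ r / o ≤ a' ∧ (r = 0 → ∀ k : ℕ, ψ (c ^ k) = ψ 1) := by
  obtain ⟨d, t, h1, ht, hk⟩ := eig h c ho hc
  have hoR : (0 : ℝ) < o := by exact_mod_cast ho
  obtain ⟨t', ht'⟩ : ∃ t' : Fin d → ℕ, ∀ l, t' l = if t l = 0 then 0 else o - t l := ⟨_, fun l => rfl⟩
  have htt : ∀ l, t' l < o := by
    intro l
    rw [ht']
    split_ifs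
    · exact ho
    · omega
  have hk' : ∀ k : ℕ, cj ψ (c ^ k) = ∑ l, zeta o ^ (t' l * k) := by
    intro k
    unfold cj
    rw [hk, map_sum]
    refine sum_congr rfl fun l _ => ?_
    rw [map_pow, Pool.Agent.H82.CO.conj_zeta ho, pow_mul, pow_mul]
    congr 1
    rw [ht', inv_pow]
    split_ifs with h0
    · rw [h0, pow_zero, inv_one]
    · refine inv_eq_of_mul_eq_one_right ?_
      rw [← pow_add, Nat.add_sub_cancel' (ht l).le, Pool.Agent.H82.CO.zeta_pow ho]
  have hf : ∀ l, (if t' l = 0 then (1 : ℝ) else 0) = 1 - (if t l = 0 then 0 else 1) := by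
    intro l
    rw [ht']
    by_cases h0 : t l = 0
    · rw [if_pos h0, if_pos rfl, if_pos h0]
      norm_num
    · have h2 : o - t l ≠ 0 := by
        have := ht l
        omega
      rw [if_neg h0, if_neg h2, if_neg h0]
      norm_num
  have hf' : ∀ l, (if t l = 0 then (1 : ℝ) else 0) = 1 - (if t l = 0 then 0 else 1) := by
    intro l
    by_cases h0 : t l = 0
    · rw [if_pos h0, if_pos h0]
      norm_num
    · rw [if_neg h0, if_neg h0]
      norm_num
  refine ⟨∑ l, (t l : ℝ) / o, ∑ l, (t' l : ℝ) / o, ∑ l, (if t l = 0 then (0 : ℝ) else 1),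
    angs_eq ho ht hk, angs_eq ho htt hk', ?_, ?_, ?_, ?_, ?_, ?_, ?_, ?_⟩
  · rw [fixs_eq ho ht hk, h1, sum_congr rfl fun l _ => hf' l, sum_sub_distrib]
    push_cast
    simp
  · rw [fixs_eq ho htt hk', h1, sum_congr rfl fun l _ => hf l, sum_sub_distrib]
    push_cast
    simp
  · rw [← sum_add_distrib]
    refine sum_congr rfl fun l _ => ?_
    rw [ht']
    by_cases h0 : t l = 0
    · rw [if_pos h0, if_pos h0, h0]
      simp
    · rw [if_neg h0, if_neg h0, Nat.cast_sub (ht l).le]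
      field_simp
      ring
  · exact sum_nonneg fun l _ => by split_ifs <;> norm_num
  · rw [h1, Complex.natCast_re]
    calc ∑ l, (if t l = 0 then (0 : ℝ) else 1) ≤ ∑ _l : Fin d, (1 : ℝ) :=
          sum_le_sum fun l _ => by split_ifs <;> norm_num
      _ = d := by simp
  · rw [sum_div]
    refine sum_le_sum fun l _ => ?_
    apply div_le_div_of_nonneg_right _ hoR.le
    by_cases h0 : t l = 0
    · rw [if_pos h0, h0]
      simp
    · rw [if_neg h0]
      exact_mod_cast (by omega : 1 ≤ t l)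
  · rw [sum_div]
    refine sum_le_sum fun l _ => ?_
    apply div_le_div_of_nonneg_right _ hoR.le
    by_cases h0 : t l = 0
    · rw [if_pos h0]
      exact Nat.cast_nonneg _
    · rw [if_neg h0, ht', if_neg h0]
      have := ht l
      exact_mod_cast (by omega : 1 ≤ o - t l)
  · intro hr k
    have h2 := (sum_eq_zero_iff_of_nonneg (s := (univ : Finset (Fin d)))
      (f := fun l => if t l = 0 then (0 : ℝ) else 1) (fun l _ => by split_ifs <;> norm_num)).1 hr
    have h3 : ∀ l, t l = 0 := by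
      intro l
      by_contra h0
      have h4 := h2 l (mem_univ l)
      rw [if_neg h0] at h4
      exact one_ne_zero h4
    rw [hk, h1, sum_congr rfl fun l _ => by rw [h3 l, zero_mul, pow_zero]]
    simp

end Pool.Agent.H6.FF
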