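import Pool.Agent.H6.FF.Defs
import Pool.Agent.H6.FF.IrrA
import Pool.Agent.H52.VC.Hom

set_option autoImplicit false

/-!
PROJECT FF (MP_bf82d2_ag, BoundedGroup, note 6093), module FS.
The twisted Frobenius-Schur indicator.
PROOF. `ρ` the representation of `ψ` on `V`. Let `B` be the space of the bilinear forms `β` on `V` with
`β (ρ x u) (ρ (τ x) v) = β u v`. `dim B ≤ 1` (Schur: `β` is a `G`-map from `ρ` to the dual of `ρ ∘ τ`, both irreducible) and `B ≠ 0`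
implies `ψ (τ x) = conj (ψ x)`. `(J β) u v = β v (ρ z u)` maps `B` to `B` (`τ (τ x) = z x z⁻¹`) and `J (J β) = β` (`τ z = z`), so
`trace J = 0, 1, -1`. The projection to `B` is `(P β) u v = (1/|H|) ∑ x, β (ρ x u) (ρ (τ x) v)` and the trace of
`β ↦ ((u, v) ↦ β (A v) (C u))` on all bilinear forms is `trace (A C)`, so `trace J = trace (J P) = (1/|H|) ∑ x, trace (ρ x ρ (τ x) ρ z)`.
If `B = 0` then `P = 0` and `fs = 0`.
ALTERNATIVE without traces on spaces of forms: matrix coefficients. `R x` the (unitary) matrix of `ρ x`. Schur orthogonality for `ρ` and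
`conj (ρ ∘ τ)`: if `ψ ∘ τ ≠ conj ψ` then `∑ x, R x i j * R (τ x) k l = 0` for all `i j k l`, so `fs = 0`. Otherwise there is a unitary `U`
with `R (τ x) = U⁻¹ (conj (R x)) U`, hence `R (τ (τ x)) = (conj(U) U)⁻¹ R x (conj (U) U) = R z R x (R z)⁻¹`, so `conj(U) U R z` is a
scalar, `= ε`, with `ε = ± 1` (apply `τ` to `R z`, `τ z = z`), and
`fs = (1/|H|) ∑ x, trace (R x U⁻¹ conj (R x) U R z) = ε` by the orthogonality `∑ x, R x i j * conj (R x k l) = |H| / n` if `i = k`,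
`j = l`.
-/

namespace Pool.Agent.H6.FF

open Finset Module

section BilFS

variable {E : Type} [AddCommGroup E] [Module ℂ E]

/-- `b ↦ b (A ·) (C ·)` -/
private noncomputable def T1_FS (A C : E →ₗ[ℂ] E) :
    (E →ₗ[ℂ] E →ₗ[ℂ] ℂ) →ₗ[ℂ] (E →ₗ[ℂ] E →ₗ[ℂ] ℂ) where
  toFun b := b.compl₁₂ A C
  map_add' := fun _ _ => rfl
  map_smul' := fun _ _ => rfl

/-- `b ↦ b (A ·) (C ·)` transposed -/
private noncomputable def T2_FS (A C : E →ₗ[ℂ] E) :
    (E →ₗ[ℂ] E →ₗ[ℂ] ℂ) →ₗ[ℂ] (E →ₗ[ℂ] E →ₗ[ℂ] ℂ) where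
  toFun b := (b.compl₁₂ A C).flip
  map_add' := fun _ _ => rfl
  map_smul' := fun _ _ => rfl

private theorem T1_apply_FS (A C : E →ₗ[ℂ] E) (b : E →ₗ[ℂ] E →ₗ[ℂ] ℂ) (x y : E) :
    T1_FS A C b x y = b (A x) (C y) := rfl

private theorem T2_apply_FS (A C : E →ₗ[ℂ] E) (b : E →ₗ[ℂ] E →ₗ[ℂ] ℂ) (x y : E) :
    T2_FS A C b x y = b (A y) (C x) := rfl

/-- the matrix of a form -/
private noncomputable def M_FS {ι : Type} [Fintype ι] [DecidableEq ι] (e : Basis ι ℂ E) :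
    (E →ₗ[ℂ] E →ₗ[ℂ] ℂ) ≃ₗ[ℂ] Matrix ι ι ℂ := LinearMap.toMatrix₂ e e

private theorem M_apply_FS {ι : Type} [Fintype ι] [DecidableEq ι] (e : Basis ι ℂ E)
    (b : E →ₗ[ℂ] E →ₗ[ℂ] ℂ) (i j : ι) : M_FS e b i j = b (e i) (e j) :=
  LinearMap.toMatrix₂_apply e e b i j

private theorem basis_FS {ι : Type} [Fintype ι] [DecidableEq ι] (e : Basis ι ℂ E) (i j : ι) (x y : E) :
    (M_FS e).symm (Matrix.single i j (1 : ℂ)) x y = e.repr x i * e.repr y j := by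
  unfold M_FS
  rw [LinearMap.toMatrix₂_symm, Matrix.toLinearMap₂_apply]
  rw [Finset.sum_eq_single i, Finset.sum_eq_single j]
  · rw [Matrix.single_apply_same]
    simp
  · intro l _ hl
    rw [Matrix.single_apply_of_col_ne _ _ (Ne.symm hl)]
    simp
  · intro h
    exact absurd (mem_univ _) h
  · intro k _ hk
    refine Finset.sum_eq_zero fun l _ => ?_
    rw [Matrix.single_apply_of_row_ne (Ne.symm hk)]
    simp
  · intro h
    exact absurd (mem_univ _) h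

private theorem trace_FS {ι : Type} [Fintype ι] [DecidableEq ι] (e : Basis ι ℂ E)
    (T : (E →ₗ[ℂ] E →ₗ[ℂ] ℂ) →ₗ[ℂ] (E →ₗ[ℂ] E →ₗ[ℂ] ℂ)) :
    LinearMap.trace ℂ _ T = ∑ i, ∑ j,
      T ((M_FS e).symm (Matrix.single i j (1 : ℂ))) (e i) (e j) := by
  rw [LinearMap.trace_eq_matrix_trace ℂ ((Matrix.stdBasis ℂ ι ι).map (M_FS e).symm),
    Matrix.trace, Fintype.sum_prod_type]
  refine Finset.sum_congr rfl fun i _ => Finset.sum_congr rfl fun j _ => ?_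
  rw [Matrix.diag_apply, LinearMap.toMatrix_apply, Basis.map_apply, Matrix.stdBasis_eq_single,
    Basis.map_repr, LinearEquiv.trans_apply, LinearEquiv.symm_symm]
  have h1 : ∀ M : Matrix ι ι ℂ, (Matrix.stdBasis ℂ ι ι).repr M (i, j) = M i j := by
    intro M
    rw [Matrix.stdBasis]
    simp
  rw [h1, M_apply_FS]

private theorem trace_T2_FS {ι : Type} [Fintype ι] [DecidableEq ι] (e : Basis ι ℂ E) (A C : E →ₗ[ℂ] E) :
    LinearMap.trace ℂ _ (T2_FS A C) = LinearMap.trace ℂ E (A * C) := by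
  rw [trace_FS e, LinearMap.trace_eq_matrix_trace ℂ e, LinearMap.toMatrix_mul, Matrix.trace]
  refine Finset.sum_congr rfl fun i _ => ?_
  rw [Matrix.diag_apply, Matrix.mul_apply]
  refine Finset.sum_congr rfl fun j _ => ?_
  rw [T2_apply_FS, basis_FS, LinearMap.toMatrix_apply, LinearMap.toMatrix_apply]

end BilFS

variable {H : Type} [Group H] [Fintype H]

/-- the space `B` -/
private def B_FS {E : Type} [AddCommGroup E] [Module ℂ E] (ρ : Representation ℂ H E) (τ : H ≃* H) :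
    Submodule ℂ (E →ₗ[ℂ] E →ₗ[ℂ] ℂ) where
  carrier := {b | ∀ g u v, b (ρ g u) (ρ (τ g) v) = b u v}
  add_mem' := by
    intro b c hb hc g u v
    simp only [LinearMap.add_apply]
    rw [hb g u v, hc g u v]
  zero_mem' := fun g u v => rfl
  smul_mem' := by
    intro a b hb g u v
    simp only [LinearMap.smul_apply]
    rw [hb g u v]

private theorem mem_B_FS {E : Type} [AddCommGroup E] [Module ℂ E] (ρ : Representation ℂ H E) (τ : H ≃* H)
    (b : E →ₗ[ℂ] E →ₗ[ℂ] ℂ) : b ∈ B_FS ρ τ ↔ ∀ g u v, b (ρ g u) (ρ (τ g) v) = b u v := Iff.rfl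

private theorem rho_mul_FS {E : Type} [AddCommGroup E] [Module ℂ E] (ρ : Representation ℂ H E) (g h : H) (x : E) :
    ρ g (ρ h x) = ρ (g * h) x := by
  rw [map_mul]
  rfl

/-- a nonzero element of `B` is nondegenerate, and it spans `B` -/
private theorem nd_FS {E : Type} [AddCommGroup E] [Module ℂ E] [FiniteDimensional ℂ E] (ρ : Representation ℂ H E)
    (hρ : Pool.Agent.H93.Hup.Irr ρ) (τ : H ≃* H) {b : E →ₗ[ℂ] E →ₗ[ℂ] ℂ} (hb : b ∈ B_FS ρ τ) (hb0 : b ≠ 0) :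
    ∃ e : E ≃ₗ[ℂ] Dual ℂ E, ∀ u v, e u v = b u v := by
  have hker : LinearMap.ker b = ⊥ := by
    by_contra hne
    have hinv : Pool.Agent.H93.Hup.Inv ρ (LinearMap.ker b) := by
      intro g u hu
      rw [LinearMap.mem_ker] at hu ⊢
      refine LinearMap.ext fun v => ?_
      have h1 := hb g u (ρ (τ g)⁻¹ v)
      rw [rho_mul_FS, mul_inv_cancel, map_one, hu] at h1
      exact h1
    have h2 := hρ.2 _ hinv hne
    apply hb0
    refine LinearMap.ext fun u => ?_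
    have h3 : u ∈ LinearMap.ker b := by rw [h2]; trivial
    exact h3
  have hinj : Function.Injective b := LinearMap.ker_eq_bot.1 hker
  have hfr : finrank ℂ E = finrank ℂ (Dual ℂ E) := (Subspace.dual_finrank_eq).symm
  refine ⟨LinearEquiv.ofInjectiveOfFinrankEq b hinj hfr, fun u v => rfl⟩

private theorem span_FS {E : Type} [AddCommGroup E] [Module ℂ E] [FiniteDimensional ℂ E] (ρ : Representation ℂ H E)
    (hρ : Pool.Agent.H93.Hup.Irr ρ) (τ : H ≃* H) {b : E →ₗ[ℂ] E →ₗ[ℂ] ℂ} (hb : b ∈ B_FS ρ τ) (hb0 : b ≠ 0)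
    {b' : E →ₗ[ℂ] E →ₗ[ℂ] ℂ} (hb' : b' ∈ B_FS ρ τ) : ∃ c : ℂ, b' = c • b := by
  obtain ⟨e, he⟩ := nd_FS ρ hρ τ hb hb0
  have hT : ∀ g x, (e.symm.toLinearMap ∘ₗ b') (ρ g x) = ρ g ((e.symm.toLinearMap ∘ₗ b') x) := by
    intro g x
    show e.symm (b' (ρ g x)) = ρ g (e.symm (b' x))
    rw [LinearEquiv.symm_apply_eq]
    refine LinearMap.ext fun v => ?_
    have h1 := hb' g x (ρ (τ g)⁻¹ v)
    have h2 := hb g (e.symm (b' x)) (ρ (τ g)⁻¹ v)
    rw [rho_mul_FS, mul_inv_cancel, map_one] at h1 h2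
    have h3 : b' (ρ g x) v = b' x (ρ (τ g)⁻¹ v) := h1
    have h4 : b (ρ g (e.symm (b' x))) v = b (e.symm (b' x)) (ρ (τ g)⁻¹ v) := h2
    rw [he, h3, h4, ← he, LinearEquiv.apply_symm_apply]
  obtain ⟨c, hc⟩ := Pool.Agent.H93.Hup.schur ρ hρ _ hT
  refine ⟨c, LinearMap.ext fun u => ?_⟩
  have h1 : e.symm (b' u) = c • u := hc u
  rw [LinearEquiv.symm_apply_eq, map_smul] at h1
  rw [h1]
  refine LinearMap.ext fun v => ?_
  show c • (e u v) = c • b u v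
  rw [he]

private theorem conj_FS {E : Type} [AddCommGroup E] [Module ℂ E] [FiniteDimensional ℂ E] (ρ : Representation ℂ H E)
    (hρ : Pool.Agent.H93.Hup.Irr ρ) (τ : H ≃* H) {b : E →ₗ[ℂ] E →ₗ[ℂ] ℂ} (hb : b ∈ B_FS ρ τ) (hb0 : b ≠ 0) (x : H) :
    LinearMap.trace ℂ E (ρ x) = LinearMap.trace ℂ E (ρ (τ x)⁻¹) := by
  obtain ⟨e, he⟩ := nd_FS ρ hρ τ hb hb0
  have h1 : e.conj (ρ x) = Module.Dual.transpose (ρ (τ x)⁻¹) := by
    refine LinearMap.ext fun f => LinearMap.ext fun v => ?_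
    show e (ρ x (e.symm f)) v = f (ρ (τ x)⁻¹ v)
    have h2 := hb x (e.symm f) (ρ (τ x)⁻¹ v)
    rw [rho_mul_FS, mul_inv_cancel, map_one] at h2
    have h4 : b (ρ x (e.symm f)) v = b (e.symm f) (ρ (τ x)⁻¹ v) := h2
    rw [he, h4, ← he, LinearEquiv.apply_symm_apply]
  rw [← LinearMap.trace_transpose' (ρ (τ x)⁻¹), ← h1, LinearMap.trace_conj']

private theorem core_FS {E : Type} [AddCommGroup E] [Module ℂ E] [FiniteDimensional ℂ E] (ρ : Representation ℂ H E)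
    (hρ : Pool.Agent.H93.Hup.Irr ρ) (τ : H ≃* H) (z : H) (hz : τ z = z) (hτ : ∀ x, τ (τ x) = z * x * z⁻¹) (t : ℂ)
    (ht : t = (1 / (Nat.card H : ℂ)) * ∑ x, LinearMap.trace ℂ E (ρ (x * τ x * z))) :
    t = 0 ∨ ((t = 1 ∨ t = -1) ∧ ∀ x, LinearMap.trace ℂ E (ρ x) = LinearMap.trace ℂ E (ρ (τ x)⁻¹)) := by
  classical
  obtain ⟨c, hc⟩ : ∃ c : ℂ, c = 1 / (Nat.card H : ℂ) := ⟨_, rfl⟩
  have hn : (Nat.card H : ℂ) ≠ 0 := by
    rw [Nat.card_eq_fintype_card]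
    exact_mod_cast Fintype.card_ne_zero
  obtain ⟨P, hP⟩ : ∃ P : (E →ₗ[ℂ] E →ₗ[ℂ] ℂ) →ₗ[ℂ] (E →ₗ[ℂ] E →ₗ[ℂ] ℂ),
      P = c • ∑ g, T1_FS (ρ g) (ρ (τ g)) := ⟨_, rfl⟩
  obtain ⟨J, hJ⟩ : ∃ J : (E →ₗ[ℂ] E →ₗ[ℂ] ℂ) →ₗ[ℂ] (E →ₗ[ℂ] E →ₗ[ℂ] ℂ),
      J = T2_FS LinearMap.id (ρ z) := ⟨_, rfl⟩
  have hPa : ∀ b x y, P b x y = c * ∑ g, b (ρ g x) (ρ (τ g) y) := by
    intro b x y
    rw [hP, LinearMap.smul_apply, LinearMap.sum_apply, LinearMap.smul_apply, LinearMap.smul_apply,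
      LinearMap.sum_apply, LinearMap.sum_apply, smul_eq_mul]
    rfl
  have hJa : ∀ b x y, J b x y = b y (ρ z x) := by
    intro b x y
    rw [hJ]
    rfl
  have hPm : ∀ b, P b ∈ B_FS ρ τ := by
    intro b g x y
    rw [hPa, hPa]
    congr 1
    refine Fintype.sum_equiv (Equiv.mulRight g) _ _ fun h => ?_
    rw [rho_mul_FS, rho_mul_FS, Equiv.coe_mulRight, ← map_mul τ]
  have hPi : ∀ b ∈ B_FS ρ τ, P b = b := by
    intro b hb
    refine LinearMap.ext fun x => LinearMap.ext fun y => ?_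
    rw [hPa, Finset.sum_congr rfl fun g _ => hb g x y, Finset.sum_const, nsmul_eq_mul, Finset.card_univ,
      ← Nat.card_eq_fintype_card, hc]
    field_simp
  have hJm : ∀ b ∈ B_FS ρ τ, J b ∈ B_FS ρ τ := by
    intro b hb g x y
    rw [hJa, hJa, rho_mul_FS]
    have h1 : z * g = τ (τ g) * z := by rw [hτ]; group
    rw [h1, ← rho_mul_FS, hb (τ g)]
  have hJJ : ∀ b ∈ B_FS ρ τ, J (J b) = b := by
    intro b hb
    refine LinearMap.ext fun x => LinearMap.ext fun y => ?_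
    rw [hJa, hJa]
    have h1 := hb z x y
    rw [hz] at h1
    exact h1
  have hfs : t = LinearMap.trace ℂ _ (J ∘ₗ P) := by
    have h1 : J ∘ₗ P = c • ∑ g, T2_FS (ρ g) (ρ (τ g) * ρ z) := by
      refine LinearMap.ext fun b => LinearMap.ext fun x => LinearMap.ext fun y => ?_
      rw [LinearMap.comp_apply, hJa, hPa, LinearMap.smul_apply, LinearMap.sum_apply, LinearMap.smul_apply,
        LinearMap.smul_apply, LinearMap.sum_apply, LinearMap.sum_apply, smul_eq_mul]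
      rfl
    rw [h1, map_smul, map_sum, smul_eq_mul, ht, ← hc]
    congr 1
    refine Finset.sum_congr rfl fun g _ => ?_
    rw [trace_T2_FS (Module.finBasis ℂ E), map_mul ρ, map_mul ρ, mul_assoc]
  by_cases hB : ∃ b ∈ B_FS ρ τ, b ≠ 0
  · obtain ⟨b, hb, hb0⟩ := hB
    right
    have hsp : ∀ b' ∈ B_FS ρ τ, ∃ c : ℂ, b' = c • b := fun b' hb' => span_FS ρ hρ τ hb hb0 hb'
    obtain ⟨ε, hε⟩ := hsp (J b) (hJm b hb)
    have hε2 : ε * ε = 1 := by
      have h1 := hJJ b hb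
      rw [hε, map_smul, hε, smul_smul] at h1
      obtain ⟨x, y, hxy⟩ : ∃ x y, b x y ≠ 0 := by
        by_contra hcon
        push Not at hcon
        exact hb0 (LinearMap.ext fun x => LinearMap.ext fun y => hcon x y)
      have h2 : ε * ε * b x y = b x y := congrArg (fun f : E →ₗ[ℂ] E →ₗ[ℂ] ℂ => f x y) h1
      exact mul_right_cancel₀ hxy (by rw [h2, one_mul])
    have hJP : J ∘ₗ P = ε • P := by
      refine LinearMap.ext fun b' => ?_
      obtain ⟨a, ha⟩ := hsp (P b') (hPm b')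
      rw [LinearMap.comp_apply, LinearMap.smul_apply, ha, map_smul, hε, smul_comm]
    have hproj : LinearMap.IsProj (B_FS ρ τ) P := ⟨hPm, hPi⟩
    have h1 : Module.Free ℂ (B_FS ρ τ) := Module.Free.of_divisionRing ℂ (B_FS ρ τ)
    have h2 : Module.Free ℂ (LinearMap.ker P) := Module.Free.of_divisionRing ℂ (LinearMap.ker P)
    have hfr : finrank ℂ (B_FS ρ τ) = 1 := by
      refine finrank_eq_one (⟨b, hb⟩ : B_FS ρ τ) (fun h3 => hb0 (congrArg Subtype.val h3)) fun w => ?_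
      obtain ⟨a, ha⟩ := hsp w.1 w.2
      exact ⟨a, Subtype.ext ha.symm⟩
    have htr : t = ε := by
      rw [hfs, hJP, map_smul, LinearMap.IsProj.trace hproj, hfr, smul_eq_mul, Nat.cast_one, mul_one]
    refine ⟨?_, fun x => conj_FS ρ hρ τ hb hb0 x⟩
    rw [htr]
    exact mul_self_eq_one_iff.1 hε2
  · left
    push Not at hB
    have h1 : P = 0 := by
      refine LinearMap.ext fun b => ?_
      exact hB (P b) (hPm b)
    rw [hfs, h1, LinearMap.comp_zero, map_zero]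

theorem fs_cases (τ : H ≃* H) (z : H) (hz : τ z = z) (hτ : ∀ x, τ (τ x) = z * x * z⁻¹) {ψ : H → ℂ} (h : IsIrr ψ) :
    fs τ z ψ = 0 ∨ ((fs τ z ψ = 1 ∨ fs τ z ψ = -1) ∧ ∀ x, ψ (τ x) = (starRingEnd ℂ) (ψ x)) := by
  have hinv := fun x => inv_of_irr h x
  obtain ⟨n, ρ, hρ, -, hψ⟩ := h
  have h1 := core_FS ρ hρ τ z hz hτ (fs τ z ψ) (by
    unfold fs
    simp only [hψ])
  rcases h1 with h1 | ⟨h1, h2⟩
  · exact Or.inl h1
  · refine Or.inr ⟨h1, fun x => ?_⟩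
    have h3 := h2 x
    rw [← hψ, ← hψ, hinv] at h3
    rw [h3, Complex.conj_conj]

end Pool.Agent.H6.FF
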