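import Pool.Agent.H6.FF.Defs
import Pool.Agent.H6.FF.IrrA
import Pool.Agent.H52.VC.Cmp

set_option autoImplicit false

/-!
PROJECT FF (MP_bf82d2_ag, BoundedGroup, note 6093), module IrrB.
Expansion of class functions.
PROOF. `expand`: `f' = f - ∑ ψ, ip f ψ * ψ` is a class function orthogonal to all `ψ ∈ irr H` (`ip_self`, `ip_ne`), so by
`isIrr_min` to the characters of all minimal invariant subspaces, so `f' = 0` by `Pool.Agent.H52.VC.complete`
(`trace (.. g⁻¹) = conj (trace (.. g))`, `inv_of_irr`). `parseval` from `expand` (sesquilinearity of `ip`). `reg_sum`: `expand` for the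
delta function at `1` (`ip δ ψ = conj (ψ 1) / |H| = ψ 1 / |H|`). `sum_sq`: `reg_sum 1`.
-/

namespace Pool.Agent.H6.FF

open Finset Module

variable {H : Type} [Group H] [Fintype H]

private theorem card_ne_IrrB : (Nat.card H : ℂ) ≠ 0 := by
  rw [Nat.cast_ne_zero]
  exact Nat.card_pos.ne'

private theorem sum_eq_IrrB (f χ : H → ℂ) : ∑ x, f x * (starRingEnd ℂ) (χ x) = Nat.card H * ip f χ := by
  unfold ip
  rw [← mul_assoc, mul_one_div_cancel card_ne_IrrB, one_mul]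

private theorem ip_sub_sum_IrrB (f χ : H → ℂ) (s : Finset (H → ℂ)) (c : (H → ℂ) → ℂ) :
    ip (fun x => f x - ∑ ψ ∈ s, c ψ * ψ x) χ = ip f χ - ∑ ψ ∈ s, c ψ * ip ψ χ := by
  unfold ip
  have h1 : ∀ x, (f x - ∑ ψ ∈ s, c ψ * ψ x) * (starRingEnd ℂ) (χ x) =
      f x * (starRingEnd ℂ) (χ x) - ∑ ψ ∈ s, c ψ * (ψ x * (starRingEnd ℂ) (χ x)) := by
    intro x
    rw [sub_mul, sum_mul]
    congr 1
    exact sum_congr rfl fun ψ _ => mul_assoc _ _ _
  simp only [h1]
  rw [sum_sub_distrib, mul_sub, sum_comm]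
  congr 1
  rw [mul_sum]
  refine sum_congr rfl fun ψ _ => ?_
  rw [← mul_sum]
  ring

theorem expand {f : H → ℂ} (hf : IsCl f) (x : H) : f x = ∑ ψ ∈ irr H, ip f ψ * ψ x := by
  classical
  have hcl : ∀ g x, (fun x => f x - ∑ ψ ∈ irr H, ip f ψ * ψ x) (x * g * x⁻¹) =
      (fun x => f x - ∑ ψ ∈ irr H, ip f ψ * ψ x) g := by
    intro g x
    show f (x * g * x⁻¹) - ∑ ψ ∈ irr H, ip f ψ * ψ (x * g * x⁻¹) = f g - ∑ ψ ∈ irr H, ip f ψ * ψ g
    rw [hf g x]
    congr 1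
    refine sum_congr rfl fun ψ hψ => ?_
    rw [cl_of_irr (mem_irr.1 hψ) g x]
  have horth : ∀ χ : H → ℂ, IsIrr χ → ip (fun x => f x - ∑ ψ ∈ irr H, ip f ψ * ψ x) χ = 0 := by
    intro χ hχ
    rw [ip_sub_sum_IrrB f χ (irr H) (fun ψ => ip f ψ), sum_eq_single χ]
    · rw [ip_self hχ, mul_one, sub_self]
    · intro ψ hψ hne
      rw [ip_ne (mem_irr.1 hψ) hχ hne, mul_zero]
    · intro h1
      exact absurd (mem_irr.2 hχ) h1
  have h0 := Pool.Agent.H52.VC.complete (fun x => f x - ∑ ψ ∈ irr H, ip f ψ * ψ x) hcl (by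
    intro W hW
    have h1 := isIrr_min W hW
    have h2 := horth _ h1
    have h3 := sum_eq_IrrB (fun x => f x - ∑ ψ ∈ irr H, ip f ψ * ψ x)
      (fun g => LinearMap.trace ℂ W (Pool.Agent.H52.VC.subR Pool.Agent.H52.VC.lam W hW.2.1 g))
    rw [h2, mul_zero] at h3
    rw [← h3]
    refine sum_congr rfl fun g _ => ?_
    have h4 := inv_of_irr h1 g
    exact congrArg _ h4)
  exact sub_eq_zero.1 (congrFun h0 x)

theorem parseval {f g : H → ℂ} (hf : IsCl f) (hg : IsCl g) :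
    ip f g = ∑ ψ ∈ irr H, ip f ψ * (starRingEnd ℂ) (ip g ψ) := by
  have h1 : ∀ x, f x * (starRingEnd ℂ) (g x) =
      ∑ ψ ∈ irr H, (starRingEnd ℂ) (ip g ψ) * (f x * (starRingEnd ℂ) (ψ x)) := by
    intro x
    conv_lhs => rw [expand hg x, map_sum, mul_sum]
    refine sum_congr rfl fun ψ _ => ?_
    rw [map_mul]
    ring
  show (1 / (Nat.card H : ℂ)) * ∑ x, f x * (starRingEnd ℂ) (g x) = _
  simp only [h1]
  rw [sum_comm, mul_sum]
  refine sum_congr rfl fun ψ _ => ?_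
  rw [← mul_sum]
  unfold ip
  ring

open Classical in
theorem reg_sum (x : H) : ∑ ψ ∈ irr H, ψ 1 * ψ x = if x = 1 then (Nat.card H : ℂ) else 0 := by
  have hcl : IsCl fun y : H => if y = 1 then (Nat.card H : ℂ) else 0 := by
    intro g y
    have h1 : y * g * y⁻¹ = 1 ↔ g = 1 := by
      constructor
      · intro h
        have h2 := mul_inv_eq_one.1 h
        exact mul_eq_left.1 h2
      · rintro rfl
        group
    show (if y * g * y⁻¹ = 1 then (Nat.card H : ℂ) else 0) = if g = 1 then (Nat.card H : ℂ) else 0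
    simp only [h1]
  have h2 : (if x = 1 then (Nat.card H : ℂ) else 0) = _ := expand hcl x
  rw [h2]
  refine sum_congr rfl fun ψ hψ => ?_
  congr 1
  have h3 : ip (fun y : H => if y = 1 then (Nat.card H : ℂ) else 0) ψ = (starRingEnd ℂ) (ψ 1) := by
    unfold ip
    rw [sum_eq_single (1 : H)]
    · show 1 / (Nat.card H : ℂ) * ((if (1 : H) = 1 then (Nat.card H : ℂ) else 0) * (starRingEnd ℂ) (ψ 1)) = _
      rw [if_pos rfl, ← mul_assoc, one_div_mul_cancel card_ne_IrrB, one_mul]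
    · intro y _ hy
      show (if y = 1 then (Nat.card H : ℂ) else 0) * (starRingEnd ℂ) (ψ y) = 0
      rw [if_neg hy, zero_mul]
    · intro h4
      exact absurd (mem_univ _) h4
  rw [h3, ← inv_of_irr (mem_irr.1 hψ), inv_one]

theorem sum_sq : ∑ ψ ∈ irr H, (ψ 1).re ^ 2 = (Nat.card H : ℝ) := by
  classical
  have h1 := reg_sum (1 : H)
  rw [if_pos rfl] at h1
  have h2 : ∀ ψ ∈ irr H, ψ 1 * ψ 1 = (((ψ 1).re ^ 2 : ℝ) : ℂ) := by
    intro ψ hψ
    obtain ⟨d, _, hd⟩ := deg_of_irr (mem_irr.1 hψ)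
    rw [hd]
    push_cast
    rw [Complex.natCast_re]
    push_cast
    ring
  rw [sum_congr rfl h2, ← Complex.ofReal_sum] at h1
  exact_mod_cast h1

end Pool.Agent.H6.FF
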