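import Pool.Agent.H6.FF.Defs
import Pool.Agent.H6.FF.IrrA
import Pool.Agent.H52.VC.Hom
import Pool.Agent.H52.VC.Irr

set_option autoImplicit false

/-!
PROJECT FF (MP_bf82d2_ag, BoundedGroup, note 6093), module IrrD.
Multiplicities are natural numbers.
PROOF. `Pool.Agent.H52.VC.hom_eq ρ σ` with `ρ` the representation of `ψ`: `ip (trace σ) ψ` is the dimension of `invHom ρ σ`
(`trace (ρ g⁻¹) = conj (ψ g)`, `inv_of_irr`).
-/

namespace Pool.Agent.H6.FF

open Finset Module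

variable {H : Type} [Group H] [Fintype H]

theorem mult_nat {E : Type} [AddCommGroup E] [Module ℂ E] [FiniteDimensional ℂ E] (σ : Representation ℂ H E)
    {ψ : H → ℂ} (h : IsIrr ψ) : ∃ m : ℕ, ip (fun x => LinearMap.trace ℂ E (σ x)) ψ = m := by
  obtain ⟨n, ρ, _, _, hψ⟩ := h
  refine ⟨finrank ℂ (Pool.Agent.H52.VC.invHom ρ σ), ?_⟩
  rw [Pool.Agent.H52.VC.hom_eq ρ σ]
  unfold ip
  congr 1
  refine sum_congr rfl fun g _ => ?_
  rw [hψ g, Pool.Agent.H52.VC.trace_inv ρ g]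

end Pool.Agent.H6.FF
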