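import Pool.Agent.H6.FF.Defs
import Pool.Agent.H6.FF.IrrB
import Pool.Agent.H6.FF.IrrC
import Pool.Agent.H6.FF.IrrD

set_option autoImplicit false

/-!
PROJECT FF (MP_bf82d2_ag, BoundedGroup, note 6093), module IrrE.
An irreducible character has degree at most the index of an abelian subgroup.
PROOF. Let `f` be the restriction of `ψ` to `A` (a character of the group `A`: restrict `ρ` along `A.subtype`). `A` is abelian, so its
irreducible characters have degree `1` (`∑ (α 1)^2 = |A|` and orthogonality; simplest: for an irreducible `ρ'` of an abelian group every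
`ρ' a` is a scalar by `Pool.Agent.H93.Hup.schur`, so every line is invariant and `n = 1`). By `expand`/`parseval` for `A`:
`ψ 1 = ∑ α, m α` and `(1/|A|) ∑_{a ∈ A} |ψ a|^2 = ∑ α, (m α)^2 ≥ ∑ α, m α` as the `m α` are natural numbers (`mult_nat`). And
`∑_{a ∈ A} |ψ a|^2 ≤ ∑_{x ∈ H} |ψ x|^2 = |H|` (`ip_self`). `A.index = |H| / |A|`.
-/

namespace Pool.Agent.H6.FF

open Finset Module

variable {H : Type} [Group H] [Fintype H]

omit [Fintype H] in
private theorem common_vecIrrE {X : Type} [AddCommGroup X] [Module ℂ X] [FiniteDimensional ℂ X]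
    (ρ : Representation ℂ H X) (W : Submodule ℂ X) (hW0 : W ≠ ⊥) (hW : Pool.Agent.H93.Hup.Inv ρ W) (A : Subgroup H)
    (hA : ∀ a ∈ A, ∀ c ∈ A, a * c = c * a) :
    ∃ v ∈ W, v ≠ 0 ∧ ∀ a ∈ A, ∃ c : ℂ, ρ a v = c • v := by
  have hWA : Pool.Agent.H93.Hup.Inv (ρ.comp A.subtype : Representation ℂ A X) W := fun a v hv => hW a v hv
  obtain ⟨U, hUW, hU⟩ := Pool.Agent.H93.Hup.exists_minInv (ρ.comp A.subtype : Representation ℂ A X) W hWA hW0
  obtain ⟨v, hvU, hv0⟩ := (Submodule.ne_bot_iff U).1 hU.1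
  refine ⟨v, hUW hvU, hv0, fun a ha => ?_⟩
  have hn : Nontrivial U := ⟨⟨⟨v, hvU⟩, 0, fun h => hv0 (congrArg Subtype.val h)⟩⟩
  obtain ⟨c, hc⟩ := Module.End.exists_eigenvalue ((ρ a).restrict (p := U) (q := U) fun w hw => hU.2.1 ⟨a, ha⟩ w hw)
  obtain ⟨w, hw⟩ := hc.exists_hasEigenvector
  have hw1 : ρ a (w : X) = c • (w : X) := congrArg Subtype.val hw.apply_eq_smul
  have hE := hU.2.2 (U ⊓ Module.End.eigenspace (ρ a) c) (by
    intro b u hu
    refine ⟨hU.2.1 b u hu.1, ?_⟩
    have hu2 := Module.End.mem_eigenspace_iff.1 hu.2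
    refine Module.End.mem_eigenspace_iff.2 ?_
    change ρ a (ρ (b : H) u) = c • ρ (b : H) u
    rw [← Module.End.mul_apply, ← map_mul, hA a ha b b.2, map_mul, Module.End.mul_apply, hu2, map_smul])
    inf_le_left (by
      intro h
      have h2 : (w : X) ∈ U ⊓ Module.End.eigenspace (ρ a) c := ⟨w.2, Module.End.mem_eigenspace_iff.2 hw1⟩
      rw [h, Submodule.mem_bot] at h2
      exact hw.2 (Subtype.ext h2))
  have hv : v ∈ U ⊓ Module.End.eigenspace (ρ a) c := by rw [hE]; exact hvU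
  exact ⟨c, Module.End.mem_eigenspace_iff.1 hv.2⟩

private theorem irr_degIrrE {X : Type} [AddCommGroup X] [Module ℂ X] [FiniteDimensional ℂ X]
    (ρ : Representation ℂ H X) (hρ : Pool.Agent.H93.Hup.Irr ρ) (A : Subgroup H)
    (hA : ∀ a ∈ A, ∀ c ∈ A, a * c = c * a) : finrank ℂ X ≤ A.index := by
  classical
  obtain ⟨x0, hx0⟩ := hρ.1
  have htop : (⊤ : Submodule ℂ X) ≠ ⊥ := by
    intro h
    have h1 : x0 ∈ (⊤ : Submodule ℂ X) := Submodule.mem_top
    rw [h, Submodule.mem_bot] at h1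
    exact hx0 h1
  obtain ⟨v, -, hv0, hc⟩ := common_vecIrrE ρ ⊤ htop (fun _ _ _ => Submodule.mem_top) A hA
  have hS : Submodule.span ℂ (Set.range fun x : H ⧸ A => ρ (Quotient.out x) v) = ⊤ := by
    refine hρ.2 _ ?_ ?_
    · intro g u hu
      refine Submodule.span_induction (p := fun u _ => ρ g u ∈
        Submodule.span ℂ (Set.range fun x : H ⧸ A => ρ (Quotient.out x) v)) ?_ ?_ ?_ ?_ hu
      · rintro _ ⟨x, rfl⟩
        have h2 : (Quotient.out (QuotientGroup.mk (g * Quotient.out x) : H ⧸ A))⁻¹ * (g * Quotient.out x) ∈ A := by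
          rw [← QuotientGroup.eq]
          exact Quotient.out_eq _
        obtain ⟨c, hc'⟩ := hc _ h2
        have h3 : ρ g (ρ (Quotient.out x) v) =
            c • ρ (Quotient.out (QuotientGroup.mk (g * Quotient.out x) : H ⧸ A)) v := by
          rw [← Module.End.mul_apply, ← map_mul, ← map_smul, ← hc', ← Module.End.mul_apply, ← map_mul,
            mul_inv_cancel_left]
        rw [h3]
        exact Submodule.smul_mem _ _ (Submodule.subset_span ⟨_, rfl⟩)
      · rw [map_zero]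
        exact Submodule.zero_mem _
      · intro u w _ _ hu hw
        rw [map_add]
        exact Submodule.add_mem _ hu hw
      · intro c u _ hu
        rw [map_smul]
        exact Submodule.smul_mem _ _ hu
    · intro h
      have h2 : ρ (Quotient.out (QuotientGroup.mk (1 : H) : H ⧸ A)) v ∈
          Submodule.span ℂ (Set.range fun x : H ⧸ A => ρ (Quotient.out x) v) :=
        Submodule.subset_span ⟨_, rfl⟩
      rw [h, Submodule.mem_bot] at h2
      apply hv0
      have h3 := congrArg (ρ (Quotient.out (QuotientGroup.mk (1 : H) : H ⧸ A))⁻¹) h2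
      rw [← Module.End.mul_apply, ← map_mul, inv_mul_cancel, map_one, map_zero] at h3
      exact h3
  rw [Subgroup.index_eq_card, Nat.card_eq_fintype_card, ← finrank_top (R := ℂ) (M := X), ← hS]
  exact finrank_range_le_card (R := ℂ) fun x : H ⧸ A => ρ (Quotient.out x) v

theorem deg_one_of_comm (hc : ∀ a b : H, a * b = b * a) {ψ : H → ℂ} (h : IsIrr ψ) : ψ 1 = 1 := by
  obtain ⟨n, ρ, hρ, _, hψ⟩ := h
  have h1 := irr_degIrrE ρ hρ ⊤ fun a _ b _ => hc a b
  rw [Subgroup.index_top] at h1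
  obtain ⟨x0, hx0⟩ := hρ.1
  have hn : Nontrivial (EuclideanSpace ℂ (Fin n)) := ⟨⟨x0, 0, hx0⟩⟩
  have h2 : 0 < finrank ℂ (EuclideanSpace ℂ (Fin n)) := finrank_pos
  have h3 : finrank ℂ (EuclideanSpace ℂ (Fin n)) = 1 := by omega
  rw [hψ, map_one, LinearMap.trace_one, h3, Nat.cast_one]

theorem deg_le_index {ψ : H → ℂ} (h : IsIrr ψ) (A : Subgroup H) (hA : ∀ a ∈ A, ∀ b ∈ A, a * b = b * a) :
    (ψ 1).re ≤ A.index := by
  obtain ⟨n, ρ, hρ, _, hψ⟩ := h
  rw [hψ, map_one, LinearMap.trace_one, Complex.natCast_re, Nat.cast_le]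
  exact irr_degIrrE ρ hρ A hA

end Pool.Agent.H6.FF
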