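import Pool.Agent.H6.FF.Defs
import Pool.Agent.H6.FF.IrrA

set_option autoImplicit false

/-!
PROJECT FF (MP_bf82d2_ag, BoundedGroup, note 6093), module Triv.
Elements acting trivially or by scalars.
PROOF. `triv_mul`: `ρ x` is unitary on a space of dimension `n` and has trace `n`: `∑ ‖ρ x e_j - e_j‖^2 = ∑ (2 - 2 Re ⟪e_j, ρ x e_j⟫) =
2 n - 2 n = 0`, so `ρ x = 1`. `central_scalar`: `Pool.Agent.H93.Hup.schur` for `ρ c`; the scalar has absolute value 1 as `ρ c` is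
unitary.
-/

namespace Pool.Agent.H6.FF

open Finset Module

variable {H : Type} [Group H] [Fintype H]

/-- a unitary operator with the trace of the identity is the identity -/
private theorem unit_one_Triv {n : ℕ} (T : EuclideanSpace ℂ (Fin n) →ₗ[ℂ] EuclideanSpace ℂ (Fin n))
    (hT : Pool.Agent.H52.VC.IsU T)
    (ht : LinearMap.trace ℂ (EuclideanSpace ℂ (Fin n)) T
      = LinearMap.trace ℂ (EuclideanSpace ℂ (Fin n)) 1) : T = 1 := by
  set b : OrthonormalBasis (Fin n) ℂ (EuclideanSpace ℂ (Fin n)) :=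
    EuclideanSpace.basisFun (Fin n) ℂ with hb
  have hn : ∀ v, ‖T v‖ = ‖v‖ := by
    intro v
    have h1 := hT v v
    rw [inner_self_eq_norm_sq_to_K, inner_self_eq_norm_sq_to_K] at h1
    have h2 : ‖T v‖ ^ 2 = ‖v‖ ^ 2 := by exact_mod_cast h1
    exact (sq_eq_sq₀ (norm_nonneg _) (norm_nonneg _)).1 h2
  have h1 : ∀ j, ‖T (b j) - b j‖ ^ 2 = 2 - 2 * (inner ℂ (b j) (T (b j))).re := by
    intro j
    have e : (inner ℂ (b j) (T (b j))).re = (inner ℂ (T (b j)) (b j)).re := by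
      rw [← inner_conj_symm]
      exact Complex.conj_re _
    rw [@norm_sub_sq ℂ, hn, b.norm_eq_one, e]
    change (1 : ℝ) ^ 2 - 2 * (inner ℂ (T (b j)) (b j)).re + 1 ^ 2 = _
    ring
  have h2 : ∑ j, ‖T (b j) - b j‖ ^ 2 = 0 := by
    have t1 := LinearMap.trace_eq_sum_inner T b
    have t2 := LinearMap.trace_eq_sum_inner (1 : EuclideanSpace ℂ (Fin n) →ₗ[ℂ] _) b
    rw [t1, t2] at ht
    have t3 : ∑ j, (inner ℂ (b j) (T (b j))).re = ∑ _j : Fin n, (1 : ℝ) := by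
      have t4 := congrArg Complex.re ht
      rw [Complex.re_sum, Complex.re_sum] at t4
      rw [t4]
      refine sum_congr rfl fun j _ => ?_
      rw [Module.End.one_apply, inner_self_eq_norm_sq_to_K, b.norm_eq_one]
      norm_num
    rw [sum_congr rfl fun j _ => h1 j, sum_sub_distrib, ← mul_sum, t3, mul_sum, ← sum_sub_distrib]
    simp
  have h3 : ∀ j, T (b j) = b j := by
    intro j
    have h4 := (sum_eq_zero_iff_of_nonneg fun i _ => sq_nonneg ‖T (b i) - b i‖).1 h2 j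
      (mem_univ j)
    exact sub_eq_zero.1 (norm_eq_zero.1 ((pow_eq_zero_iff two_ne_zero).1 h4))
  refine b.toBasis.ext fun j => ?_
  rw [b.coe_toBasis, h3 j]
  rfl

theorem triv_mul {ψ : H → ℂ} (h : IsIrr ψ) {x : H} (hx : ψ x = ψ 1) (y : H) : ψ (x * y) = ψ y := by
  obtain ⟨n, ρ, -, hU, hψ⟩ := h
  have h1 : ρ x = 1 := by
    refine unit_one_Triv (ρ x) (hU x) ?_
    rw [hψ, hψ, map_one] at hx
    exact hx
  rw [hψ, hψ, map_mul, h1, one_mul]

theorem central_scalar {ψ : H → ℂ} (h : IsIrr ψ) {c : H} (hc : ∀ x, c * x = x * c) :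
    ∃ ζ : ℂ, ‖ζ‖ = 1 ∧ ∀ x, ψ (c * x) = ζ * ψ x := by
  obtain ⟨n, ρ, hI, hU, hψ⟩ := h
  obtain ⟨ζ, hζ⟩ := Pool.Agent.H93.Hup.schur ρ hI (ρ c) (by
    intro g v
    rw [← Module.End.mul_apply, ← Module.End.mul_apply, ← map_mul, ← map_mul, hc])
  refine ⟨ζ, ?_, ?_⟩
  · obtain ⟨v, hv⟩ := hI.1
    have h1 := hU c v v
    rw [inner_self_eq_norm_sq_to_K, inner_self_eq_norm_sq_to_K] at h1
    have h2 : ‖ρ c v‖ ^ 2 = ‖v‖ ^ 2 := by exact_mod_cast h1
    have h3 : ‖ρ c v‖ = ‖v‖ := (sq_eq_sq₀ (norm_nonneg _) (norm_nonneg _)).1 h2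
    rw [hζ v, norm_smul] at h3
    exact mul_right_cancel₀ (norm_ne_zero_iff.2 hv) (h3.trans (one_mul _).symm)
  · intro x
    have h1 : ρ (c * x) = ζ • ρ x := by
      rw [map_mul]
      ext1 v
      exact hζ _
    rw [hψ, hψ, h1, map_smul, smul_eq_mul]

end Pool.Agent.H6.FF
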