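import Pool.Agent.H6.FF.Defs
import Pool.Agent.H6.FF.IrrB
import Pool.Agent.H6.FF.IrrC
import Pool.Agent.H6.FF.Triv
import Pool.Agent.H6.FF.IrrE

set_option autoImplicit false

/-!
PROJECT FF (MP_bf82d2_ag, BoundedGroup, note 6093), module Lin.
The linear characters trivial on `K`, `H / K` abelian.
PROOF. `lin_props`: definition of `lin`, `lin_of_deg`. `lin_sum`: `f = ` (`K.index` on `K`, `0` elsewhere) is a class function; `expand`:
`ip f ψ = (1/|K|) ∑_{k ∈ K} conj (ψ k)`, for `ψ ∈ irr H`: it is `conj (ψ 1) = ψ 1` if `ψ k = ψ 1` for all `k ∈ K`; otherwise it is `0`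
(the sum `S` of `ψ (k y)` over `k`; by irreducibility: `P = ∑ ρ k` commutes with `ρ`, so it is a scalar `c`
(`Pool.Agent.H93.Hup.schur`), and `ρ k P = P`, so `c = 0` or all `ρ k = 1`). If `ψ` is trivial on `K` then `ρ x` and `ρ y` commute, so
all `ρ x` are scalars and `ψ 1 = 1`, i.e. `ψ ∈ lin K`. `lin_card`: `lin_sum 1`.
-/

namespace Pool.Agent.H6.FF

open Finset Module

variable {H : Type} [Group H] [Fintype H]

omit [Fintype H] in
private theorem triv_op_Lin {n : ℕ} {ρ : Representation ℂ H (EuclideanSpace ℂ (Fin n))}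
    (hu : ∀ g, Pool.Agent.H52.VC.IsU (ρ g)) (g : H)
    (h : LinearMap.trace ℂ (EuclideanSpace ℂ (Fin n)) (ρ g) = LinearMap.trace ℂ (EuclideanSpace ℂ (Fin n)) (ρ 1)) :
    ρ g = 1 := by
  rw [map_one, LinearMap.trace_one] at h
  have b := stdOrthonormalBasis ℂ (EuclideanSpace ℂ (Fin n))
  rw [LinearMap.trace_eq_sum_inner (ρ g) b] at h
  have hn : ∀ x, ‖ρ g x‖ = ‖x‖ := by
    intro x
    have h1 := hu g x x
    rw [inner_self_eq_norm_sq_to_K, inner_self_eq_norm_sq_to_K] at h1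
    have h2 : ‖ρ g x‖ ^ 2 = ‖x‖ ^ 2 := by exact_mod_cast h1
    exact (pow_left_inj₀ (norm_nonneg _) (norm_nonneg _) two_ne_zero).1 h2
  have hd : ∀ i, ‖ρ g (b i) - b i‖ ^ 2 = 2 - 2 * (inner ℂ (b i) (ρ g (b i))).re := by
    intro i
    have hc : (inner ℂ (ρ g (b i)) (b i)).re = (inner ℂ (b i) (ρ g (b i))).re := by
      rw [← inner_conj_symm (ρ g (b i)) (b i), Complex.conj_re]
    rw [norm_sub_sq (𝕜 := ℂ), hn, b.norm_eq_one i]
    show (1 : ℝ) ^ 2 - 2 * (inner ℂ (ρ g (b i)) (b i)).re + 1 ^ 2 = 2 - 2 * (inner ℂ (b i) (ρ g (b i))).re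
    rw [hc]
    ring
  have hsum : ∑ i, ‖ρ g (b i) - b i‖ ^ 2 = 0 := by
    rw [sum_congr rfl fun i _ => hd i, sum_sub_distrib, ← mul_sum]
    have h3 := congrArg Complex.re h
    rw [Complex.re_sum, Complex.natCast_re] at h3
    rw [h3, sum_const, card_univ, nsmul_eq_mul, Fintype.card_fin]
    ring
  have hz : ∀ i, ρ g (b i) = b i := by
    intro i
    have h4 := (sum_eq_zero_iff_of_nonneg fun i _ => sq_nonneg ‖ρ g (b i) - b i‖).1 hsum i (mem_univ i)
    exact sub_eq_zero.1 (norm_eq_zero.1 (pow_eq_zero_iff two_ne_zero |>.1 h4))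
  apply b.toBasis.ext
  intro i
  rw [b.coe_toBasis]
  exact hz i

open Classical in
private theorem sum_zero_Lin (K : Subgroup H) [hN : K.Normal] {ψ : H → ℂ} (hψ : IsIrr ψ)
    (h : ¬ ∀ k ∈ K, ψ k = ψ 1) : ∑ k, (if k ∈ K then ψ k else 0) = 0 := by
  obtain ⟨n, ρ, hirr, hu, hch⟩ := hψ
  set P : EuclideanSpace ℂ (Fin n) →ₗ[ℂ] EuclideanSpace ℂ (Fin n) := ∑ k : H, (if k ∈ K then ρ k else 0) with hP
  have hPv : ∀ v, P v = ∑ k : H, (if k ∈ K then ρ k v else 0) := by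
    intro v
    rw [hP, LinearMap.sum_apply]
    refine sum_congr rfl fun k _ => ?_
    split_ifs <;> rfl
  have hcomm : ∀ g x, P (ρ g x) = ρ g (P x) := by
    intro g x
    rw [hPv, hPv, map_sum]
    refine Fintype.sum_equiv (MulAut.conj g⁻¹).toEquiv _ _ fun k => ?_
    show (if k ∈ K then ρ k (ρ g x) else 0) =
      ρ g (if (g⁻¹ * k * g⁻¹⁻¹) ∈ K then ρ (g⁻¹ * k * g⁻¹⁻¹) x else 0)
    rw [inv_inv]
    have h1 : g⁻¹ * k * g ∈ K ↔ k ∈ K := by
      constructor
      · intro h2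
        have h3 := hN.conj_mem _ h2 g
        have h4 : g * (g⁻¹ * k * g) * g⁻¹ = k := by group
        rwa [h4] at h3
      · intro h2
        have h3 := hN.conj_mem _ h2 g⁻¹
        rwa [inv_inv] at h3
    by_cases hk : k ∈ K
    · rw [if_pos hk, if_pos (h1.2 hk), ← Module.End.mul_apply, ← map_mul, ← Module.End.mul_apply, ← map_mul]
      congr 2
      group
    · rw [if_neg hk, if_neg (fun h' => hk (h1.1 h')), map_zero]
  obtain ⟨c, hc⟩ := Pool.Agent.H93.Hup.schur ρ hirr P hcomm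
  have hkP : ∀ k ∈ K, ∀ x, ρ k (P x) = P x := by
    intro k hk x
    rw [hPv, map_sum]
    refine Fintype.sum_equiv (Equiv.mulLeft k) _ _ fun h => ?_
    show ρ k (if h ∈ K then ρ h x else 0) = if k * h ∈ K then ρ (k * h) x else 0
    have h1 : k * h ∈ K ↔ h ∈ K := K.mul_mem_cancel_left hk
    by_cases hh : h ∈ K
    · rw [if_pos hh, if_pos (h1.2 hh), map_mul]
      rfl
    · rw [if_neg hh, if_neg (fun h' => hh (h1.1 h')), map_zero]
  have hc0 : c = 0 := by
    by_contra hc0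
    apply h
    intro k hk
    have h3 : ρ k = ρ 1 := by
      rw [map_one]
      apply LinearMap.ext
      intro x
      have h2 := hkP k hk x
      rw [hc, map_smul] at h2
      exact smul_right_injective _ hc0 h2
    rw [hch, hch, h3]
  have ht : LinearMap.trace ℂ (EuclideanSpace ℂ (Fin n)) P = ∑ k, (if k ∈ K then ψ k else 0) := by
    rw [hP, map_sum]
    refine sum_congr rfl fun k _ => ?_
    split_ifs
    · exact (hch k).symm
    · exact map_zero _
  rw [← ht]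
  have h0 : P = 0 := by
    apply LinearMap.ext
    intro x
    rw [hc, hc0, zero_smul]
    rfl
  rw [h0, map_zero]

omit [Fintype H] in
private theorem mem_Lin {K : Subgroup H} {θ : H → ℂ} : θ ∈ lin K ↔ θ ∈ irr H ∧ θ 1 = 1 ∧ ∀ k ∈ K, θ k = 1 := by
  classical
  unfold lin
  exact mem_filter

theorem lin_props {K : Subgroup H} {θ : H → ℂ} (hθ : θ ∈ lin K) : IsLin θ ∧ (∀ k ∈ K, θ k = 1) ∧ IsIrr θ := by
  rw [mem_Lin] at hθ
  exact ⟨lin_of_deg (mem_irr.1 hθ.1) hθ.2.1, hθ.2.2, mem_irr.1 hθ.1⟩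

theorem cj_mem_lin {K : Subgroup H} {θ : H → ℂ} (hθ : θ ∈ lin K) : cj θ ∈ lin K := by
  rw [mem_Lin] at hθ ⊢
  refine ⟨mem_irr.2 (irr_cj (mem_irr.1 hθ.1)), ?_, fun k hk => ?_⟩
  · show (starRingEnd ℂ) (θ 1) = 1
    rw [hθ.2.1, map_one]
  · show (starRingEnd ℂ) (θ k) = 1
    rw [hθ.2.2 k hk, map_one]

theorem tw_mem {K : Subgroup H} {ψ θ : H → ℂ} (hψ : ψ ∈ irr H) (hθ : θ ∈ lin K) : tw ψ θ ∈ irr H :=
  mem_irr.2 (irr_tw (mem_irr.1 hψ) (lin_props hθ).1)

private theorem mem_lin_of_Lin (K : Subgroup H) (hK : ∀ x y : H, x * y * x⁻¹ * y⁻¹ ∈ K) {ψ : H → ℂ}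
    (hψ : ψ ∈ irr H) (h : ∀ k ∈ K, ψ k = ψ 1) : ψ ∈ lin K := by
  classical
  have hψ0 := mem_irr.1 hψ
  obtain ⟨n, ρ, hirr, hu, hch⟩ := hψ0
  have hone : ∀ k ∈ K, ρ k = 1 := by
    intro k hk
    apply triv_op_Lin hu
    rw [← hch, ← hch, h k hk]
  have hcomm : ∀ x y, ρ x * ρ y = ρ y * ρ x := by
    intro x y
    have h1 : x * y = (x * y * x⁻¹ * y⁻¹) * (y * x) := by group
    rw [← map_mul, ← map_mul, h1, map_mul, hone _ (hK x y), one_mul]
  have hs : ∀ g, ∃ c : ℂ, ∀ x, ρ g x = c • x := by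
    intro g
    exact Pool.Agent.H93.Hup.schur ρ hirr (ρ g) fun y x => LinearMap.congr_fun (hcomm g y) x
  choose c hc using hs
  have hn : ψ 1 = n := by
    rw [hch, map_one, LinearMap.trace_one, finrank_euclideanSpace_fin]
  have hcn : ∀ g, ‖c g‖ = 1 := by
    intro g
    obtain ⟨x, hx⟩ := hirr.1
    have h1 := hu g x x
    rw [inner_self_eq_norm_sq_to_K, inner_self_eq_norm_sq_to_K] at h1
    have h2 : ‖ρ g x‖ ^ 2 = ‖x‖ ^ 2 := by exact_mod_cast h1
    have h3 := (pow_left_inj₀ (norm_nonneg _) (norm_nonneg _) two_ne_zero).1 h2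
    rw [hc, norm_smul] at h3
    have h4 : ‖x‖ ≠ 0 := norm_ne_zero_iff.2 hx
    exact mul_right_cancel₀ h4 (by rw [h3, one_mul])
  have hψg : ∀ g, ψ g = c g * n := by
    intro g
    have h1 : ρ g = c g • (1 : EuclideanSpace ℂ (Fin n) →ₗ[ℂ] EuclideanSpace ℂ (Fin n)) := by
      apply LinearMap.ext
      intro x
      rw [hc]
      rfl
    rw [hch, h1, map_smul, LinearMap.trace_one, finrank_euclideanSpace_fin, smul_eq_mul]
  have h1 := ip_self (mem_irr.1 hψ)
  have h2 : ∀ x, ψ x * (starRingEnd ℂ) (ψ x) = (n : ℂ) ^ 2 := by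
    intro x
    rw [Complex.mul_conj, hψg, Complex.normSq_eq_norm_sq, norm_mul, hcn, one_mul]
    simp
  have hH : (Nat.card H : ℂ) ≠ 0 := by exact_mod_cast Nat.card_pos.ne'
  rw [ip, sum_congr rfl fun x _ => h2 x, sum_const, card_univ, nsmul_eq_mul, ← Nat.card_eq_fintype_card,
    one_div, inv_mul_cancel_left₀ hH] at h1
  have h3 : n = 1 := by
    have h4 : n ^ 2 = 1 := by exact_mod_cast h1
    nlinarith
  rw [mem_Lin]
  refine ⟨hψ, ?_, fun k hk => ?_⟩
  · rw [hn, h3, Nat.cast_one]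
  · rw [h k hk, hn, h3, Nat.cast_one]

open Classical in
theorem lin_sum (K : Subgroup H) [K.Normal] (hK : ∀ x y : H, x * y * x⁻¹ * y⁻¹ ∈ K) (x : H) :
    ∑ θ ∈ lin K, θ x = if x ∈ K then (K.index : ℂ) else 0 := by
  have hN : K.Normal := inferInstance
  set f : H → ℂ := fun x => if x ∈ K then (K.index : ℂ) else 0 with hf
  have hcl : IsCl f := by
    intro g y
    have h1 : y * g * y⁻¹ ∈ K ↔ g ∈ K := by
      constructor
      · intro h2
        have h3 := hN.conj_mem _ h2 y⁻¹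
        have h4 : y⁻¹ * (y * g * y⁻¹) * y⁻¹⁻¹ = g := by group
        rwa [h4] at h3
      · intro h2
        exact hN.conj_mem _ h2 y
    show (if y * g * y⁻¹ ∈ K then (K.index : ℂ) else 0) = if g ∈ K then (K.index : ℂ) else 0
    by_cases hg : g ∈ K
    · rw [if_pos hg, if_pos (h1.2 hg)]
    · rw [if_neg hg, if_neg fun h' => hg (h1.1 h')]
  have hH : (Nat.card H : ℂ) ≠ 0 := by exact_mod_cast Nat.card_pos.ne'
  have hip : ∀ ψ ∈ irr H, ip f ψ = if ψ ∈ lin K then 1 else 0 := by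
    intro ψ hψ
    have h1 : ip f ψ = (1 / (Nat.card H : ℂ)) * ((K.index : ℂ) * (starRingEnd ℂ) (∑ k, (if k ∈ K then ψ k else 0))) := by
      rw [ip, map_sum]
      congr 1
      rw [mul_sum]
      refine sum_congr rfl fun k _ => ?_
      show (if k ∈ K then (K.index : ℂ) else 0) * (starRingEnd ℂ) (ψ k) = _
      split_ifs
      · rfl
      · rw [map_zero, zero_mul, mul_zero]
    by_cases hl : ψ ∈ lin K
    · rw [if_pos hl, h1]
      have h2 : ∑ k, (if k ∈ K then ψ k else 0) = (Nat.card K : ℂ) := by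
        have h3 : ∀ k, (if k ∈ K then ψ k else 0) = if k ∈ K then (1 : ℂ) else 0 := by
          intro k
          split_ifs with hk
          · exact (lin_props hl).2.1 k hk
          · rfl
        rw [sum_congr rfl fun k _ => h3 k, ← sum_filter, sum_const, nsmul_eq_mul, mul_one,
          ← Fintype.card_subtype, ← Nat.card_eq_fintype_card]
      rw [h2, Complex.conj_natCast, ← Nat.cast_mul, Subgroup.index_mul_card, one_div, inv_mul_cancel₀ hH]
    · rw [if_neg hl, h1]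
      have h2 : ¬ ∀ k ∈ K, ψ k = ψ 1 := fun h' => hl (mem_lin_of_Lin K hK hψ h')
      rw [sum_zero_Lin K (mem_irr.1 hψ) h2, map_zero, mul_zero, mul_zero]
  have h2 := expand hcl x
  have h6 : ∀ ψ ∈ irr H, ip f ψ * ψ x = (if ψ ∈ lin K then (1 : ℂ) else 0) * ψ x := by
    intro ψ hψ
    rw [hip ψ hψ]
  rw [sum_congr rfl h6] at h2
  have h3 : ∑ ψ ∈ irr H, (if ψ ∈ lin K then (1 : ℂ) else 0) * ψ x = ∑ θ ∈ lin K, θ x := by
    have h4 : (irr H).filter (fun ψ => ψ ∈ lin K) = lin K := by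
      ext ψ
      rw [mem_filter]
      constructor
      · exact fun h => h.2
      · intro h
        exact ⟨mem_irr.2 (lin_props h).2.2, h⟩
    have h5 : ∀ ψ : H → ℂ, (if ψ ∈ lin K then (1 : ℂ) else 0) * ψ x = if ψ ∈ lin K then ψ x else 0 := by
      intro ψ
      split_ifs
      · rw [one_mul]
      · rw [zero_mul]
    rw [sum_congr rfl fun ψ _ => h5 ψ, ← sum_filter, h4]
  rw [← h3, ← h2]

theorem lin_card (K : Subgroup H) [K.Normal] (hK : ∀ x y : H, x * y * x⁻¹ * y⁻¹ ∈ K) : (lin K).card = K.index := by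
  classical
  have h := lin_sum K hK 1
  rw [if_pos K.one_mem, sum_congr rfl fun θ hθ => (lin_props hθ).1.1, sum_const, nsmul_eq_mul, mul_one] at h
  exact_mod_cast h

/-- an irreducible character trivial on `K` is in `lin K` -/
theorem mem_lin_of (K : Subgroup H) [K.Normal] (hK : ∀ x y : H, x * y * x⁻¹ * y⁻¹ ∈ K) {ψ : H → ℂ} (hψ : ψ ∈ irr H)
    (h : ∀ k ∈ K, ψ k = ψ 1) : ψ ∈ lin K := mem_lin_of_Lin K hK hψ h

end Pool.Agent.H6.FF
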