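import Pool.Agent.H6.FF.Defs
import Pool.Agent.H6.FF.Lin

set_option autoImplicit false

/-!
PROJECT FF (MP_bf82d2_ag, BoundedGroup, note 6093), module Fib.
Every `ψ'` is at most `(ψ 1)^2` times of the form `ψ θ`.
PROOF. For `ψ, ψ'` in `irr H` the number of the `θ ∈ lin K` with `tw ψ θ = ψ'` is `∑ θ, ip (tw ψ θ) ψ'` (`ip_self`, `ip_ne`, `tw_mem`)
`= (1/|H|) ∑ x, ψ x * conj (ψ' x) * ∑ θ, θ x = (1/|K|) ∑_{x ∈ K} ψ x * conj (ψ' x)` (`lin_sum`), of absolute value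
`≤ (ψ 1) (ψ' 1) ≤ b ^ 2` (`norm_le_of_irr`). Then `∑ θ, T (tw ψ θ) = ∑ ψ', (number) * T ψ'` (`Finset.sum_fiberwise_of_maps_to`).
-/

namespace Pool.Agent.H6.FF

open Finset Module

variable {H : Type} [Group H] [Fintype H]

open Classical in
private theorem card_le_Fib (K : Subgroup H) [K.Normal] (hK : ∀ x y : H, x * y * x⁻¹ * y⁻¹ ∈ K) {ψ ψ' : H → ℂ}
    (hψ : ψ ∈ irr H) (hψ' : ψ' ∈ irr H) :
    (((lin K).filter fun θ => tw ψ θ = ψ').card : ℝ) ≤ (ψ 1).re * (ψ' 1).re := by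
  have h1 : (((lin K).filter fun θ => tw ψ θ = ψ').card : ℂ) = ∑ θ ∈ lin K, ip (tw ψ θ) ψ' := by
    rw [← Finset.sum_boole]
    refine sum_congr rfl fun θ hθ => ?_
    by_cases h : tw ψ θ = ψ'
    · rw [if_pos h, h, ip_self (mem_irr.1 hψ')]
    · rw [if_neg h, ip_ne (mem_irr.1 (tw_mem hψ hθ)) (mem_irr.1 hψ') h]
  have h2 : ∑ θ ∈ lin K, ip (tw ψ θ) ψ' = (1 / (Nat.card H : ℂ)) *
      ∑ x, ψ x * (starRingEnd ℂ) (ψ' x) * (if x ∈ K then (K.index : ℂ) else 0) := by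
    simp only [ip, tw]
    rw [← mul_sum, sum_comm]
    congr 1
    refine sum_congr rfl fun x _ => ?_
    rw [← lin_sum K hK x, mul_sum]
    exact sum_congr rfl fun θ _ => by ring
  have hpos : (0 : ℝ) < Nat.card H := by exact_mod_cast Nat.card_pos
  have h3 : ‖(((lin K).filter fun θ => tw ψ θ = ψ').card : ℂ)‖ ≤ (1 / (Nat.card H : ℝ)) *
      ∑ x : H, (if x ∈ K then (ψ 1).re * (ψ' 1).re * K.index else 0) := by
    rw [h1, h2, norm_mul, norm_div, norm_one, Complex.norm_natCast]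
    refine mul_le_mul_of_nonneg_left ?_ (by positivity)
    refine (norm_sum_le _ _).trans (sum_le_sum fun x _ => ?_)
    by_cases hx : x ∈ K
    · rw [if_pos hx, if_pos hx, norm_mul, norm_mul, Complex.norm_natCast, RCLike.norm_conj]
      have h4 := norm_le_of_irr (mem_irr.1 hψ) x
      have h5 := norm_le_of_irr (mem_irr.1 hψ') x
      exact mul_le_mul_of_nonneg_right
        (mul_le_mul h4 h5 (norm_nonneg _) ((norm_nonneg _).trans h4)) (Nat.cast_nonneg _)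
    · rw [if_neg hx, if_neg hx, mul_zero, norm_zero]
  rw [Complex.norm_natCast] at h3
  refine h3.trans (le_of_eq ?_)
  have h6 : ∑ x : H, (if x ∈ K then (ψ 1).re * (ψ' 1).re * K.index else 0) =
      (Nat.card K : ℝ) * ((ψ 1).re * (ψ' 1).re * K.index) := by
    rw [← sum_filter, sum_const, nsmul_eq_mul]
    congr 2
    rw [Nat.card_eq_fintype_card, Fintype.card_subtype]
  have h7 : (Nat.card K : ℝ) * K.index = Nat.card H := by exact_mod_cast K.card_mul_index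
  rw [h6, ← h7]
  have h8 : (Nat.card K : ℝ) * K.index ≠ 0 := by rw [h7]; exact hpos.ne'
  rw [one_div, inv_mul_eq_iff_eq_mul₀ h8]
  ring

theorem sum_tw_le (K : Subgroup H) [K.Normal] (hK : ∀ x y : H, x * y * x⁻¹ * y⁻¹ ∈ K) {T : (H → ℂ) → ℝ}
    (hT : ∀ ψ ∈ irr H, 0 ≤ T ψ) {b : ℝ} (hb : ∀ ψ ∈ irr H, (ψ 1).re ≤ b) {ψ : H → ℂ} (hψ : ψ ∈ irr H) :
    ∑ θ ∈ lin K, T (tw ψ θ) ≤ b ^ 2 * ∑ ψ' ∈ irr H, T ψ' := by
  classical
  rw [← sum_fiberwise_of_maps_to (s := lin K) (t := irr H) (g := fun θ => tw ψ θ) (fun θ hθ => tw_mem hψ hθ)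
    (fun θ => T (tw ψ θ)), mul_sum]
  refine sum_le_sum fun ψ' hψ' => ?_
  have h1 : ∑ θ ∈ (lin K).filter (fun θ => tw ψ θ = ψ'), T (tw ψ θ) =
      (((lin K).filter fun θ => tw ψ θ = ψ').card : ℝ) * T ψ' := by
    rw [← nsmul_eq_mul, ← sum_const]
    refine sum_congr rfl fun θ hθ => ?_
    rw [(mem_filter.1 hθ).2]
  rw [h1]
  refine mul_le_mul_of_nonneg_right ?_ (hT ψ' hψ')
  have h2 : ∀ φ ∈ irr H, 0 ≤ (φ 1).re := fun φ hφ => (norm_nonneg _).trans (norm_le_of_irr (mem_irr.1 hφ) 1)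
  refine (card_le_Fib K hK hψ hψ').trans ?_
  rw [sq]
  exact mul_le_mul (hb ψ hψ) (hb ψ' hψ') (h2 ψ' hψ') ((h2 ψ hψ).trans (hb ψ hψ))

end Pool.Agent.H6.FF
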