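import Pool.Agent.H6.FF.Defs
import Pool.Agent.H6.FF.IrrB
import Pool.Agent.H6.FF.IrrC
import Pool.Agent.H6.FF.IrrD
import Pool.Agent.H6.FF.FS

set_option autoImplicit false

/-!
PROJECT FF (MP_bf82d2_ag, BoundedGroup, note 6093), module Sta.
The sum of the contributions.
PROOF. `sum_TT`: `(1/|H|) ∑ f^2 = ip f (cj f) = ∑ ψ, ip f ψ * ip f (cj ψ)` by `parseval` (`conj (ip (cj f) ψ) = ip f (cj ψ)`), and
`(1/|H|) ∑ x, f (x * τ x * z) = ∑ ψ, ip f ψ * fs τ z ψ` by `expand`. `TT_cases`: `mult_nat`, `fs_cases`; if `fs ≠ 0` then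
`cj ψ = ψ ∘ τ` and `ip f (ψ ∘ τ) = ip f ψ` as `f ∘ τ = f` (reindex the sum by `τ`).
-/

namespace Pool.Agent.H6.FF

open Finset Module

variable {H : Type} [Group H] [Fintype H]

private theorem ip_cj_Sta (f ψ : H → ℂ) : (starRingEnd ℂ) (ip (cj f) ψ) = ip f (cj ψ) := by
  unfold ip cj
  rw [map_mul, map_sum]
  have h1 : (starRingEnd ℂ) (1 / (Nat.card H : ℂ)) = 1 / (Nat.card H : ℂ) := by
    rw [map_div₀, map_one, Complex.conj_natCast]
  rw [h1]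
  refine congrArg _ (Finset.sum_congr rfl fun x _ => ?_)
  rw [map_mul, Complex.conj_conj]

private theorem sq_Sta {f : H → ℂ} (hf : IsCl f) :
    (1 / (Nat.card H : ℂ)) * ∑ x, f x ^ 2 = ∑ ψ ∈ irr H, ip f ψ * ip f (cj ψ) := by
  have hcl : IsCl (cj f) := fun g x => by simp only [cj]; rw [hf g x]
  have h1 := parseval hf hcl
  have h2 : ip f (cj f) = (1 / (Nat.card H : ℂ)) * ∑ x, f x ^ 2 := by
    unfold ip cj
    refine congrArg _ (Finset.sum_congr rfl fun x _ => ?_)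
    rw [Complex.conj_conj, sq]
  rw [← h2, h1]
  exact Finset.sum_congr rfl fun ψ _ => by rw [ip_cj_Sta]

private theorem fs_Sta (τ : H ≃* H) (z : H) {f : H → ℂ} (hf : IsCl f) :
    (1 / (Nat.card H : ℂ)) * ∑ x, f (x * τ x * z) = ∑ ψ ∈ irr H, fs τ z ψ * ip f ψ := by
  have h1 : ∀ x : H, f (x * τ x * z) = ∑ ψ ∈ irr H, ip f ψ * ψ (x * τ x * z) := fun x => expand hf _
  rw [Finset.sum_congr rfl fun x _ => h1 x, Finset.sum_comm, Finset.mul_sum]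
  refine Finset.sum_congr rfl fun ψ _ => ?_
  unfold fs
  rw [← Finset.mul_sum]
  ring

theorem sum_TT (τ : H ≃* H) (z : H) {f : H → ℂ} (hf : IsCl f) :
    ∑ ψ ∈ irr H, TT τ z f ψ = ((1 / (Nat.card H : ℂ)) * ∑ x, (f x ^ 2 + f (x * τ x * z))).re := by
  unfold TT
  rw [← Complex.re_sum, Finset.sum_add_distrib, Finset.sum_add_distrib, mul_add, sq_Sta hf, fs_Sta τ z hf]

private theorem ip_tau_Sta (τ : H ≃* H) {f ψ : H → ℂ} (hfτ : ∀ x, f (τ x) = f x)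
    (hψ : ∀ x, ψ (τ x) = (starRingEnd ℂ) (ψ x)) : ip f (cj ψ) = ip f ψ := by
  unfold ip cj
  refine congrArg _ ?_
  rw [← Equiv.sum_comp τ.toEquiv (fun x => f x * (starRingEnd ℂ) (ψ x))]
  refine Finset.sum_congr rfl fun x _ => ?_
  have h1 : τ.toEquiv x = τ x := rfl
  rw [h1, hfτ, hψ]

theorem TT_cases (τ : H ≃* H) (z : H) (hz : τ z = z) (hτ : ∀ x, τ (τ x) = z * x * z⁻¹)
    {E : Type} [AddCommGroup E] [Module ℂ E] [FiniteDimensional ℂ E] (σ : Representation ℂ H E) {f : H → ℂ}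
    (hfσ : ∀ x, LinearMap.trace ℂ E (σ x) = f x) (hfτ : ∀ x, f (τ x) = f x) {ψ : H → ℂ} (hψ : IsIrr ψ) :
    ∃ m m' : ℕ, ip f ψ = m ∧ ip f (cj ψ) = m' ∧
      ((fs τ z ψ = 0 ∧ TT τ z f ψ = m * m') ∨ (fs τ z ψ = 1 ∧ m = m' ∧ TT τ z f ψ = m * m + m) ∨
        (fs τ z ψ = -1 ∧ m = m' ∧ TT τ z f ψ = m * m - m)) := by
  have hf : (fun x => LinearMap.trace ℂ E (σ x)) = f := funext hfσ
  obtain ⟨m, hm⟩ := mult_nat σ hψ
  obtain ⟨m', hm'⟩ := mult_nat σ (irr_cj hψ)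
  rw [hf] at hm hm'
  refine ⟨m, m', hm, hm', ?_⟩
  have hre : ∀ k : ℕ, ((k : ℂ)).re = k := fun k => Complex.natCast_re k
  have him : ∀ k : ℕ, ((k : ℂ)).im = 0 := fun k => Complex.natCast_im k
  rcases fs_cases τ z hz hτ hψ with h0 | ⟨h1, hc⟩
  · left
    refine ⟨h0, ?_⟩
    unfold TT
    rw [h0, hm, hm']
    simp
  · have hmm : m = m' := by
      have h2 := ip_tau_Sta τ hfτ hc
      rw [hm, hm'] at h2
      exact_mod_cast h2.symm
    rcases h1 with h1 | h1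
    · right; left
      refine ⟨h1, hmm, ?_⟩
      unfold TT
      rw [h1, hm, hm', ← hmm]
      simp
    · right; right
      refine ⟨h1, hmm, ?_⟩
      unfold TT
      rw [h1, hm, hm', ← hmm]
      simp [sub_eq_add_neg]

theorem TT_nonneg (τ : H ≃* H) (z : H) (hz : τ z = z) (hτ : ∀ x, τ (τ x) = z * x * z⁻¹)
    {E : Type} [AddCommGroup E] [Module ℂ E] [FiniteDimensional ℂ E] (σ : Representation ℂ H E) {f : H → ℂ}
    (hfσ : ∀ x, LinearMap.trace ℂ E (σ x) = f x) (hfτ : ∀ x, f (τ x) = f x) {ψ : H → ℂ} (hψ : IsIrr ψ) :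
    0 ≤ TT τ z f ψ := by
  obtain ⟨m, m', -, -, h⟩ := TT_cases τ z hz hτ σ hfσ hfτ hψ
  rcases h with ⟨-, h⟩ | ⟨-, -, h⟩ | ⟨-, -, h⟩
  · rw [h]; positivity
  · rw [h]; positivity
  · rw [h]
    rcases Nat.eq_zero_or_pos m with h0 | h0
    · rw [h0]; simp
    · have h1 : (1 : ℝ) ≤ m := by exact_mod_cast h0
      nlinarith

end Pool.Agent.H6.FF
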