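import Pool.Agent.H6.FF.Defs
import Pool.Agent.H6.FF.Fib
import Pool.Agent.H6.FF.Sta

set_option autoImplicit false

/-!
PROJECT FF (MP_bf82d2_ag, BoundedGroup, note 6093), module FamA.
Case G1: the families.
PROOF. `f = trace σ`. For `θ ∈ lin K`: `ip f (tw ψ θ) = [tw ψ θ = 1] + mu K (f - 1) ψ`: `f = 1 + (f - 1)`, `f - 1 = 0` outside `K`, `θ = 1` on
`K`; `ip 1 ψ' = [ψ' = 1]` (`ip_self`, `ip_ne`; the constant `1` is irreducible, `irr_lin`). Likewise for `cj ψ`, `cj θ`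
(`cj (tw ψ θ) = tw (cj ψ) (cj θ)`). `fs τ z (tw ψ θ) = fs τ z ψ` as `θ (x τ x z) = 1` (`hsq`). `∑ θ, TT (tw ψ θ) ≤ b^2 B`
(`sum_tw_le`, `sum_TT`, `TT_nonneg`). At most one `θ` has `tw ψ θ = 1` (then `θ = cj ψ`, `ψ` linear); for the others `TT (tw ψ θ)`
is the same number, given by `TT_cases`, with `m = mu K (f-1) ψ`, `m' = mu K (f-1) (cj ψ)`: a natural number `t` with
`(K.index - 1) t ≤ b^2 B < K.index - 1`, so `t = 0` (`lin_card`; `K.index ≥ 2` by `hbig` and `0 ≤ B`). `mu_lin`: on `K` `θ = 1`, so `mu = (1/|H|) ∑_{k ∈ K} (f k - 1) = 0`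
(`hsum`).
-/

namespace Pool.Agent.H6.FF

open Finset Module

variable {H : Type} [Group H] [Fintype H]

private theorem one_irr_FamA : IsIrr (fun _ : H => (1 : ℂ)) :=
  irr_lin ⟨rfl, fun _ _ => (one_mul 1).symm, fun _ => by simp⟩

private theorem cl_FamA {E : Type} [AddCommGroup E] [Module ℂ E] [FiniteDimensional ℂ E]
    (σ : Representation ℂ H E) {f : H → ℂ} (hfσ : ∀ x, LinearMap.trace ℂ E (σ x) = f x) : IsCl f := by
  intro g x
  have h1 : σ (x * g * x⁻¹) = σ (x * g) * σ x⁻¹ := map_mul σ _ _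
  have h2 : σ x⁻¹ * σ (x * g) = σ g := by
    rw [← map_mul σ, ← mul_assoc, inv_mul_cancel, one_mul]
  rw [← hfσ, ← hfσ, h1, LinearMap.trace_mul_comm, h2]

private theorem ip_tw_FamA (K : Subgroup H) {f : H → ℂ} (hoff : ∀ x, x ∉ K → f x = 1) {ψ θ : H → ℂ}
    (hψ : ψ ∈ irr H) (hθ : θ ∈ lin K) (hne : tw ψ θ ≠ fun _ => 1) :
    ip f (tw ψ θ) = mu K (fun x => f x - 1) ψ := by
  have h1 : ip (fun _ => (1 : ℂ)) (tw ψ θ) = 0 :=
    ip_ne one_irr_FamA (mem_irr.1 (tw_mem hψ hθ)) hne.symm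
  have h2 : ip f (tw ψ θ) = ip (fun _ => (1 : ℂ)) (tw ψ θ) + mu K (fun x => f x - 1) ψ := by
    unfold ip mu
    rw [← mul_add, ← sum_add_distrib]
    congr 1
    refine sum_congr rfl fun x _ => ?_
    by_cases hx : x ∈ K
    · rw [if_pos hx]
      have h3 : tw ψ θ x = ψ x := by
        show ψ x * θ x = ψ x
        rw [(lin_props hθ).2.1 x hx, mul_one]
      rw [h3]
      ring
    · rw [if_neg hx, hoff x hx]
      ring
  rw [h2, h1, zero_add]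

private theorem cj_tw_FamA (ψ θ : H → ℂ) : cj (tw ψ θ) = tw (cj ψ) (cj θ) := by
  funext x
  exact map_mul _ _ _

private theorem fs_tw_FamA (τ : H ≃* H) (z : H) (K : Subgroup H) (hsq : ∀ x, x * τ x * z ∈ K)
    {ψ θ : H → ℂ} (hθ : θ ∈ lin K) : fs τ z (tw ψ θ) = fs τ z ψ := by
  unfold fs
  congr 1
  refine sum_congr rfl fun x _ => ?_
  show ψ (x * τ x * z) * θ (x * τ x * z) = ψ (x * τ x * z)
  rw [(lin_props hθ).2.1 _ (hsq x), mul_one]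

open Classical in
private theorem card_FamA (K : Subgroup H) [K.Normal] (hK : ∀ x y : H, x * y * x⁻¹ * y⁻¹ ∈ K) (ψ : H → ℂ) :
    K.index ≤ ((lin K).filter fun θ => tw ψ θ ≠ fun _ => 1).card + 1 := by
  have h1 : ((lin K).filter fun θ => ¬ (tw ψ θ ≠ fun _ => 1)).card ≤ 1 := by
    rw [card_le_one]
    intro θ hθ θ' hθ'
    rw [mem_filter, not_not] at hθ hθ'
    funext x
    have h2 : ψ x * θ x = 1 := congrFun hθ.2 x
    have h3 : ψ x * θ' x = 1 := congrFun hθ'.2 x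
    have h4 : ψ x ≠ 0 := left_ne_zero_of_mul (by rw [h2]; exact one_ne_zero)
    exact mul_left_cancel₀ h4 (h2.trans h3.symm)
  have h2 := card_filter_add_card_filter_not (s := lin K) (fun θ => tw ψ θ ≠ fun _ => 1)
  rw [lin_card K hK] at h2
  omega

open Classical in
theorem g1_fam (τ : H ≃* H) (z : H) (hz : τ z = z) (hτ : ∀ x, τ (τ x) = z * x * z⁻¹) (K : Subgroup H) [K.Normal]
    (hK : ∀ x y : H, x * y * x⁻¹ * y⁻¹ ∈ K) (hsq : ∀ x, x * τ x * z ∈ K)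
    {E : Type} [AddCommGroup E] [Module ℂ E] [FiniteDimensional ℂ E] (σ : Representation ℂ H E) {f : H → ℂ}
    (hfσ : ∀ x, LinearMap.trace ℂ E (σ x) = f x) (hfτ : ∀ x, f (τ x) = f x) (hoff : ∀ x, x ∉ K → f x = 1)
    {b B : ℝ} (hb : ∀ ψ ∈ irr H, (ψ 1).re ≤ b)
    (hB : ((1 / (Nat.card H : ℂ)) * ∑ x, (f x ^ 2 + f (x * τ x * z))).re ≤ B)
    (hbig : b ^ 2 * B + 1 < K.index) {ψ : H → ℂ} (hψ : ψ ∈ irr H) :
    ∃ m m' : ℕ, mu K (fun x => f x - 1) ψ = m ∧ mu K (fun x => f x - 1) (cj ψ) = m' ∧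
      ((fs τ z ψ = 0 ∧ m * m' = 0) ∨ (fs τ z ψ = 1 ∧ m = 0 ∧ m' = 0) ∨ (fs τ z ψ = -1 ∧ m = m' ∧ m ≤ 1)) := by
  have hcl : IsCl f := cl_FamA σ hfσ
  have hTT : ∀ ψ' ∈ irr H, 0 ≤ TT τ z f ψ' := fun ψ' h => TT_nonneg τ z hz hτ σ hfσ hfτ (mem_irr.1 h)
  have hsum : ∑ θ ∈ lin K, TT τ z f (tw ψ θ) ≤ b ^ 2 * B := by
    refine (sum_tw_le K hK hTT hb hψ).trans ?_
    rw [sum_TT τ z hcl]
    exact mul_le_mul_of_nonneg_left hB (sq_nonneg b)
  obtain ⟨Θ, hΘ⟩ : ∃ Θ, Θ = (lin K).filter fun θ => tw ψ θ ≠ fun _ => 1 := ⟨_, rfl⟩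
  have hcard : (K.index : ℝ) ≤ Θ.card + 1 := by
    rw [hΘ]
    exact_mod_cast card_FamA K hK ψ
  have hsumΘ : ∑ θ ∈ Θ, TT τ z f (tw ψ θ) ≤ b ^ 2 * B := by
    refine le_trans ?_ hsum
    rw [hΘ]
    exact sum_le_sum_of_subset_of_nonneg (filter_subset _ _) fun θ hθ _ => hTT _ (tw_mem hψ hθ)
  have hpos : 0 ≤ b ^ 2 * B :=
    (sum_nonneg fun θ hθ => hTT _ (tw_mem hψ hθ)).trans hsum
  have hΘne : Θ.Nonempty := by
    rw [← card_pos]
    have h1 : (0 : ℝ) < Θ.card := by linarith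
    exact_mod_cast h1
  have hψc : cj ψ ∈ irr H := mem_irr.2 (irr_cj (mem_irr.1 hψ))
  have hA : ∀ θ ∈ Θ, ip f (tw ψ θ) = mu K (fun x => f x - 1) ψ ∧
      ip f (cj (tw ψ θ)) = mu K (fun x => f x - 1) (cj ψ) := by
    intro θ hθ
    rw [hΘ, mem_filter] at hθ
    refine ⟨ip_tw_FamA K hoff hψ hθ.1 hθ.2, ?_⟩
    rw [cj_tw_FamA]
    refine ip_tw_FamA K hoff hψc (cj_mem_lin hθ.1) fun h => hθ.2 ?_
    rw [← cj_tw_FamA] at h
    funext x
    have h1 : (starRingEnd ℂ) (tw ψ θ x) = 1 := congrFun h x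
    have h2 := congrArg (starRingEnd ℂ) h1
    rwa [starRingEnd_self_apply, map_one] at h2
  have hconst : ∀ θ ∈ Θ, TT τ z f (tw ψ θ) =
      (mu K (fun x => f x - 1) ψ * mu K (fun x => f x - 1) (cj ψ) +
        fs τ z ψ * mu K (fun x => f x - 1) ψ).re := by
    intro θ hθ
    have h1 := hA θ hθ
    have h2 : θ ∈ lin K := by
      rw [hΘ, mem_filter] at hθ
      exact hθ.1
    unfold TT
    rw [h1.1, h1.2, fs_tw_FamA τ z K hsq h2]
  obtain ⟨θ0, hθ0⟩ := hΘne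
  have hθ0' : θ0 ∈ lin K := by
    rw [hΘ, mem_filter] at hθ0
    exact hθ0.1
  have hsmall : TT τ z f (tw ψ θ0) < 1 := by
    by_contra hcon
    push Not at hcon
    have h1 : ∑ θ ∈ Θ, (1 : ℝ) ≤ ∑ θ ∈ Θ, TT τ z f (tw ψ θ) := by
      refine sum_le_sum fun θ hθ => ?_
      rw [hconst θ hθ, ← hconst θ0 hθ0]
      exact hcon
    rw [sum_const, nsmul_eq_mul, mul_one] at h1
    linarith
  obtain ⟨m, m', hm, hm', hcases⟩ := TT_cases τ z hz hτ σ hfσ hfτ (mem_irr.1 (tw_mem hψ hθ0'))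
  rw [(hA θ0 hθ0).1] at hm
  rw [(hA θ0 hθ0).2] at hm'
  rw [fs_tw_FamA τ z K hsq hθ0'] at hcases
  refine ⟨m, m', hm, hm', ?_⟩
  rcases hcases with ⟨h1, h2⟩ | ⟨h1, h2, h3⟩ | ⟨h1, h2, h3⟩
  · left
    refine ⟨h1, ?_⟩
    rw [h2] at hsmall
    have h4 : m * m' < 1 := by exact_mod_cast hsmall
    omega
  · right; left
    rw [h3] at hsmall
    have h4 : m * m + m < 1 := by exact_mod_cast hsmall
    have h5 : m = 0 := by
      have := Nat.zero_le (m * m)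
      omega
    exact ⟨h1, h5, by rw [← h2, h5]⟩
  · right; right
    rw [h3] at hsmall
    refine ⟨h1, h2, ?_⟩
    by_contra h4
    push Not at h4
    have h5 : (2 : ℝ) ≤ m := by exact_mod_cast h4
    nlinarith

end Pool.Agent.H6.FF
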