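import Pool.Agent.H6.FF.Defs
import Pool.Agent.H82.CO.Eps
import Pool.Agent.H82.CO.Fix

set_option autoImplicit false

/-!
PROJECT FF (MP_bf82d2_ag, BoundedGroup, note 6093), module Fx.
Values of `chi s`. `fx s g` is the number of the fixed points of `g`.
PROOF. `chi_eq` is the definition. `gt s i g`: for `g ≠ 1` each `x` with `x⁻¹ g x ∈ zpowers (s i)` contributes `eps m k` for exactly one
`0 < k < m` (`x⁻¹ g x = s i ^ k`), the others contribute nothing. `re_eps = -1/2` (`Pool/Agent/H82/CO/Eps.lean`) gives `re_chi`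
(see also `chi_re` in `Pool/Agent/H82/CO/Fix.lean`); `eps_eq : eps m k = 1 / (zeta m ^ k - 1)` or directly `‖eps m k‖ ≤ ∑_{a < m} a / m ≤ m`
gives `norm_chi_le`. `chi_one'`: `k = 0`, `eps_zero`.
-/

namespace Pool.Agent.H6.FF

open Finset Module
open Pool.Agent.H82.CO (chi quadInv nu genus eps zeta)

variable {G : Type} [Group G] [Fintype G] {N : ℕ}

open Classical in
theorem chi_eq (s : Fin N → G) (g : G) :
    chi s g = 1 - (if g = 1 then (Nat.card G : ℂ) else 0) + ∑ i, gt s i g := rfl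

private theorem gt_one_Fx (s : Fin N → G) (i : Fin N) :
    gt s i 1 = (((Nat.card G : ℝ) * (1 - 1 / (orderOf (s i) : ℝ)) / 2 : ℝ) : ℂ) := by
  classical
  have hm := orderOf_pos (s i)
  have hm' : (orderOf (s i) : ℂ) ≠ 0 := by exact_mod_cast hm.ne'
  have h1 : ∀ x : G, (∑ k ∈ range (orderOf (s i)),
      if x * s i ^ k * x⁻¹ = 1 then eps (orderOf (s i)) k else 0) =
      (((orderOf (s i) : ℝ) - 1) / 2 : ℝ) := by
    intro x
    rw [sum_eq_single 0]
    · rw [pow_zero, mul_one, mul_inv_cancel, if_pos rfl, Pool.Agent.H82.CO.eps_zero hm]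
    · intro k hk hk0
      rw [if_neg]
      intro h
      have h2 : s i ^ k = 1 := by
        have h3 : s i ^ k = x⁻¹ * (x * s i ^ k * x⁻¹) * x := by group
        rw [h3, h]
        group
      exact hk0 (Nat.eq_zero_of_dvd_of_lt (orderOf_dvd_of_pow_eq_one h2) (mem_range.1 hk))
    · intro h
      exact absurd (mem_range.2 hm) h
  have h2 : gt s i 1 = (1 / (orderOf (s i) : ℂ)) * ∑ x : G, ∑ k ∈ range (orderOf (s i)),
      if x * s i ^ k * x⁻¹ = 1 then eps (orderOf (s i)) k else 0 := rfl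
  rw [h2, sum_congr rfl fun x _ => h1 x, sum_const, card_univ, nsmul_eq_mul, ← Nat.card_eq_fintype_card]
  push_cast
  field_simp

theorem chi_one' (s : Fin N → G) : chi s 1 = ((1 + (Nat.card G : ℝ) * (nu s - 2) / 2 : ℝ) : ℂ) := by
  classical
  rw [chi_eq, if_pos rfl, sum_congr rfl fun i _ => gt_one_Fx s i, ← Complex.ofReal_sum, ← sum_div, ← mul_sum]
  have h1 : nu s = ∑ i, (1 - 1 / (orderOf (s i) : ℝ)) := rfl
  rw [← h1]
  push_cast
  ring

private theorem fP_Fx (c h : G) (hh : h ≠ 1) [Decidable (h ∈ Subgroup.zpowers c)] :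
    Pool.Agent.H82.CO.fP c h = if h ∈ Subgroup.zpowers c then 1 else 0 := by
  have _ : DecidableEq G := Classical.decEq G
  by_cases h1 : h ∈ Subgroup.zpowers c
  · rw [if_pos h1]
    rw [← mem_powers_iff_mem_zpowers, mem_powers_iff_mem_range_orderOf] at h1
    obtain ⟨k, hk, hk2⟩ := mem_image.1 h1
    rw [← hk2]
    refine Pool.Agent.H82.CO.fP_pow c (mem_range.1 hk) ?_
    rintro rfl
    apply hh
    rw [← hk2, pow_zero]
  · rw [if_neg h1]
    refine Pool.Agent.H82.CO.fP_eq_zero fun k _ _ hk => h1 ?_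
    rw [← hk]
    exact Subgroup.pow_mem _ (Subgroup.mem_zpowers c) k

private theorem conj_ne_Fx {g : G} (hg : g ≠ 1) (x : G) : x⁻¹ * g * x ≠ 1 := by
  intro h
  apply hg
  have h1 : g = x * (x⁻¹ * g * x) * x⁻¹ := by group
  rw [h1, h]
  group

open Classical in
private theorem card_Fx (s : Fin N → G) (i : Fin N) (g : G) :
    (Nat.card {u : G // u⁻¹ * g * u ∈ Subgroup.zpowers (s i)} : ℝ) =
      ∑ x : G, if x⁻¹ * g * x ∈ Subgroup.zpowers (s i) then 1 else 0 := by
  rw [Nat.card_eq_fintype_card, Fintype.card_subtype, sum_boole]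

theorem re_chi (s : Fin N → G) {g : G} (hg : g ≠ 1) : (chi s g).re = 1 - fx s g / 2 := by
  classical
  rw [Pool.Agent.H82.CO.chi_re s hg, fx]
  congr 2
  refine sum_congr rfl fun i _ => ?_
  rw [Pool.Agent.H82.CO.indF, card_Fx]
  congr 1
  exact sum_congr rfl fun x _ => fP_Fx (s i) _ (conj_ne_Fx hg x)

theorem fx_nonneg (s : Fin N → G) (g : G) : 0 ≤ fx s g := by
  rw [fx]
  exact sum_nonneg fun i _ => by positivity

theorem fx_le (s : Fin N → G) (g : G) : fx s g ≤ (Nat.card G : ℝ) * N := by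
  rw [fx]
  have h1 : ∀ i : Fin N, (1 / (orderOf (s i) : ℝ)) *
      (Nat.card {u : G // u⁻¹ * g * u ∈ Subgroup.zpowers (s i)} : ℝ) ≤ Nat.card G := by
    intro i
    have h2 : (1 / (orderOf (s i) : ℝ)) ≤ 1 := by
      have h3 : (1 : ℝ) ≤ orderOf (s i) := by exact_mod_cast orderOf_pos (s i)
      rw [div_le_one (by linarith)]
      exact h3
    have h4 : (Nat.card {u : G // u⁻¹ * g * u ∈ Subgroup.zpowers (s i)} : ℝ) ≤ Nat.card G := by
      exact_mod_cast Nat.card_le_card_of_injective _ Subtype.val_injective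
    calc (1 / (orderOf (s i) : ℝ)) * (Nat.card {u : G // u⁻¹ * g * u ∈ Subgroup.zpowers (s i)} : ℝ)
        ≤ 1 * (Nat.card {u : G // u⁻¹ * g * u ∈ Subgroup.zpowers (s i)} : ℝ) :=
          mul_le_mul_of_nonneg_right h2 (Nat.cast_nonneg _)
      _ ≤ Nat.card G := by rw [one_mul]; exact h4
  calc _ ≤ ∑ _i : Fin N, (Nat.card G : ℝ) := sum_le_sum fun i _ => h1 i
    _ = (Nat.card G : ℝ) * N := by
      rw [sum_const, card_univ, Fintype.card_fin, nsmul_eq_mul, mul_comm]

theorem fx_eq_zero (s : Fin N → G) (g : G) : fx s g = 0 ↔ ∀ i u, u⁻¹ * g * u ∉ Subgroup.zpowers (s i) := by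
  rw [fx, sum_eq_zero_iff_of_nonneg fun i _ => by positivity]
  constructor
  · intro h i u hu
    have h1 := h i (mem_univ i)
    have h2 : (1 / (orderOf (s i) : ℝ)) ≠ 0 := by
      have h3 : (orderOf (s i) : ℝ) ≠ 0 := by exact_mod_cast (orderOf_pos (s i)).ne'
      exact one_div_ne_zero h3
    rcases mul_eq_zero.1 h1 with h4 | h4
    · exact h2 h4
    · have h5 : Nat.card {u : G // u⁻¹ * g * u ∈ Subgroup.zpowers (s i)} = 0 := by exact_mod_cast h4
      rcases Nat.card_eq_zero.1 h5 with h6 | h6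
      · exact h6.false ⟨u, hu⟩
      · exact not_finite_iff_infinite.2 h6 inferInstance
  · intro h i _
    have h5 : Nat.card {u : G // u⁻¹ * g * u ∈ Subgroup.zpowers (s i)} = 0 := by
      rw [Nat.card_eq_zero]
      left
      exact ⟨fun u => h i u.1 u.2⟩
    rw [h5, Nat.cast_zero, mul_zero]

private theorem term_Fx (s : Fin N → G) (i : Fin N) (g x : G) (k : ℕ) (h : x * s i ^ k * x⁻¹ = g) :
    x⁻¹ * g * x = s i ^ k := by
  rw [← h]
  group

theorem gt_eq_zero (s : Fin N → G) (i : Fin N) (g : G) (h : ∀ u, u⁻¹ * g * u ∉ Subgroup.zpowers (s i)) :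
    gt s i g = 0 := by
  classical
  rw [gt]
  have h1 : ∀ x : G, ∀ k ∈ range (orderOf (s i)),
      (if x * s i ^ k * x⁻¹ = g then eps (orderOf (s i)) k else 0) = 0 := by
    intro x k _
    rw [if_neg]
    intro h2
    apply h x
    rw [term_Fx s i g x k h2]
    exact Subgroup.pow_mem _ (Subgroup.mem_zpowers (s i)) k
  rw [sum_congr rfl fun x _ => sum_eq_zero (h1 x)]
  simp

theorem chi_eq_one (s : Fin N → G) {g : G} (hg : g ≠ 1) (h : fx s g = 0) : chi s g = 1 := by
  classical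
  rw [fx_eq_zero] at h
  rw [chi_eq, if_neg hg, sum_eq_zero fun i _ => gt_eq_zero s i g (h i)]
  simp

private theorem norm_eps_Fx {m : ℕ} (hm : 0 < m) (k : ℕ) : ‖eps m k‖ ≤ m := by
  have hz : ‖zeta m‖ = 1 :=
    Complex.norm_eq_one_of_pow_eq_one (Pool.Agent.H82.CO.zeta_pow hm) hm.ne'
  have hm' : (0 : ℝ) < m := by exact_mod_cast hm
  rw [eps]
  calc ‖∑ a ∈ range m, ((a : ℂ) / m) * zeta m ^ (a * k)‖
      ≤ ∑ a ∈ range m, ‖((a : ℂ) / m) * zeta m ^ (a * k)‖ := norm_sum_le _ _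
    _ ≤ ∑ _a ∈ range m, (1 : ℝ) := by
        refine sum_le_sum fun a ha => ?_
        rw [norm_mul, norm_pow, hz, one_pow, mul_one, norm_div, Complex.norm_natCast, Complex.norm_natCast,
          div_le_one hm']
        exact_mod_cast (mem_range.1 ha).le
    _ = m := by rw [sum_const, card_range, nsmul_eq_mul, mul_one]

open Classical in
private theorem inner_Fx (s : Fin N → G) (i : Fin N) (g x : G) :
    ‖∑ k ∈ range (orderOf (s i)), if x * s i ^ k * x⁻¹ = g then eps (orderOf (s i)) k else 0‖ ≤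
      (orderOf (s i) : ℝ) * if x⁻¹ * g * x ∈ Subgroup.zpowers (s i) then 1 else 0 := by
  by_cases h1 : x⁻¹ * g * x ∈ Subgroup.zpowers (s i)
  · rw [if_pos h1, mul_one]
    rw [← mem_powers_iff_mem_zpowers, mem_powers_iff_mem_range_orderOf] at h1
    obtain ⟨k, hk, hk2⟩ := mem_image.1 h1
    rw [sum_eq_single k]
    · split_ifs
      · exact norm_eps_Fx (orderOf_pos (s i)) k
      · rw [norm_zero]
        exact Nat.cast_nonneg _
    · intro j hj hjk
      rw [if_neg]
      intro h2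
      apply hjk
      have h3 := term_Fx s i g x j h2
      rw [← hk2] at h3
      exact (pow_injOn_Iio_orderOf (Set.mem_Iio.2 (mem_range.1 hk)) (Set.mem_Iio.2 (mem_range.1 hj)) h3).symm
    · intro h
      exact absurd hk h
  · rw [if_neg h1, mul_zero]
    have h2 : ∀ k ∈ range (orderOf (s i)),
        (if x * s i ^ k * x⁻¹ = g then eps (orderOf (s i)) k else 0) = 0 := by
      intro k _
      rw [if_neg]
      intro h3
      apply h1
      rw [term_Fx s i g x k h3]
      exact Subgroup.pow_mem _ (Subgroup.mem_zpowers (s i)) k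
    rw [sum_eq_zero h2, norm_zero]

private theorem norm_gt_Fx (s : Fin N → G) (i : Fin N) (g : G) {M : ℝ}
    (hM : (∃ u, u⁻¹ * g * u ∈ Subgroup.zpowers (s i)) → (orderOf (s i) : ℝ) ≤ M) :
    ‖gt s i g‖ ≤ M * ((1 / (orderOf (s i) : ℝ)) *
      (Nat.card {u : G // u⁻¹ * g * u ∈ Subgroup.zpowers (s i)} : ℝ)) := by
  classical
  have hm : (0 : ℝ) < orderOf (s i) := by exact_mod_cast orderOf_pos (s i)
  by_cases h0 : ∃ u, u⁻¹ * g * u ∈ Subgroup.zpowers (s i)
  · have h1 := hM h0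
    have h2 : ‖gt s i g‖ ≤ (1 / (orderOf (s i) : ℝ)) *
        ((orderOf (s i) : ℝ) * (Nat.card {u : G // u⁻¹ * g * u ∈ Subgroup.zpowers (s i)} : ℝ)) := by
      rw [gt, norm_mul, norm_div, norm_one, Complex.norm_natCast, card_Fx, mul_sum (a := (orderOf (s i) : ℝ))]
      refine mul_le_mul_of_nonneg_left ?_ (by positivity)
      refine (norm_sum_le _ _).trans (sum_le_sum fun x _ => ?_)
      exact inner_Fx s i g x
    refine h2.trans ?_
    rw [← mul_assoc, ← mul_assoc, mul_comm (1 / (orderOf (s i) : ℝ)) (orderOf (s i) : ℝ)]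
    gcongr
  · have h1 : ∀ u, u⁻¹ * g * u ∉ Subgroup.zpowers (s i) := fun u hu => h0 ⟨u, hu⟩
    have h5 : Nat.card {u : G // u⁻¹ * g * u ∈ Subgroup.zpowers (s i)} = 0 := by
      rw [Nat.card_eq_zero]
      left
      exact ⟨fun u => h1 u.1 u.2⟩
    rw [gt_eq_zero s i g h1, h5, norm_zero, Nat.cast_zero, mul_zero, mul_zero]

theorem norm_chi_le (s : Fin N → G) {g : G} (hg : g ≠ 1) {M : ℝ} (hM0 : 0 ≤ M)
    (hM : ∀ i, (∃ u, u⁻¹ * g * u ∈ Subgroup.zpowers (s i)) → (orderOf (s i) : ℝ) ≤ M) :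
    ‖chi s g‖ ≤ 1 + M * fx s g := by
  classical
  rw [chi_eq, if_neg hg, sub_zero, fx, mul_sum]
  refine (norm_add_le _ _).trans ?_
  rw [norm_one]
  refine add_le_add (le_refl 1) ((norm_sum_le _ _).trans (sum_le_sum fun i _ => ?_))
  exact norm_gt_Fx s i g (hM i)

end Pool.Agent.H6.FF
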