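import Pool.Agent.H6.FF.Fx

set_option autoImplicit false

/-!
PROJECT FF (MP_bf82d2_ag, BoundedGroup, note 6093), module KSum.
Sums of the terms of `chi s` over `K` and over `H`.
PROOF. Let `m = orderOf (s i)`, `k = ko K (s i)`, `o = oo K (s i)`, `m = k o` (`orderOf_pow`, `k ∣ m`). In `gt_K` the sum over `x ∈ K`
of `gt s i x * conj (ψ x)` is `(1/m) ∑ u, ∑_{l < m, s i ^ l ∈ K} eps m l * conj (ψ (u (s i)^l u⁻¹))`; `s i ^ l ∈ K` iff `k ∣ l`
(`orderOf_dvd_iff_pow_eq_one` in `G ⧸ K`), `l = k j`, `j < o`; `eps m (k j) = eps o j` for `0 < j < o` and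
`eps m 0 = (m - 1)/2 = (o - 1)/2 + (k - 1) o / 2 = eps o 0 + (k - 1) o / 2` (`Pool.Agent.H82.CO.eps_eq`, `eps_zero`, `zeta m ^ k = zeta o`).
`u * (s i)^(k j) * u⁻¹ = (cc K H (s i) u) ^ j`. `(1/m) |G| (k - 1) o / 2 = (|G| / 2) (1 - 1/k)`, `(1/m) o = 1/k`.
`mu_all`: sum over `i` and `chi_eq`; `∑ (1 - 1/k_i) = nuK s K` (`ko` is the order in `nuK`). `mu_r`: the same without `i = r`.
`gt_H`: substitute `x = u (s r)^l u⁻¹`, all in `H`.
-/

namespace Pool.Agent.H6.FF

open Finset Module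
open Pool.Agent.H82.CO (chi quadInv nu genus eps zeta)
open Pool.Agent.H11.GQ (nuK)

variable {G : Type} [Group G] [Fintype G] {N : ℕ}

theorem ko_mul_oo (K : Subgroup G) [K.Normal] (g : G) :
    ko K g * oo K g = orderOf g ∧ 0 < ko K g ∧ 0 < oo K g ∧ g ^ ko K g ∈ K ∧ oo K g ≤ Nat.card K := by
  have hdvd : ko K g ∣ orderOf g := orderOf_map_dvd (QuotientGroup.mk' K) g
  have hg : 0 < orderOf g := orderOf_pos g
  have hk : 0 < ko K g := Nat.pos_of_dvd_of_pos hdvd hg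
  have hmem : g ^ ko K g ∈ K := by
    rw [← QuotientGroup.eq_one_iff, QuotientGroup.mk_pow]
    exact pow_orderOf_eq_one _
  have hoo : oo K g = orderOf g / ko K g := orderOf_pow_of_dvd hk.ne' hdvd
  refine ⟨?_, hk, orderOf_pos _, hmem, ?_⟩
  · rw [hoo]
    exact Nat.mul_div_cancel' hdvd
  · have h1 : oo K g = orderOf (⟨g ^ ko K g, hmem⟩ : K) := by
      unfold oo
      exact (Subgroup.orderOf_mk _ _).symm
    rw [h1]
    exact orderOf_le_card

theorem pow_mem_iff (K : Subgroup G) [K.Normal] (g : G) (l : ℕ) : g ^ l ∈ K ↔ ko K g ∣ l := by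
  rw [← QuotientGroup.eq_one_iff, QuotientGroup.mk_pow]
  exact orderOf_dvd_iff_pow_eq_one.symm

/-- `cel` of an element of `H` -/
private lemma cel_coe_KSum {H : Subgroup G} {g : G} (h : g ∈ H) : cel H g = ⟨g, h⟩ := by
  unfold cel
  rw [dif_pos h]

private lemma conj_pow_KSum (u g : G) (j : ℕ) : (u * g * u⁻¹) ^ j = u * g ^ j * u⁻¹ := by
  rw [conj_pow]

/-- the powers of `cc` -/
theorem cc_pow (K H : Subgroup G) [K.Normal] [H.Normal] (hKH : K ≤ H) (g u : G) (j : ℕ) :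
    ((cc K H g u ^ j : H) : G) = u * g ^ (ko K g * j) * u⁻¹ ∧ ((cc K H g u ^ j : H) : G) ∈ K ∧
      cc K H g u ^ oo K g = 1 := by
  obtain ⟨-, -, -, hmem, -⟩ := ko_mul_oo K g
  have h1 : u * g ^ ko K g * u⁻¹ ∈ K := Subgroup.Normal.conj_mem inferInstance _ hmem u
  have h2 : cc K H g u = ⟨u * g ^ ko K g * u⁻¹, hKH h1⟩ := cel_coe_KSum _
  have h3 : ∀ i : ℕ, ((cc K H g u ^ i : H) : G) = u * g ^ (ko K g * i) * u⁻¹ := by
    intro i
    rw [Subgroup.coe_pow, h2]
    show (u * g ^ ko K g * u⁻¹) ^ i = _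
    rw [conj_pow_KSum, pow_mul]
  refine ⟨h3 j, ?_, ?_⟩
  · rw [h3 j]
    refine Subgroup.Normal.conj_mem inferInstance _ ?_ u
    rw [pow_mul]
    exact pow_mem hmem j
  · apply Subtype.ext
    rw [h3, pow_mul]
    have h4 : (g ^ ko K g) ^ oo K g = 1 := pow_orderOf_eq_one _
    rw [h4]
    simp

open Classical in
/-- the sum of a term over `K` -/
private lemma core_KSum (s : Fin N → G) (i : Fin N) (K H : Subgroup G) [Fintype H] (hKH : K ≤ H) (ψ : H → ℂ) :
    ∑ x : H, (if (x : G) ∈ K then gt s i x * (starRingEnd ℂ) (ψ x) else 0) =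
      (1 / (orderOf (s i) : ℂ)) * ∑ u : G, ∑ l ∈ range (orderOf (s i)),
        if u * s i ^ l * u⁻¹ ∈ K then
          eps (orderOf (s i)) l * (starRingEnd ℂ) (ψ (cel H (u * s i ^ l * u⁻¹))) else 0 := by
  have h1 : ∀ x : H, (if (x : G) ∈ K then gt s i x * (starRingEnd ℂ) (ψ x) else 0) =
      (1 / (orderOf (s i) : ℂ)) * ∑ u : G, ∑ l ∈ range (orderOf (s i)),
        if u * s i ^ l * u⁻¹ = x ∧ (x : G) ∈ K then
          eps (orderOf (s i)) l * (starRingEnd ℂ) (ψ x) else 0 := by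
    intro x
    by_cases hx : (x : G) ∈ K
    · rw [if_pos hx]
      unfold gt
      rw [mul_assoc, sum_mul]
      congr 1
      refine sum_congr rfl fun u _ => ?_
      rw [sum_mul]
      refine sum_congr rfl fun l _ => ?_
      by_cases h : u * s i ^ l * u⁻¹ = x
      · rw [if_pos h, if_pos ⟨h, hx⟩]
      · rw [if_neg h, if_neg (fun h' => h h'.1), zero_mul]
    · rw [if_neg hx]
      have h2 : ∀ u : G, ∀ l ∈ range (orderOf (s i)), (if u * s i ^ l * u⁻¹ = x ∧ (x : G) ∈ K then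
          eps (orderOf (s i)) l * (starRingEnd ℂ) (ψ x) else 0) = 0 := fun u l _ =>
        if_neg fun h => hx h.2
      rw [sum_congr rfl fun u _ => sum_eq_zero (h2 u), sum_const_zero, mul_zero]
  rw [sum_congr rfl fun x _ => h1 x, ← mul_sum, sum_comm]
  congr 1
  refine sum_congr rfl fun u _ => ?_
  rw [sum_comm]
  refine sum_congr rfl fun l _ => ?_
  by_cases hy : u * s i ^ l * u⁻¹ ∈ K
  · rw [if_pos hy, sum_eq_single ⟨u * s i ^ l * u⁻¹, hKH hy⟩]
    · rw [if_pos ⟨rfl, hy⟩, cel_coe_KSum (hKH hy)]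
    · intro x _ hx
      refine if_neg fun h => hx ?_
      exact Subtype.ext h.1.symm
    · intro h
      exact absurd (mem_univ _) h
  · rw [if_neg hy]
    refine sum_eq_zero fun x _ => if_neg fun h => hy ?_
    rw [h.1]
    exact h.2

private lemma zeta_pow_KSum {k o : ℕ} (hk : 0 < k) (ho : 0 < o) : zeta (k * o) ^ k = zeta o := by
  unfold zeta
  rw [← Complex.exp_nat_mul]
  congr 1
  have h1 : (k : ℂ) ≠ 0 := by exact_mod_cast hk.ne'
  have h2 : (o : ℂ) ≠ 0 := by exact_mod_cast ho.ne'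
  push_cast
  field_simp

private lemma eps_mul_KSum {k o j : ℕ} (hk : 0 < k) (ho : 0 < o) (hj : j < o) :
    eps (k * o) (k * j) = eps o j + if j = 0 then ((k : ℂ) - 1) * o / 2 else 0 := by
  rcases Nat.eq_zero_or_pos j with h | h
  · subst h
    rw [if_pos rfl, mul_zero, Pool.Agent.H82.CO.eps_zero (Nat.mul_pos hk ho),
      Pool.Agent.H82.CO.eps_zero ho]
    push_cast
    ring
  · rw [if_neg h.ne', add_zero, Pool.Agent.H82.CO.eps_eq (Nat.mul_pos hk h)
      (Nat.mul_lt_mul_of_pos_left hj hk), Pool.Agent.H82.CO.eps_eq h hj, pow_mul,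
      zeta_pow_KSum hk ho]

/-- sums over the multiples of `k` -/
private lemma sum_dvd_KSum {k o : ℕ} (hk : 0 < k) (f : ℕ → ℂ) :
    ∑ l ∈ range (k * o), (if k ∣ l then f l else 0) = ∑ j ∈ range o, f (k * j) := by
  rw [← sum_filter]
  symm
  refine sum_bij (fun j _ => k * j) ?_ ?_ ?_ ?_
  · intro j hj
    rw [mem_filter, mem_range]
    exact ⟨Nat.mul_lt_mul_of_pos_left (mem_range.1 hj) hk, dvd_mul_right _ _⟩
  · intro a _ b _ hab
    exact Nat.eq_of_mul_eq_mul_left hk hab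
  · intro l hl
    rw [mem_filter, mem_range] at hl
    obtain ⟨h1, j, rfl⟩ := hl
    exact ⟨j, mem_range.2 (Nat.lt_of_mul_lt_mul_left h1), rfl⟩
  · intro j _
    rfl

open Classical in
theorem gt_K (s : Fin N → G) (i : Fin N) (K H : Subgroup G) [K.Normal] [H.Normal] [Fintype H] (hKH : K ≤ H) (ψ : H → ℂ) :
    ∑ x : H, (if (x : G) ∈ K then gt s i x * (starRingEnd ℂ) (ψ x) else 0) =
      ((Nat.card G : ℂ) / 2) * (1 - 1 / (ko K (s i) : ℂ)) * (starRingEnd ℂ) (ψ 1) +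
        (1 / (ko K (s i) : ℂ)) * ∑ u : G, angs ψ (cc K H (s i) u) (oo K (s i)) := by
  obtain ⟨hko, hk, ho, hmem, -⟩ := ko_mul_oo K (s i)
  rw [core_KSum s i K H hKH ψ, ← hko]
  set k := ko K (s i) with hkd
  set o := oo K (s i) with hod
  have hkC : (k : ℂ) ≠ 0 := by exact_mod_cast hk.ne'
  have hoC : (o : ℂ) ≠ 0 := by exact_mod_cast ho.ne'
  have h1 : ∀ u : G, (∑ l ∈ range (k * o), if u * s i ^ l * u⁻¹ ∈ K then
      eps (k * o) l * (starRingEnd ℂ) (ψ (cel H (u * s i ^ l * u⁻¹))) else 0) =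
      (o : ℂ) * angs ψ (cc K H (s i) u) o + ((k : ℂ) - 1) * o / 2 * (starRingEnd ℂ) (ψ 1) := by
    intro u
    have h2 : ∀ l : ℕ, (u * s i ^ l * u⁻¹ ∈ K) ↔ k ∣ l := by
      intro l
      rw [← pow_mem_iff K (s i) l]
      constructor
      · intro h
        have h3 := Subgroup.Normal.conj_mem (inferInstance : K.Normal) _ h u⁻¹
        have h4 : u⁻¹ * (u * s i ^ l * u⁻¹) * u⁻¹⁻¹ = s i ^ l := by group
        rwa [h4] at h3
      · intro h
        exact Subgroup.Normal.conj_mem inferInstance _ h u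
    have h3 : (∑ l ∈ range (k * o), if u * s i ^ l * u⁻¹ ∈ K then
        eps (k * o) l * (starRingEnd ℂ) (ψ (cel H (u * s i ^ l * u⁻¹))) else 0) =
        ∑ l ∈ range (k * o), if k ∣ l then
          eps (k * o) l * (starRingEnd ℂ) (ψ (cel H (u * s i ^ l * u⁻¹))) else 0 := by
      refine sum_congr rfl fun l _ => ?_
      by_cases h : k ∣ l
      · rw [if_pos h, if_pos ((h2 l).2 h)]
      · rw [if_neg h, if_neg fun h' => h ((h2 l).1 h')]
    rw [h3, sum_dvd_KSum hk]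
    have h4 : ∀ j ∈ range o, eps (k * o) (k * j) *
        (starRingEnd ℂ) (ψ (cel H (u * s i ^ (k * j) * u⁻¹))) =
        eps o j * (starRingEnd ℂ) (ψ (cc K H (s i) u ^ j)) +
          (if j = 0 then ((k : ℂ) - 1) * o / 2 * (starRingEnd ℂ) (ψ 1) else 0) := by
      intro j hj
      have h5 := (cc_pow K H hKH (s i) u j).1
      have h6 : cel H (u * s i ^ (k * j) * u⁻¹) = cc K H (s i) u ^ j := by
        rw [← hkd] at h5
        rw [← h5]
        rw [cel_coe_KSum (SetLike.coe_mem _)]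
      rw [h6, eps_mul_KSum hk ho (mem_range.1 hj), add_mul]
      congr 1
      by_cases h7 : j = 0
      · rw [if_pos h7, if_pos h7, h7, pow_zero]
      · rw [if_neg h7, if_neg h7, zero_mul]
    rw [sum_congr rfl h4, sum_add_distrib, sum_ite_eq' (range o) 0, if_pos (mem_range.2 ho)]
    congr 1
    unfold angs
    rw [← mul_assoc, mul_one_div_cancel hoC, one_mul]
  rw [sum_congr rfl fun u _ => h1 u, sum_add_distrib, ← mul_sum, sum_const, card_univ,
    ← Nat.card_eq_fintype_card, nsmul_eq_mul]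
  push_cast
  field_simp
  ring

open Classical in
/-- the general form of `mu_all`, `mu_r` -/
private lemma mu_gen_KSum (I : Finset (Fin N)) (s : Fin N → G) (K H : Subgroup G) [K.Normal] [H.Normal] [Fintype H]
    (hKH : K ≤ H) (ψ : H → ℂ) (F : H → ℂ)
    (hF : ∀ x : H, F x = -(if (x : G) = 1 then (Nat.card G : ℂ) else 0) + ∑ i ∈ I, gt s i x) :
    mu (K.subgroupOf H) F ψ =
      ((Nat.card G : ℂ) * (∑ i ∈ I, (1 - 1 / (ko K (s i) : ℂ)) - 2) / (2 * (Nat.card H : ℂ))) *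
        (starRingEnd ℂ) (ψ 1) + Ak I s K H ψ := by
  have h1 : ∀ x : H, (if x ∈ K.subgroupOf H then F x * (starRingEnd ℂ) (ψ x) else 0) =
      (if x = 1 then -(Nat.card G : ℂ) * (starRingEnd ℂ) (ψ 1) else 0) +
        ∑ i ∈ I, (if (x : G) ∈ K then gt s i x * (starRingEnd ℂ) (ψ x) else 0) := by
    intro x
    by_cases hx : (x : G) ∈ K
    · rw [if_pos (Subgroup.mem_subgroupOf.2 hx), hF x, add_mul, sum_mul]
      congr 1
      · by_cases h : x = 1
        · rw [if_pos h, h, if_pos (show ((1 : H) : G) = 1 from rfl)]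
        · rw [if_neg h, if_neg, neg_zero, zero_mul]
          intro h'
          exact h (Subtype.ext h')
      · refine sum_congr rfl fun i _ => ?_
        rw [if_pos hx]
    · rw [if_neg fun h => hx (Subgroup.mem_subgroupOf.1 h), if_neg, sum_eq_zero, add_zero]
      · intro i _
        rw [if_neg hx]
      · intro h
        apply hx
        rw [h]
        show (1 : G) ∈ K
        exact K.one_mem
  unfold mu Ak
  rw [sum_congr rfl fun x _ => h1 x, sum_add_distrib, sum_ite_eq' univ (1 : H), if_pos (mem_univ _),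
    sum_comm, sum_congr rfl fun i _ => gt_K s i K H hKH ψ, sum_add_distrib]
  have h2 : ∑ i ∈ I, ((Nat.card G : ℂ) / 2) * (1 - 1 / (ko K (s i) : ℂ)) * (starRingEnd ℂ) (ψ 1) =
      ((Nat.card G : ℂ) / 2) * (∑ i ∈ I, (1 - 1 / (ko K (s i) : ℂ))) * (starRingEnd ℂ) (ψ 1) := by
    rw [mul_sum, sum_mul]
  rw [h2]
  have hH : (Nat.card H : ℂ) ≠ 0 := by
    exact_mod_cast Nat.card_pos.ne'
  field_simp
  ring

open Classical in
theorem mu_all (s : Fin N → G) (K H : Subgroup G) [K.Normal] [H.Normal] [Fintype H] (hKH : K ≤ H) (ψ : H → ℂ) :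
    mu (K.subgroupOf H) (fun x : H => chi s x - 1) ψ =
      ((Nat.card G : ℂ) * ((nuK s K : ℂ) - 2) / (2 * (Nat.card H : ℂ))) * (starRingEnd ℂ) (ψ 1) +
        Ak univ s K H ψ := by
  rw [mu_gen_KSum univ s K H hKH ψ (fun x : H => chi s x - 1) fun x => ?_]
  · have h1 : ((nuK s K : ℝ) : ℂ) = ∑ i, (1 - 1 / (ko K (s i) : ℂ)) := by
      unfold nuK ko
      push_cast
      rfl
    rw [h1]
  · rw [chi_eq s (x : G)]
    ring

open Classical in
theorem mu_r (s : Fin N → G) (r : Fin N) (K H : Subgroup G) [K.Normal] [H.Normal] [Fintype H] (hKH : K ≤ H) (ψ : H → ℂ) :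
    mu (K.subgroupOf H) (fun x : H => chi s x - 1 - gt s r x) ψ =
      ((Nat.card G : ℂ) * (∑ i ∈ univ.erase r, (1 - 1 / (ko K (s i) : ℂ)) - 2) / (2 * (Nat.card H : ℂ))) *
        (starRingEnd ℂ) (ψ 1) + Ak (univ.erase r) s K H ψ := by
  rw [mu_gen_KSum (univ.erase r) s K H hKH ψ (fun x : H => chi s x - 1 - gt s r x) fun x => ?_]
  rw [chi_eq s (x : G), ← add_sum_erase univ (fun i => gt s i (x : G)) (mem_univ r)]
  ring

theorem gt_H (s : Fin N → G) (r : Fin N) (H : Subgroup G) [H.Normal] [Fintype H] (hr : s r ∈ H) (ψ : H → ℂ) :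
    ∑ x : H, gt s r x * (starRingEnd ℂ) (ψ x) =
      ∑ u : G, angs ψ (cel H (u * s r * u⁻¹)) (orderOf (s r)) := by
  classical
  have h0 : ∑ x : H, gt s r x * (starRingEnd ℂ) (ψ x) =
      ∑ x : H, (if (x : G) ∈ H then gt s r x * (starRingEnd ℂ) (ψ x) else 0) := by
    refine sum_congr rfl fun x _ => ?_
    rw [if_pos x.2]
  rw [h0, core_KSum s r H H le_rfl ψ, mul_sum]
  refine sum_congr rfl fun u _ => ?_
  unfold angs
  congr 1
  refine sum_congr rfl fun l _ => ?_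
  have h1 : u * s r * u⁻¹ ∈ H := Subgroup.Normal.conj_mem inferInstance _ hr u
  have h2 : u * s r ^ l * u⁻¹ ∈ H := Subgroup.Normal.conj_mem inferInstance _ (pow_mem hr l) u
  rw [if_pos h2, cel_coe_KSum h1, cel_coe_KSum h2]
  congr 2
  congr 1
  apply Subtype.ext
  show u * s r ^ l * u⁻¹ = _
  rw [Subgroup.coe_pow]
  show _ = (u * s r * u⁻¹) ^ l
  rw [conj_pow_KSum]

end Pool.Agent.H6.FF
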