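import Mathlib

set_option autoImplicit false

/-!
PROJECT FF (MP_bf82d2_ag, BoundedGroup, note 6093), module Small.
An abelian normal subgroup of bounded index, of exponent 2 modulo `K`: the group is bounded.
PROOF. In `Q = G ⧸ K` the image `V` of `A` (`A.map (QuotientGroup.mk' K)`) has index `≤ b`, is abelian and all its squares are `1`. `Q` is generated
by 5 elements, so `Group.rank Q ≤ 5` and `Group.rank V ≤ b * 5` (`Subgroup.rank_le_index_mul_rank`); `|V| ∣ exponent ^ rank`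
(`card_dvd_exponent_pow_rank`, `V` commutative) `≤ 2 ^ (5 b)`. `|G| = |K| |Q| ≤ b * b * 2 ^ (5 b)`.
`inv_odd`: `y` acts on `A` as inversion and `y ^ j ∈ K` for an odd `j`: `a⁻¹ = y ^ j a y ^ (-j) = a` modulo `K`, so `a * a ∈ K`.
-/

namespace Pool.Agent.H6.FF

theorem small (b : ℕ) : ∃ C : ℕ, ∀ (G : Type) [Group G] [Fintype G] (N : ℕ) (_hN : N ≤ 5) (s : Fin N → G)
    (_hg : Subgroup.closure (Set.range s) = ⊤) (K A : Subgroup G) [K.Normal] [A.Normal] (_hK : Nat.card K ≤ b)
    (_hAi : A.index ≤ b) (_hA : ∀ a ∈ A, ∀ c ∈ A, a * c = c * a) (_h2 : ∀ a ∈ A, a * a ∈ K), Nat.card G ≤ C := by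
  refine ⟨b * (b * 2 ^ (b * 5)), ?_⟩
  intro G _ _ N hN s hg K A _ _ hK hAi hA h2
  have hsurj : Function.Surjective (QuotientGroup.mk' K) := QuotientGroup.mk'_surjective K
  have hVi : (A.map (QuotientGroup.mk' K)).index ≤ b := by
    have h1 : (A.map (QuotientGroup.mk' K)).index ∣ A.index := Subgroup.index_map_dvd A hsurj
    exact le_trans (Nat.le_of_dvd (Nat.pos_of_ne_zero Subgroup.FiniteIndex.index_ne_zero) h1) hAi
  have hr : Group.rank (G ⧸ K) ≤ 5 := by
    classical
    have h1 : Subgroup.closure ((Finset.univ.image fun i => QuotientGroup.mk' K (s i) : Finset (G ⧸ K)) : Set (G ⧸ K)) = ⊤ := by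
      have h2 : ((Finset.univ.image fun i => QuotientGroup.mk' K (s i) : Finset (G ⧸ K)) : Set (G ⧸ K)) =
          (QuotientGroup.mk' K) '' (Set.range s) := by
        rw [Finset.coe_image, Finset.coe_univ, Set.image_univ]
        exact Set.range_comp (QuotientGroup.mk' K) s
      rw [h2, ← MonoidHom.map_closure, hg]
      exact Subgroup.map_top_of_surjective _ hsurj
    refine le_trans (Group.rank_le h1) ?_
    refine le_trans Finset.card_image_le ?_
    rw [Finset.card_univ, Fintype.card_fin]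
    exact hN
  have hrV : Group.rank (A.map (QuotientGroup.mk' K)) ≤ b * 5 :=
    le_trans (Subgroup.rank_le_index_mul_rank _) (Nat.mul_le_mul hVi hr)
  have hV : Nat.card (A.map (QuotientGroup.mk' K)) ≤ 2 ^ (b * 5) := by
    let cg : CommGroup (A.map (QuotientGroup.mk' K)) :=
      { (inferInstance : Group (A.map (QuotientGroup.mk' K))) with
        mul_comm := by
          rintro ⟨x, a, ha, rfl⟩ ⟨y, c, hc, rfl⟩
          apply Subtype.ext
          show QuotientGroup.mk' K a * QuotientGroup.mk' K c = QuotientGroup.mk' K c * QuotientGroup.mk' K a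
          rw [← map_mul, ← map_mul, hA a ha c hc] }
    have h1 : Nat.card (A.map (QuotientGroup.mk' K)) ∣
        Monoid.exponent (A.map (QuotientGroup.mk' K)) ^ Group.rank (A.map (QuotientGroup.mk' K)) :=
      card_dvd_exponent_pow_rank (A.map (QuotientGroup.mk' K))
    have h3 : Monoid.exponent (A.map (QuotientGroup.mk' K)) ∣ 2 := by
      apply Monoid.exponent_dvd_of_forall_pow_eq_one
      rintro ⟨x, a, ha, rfl⟩
      apply Subtype.ext
      show (QuotientGroup.mk' K a) ^ 2 = 1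
      rw [← map_pow, pow_two]
      exact (QuotientGroup.eq_one_iff _).2 (h2 a ha)
    have h4 : Nat.card (A.map (QuotientGroup.mk' K)) ∣ 2 ^ Group.rank (A.map (QuotientGroup.mk' K)) :=
      dvd_trans h1 (pow_dvd_pow_of_dvd h3 _)
    exact le_trans (Nat.le_of_dvd (by positivity) h4) (Nat.pow_le_pow_right (by norm_num) hrV)
  have hQ : Nat.card (G ⧸ K) ≤ b * 2 ^ (b * 5) := by
    rw [← Subgroup.index_mul_card (A.map (QuotientGroup.mk' K))]
    exact Nat.mul_le_mul hVi hV
  rw [Subgroup.card_eq_card_quotient_mul_card_subgroup K, mul_comm]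
  exact Nat.mul_le_mul hK hQ

theorem inv_odd {G : Type} [Group G] (K A : Subgroup G) [K.Normal] [A.Normal] {y : G}
    (hy : ∀ a ∈ A, y * a * y⁻¹ = a⁻¹) {j : ℕ} (hj : Odd j) (hK : y ^ j ∈ K) : ∀ a ∈ A, a * a ∈ K := by
  have h1 : ∀ k : ℕ, ∀ a ∈ A, y ^ (2 * k + 1) * a * (y ^ (2 * k + 1))⁻¹ = a⁻¹ := by
    intro k
    induction k with
    | zero =>
      intro a ha
      rw [mul_zero, zero_add, pow_one]
      exact hy a ha
    | succ k ih =>
      intro a ha
      have e1 : y ^ (2 * (k + 1) + 1) = y ^ (2 * k + 1) * (y * y) := by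
        rw [← pow_two, ← pow_add]
        congr 1
      have e2 : y * a * y⁻¹ = a⁻¹ := hy a ha
      have e3 : y * a⁻¹ * y⁻¹ = a := by
        have := hy a⁻¹ (A.inv_mem ha)
        rw [inv_inv] at this
        exact this
      have e4 : y ^ (2 * (k + 1) + 1) * a * (y ^ (2 * (k + 1) + 1))⁻¹ =
          y ^ (2 * k + 1) * (y * (y * a * y⁻¹) * y⁻¹) * (y ^ (2 * k + 1))⁻¹ := by
        rw [e1]
        group
      rw [e4, e2, e3]
      exact ih a ha
  intro a ha
  obtain ⟨k, rfl⟩ := hj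
  have h2 : y ^ (2 * k + 1) * (a * (y ^ (2 * k + 1))⁻¹ * a⁻¹) ∈ K :=
    K.mul_mem hK (Subgroup.Normal.conj_mem inferInstance _ (K.inv_mem hK) a)
  have h3 : y ^ (2 * k + 1) * (a * (y ^ (2 * k + 1))⁻¹ * a⁻¹) = (a * a)⁻¹ := by
    have h4 : y ^ (2 * k + 1) * (a * (y ^ (2 * k + 1))⁻¹ * a⁻¹) =
        (y ^ (2 * k + 1) * a * (y ^ (2 * k + 1))⁻¹) * a⁻¹ := by group
    rw [h4, h1 k a ha]
    group
  rw [h3] at h2
  exact (K.inv_mem_iff).1 h2

end Pool.Agent.H6.FF
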