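import Pool.Agent.H6.FF.S0
import Pool.Agent.H6.FF.Small
import Pool.Agent.H6.FF.Ar
import Pool.Agent.H6.FF.KSum

set_option autoImplicit false

/-!
PROJECT FF (MP_bf82d2_ag, BoundedGroup, note 6093), module G0A.
Case G0: `G / K` is dihedral.
PROOF. `2 - nuK = 2 |K| / |G| < 1/60` for `|G| > 120 b`; `ar_lt` for `k i = ko K (s i)`; `k i = 1` means `s i ∈ K`. Write `Q = G / K`, generated by the
images `t_i` of the `s i`, the product of the `t_i` in the order of the indices is `1`.
If `Q` is abelian: `a⁻¹ = x a x⁻¹ = a` modulo `K` for `a ∈ A`, so `a * a ∈ K`, and `small` bounds `|G|`. This excludes the first case of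
`ar_lt` (`Q` is generated by `t_α` and `t_β`, and `t_α t_β = 1` or `t_β t_α = 1`).
Second case: `t_α`, `t_β` are involutions, `t_r` is `t_α t_β` or `t_β t_α` (the three positions; `t_α t_β t_r = 1`, `t_α t_r t_β = 1`, ... in one of
the six orders), so `t_α t_r t_α = t_r⁻¹`, `Q` is generated by `t_α` and `t_r`, `L = zpowers t_r` is normal and `Q = L ∪ t_α L`. If `t_α ∈ L`, `Q = L` is
abelian. So `L` has index 2. `H = L.comap (QuotientGroup.mk' K)`, `w = s α`. `t_β = t_α t_r^{±1} ∉ L`. `idx`: `|H / K| = |L| = ko K (s r)`.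
`Dat`: `sq`: `(t_α q)^2 = 1` for `q ∈ L`. `fxb`: `4 |K| ≤ 4 b`. `ob`: `s i ∉ H` only for `i = α, β`: `orderOf (s i) = 2 oo ≤ 2 |K|` (`ko_mul_oo`).
`cnt`: `w⁻¹ g ∉ H` means `g ∈ H`; then the image of `g` is in the cyclic group `L` with square `1`: at most 2 such (`IsCyclic.card_pow_eq_one_le`),
so at most `2 |K|` elements `g`. `ind`: `2`.
-/

namespace Pool.Agent.H6.FF

open Finset Module
open Pool.Agent.H11.GQ (nuK)

private theorem prod0_G0A {M : Type} [Monoid M] {n : ℕ} (t : Fin n → M) (h : ∀ i, t i = 1) :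
    (List.ofFn t).prod = 1 := by
  apply List.prod_eq_one
  intro x hx
  rw [List.mem_ofFn] at hx
  obtain ⟨i, rfl⟩ := hx
  exact h i

private theorem prod1_G0A {M : Type} [Monoid M] : ∀ {n : ℕ} (t : Fin n → M) (a : Fin n), (∀ i, i ≠ a → t i = 1) →
    (List.ofFn t).prod = t a := by
  intro n
  induction n with
  | zero => intro t a; exact a.elim0
  | succ n ih =>
    intro t a
    rw [List.ofFn_succ, List.prod_cons]
    refine Fin.cases ?_ (fun a' => ?_) a
    · intro h
      rw [prod0_G0A _ fun i => h i.succ (Fin.succ_ne_zero i), mul_one]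
    · intro h
      rw [h 0 (Fin.succ_ne_zero a').symm, one_mul]
      exact ih (fun i => t i.succ) a' fun i hi => h i.succ fun e => hi (Fin.succ_injective n e)

private theorem prod2_G0A {M : Type} [Monoid M] : ∀ {n : ℕ} (t : Fin n → M) (a b : Fin n), a < b →
    (∀ i, i ≠ a → i ≠ b → t i = 1) → (List.ofFn t).prod = t a * t b := by
  intro n
  induction n with
  | zero => intro t a; exact a.elim0
  | succ n ih =>
    intro t a b
    rw [List.ofFn_succ, List.prod_cons]
    refine Fin.cases ?_ (fun b' => ?_) b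
    · intro hab
      exact absurd hab (Fin.not_lt_zero a)
    · refine Fin.cases ?_ (fun a' => ?_) a
      · intro _ h
        rw [prod1_G0A (fun i => t i.succ) b' fun i hi => h i.succ (Fin.succ_ne_zero i) fun e => hi (Fin.succ_injective n e)]
      · intro hab h
        rw [h 0 (Fin.succ_ne_zero a').symm (Fin.succ_ne_zero b').symm, one_mul]
        exact ih (fun i => t i.succ) a' b' (Fin.succ_lt_succ_iff.1 hab) fun i hi hi' =>
          h i.succ (fun e => hi (Fin.succ_injective n e)) fun e => hi' (Fin.succ_injective n e)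

private theorem prod3_G0A {M : Type} [Monoid M] : ∀ {n : ℕ} (t : Fin n → M) (a b c : Fin n), a < b → b < c →
    (∀ i, i ≠ a → i ≠ b → i ≠ c → t i = 1) → (List.ofFn t).prod = t a * t b * t c := by
  intro n
  induction n with
  | zero => intro t a; exact a.elim0
  | succ n ih =>
    intro t a b c
    rw [List.ofFn_succ, List.prod_cons]
    refine Fin.cases ?_ (fun c' => ?_) c
    · intro _ hbc
      exact absurd hbc (Fin.not_lt_zero b)
    · refine Fin.cases ?_ (fun b' => ?_) b
      · intro hab
        exact absurd hab (Fin.not_lt_zero a)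
      · refine Fin.cases ?_ (fun a' => ?_) a
        · intro _ hbc h
          rw [prod2_G0A (fun i => t i.succ) b' c' (Fin.succ_lt_succ_iff.1 hbc) fun i hi hi' =>
            h i.succ (Fin.succ_ne_zero i) (fun e => hi (Fin.succ_injective n e)) fun e => hi' (Fin.succ_injective n e), mul_assoc]
        · intro hab hbc h
          rw [h 0 (Fin.succ_ne_zero a').symm (Fin.succ_ne_zero b').symm (Fin.succ_ne_zero c').symm, one_mul]
          exact ih (fun i => t i.succ) a' b' c' (Fin.succ_lt_succ_iff.1 hab) (Fin.succ_lt_succ_iff.1 hbc) fun i h1 h2 h3 =>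
            h i.succ (fun e => h1 (Fin.succ_injective n e)) (fun e => h2 (Fin.succ_injective n e))
              fun e => h3 (Fin.succ_injective n e)

private theorem rot_G0A {Q : Type} [Group Q] {x y z : Q} (h : x * y * z = 1) : y * z * x = 1 := by
  rw [mul_assoc] at h
  rw [eq_inv_of_mul_eq_one_right h, inv_mul_cancel]

private theorem cyc_G0A {Q : Type} [Group Q] {n : ℕ} (t : Fin n → Q) (a b r : Fin n) (h1 : a ≠ b) (h2 : a ≠ r) (h3 : b ≠ r)
    (h : ∀ i, i ≠ a → i ≠ b → i ≠ r → t i = 1) (hp : (List.ofFn t).prod = 1) :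
    t a * t b * t r = 1 ∨ t b * t a * t r = 1 := by
  rcases lt_or_gt_of_ne h1 with hab | hab <;> rcases lt_or_gt_of_ne h2 with har | har <;>
    rcases lt_or_gt_of_ne h3 with hbr | hbr
  · left
    rw [← hp, prod3_G0A t a b r hab hbr h]
  · right
    rw [prod3_G0A t a r b har hbr fun i i1 i2 i3 => h i i1 i3 i2] at hp
    exact rot_G0A (rot_G0A hp)
  · exact absurd (har.trans hab) (not_lt.2 hbr.le)
  · left
    rw [prod3_G0A t r a b har hab fun i i1 i2 i3 => h i i2 i3 i1] at hp
    exact rot_G0A hp
  · right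
    rw [← hp, prod3_G0A t b a r hab har fun i i1 i2 i3 => h i i2 i1 i3]
  · exact absurd (hbr.trans hab) (not_lt.2 har.le)
  · left
    rw [prod3_G0A t b r a hbr har fun i i1 i2 i3 => h i i3 i1 i2] at hp
    exact rot_G0A (rot_G0A hp)
  · right
    rw [prod3_G0A t r b a hbr hab fun i i1 i2 i3 => h i i3 i2 i1] at hp
    exact rot_G0A hp

/-- conjugation by the involution inverts the cyclic group -/
private theorem inv_G0A {Q : Type} [Group Q] {a c : Q} (ha : a * a = 1) (hc : a * c * a = c⁻¹) {m : Q}
    (hm : m ∈ Subgroup.zpowers c) : a * m * a = m⁻¹ := by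
  obtain ⟨k, rfl⟩ := Subgroup.mem_zpowers_iff.1 hm
  have h1 : a⁻¹ = a := inv_eq_of_mul_eq_one_left ha
  have h2 : a * c ^ k * a⁻¹ = (a * c * a⁻¹) ^ k := (conj_zpow).symm
  rw [h1] at h2
  rw [h2, hc, inv_zpow]

theorem g0_dat (b : ℕ) (hb : 1 ≤ b) : ∃ C : ℕ, ∀ (G : Type) [Group G] [Fintype G] (N : ℕ) (_hN : N ≤ 5) (s : Fin N → G)
    (_hp : (List.ofFn s).prod = 1) (_hg : Subgroup.closure (Set.range s) = ⊤) (K A : Subgroup G) [K.Normal] [A.Normal]
    (_hK : Nat.card K ≤ b) (_hAi : A.index ≤ b) (_hA : ∀ a ∈ A, ∀ c ∈ A, a * c = c * a) (x : G)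
    (_hx : ∀ a ∈ A, x * a * x⁻¹ = a⁻¹) (_hfx : ∀ g, g ∉ K → fx s g ≤ 4 * (Nat.card K : ℝ))
    (_hν : (Nat.card G : ℝ) * (2 - nuK s K) = 2 * (Nat.card K : ℝ)), C < Nat.card G →
    ∃ (H : Subgroup G) (_ : H.Normal) (α β r : Fin N), S0 s K H α β r (60 * (b : ℝ) ^ 2) := by
  classical
  obtain ⟨C0, hC0⟩ := small b
  refine ⟨max C0 (120 * b), ?_⟩
  intro G _ _ N hN s hp hg K A _ _ hK hAi hA x hx hfx hν hC
  have hn0 : C0 < Nat.card G := lt_of_le_of_lt (le_max_left _ _) hC
  have hn1 : 120 * b < Nat.card G := lt_of_le_of_lt (le_max_right _ _) hC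
  have hnR : 120 * (b : ℝ) < Nat.card G := by exact_mod_cast hn1
  have hKR : (Nat.card K : ℝ) ≤ b := by exact_mod_cast hK
  have hK1 : (1 : ℝ) ≤ Nat.card K := by exact_mod_cast Nat.card_pos
  have hbR : (1 : ℝ) ≤ b := by exact_mod_cast hb
  have hnpos : (0 : ℝ) < Nat.card G := by linarith
  -- the quotient is not commutative
  have hab : ¬ ∀ p q : G ⧸ K, p * q = q * p := by
    intro h
    refine absurd (hC0 G N hN s hg K A hK hAi hA fun a ha => ?_) (not_le.2 hn0)
    have h1 := congrArg (QuotientGroup.mk' K) (hx a ha)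
    rw [map_mul, map_mul, map_inv, map_inv, h (QuotientGroup.mk' K x), mul_assoc, mul_inv_cancel, mul_one] at h1
    rw [← QuotientGroup.eq_one_iff]
    show QuotientGroup.mk' K (a * a) = 1
    rw [map_mul]
    nth_rewrite 1 [h1]
    exact inv_mul_cancel _
  obtain ⟨t, ht⟩ : ∃ t : Fin N → G ⧸ K, ∀ i, t i = QuotientGroup.mk' K (s i) := ⟨_, fun i => rfl⟩
  have hko : ∀ i, ko K (s i) = orderOf (t i) := fun i => by rw [ht]; rfl
  have hprod : (List.ofFn t).prod = 1 := by
    have h1 : t = (QuotientGroup.mk' K) ∘ s := funext ht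
    rw [h1, ← List.map_ofFn, ← map_list_prod, hp, map_one]
  have hind : ∀ (p : G ⧸ K → Prop), (∀ i, p (t i)) → p 1 → (∀ u v, p u → p v → p (u * v)) → (∀ u, p u → p u⁻¹) → ∀ q, p q := by
    intro p h1 h2 h3 h4 q
    obtain ⟨g, rfl⟩ := QuotientGroup.mk'_surjective K q
    have hgm : g ∈ Subgroup.closure (Set.range s) := by rw [hg]; trivial
    induction hgm using Subgroup.closure_induction with
    | mem y hy =>
      obtain ⟨i, rfl⟩ := hy
      rw [← ht]
      exact h1 i
    | one => rw [map_one]; exact h2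
    | mul y z _ _ hy hz => rw [map_mul]; exact h3 _ _ hy hz
    | inv y _ hy => rw [map_inv]; exact h4 _ hy
  have hcyc : ∀ c : G ⧸ K, ¬ ∀ q : G ⧸ K, q ∈ Subgroup.zpowers c := by
    intro c h
    apply hab
    intro p q
    obtain ⟨i, rfl⟩ := Subgroup.mem_zpowers_iff.1 (h p)
    obtain ⟨j, rfl⟩ := Subgroup.mem_zpowers_iff.1 (h q)
    exact (Commute.refl c).zpow_zpow i j
  have hkpos : ∀ i, 0 < ko K (s i) := fun i => (ko_mul_oo K (s i)).2.1
  have hnu : nuK s K = ∑ i, (1 - 1 / (ko K (s i) : ℝ)) := rfl
  have hdef : 2 - nuK s K = 2 * (Nat.card K : ℝ) / Nat.card G := by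
    rw [eq_div_iff hnpos.ne', mul_comm]
    exact hν
  have hlt1 : 0 < 2 * (Nat.card K : ℝ) / Nat.card G := by positivity
  have hlt2 : 2 * (Nat.card K : ℝ) / Nat.card G < 1 / 60 := by
    rw [div_lt_iff₀ hnpos]
    linarith
  have hone : ∀ i, ko K (s i) = 1 → t i = 1 := fun i h => by
    rw [hko] at h
    exact orderOf_eq_one_iff.1 h
  rcases ar_lt (fun i => ko K (s i)) hkpos (by rw [← hnu]; linarith) (by rw [← hnu]; linarith) with
    ⟨α, β, hne, hot⟩ | ⟨α, β, r, ne1, ne2, ne3, kα, kβ, ki⟩
  · -- the quotient is cyclic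
    exfalso
    have hot' : ∀ i, i ≠ α → i ≠ β → t i = 1 := fun i h1 h2 => hone i (hot i h1 h2)
    have h1 : t β = (t α)⁻¹ := by
      rcases lt_or_gt_of_ne hne with h | h
      · rw [prod2_G0A t α β h hot'] at hprod
        exact eq_inv_of_mul_eq_one_right hprod
      · rw [prod2_G0A t β α h fun i i1 i2 => hot' i i2 i1] at hprod
        exact eq_inv_of_mul_eq_one_left hprod
    refine hcyc (t α) (hind _ ?_ (one_mem _) (fun u v hu hv => mul_mem hu hv) fun u hu => inv_mem hu)
    intro i
    by_cases i1 : i = α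
    · rw [i1]
      exact Subgroup.mem_zpowers _
    · by_cases i2 : i = β
      · rw [i2, h1]
        exact inv_mem (Subgroup.mem_zpowers _)
      · rw [hot' i i1 i2]
        exact one_mem _
  · obtain ⟨a, ha⟩ : ∃ a, a = t α := ⟨_, rfl⟩
    obtain ⟨c, hc⟩ : ∃ c, c = t r := ⟨_, rfl⟩
    have ki' : ∀ i, i ≠ α → i ≠ β → i ≠ r → t i = 1 := fun i i1 i2 i3 => hone i (ki i i1 i2 i3)
    have haa : a * a = 1 := by
      rw [ha, ← sq, ← kα]
      show t α ^ ko K (s α) = 1
      rw [hko]
      exact pow_orderOf_eq_one _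
    have hbb : t β * t β = 1 := by
      rw [← sq, ← kβ]
      show t β ^ ko K (s β) = 1
      rw [hko]
      exact pow_orderOf_eq_one _
    have hai : a⁻¹ = a := inv_eq_of_mul_eq_one_left haa
    have hbi : (t β)⁻¹ = t β := inv_eq_of_mul_eq_one_left hbb
    -- `t β` is `c a` or `a c`
    have hβ : (c = t β * a ∨ c = a * t β) := by
      rcases cyc_G0A t α β r ne1 ne2 ne3 ki' hprod with h | h
      · left
        rw [hc, eq_inv_of_mul_eq_one_right h, mul_inv_rev, hbi, ← ha, hai]
      · right
        rw [hc, eq_inv_of_mul_eq_one_right h, mul_inv_rev, hbi, ← ha, hai]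
    have hci : a * c * a = c⁻¹ := by
      rcases hβ with h | h
      · rw [h, mul_inv_rev, hbi, hai, mul_assoc, mul_assoc, haa, mul_one]
      · rw [h, mul_inv_rev, hbi, hai, ← mul_assoc, haa, one_mul]
    have hinv : ∀ m ∈ Subgroup.zpowers c, a * m * a = m⁻¹ := fun m hm => inv_G0A haa hci hm
    have hconj : ∀ m ∈ Subgroup.zpowers c, a * m * a ∈ Subgroup.zpowers c := fun m hm => by
      rw [hinv m hm]
      exact inv_mem hm
    have hdich : ∀ q : G ⧸ K, q ∈ Subgroup.zpowers c ∨ a * q ∈ Subgroup.zpowers c := by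
      refine hind _ ?_ (Or.inl (one_mem _)) ?_ ?_
      · intro i
        by_cases i1 : i = α
        · right
          rw [i1, ← ha, haa]
          exact one_mem _
        · by_cases i2 : i = β
          · right
            rw [i2]
            rcases hβ with h | h
            · have h1 : a * t β = c⁻¹ := by rw [h, mul_inv_rev, hbi, hai]
              rw [h1]
              exact inv_mem (Subgroup.mem_zpowers _)
            · rw [← h]
              exact Subgroup.mem_zpowers _
          · by_cases i3 : i = r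
            · left
              rw [i3, ← hc]
              exact Subgroup.mem_zpowers _
            · left
              rw [ki' i i1 i2 i3]
              exact one_mem _
      · intro u v hu hv
        rcases hu with hu | hu <;> rcases hv with hv | hv
        · exact Or.inl (mul_mem hu hv)
        · right
          have h1 : a * (u * v) = (a * u * a) * (a * v) := by
            have h2 : (a * u * a) * (a * v) = a * u * (a * a) * v := by group
            rw [h2, haa, mul_one, mul_assoc]
          rw [h1]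
          exact mul_mem (hconj u hu) hv
        · right
          rw [← mul_assoc]
          exact mul_mem hu hv
        · left
          have h1 : u * v = (a * (a * u) * a) * (a * v) := by
            have h2 : (a * (a * u) * a) * (a * v) = (a * a) * u * (a * a) * v := by group
            rw [h2, haa, mul_one, one_mul]
          rw [h1]
          exact mul_mem (hconj _ hu) hv
      · intro u hu
        rcases hu with hu | hu
        · exact Or.inl (inv_mem hu)
        · right
          have h1 : a * u⁻¹ = a * (a * u)⁻¹ * a := by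
            rw [mul_inv_rev, hai, mul_assoc, mul_assoc, haa, mul_one]
          rw [h1]
          exact hconj _ (inv_mem hu)
    have haL : a ∉ Subgroup.zpowers c := by
      intro h
      refine hcyc c fun q => ?_
      rcases hdich q with h1 | h1
      · exact h1
      · exact (Subgroup.mul_mem_cancel_left _ h).1 h1
    have hLn : (Subgroup.zpowers c).Normal := by
      refine ⟨fun l hl q => ?_⟩
      obtain ⟨j, rfl⟩ := Subgroup.mem_zpowers_iff.1 hl
      rcases hdich q with h | h
      · exact mul_mem (mul_mem h hl) (inv_mem h)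
      · obtain ⟨k, hk⟩ := Subgroup.mem_zpowers_iff.1 h
        have h1 : q = a * c ^ k := by rw [hk, ← mul_assoc, haa, one_mul]
        have h2 : q * c ^ j * q⁻¹ = a * c ^ j * a := by
          rw [h1, mul_inv_rev, hai]
          have h3 : a * c ^ k * c ^ j * ((c ^ k)⁻¹ * a) = a * (c ^ k * c ^ j * (c ^ k)⁻¹) * a := by group
          rw [h3, (Commute.refl c).zpow_zpow k j, mul_inv_cancel_right]
        rw [h2]
        exact hconj _ hl
    obtain ⟨H, hH⟩ : ∃ H : Subgroup G, H = (Subgroup.zpowers c).comap (QuotientGroup.mk' K) := ⟨_, rfl⟩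
    have hmem : ∀ g, g ∈ H ↔ QuotientGroup.mk' K g ∈ Subgroup.zpowers c := fun g => by
      rw [hH, Subgroup.mem_comap]
    have hHn : H.Normal := by rw [hH]; exact hLn.comap _
    have hKH : K ≤ H := by
      intro g hgK
      rw [hmem]
      have h1 : QuotientGroup.mk' K g = 1 := (QuotientGroup.eq_one_iff g).2 hgK
      rw [h1]
      exact one_mem _
    have hwmem : ∀ g, (s α)⁻¹ * g ∈ H ↔ a * QuotientGroup.mk' K g ∈ Subgroup.zpowers c := by
      intro g
      rw [hmem, map_mul, map_inv, ← ht, ← ha, hai]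
    have hβL : t β ∉ Subgroup.zpowers c := by
      intro h
      apply haL
      rcases hβ with h1 | h1
      · have h2 : t β * a ∈ Subgroup.zpowers c := by rw [← h1]; exact Subgroup.mem_zpowers _
        exact (Subgroup.mul_mem_cancel_left _ h).1 h2
      · have h2 : a * t β ∈ Subgroup.zpowers c := by rw [← h1]; exact Subgroup.mem_zpowers _
        exact (Subgroup.mul_mem_cancel_right _ h).1 h2
    have hidx2 : H.index = 2 := by
      rw [Subgroup.index_eq_two_iff]
      refine ⟨s α, fun g => ?_⟩
      rw [hmem, hmem, map_mul, ← ht, ← ha]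
      by_cases h : QuotientGroup.mk' K g ∈ Subgroup.zpowers c
      · right
        exact ⟨h, fun h1 => haL ((Subgroup.mul_mem_cancel_left _ h).1 h1)⟩
      · left
        refine ⟨?_, h⟩
        have h1 := hconj _ ((hdich _).resolve_left h)
        rwa [← mul_assoc, haa, one_mul] at h1
    have hcardG : Nat.card G = 2 * Nat.card H := by
      rw [← H.card_mul_index, hidx2, mul_comm]
    have hb2 : (b : ℝ) ≤ (b : ℝ) ^ 2 := by nlinarith
    refine ⟨H, hHn, α, β, r, ⟨ne1, ne2, ne3, kα, kβ, ki, ⟨hKH, ?_, ?_, ?_, ?_, ?_, ?_, ?_⟩, ?_, ?_, hcardG, ?_, ?_⟩⟩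
    · rw [hmem, ← ht, ← ha]
      exact haL
    · intro g hgw
      rw [hwmem] at hgw
      rw [← QuotientGroup.eq_one_iff]
      show QuotientGroup.mk' K (g * g) = 1
      rw [map_mul]
      have h1 := hinv _ hgw
      have h2 : a * (a * QuotientGroup.mk' K g) * a = QuotientGroup.mk' K g * a := by
        rw [← mul_assoc, haa, one_mul]
      rw [h2, mul_inv_rev, hai, mul_left_inj] at h1
      nth_rewrite 1 [h1]
      exact inv_mul_cancel _
    · intro g hgK
      refine (hfx g hgK).trans ?_
      nlinarith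
    · intro i hi
      rw [hmem, ← ht] at hi
      have h1 : ko K (s i) = 2 := by
        by_cases i1 : i = α
        · rw [i1]
          exact kα
        · by_cases i2 : i = β
          · rw [i2]
            exact kβ
          · exfalso
            by_cases i3 : i = r
            · apply hi
              rw [i3, ← hc]
              exact Subgroup.mem_zpowers _
            · apply hi
              rw [ki' i i1 i2 i3]
              exact one_mem _
      obtain ⟨h2, -, -, -, h3⟩ := ko_mul_oo K (s i)
      rw [← h2, h1]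
      have h4 : (oo K (s i) : ℝ) ≤ Nat.card K := by exact_mod_cast h3
      push_cast
      nlinarith
    · -- the number of the elements with square in `K`
      have h1 : Nat.card {q : G ⧸ K // q ∈ Subgroup.zpowers c ∧ q * q = 1} ≤ 2 := by
        have h2 := IsCyclic.card_pow_eq_one_le (α := Subgroup.zpowers c) (n := 2) (by norm_num)
        refine le_trans ?_ h2
        rw [← Fintype.card_subtype, ← Nat.card_eq_fintype_card]
        refine Nat.card_le_card_of_injective (fun q => ⟨⟨q.1, q.2.1⟩, ?_⟩) ?_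
        · rw [sq]
          exact Subtype.ext q.2.2
        · intro q q' h
          exact Subtype.ext (congrArg (fun z => ((z.1 : Subgroup.zpowers c) : G ⧸ K)) h)
      have h2 : Nat.card {g : G // (s α)⁻¹ * g ∉ H ∧ g * g ∈ K} ≤
          Nat.card ({q : G ⧸ K // q ∈ Subgroup.zpowers c ∧ q * q = 1} × K) := by
        have h3 : ∀ g : {g : G // (s α)⁻¹ * g ∉ H ∧ g * g ∈ K},
            (QuotientGroup.mk' K g.1 ∈ Subgroup.zpowers c ∧ QuotientGroup.mk' K g.1 * QuotientGroup.mk' K g.1 = 1) := by
          intro g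
          refine ⟨?_, ?_⟩
          · have h4 := g.2.1
            rw [hwmem] at h4
            exact (hdich _).resolve_right h4
          · rw [← map_mul]
            exact (QuotientGroup.eq_one_iff _).2 g.2.2
        have h5 : ∀ g : {g : G // (s α)⁻¹ * g ∉ H ∧ g * g ∈ K},
            ((Quotient.out (QuotientGroup.mk' K g.1 : G ⧸ K))⁻¹ * g.1 : G) ∈ K := by
          intro g
          rw [← QuotientGroup.eq]
          exact Quotient.out_eq' _
        refine Nat.card_le_card_of_injective (fun g => (⟨QuotientGroup.mk' K g.1, h3 g⟩, ⟨_, h5 g⟩)) ?_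
        intro g g' h
        have h6 : QuotientGroup.mk' K g.1 = QuotientGroup.mk' K g'.1 :=
          congrArg (fun z => (z.1.1 : G ⧸ K)) h
        have h7 : (Quotient.out (QuotientGroup.mk' K g.1 : G ⧸ K))⁻¹ * g.1 =
            (Quotient.out (QuotientGroup.mk' K g'.1 : G ⧸ K))⁻¹ * g'.1 :=
          congrArg (fun z => (z.2.1 : G)) h
        rw [h6] at h7
        exact Subtype.ext (mul_left_cancel h7)
      rw [Nat.card_prod] at h2
      have h4 : Nat.card {g : G // (s α)⁻¹ * g ∉ H ∧ g * g ∈ K} ≤ 2 * b :=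
        h2.trans (Nat.mul_le_mul h1 hK)
      have h5 : (Nat.card {g : G // (s α)⁻¹ * g ∉ H ∧ g * g ∈ K} : ℝ) ≤ 2 * b := by exact_mod_cast h4
      refine h5.trans ?_
      nlinarith
    · rw [hcardG]
      push_cast
      refine mul_le_mul_of_nonneg_right ?_ (Nat.cast_nonneg _)
      nlinarith
    · refine hKR.trans ?_
      nlinarith
    · rw [hmem, ← ht, ← hc]
      exact Subgroup.mem_zpowers _
    · rw [hmem, ← ht]
      exact hβL
    · -- the index
      have h1 : K.relIndex H * H.index = K.index := Subgroup.relIndex_mul_index hKH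
      have h2 : (Subgroup.zpowers c).index = 2 := by
        rw [← hidx2, hH, Subgroup.index_comap_of_surjective _ (QuotientGroup.mk'_surjective K)]
      have h3 : Nat.card (Subgroup.zpowers c) * (Subgroup.zpowers c).index = Nat.card (G ⧸ K) :=
        (Subgroup.zpowers c).card_mul_index
      have h4 : K.index = Nat.card (G ⧸ K) := rfl
      rw [hidx2, h4, ← h3, h2, Nat.card_zpowers] at h1
      have h5 : (K.subgroupOf H).index = K.relIndex H := rfl
      rw [h5, hko, ← hc]
      omega
    · intro u v hu hv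
      rw [Subgroup.mul_mem_iff_of_index_two hidx2]
      exact ⟨fun h => absurd h hu, fun h => absurd h hv⟩

end Pool.Agent.H6.FF
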