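import Pool.Agent.H6.FF.S0
import Pool.Agent.H6.FF.KSum
import Pool.Agent.H6.FF.Eig
import Pool.Agent.H6.FF.IrrC

set_option autoImplicit false

/-!
PROJECT FF (MP_bf82d2_ag, BoundedGroup, note 6093), module G0B.
Case G0: the multiplicities.
PROOF. `g0_ip`: on `H`, `chi s = 1 + (chi s - 1 - gt s r) + gt s r`. The middle term is `0` for `x ∈ H`, `x ∉ K`: `chi_eq` (`x ≠ 1`) and
`gt s i x = 0` for `i ≠ r` (`gt_eq_zero`: a conjugate of `s i ^ j` in `H` is in `K`: `ki`: `s i ∈ K`; for `i = α, β`: `s i ∉ H`, index 2,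
so `j` is even and `ko K (s i) = 2`). So its contribution is `mu_r`, with `∑_{i ≠ r} (1 - 1/ko) = 1/2 + 1/2 = 1` and `|G| = 2 |H|`: the coefficient is
`-1`. `ip 1 ψ = [ψ = 1]` (`ip_self`, `ip_ne`, `irr_lin`). `gt_H`: `(1/|H|) ∑_u angs ψ (cel H (u s_r u⁻¹)) m = aa ψ`: for `u ∈ H` the
element is a conjugate in `H` of `s r`, for `u ∉ H`, `u = y w` with `y ∈ H`, of `w s_r w⁻¹`, and `angs` is invariant (`cl_of_irr`).
`g0_aa`: `ang_facts` for the two elements.
-/

namespace Pool.Agent.H6.FF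

open Finset Module
open Pool.Agent.H82.CO (chi quadInv nu genus eps zeta)
open Pool.Agent.H11.GQ (nuK)

variable {G : Type} [Group G] [Fintype G] {N : ℕ} {s : Fin N → G} {K H : Subgroup G} [K.Normal] [H.Normal] [Fintype H]
  {α β r : Fin N} {b : ℝ}

private lemma cel_coe_G0B {H : Subgroup G} {g : G} (h : g ∈ H) : cel H g = ⟨g, h⟩ := by
  unfold cel
  rw [dif_pos h]

private lemma angs_conj_G0B {ψ : H → ℂ} (hψ : IsIrr ψ) (x y : H) (o : ℕ) :
    angs ψ (y * x * y⁻¹) o = angs ψ x o := by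
  unfold angs
  congr 1
  refine sum_congr rfl fun j _ => ?_
  rw [conj_pow, cl_of_irr hψ (x ^ j) y]

private lemma cel_conj_G0B {H : Subgroup G} [H.Normal] {g : G} (hg : g ∈ H) (y : H) :
    cel H ((y : G) * g * (y : G)⁻¹) = y * cel H g * y⁻¹ := by
  have h1 : (y : G) * g * (y : G)⁻¹ ∈ H := H.mul_mem (H.mul_mem y.2 hg) (H.inv_mem y.2)
  rw [cel_coe_G0B h1, cel_coe_G0B hg]
  apply Subtype.ext
  rfl

private lemma erase_sum_G0B (S : S0 s K H α β r b) :
    ∑ i ∈ univ.erase r, (1 - 1 / (ko K (s i) : ℂ)) = 1 := by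
  classical
  have h1 : ∀ i ∈ univ.erase r, (1 - 1 / (ko K (s i) : ℂ)) =
      (if i = α then (1 / 2 : ℂ) else 0) + (if i = β then (1 / 2 : ℂ) else 0) := by
    intro i hi
    have hir : i ≠ r := (mem_erase.1 hi).1
    by_cases ha : i = α
    · subst ha
      rw [if_pos rfl, if_neg S.ne1, S.kα]
      norm_num
    · by_cases hb : i = β
      · subst hb
        rw [if_neg ha, if_pos rfl, S.kβ]
        norm_num
      · rw [if_neg ha, if_neg hb, S.ki i ha hb hir]
        norm_num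
  rw [sum_congr rfl h1, sum_add_distrib, sum_ite_eq' (univ.erase r) α, sum_ite_eq' (univ.erase r) β,
    if_pos (mem_erase.2 ⟨S.ne2, mem_univ _⟩), if_pos (mem_erase.2 ⟨S.ne3, mem_univ _⟩)]
  norm_num

private lemma two_G0B {g x u : G} (hKH : K ≤ H) (hg : g ∉ H) (hk : ko K g = 2) (hx : x ∈ H)
    (hu : u⁻¹ * x * u ∈ Subgroup.zpowers g) : x ∈ K := by
  obtain ⟨l, hl⟩ := Subgroup.mem_zpowers_iff.1 hu
  have h2 : g ^ 2 ∈ K := by
    rw [← QuotientGroup.eq_one_iff, QuotientGroup.mk_pow, ← hk]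
    exact pow_orderOf_eq_one _
  have hxu : x = u * (u⁻¹ * x * u) * u⁻¹ := by group
  rcases Int.even_or_odd' l with ⟨m, hm | hm⟩
  · have h3 : g ^ l ∈ K := by
      rw [hm, zpow_mul]
      exact K.zpow_mem (by exact_mod_cast h2) m
    rw [hxu, ← hl]
    exact Subgroup.Normal.conj_mem inferInstance _ h3 u
  · exfalso
    have h3 : g ^ (2 * m) ∈ K := by
      rw [zpow_mul]
      exact K.zpow_mem (by exact_mod_cast h2) m
    have h4 : u⁻¹ * x * u ∈ H := by
      have h5 := Subgroup.Normal.conj_mem (inferInstance : H.Normal) x hx u⁻¹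
      rwa [inv_inv] at h5
    rw [← hl, hm, zpow_add, zpow_one] at h4
    exact hg ((H.mul_mem_cancel_left (hKH h3)).1 h4)

private lemma gt_zero_G0B (S : S0 s K H α β r b) {i : Fin N} (hi : i ≠ r) {x : G} (hx : x ∈ H) (hxK : x ∉ K) :
    gt s i x = 0 := by
  refine gt_eq_zero s i x fun u hu => hxK ?_
  by_cases ha : i = α
  · subst ha
    exact two_G0B S.dat.KH S.dat.wH S.kα hx hu
  · by_cases hb : i = β
    · subst hb
      exact two_G0B S.dat.KH S.βH S.kβ hx hu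
    · have h1 := S.ki i ha hb hi
      have h2 : s i ∈ K := by
        rw [← QuotientGroup.eq_one_iff]
        exact orderOf_eq_one_iff.1 h1
      obtain ⟨l, hl⟩ := Subgroup.mem_zpowers_iff.1 hu
      have hxu : x = u * (u⁻¹ * x * u) * u⁻¹ := by group
      rw [hxu, ← hl]
      exact Subgroup.Normal.conj_mem inferInstance _ (K.zpow_mem h2 l) u

open Classical in
private lemma ip_one_G0B {ψ : H → ℂ} (hψ : IsIrr ψ) :
    ip (fun _ : H => (1 : ℂ)) ψ = if ψ = (fun _ => 1) then 1 else 0 := by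
  have h1 : IsIrr (fun _ : H => (1 : ℂ)) := irr_lin ⟨rfl, fun _ _ => (one_mul 1).symm, fun _ => norm_one⟩
  by_cases h : ψ = (fun _ => 1)
  · rw [if_pos h, h]
    exact ip_self h1
  · rw [if_neg h]
    exact ip_ne h1 hψ fun h' => h h'.symm

private lemma sum_u_G0B (S : S0 s K H α β r b) {ψ : H → ℂ} (hψ : IsIrr ψ) :
    ∑ u : G, angs ψ (cel H (u * s r * u⁻¹)) (orderOf (s r)) = (Nat.card H : ℂ) * aa s r H (s α) ψ := by
  classical
  have h1 : ∀ u : G, angs ψ (cel H (u * s r * u⁻¹)) (orderOf (s r)) =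
      if u ∈ H then angs ψ (cel H (s r)) (orderOf (s r))
      else angs ψ (cel H (s α * s r * (s α)⁻¹)) (orderOf (s r)) := by
    intro u
    by_cases hu : u ∈ H
    · rw [if_pos hu, cel_conj_G0B S.rH ⟨u, hu⟩, angs_conj_G0B hψ]
    · rw [if_neg hu]
      have hw : (s α)⁻¹ ∉ H := fun h => S.dat.wH (by simpa using H.inv_mem h)
      have hy : u * (s α)⁻¹ ∈ H := S.two u _ hu hw
      have h2 : s α * s r * (s α)⁻¹ ∈ H := Subgroup.Normal.conj_mem inferInstance _ S.rH _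
      have h3 : u * s r * u⁻¹ = ((⟨u * (s α)⁻¹, hy⟩ : H) : G) * (s α * s r * (s α)⁻¹) *
          ((⟨u * (s α)⁻¹, hy⟩ : H) : G)⁻¹ := by
        show u * s r * u⁻¹ = (u * (s α)⁻¹) * (s α * s r * (s α)⁻¹) * (u * (s α)⁻¹)⁻¹
        group
      rw [h3, cel_conj_G0B h2, angs_conj_G0B hψ]
  have h4 : (univ.filter fun u : G => u ∈ H).card = Nat.card H := by
    rw [← Fintype.card_subtype, Nat.card_eq_fintype_card]
  have h5 : (univ.filter fun u : G => u ∉ H).card = Nat.card H := by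
    have h6 := Finset.card_filter_add_card_filter_not (s := (univ : Finset G)) (fun u : G => u ∈ H)
    rw [card_univ, h4, ← Nat.card_eq_fintype_card, S.card] at h6
    omega
  rw [sum_congr rfl fun u _ => h1 u, sum_ite, sum_const, sum_const, h4, h5, nsmul_eq_mul, nsmul_eq_mul]
  unfold aa
  ring

open Classical in
theorem g0_ip (S : S0 s K H α β r b) {ψ : H → ℂ} (hψ : IsIrr ψ) :
    ip (fun x : H => chi s x) ψ =
      (if ψ = (fun _ => 1) then 1 else 0) - ψ 1 + Ak (univ.erase r) s K H ψ + aa s r H (s α) ψ := by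
  have hH : (Nat.card H : ℂ) ≠ 0 := by
    have := Nat.card_pos (α := H)
    exact_mod_cast this.ne'
  have hcj : (starRingEnd ℂ) (ψ 1) = ψ 1 := by
    obtain ⟨d, _, hd⟩ := deg_of_irr hψ
    rw [hd, Complex.conj_natCast]
  have hF : ∀ x : H, x ∉ K.subgroupOf H → chi s x - 1 - gt s r x = 0 := by
    intro x hx
    have hxK : (x : G) ∉ K := fun h => hx (Subgroup.mem_subgroupOf.2 h)
    have hx1 : (x : G) ≠ 1 := fun h => hxK (h ▸ K.one_mem)
    rw [chi_eq, if_neg hx1, ← add_sum_erase univ (fun i => gt s i (x : G)) (mem_univ r),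
      sum_eq_zero fun i hi => gt_zero_G0B S (mem_erase.1 hi).1 x.2 hxK]
    ring
  have h1 : ip (fun x : H => chi s x) ψ = ip (fun _ : H => (1 : ℂ)) ψ +
      mu (K.subgroupOf H) (fun x : H => chi s x - 1 - gt s r x) ψ +
        (1 / (Nat.card H : ℂ)) * ∑ x : H, gt s r x * (starRingEnd ℂ) (ψ x) := by
    unfold ip mu
    rw [← mul_add, ← mul_add, ← sum_add_distrib, ← sum_add_distrib]
    congr 1
    refine sum_congr rfl fun x _ => ?_
    by_cases hx : x ∈ K.subgroupOf H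
    · rw [if_pos hx]
      ring
    · rw [if_neg hx]
      have h2 := hF x hx
      show chi s x * (starRingEnd ℂ) (ψ x) =
        1 * (starRingEnd ℂ) (ψ x) + 0 + gt s r x * (starRingEnd ℂ) (ψ x)
      linear_combination (starRingEnd ℂ) (ψ x) * h2
  rw [h1, ip_one_G0B hψ, mu_r s r K H S.dat.KH ψ, gt_H s r H S.rH ψ, sum_u_G0B S hψ, erase_sum_G0B S, hcj]
  have h4 : (Nat.card G : ℂ) = 2 * (Nat.card H : ℂ) := by exact_mod_cast S.card
  rw [h4]
  field_simp
  ring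

private lemma pow_G0B {H : Subgroup G} {g : G} (hg : g ∈ H) {o : ℕ} (h : g ^ o = 1) : cel H g ^ o = 1 := by
  rw [cel_coe_G0B hg]
  apply Subtype.ext
  rw [Subgroup.coe_pow]
  exact h

theorem g0_aa {ψ : H → ℂ} (hψ : IsIrr ψ) (S : S0 s K H α β r b) :
    ∃ a a' f f' : ℝ, aa s r H (s α) ψ = a ∧ aa s r H (s α) (cj ψ) = a' ∧
      fixs ψ (cel H (s r)) (orderOf (s r)) = f ∧ fixs ψ (cel H (s α * s r * (s α)⁻¹)) (orderOf (s r)) = f' ∧
      a + a' = 2 * (ψ 1).re - f - f' ∧ 0 ≤ f ∧ 0 ≤ f' := by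
  have ho : 0 < orderOf (s r) := orderOf_pos _
  have h2 : s α * s r * (s α)⁻¹ ∈ H := Subgroup.Normal.conj_mem inferInstance _ S.rH _
  have hp : (s α * s r * (s α)⁻¹) ^ orderOf (s r) = 1 := by
    rw [conj_pow, pow_orderOf_eq_one, mul_one, mul_inv_cancel]
  obtain ⟨a₁, b₁, r₁, e1, e2, e3, -, e5, -, e7, -⟩ := ang_facts hψ (cel H (s r)) ho
    (pow_G0B S.rH (pow_orderOf_eq_one _))
  obtain ⟨a₂, b₂, r₂, f1, f2, f3, -, f5, -, f7, -⟩ := ang_facts hψ (cel H (s α * s r * (s α)⁻¹)) ho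
    (pow_G0B h2 hp)
  have hre : ψ 1 = (((ψ 1).re : ℝ) : ℂ) := by
    obtain ⟨d, _, hd⟩ := deg_of_irr hψ
    rw [hd, Complex.natCast_re]
    rfl
  refine ⟨a₁ + a₂, b₁ + b₂, (ψ 1).re - r₁, (ψ 1).re - r₂, ?_, ?_, ?_, ?_, ?_, ?_, ?_⟩
  · unfold aa
    rw [e1, f1]
    push_cast
    rfl
  · unfold aa
    rw [e2, f2]
    push_cast
    rfl
  · rw [e3]
    push_cast
    rw [← hre]
  · rw [f3]
    push_cast
    rw [← hre]
  · linarith
  · linarith
  · linarith

end Pool.Agent.H6.FF
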