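import Pool.Agent.H6.FF.Defs
import Pool.Agent.H6.FF.Eig

set_option autoImplicit false

/-!
PROJECT FF (MP_bf82d2_ag, BoundedGroup, note 6093), module Jmp.
The sum of the angles of `θ(c) ρ(c)` and `θ(c)⁻¹ ρ(c')` varies by at most `ψ 1`.
PROOF. `eig` for `c` and `c'`: exponents `t l`, `t' l`, `d` of them. `θ c = zeta o ^ e`, `θ' c = zeta o ^ e'`, `e, e' < o`
(`(θ c)^o = θ (c^o) = 1`). `tw ψ θ` at `c` has the exponents `(t l + e) % o`, at `c'` `(t' l + (o - e)) % o`; `angs_eq`. It remains to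
see, for each `l`, if `e ≤ e'`: `(t + e') % o ≤ (t + e) % o + (e' - e)` and `(t' + (o - e')) % o + (e' - e) ≤ (t' + (o - e)) % o + o`;
if `e' < e` the same with the roles of the two terms exchanged.
-/

namespace Pool.Agent.H6.FF

open Finset Module
open Pool.Agent.H82.CO (eps zeta)

variable {H : Type} [Group H] [Fintype H]

private theorem lin_pow_Jmp {θ : H → ℂ} (hθ : IsLin θ) (c : H) (k : ℕ) : θ (c ^ k) = θ c ^ k := by
  induction k with
  | zero => rw [pow_zero, pow_zero, hθ.1]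
  | succ k ih => rw [pow_succ, pow_succ, hθ.2.1, ih]

private theorem exp_Jmp {o : ℕ} (ho : 0 < o) {c c' : H} (hc : c ^ o = 1) {θ : H → ℂ}
    (hθ : IsLin θ) (h1 : θ c * θ c' = 1) :
    ∃ e, e < o ∧ θ c = zeta o ^ e ∧ θ c' = zeta o ^ (o - e) := by
  have hz : IsPrimitiveRoot (zeta o) o := Pool.Agent.H82.CO.zeta_prim ho
  have h2 : θ c ^ o = 1 := by rw [← lin_pow_Jmp hθ, hc, hθ.1]
  have : NeZero o := ⟨ho.ne'⟩
  obtain ⟨e, he, h3⟩ := hz.eq_pow_of_pow_eq_one h2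
  refine ⟨e, he, h3.symm, ?_⟩
  have h4 : zeta o ^ e * zeta o ^ (o - e) = 1 := by
    rw [← pow_add, Nat.add_sub_cancel' he.le, hz.pow_eq_one]
  have h5 : θ c ≠ 0 := by
    intro h0
    rw [h0, zero_mul] at h1
    exact zero_ne_one h1
  have h6 : θ c * θ c' = θ c * zeta o ^ (o - e) := by rw [h1, ← h3, h4]
  exact mul_left_cancel₀ h5 h6

private theorem tw_Jmp {ψ : H → ℂ} {c : H} {o : ℕ} (ho : 0 < o) {d : ℕ} {t : Fin d → ℕ}
    (hψ : ∀ k : ℕ, ψ (c ^ k) = ∑ l, zeta o ^ (t l * k)) {θ : H → ℂ} (hθ : IsLin θ) {e : ℕ}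
    (he : θ c = zeta o ^ e) :
    angs (tw ψ θ) c o = ((∑ l, (((t l + e) % o : ℕ) : ℝ) / o : ℝ) : ℂ) := by
  have hz : IsPrimitiveRoot (zeta o) o := Pool.Agent.H82.CO.zeta_prim ho
  refine angs_eq (t := fun l => (t l + e) % o) ho (fun l => Nat.mod_lt _ ho) ?_
  intro k
  change ψ (c ^ k) * θ (c ^ k) = _
  rw [hψ k, lin_pow_Jmp hθ, he, ← pow_mul, Finset.sum_mul]
  refine Finset.sum_congr rfl fun l _ => ?_
  rw [pow_mul (zeta o) ((t l + e) % o) k, ← pow_eq_pow_mod (t l + e) hz.pow_eq_one, ← pow_mul,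
    add_mul, pow_add]

private theorem mod_Jmp {o x : ℕ} (h : x < 2 * o) :
    (x < o ∧ x % o = x) ∨ (o ≤ x ∧ x % o = x - o) := by
  rcases lt_or_ge x o with h1 | h1
  · exact Or.inl ⟨h1, Nat.mod_eq_of_lt h1⟩
  · refine Or.inr ⟨h1, ?_⟩
    rw [Nat.mod_eq_sub_mod h1, Nat.mod_eq_of_lt (by omega)]

private theorem key_Jmp {o t t' e e' : ℕ} (ht : t < o) (ht' : t' < o) (he : e < o) (he' : e' < o) :
    (t + e') % o + (t' + (o - e')) % o ≤ (t + e) % o + (t' + (o - e)) % o + o := by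
  have h1 := mod_Jmp (o := o) (x := t + e') (by omega)
  have h2 := mod_Jmp (o := o) (x := t' + (o - e')) (by omega)
  have h3 := mod_Jmp (o := o) (x := t + e) (by omega)
  have h4 := mod_Jmp (o := o) (x := t' + (o - e)) (by omega)
  omega

theorem jump {ψ : H → ℂ} (h : IsIrr ψ) (c c' : H) {o : ℕ} (ho : 0 < o) (hc : c ^ o = 1) (hc' : c' ^ o = 1)
    {θ θ' : H → ℂ} (hθ : IsLin θ) (hθ' : IsLin θ') (h1 : θ c * θ c' = 1) (h2 : θ' c * θ' c' = 1) :
    (angs (tw ψ θ') c o + angs (tw ψ θ') c' o).re ≤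
      (angs (tw ψ θ) c o + angs (tw ψ θ) c' o).re + (ψ 1).re := by
  obtain ⟨d, t, hd, ht, hψ⟩ := eig h c ho hc
  obtain ⟨d', t', hd', ht', hψ'⟩ := eig h c' ho hc'
  obtain rfl : d = d' := by
    rw [hd] at hd'
    exact_mod_cast hd'
  obtain ⟨e, he, he1, he2⟩ := exp_Jmp ho hc hθ h1
  obtain ⟨e', he', he1', he2'⟩ := exp_Jmp ho hc hθ' h2
  rw [tw_Jmp ho hψ hθ he1, tw_Jmp ho hψ' hθ he2, tw_Jmp ho hψ hθ' he1', tw_Jmp ho hψ' hθ' he2',
    hd, Complex.add_re, Complex.add_re, Complex.ofReal_re, Complex.ofReal_re, Complex.ofReal_re,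
    Complex.ofReal_re, Complex.natCast_re, ← Finset.sum_add_distrib, ← Finset.sum_add_distrib]
  have ho' : (0 : ℝ) < o := by exact_mod_cast ho
  have h3 : (d : ℝ) = ∑ _l : Fin d, (1 : ℝ) := by simp
  rw [h3, ← Finset.sum_add_distrib]
  refine Finset.sum_le_sum fun l _ => ?_
  have h4 := key_Jmp (ht l) (ht' l) he he'
  have h5 : (((t l + e') % o : ℕ) : ℝ) + (((t' l + (o - e')) % o : ℕ) : ℝ)
      ≤ (((t l + e) % o : ℕ) : ℝ) + (((t' l + (o - e)) % o : ℕ) : ℝ) + o := by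
    exact_mod_cast h4
  rw [← add_div, ← add_div, div_add_one ho'.ne', div_le_div_iff_of_pos_right ho']
  exact h5

end Pool.Agent.H6.FF
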