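import Pool.Agent.H6.FF.Defs
import Pool.Agent.H52.VC.Chi

set_option autoImplicit false

/-!
PROJECT FF (MP_bf82d2_ag, BoundedGroup, note 6093), module Tau.
The conjugation by `w` on `H`.
PROOF. `MulAut.conjNormal_apply`. `z = ⟨w * w, _⟩`: `w * w ∈ K ≤ H` by `D.sq w`. `x * τ x * z = (x w) (x w)` and `w⁻¹ (x w) ∈ H` (normal), so
it is in `K` (`D.sq`). `comm`: modulo `K`, `w x w⁻¹ = x⁻¹` for all `x ∈ H` (`(w x)(w x) ∈ K`, `w w ∈ K`, `K` normal), so
`x y = ((x y)⁻¹)⁻¹ = (w (x y) w⁻¹)⁻¹ = (x⁻¹ y⁻¹)⁻¹ = y x` modulo `K`. `chi_conj` (`Pool/Agent/H52/VC/Chi.lean`) for the last two.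
-/

namespace Pool.Agent.H6.FF

open Finset Module
open Pool.Agent.H82.CO (chi quadInv nu genus eps zeta)

variable {G : Type} [Group G] [Fintype G] {N : ℕ}

/-- the conjugation by `w` on `H` -/
noncomputable def tau (H : Subgroup G) [H.Normal] (w : G) : H ≃* H := MulAut.conjNormal w

theorem tau_apply (H : Subgroup G) [H.Normal] (w : G) (x : H) : ((tau H w x : H) : G) = w * x * w⁻¹ :=
  MulAut.conjNormal_apply w x

private theorem inv_Tau {s : Fin N → G} {K H : Subgroup G} [K.Normal] [H.Normal] {w : G} {b : ℝ} (D : Dat s K H w b) {x : G}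
    (hx : x ∈ H) : w * x * w⁻¹ * x ∈ K := by
  have h1 : w * x * (w * x) ∈ K := D.sq (w * x) (by simpa using hx)
  have h2 : w * w ∈ K := D.sq w (by simp)
  have h3 : x⁻¹ * (w * w)⁻¹ * x⁻¹⁻¹ ∈ K := Subgroup.Normal.conj_mem inferInstance _ (K.inv_mem h2) x⁻¹
  have h4 := K.mul_mem h1 h3
  have h5 : w * x * (w * x) * (x⁻¹ * (w * w)⁻¹ * x⁻¹⁻¹) = w * x * w⁻¹ * x := by group
  rw [h5] at h4
  exact h4

private theorem comm_Tau {s : Fin N → G} {K H : Subgroup G} [K.Normal] [H.Normal] {w : G} {b : ℝ} (D : Dat s K H w b) {x y : G}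
    (hx : x ∈ H) (hy : y ∈ H) : x⁻¹ * y⁻¹ * x * y ∈ K := by
  have k1 := inv_Tau D hx
  have k2 := inv_Tau D hy
  have k3 := inv_Tau D (H.mul_mem hy hx)
  have k4 : y⁻¹ * (w * x * w⁻¹ * x) * y⁻¹⁻¹ ∈ K := Subgroup.Normal.conj_mem inferInstance _ k1 y⁻¹
  have k5 := K.mul_mem (K.mul_mem (K.inv_mem k3) k2) k4
  have h5 : (w * (y * x) * w⁻¹ * (y * x))⁻¹ * (w * y * w⁻¹ * y) * (y⁻¹ * (w * x * w⁻¹ * x) * y⁻¹⁻¹)
      = x⁻¹ * y⁻¹ * x * y := by group
  rw [h5] at k5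
  exact k5

theorem dat_facts {s : Fin N → G} {K H : Subgroup G} [K.Normal] [H.Normal] {w : G} {b : ℝ} (D : Dat s K H w b) :
    ∃ z : H, (z : G) = w * w ∧ tau H w z = z ∧ (∀ x, tau H w (tau H w x) = z * x * z⁻¹) ∧
      (∀ x : H, x * tau H w x * z ∈ K.subgroupOf H) ∧
      (∀ x : H, ((x * tau H w x * z : H) : G) = x * w * (x * w)) ∧
      (∀ x y : H, x * y * x⁻¹ * y⁻¹ ∈ K.subgroupOf H) ∧ (∀ x : H, chi s (tau H w x) = chi s x) ∧
      IsCl (fun x : H => chi s x) := by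
  have hsq : ∀ x : H, ((x * tau H w x * (⟨w * w, D.KH (D.sq w (by simp))⟩ : H) : H) : G) = x * w * (x * w) := by
    intro x
    rw [Subgroup.coe_mul, Subgroup.coe_mul, tau_apply]
    group
  refine ⟨⟨w * w, D.KH (D.sq w (by simp))⟩, rfl, ?_, ?_, ?_, hsq, ?_, ?_, ?_⟩
  · apply Subtype.ext
    rw [tau_apply]
    show w * (w * w) * w⁻¹ = w * w
    group
  · intro x
    apply Subtype.ext
    rw [tau_apply, tau_apply, Subgroup.coe_mul, Subgroup.coe_mul, Subgroup.coe_inv]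
    show w * (w * (x : G) * w⁻¹) * w⁻¹ = w * w * x * (w * w)⁻¹
    group
  · intro x
    rw [Subgroup.mem_subgroupOf, hsq x]
    refine D.sq _ ?_
    have h1 : w⁻¹ * (x : G) * w⁻¹⁻¹ ∈ H := Subgroup.Normal.conj_mem inferInstance _ x.2 w⁻¹
    have h2 : w⁻¹ * ((x : G) * w) = w⁻¹ * (x : G) * w⁻¹⁻¹ := by group
    rw [h2]
    exact h1
  · intro x y
    rw [Subgroup.mem_subgroupOf]
    have h1 := comm_Tau D (H.inv_mem x.2) (H.inv_mem y.2)
    simpa using h1
  · intro x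
    rw [tau_apply]
    exact Pool.Agent.H52.VC.chi_conj s (x : G) w
  · intro g x
    show chi s (((x * g * x⁻¹ : H)) : G) = chi s (g : G)
    rw [Subgroup.coe_mul, Subgroup.coe_mul, Subgroup.coe_inv]
    exact Pool.Agent.H52.VC.chi_conj s (g : G) (x : G)

/-- elements of `H` are inverted by `w` modulo `K` -/
theorem dat_inv {s : Fin N → G} {K H : Subgroup G} [K.Normal] [H.Normal] {w : G} {b : ℝ} (D : Dat s K H w b) {x : G}
    (hx : x ∈ H) : w * x * w⁻¹ * x ∈ K := inv_Tau D hx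

private theorem avg_Tau {α : Type} [Fintype α] (f : α → ℂ) (hf : ∀ x, ‖f x‖ = 1)
    (h : (1 / (Nat.card α : ℂ)) * ∑ x, f x = -1) (x : α) : f x = -1 := by
  classical
  have : Nonempty α := ⟨x⟩
  have hc : (Nat.card α : ℂ) ≠ 0 := by
    rw [Nat.cast_ne_zero]
    exact Nat.card_pos.ne'
  have h1 : ∑ x, f x = -(Nat.card α : ℂ) := by
    field_simp at h
    exact h
  have h2 : ∑ x, (1 + (f x).re) = 0 := by
    rw [Finset.sum_add_distrib, ← Complex.re_sum, h1, Finset.sum_const, Finset.card_univ,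
      Nat.card_eq_fintype_card]
    simp
  have h3 : ∀ y ∈ (univ : Finset α), 0 ≤ 1 + (f y).re := by
    intro y _
    have h4 := Complex.abs_re_le_norm (f y)
    rw [hf y] at h4
    have h5 := (abs_le.mp h4).1
    linarith
  have h4 := (Finset.sum_eq_zero_iff_of_nonneg h3).mp h2 x (mem_univ x)
  have h5 : (f x).re = -1 := by linarith
  have h6 : (f x).im = 0 := by
    have h7 := Complex.sq_norm (f x)
    rw [hf x, Complex.normSq_apply, h5] at h7
    have h8 : (f x).im * (f x).im = 0 := by linarith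
    exact mul_self_eq_zero.mp h8
  exact Complex.ext (by simpa using h5) (by simpa using h6)

/-- for a linear character: `fs = -1` means `θ ((x w)^2) = -1` for all `x` -/
theorem fs_lin (H : Subgroup G) [H.Normal] [Fintype H] (w : G) (z : H) (hz : (z : G) = w * w) {θ : H → ℂ} (hθ : IsLin θ)
    (h : fs (tau H w) z θ = -1) (g : H) (y : G) (hy : w⁻¹ * y ∈ H) (hg : (g : G) = y * y) : θ g = -1 := by
  have hx : y * w⁻¹ ∈ H := by
    have h1 : w * (w⁻¹ * y) * w⁻¹ ∈ H := Subgroup.Normal.conj_mem inferInstance _ hy w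
    have h2 : w * (w⁻¹ * y) * w⁻¹ = y * w⁻¹ := by group
    rw [h2] at h1
    exact h1
  have h1 := avg_Tau (fun x : H => θ (x * tau H w x * z)) (fun x => hθ.2.2 _) h ⟨y * w⁻¹, hx⟩
  have h2 : ((⟨y * w⁻¹, hx⟩ : H) * tau H w ⟨y * w⁻¹, hx⟩ * z : H) = g := by
    apply Subtype.ext
    rw [Subgroup.coe_mul, Subgroup.coe_mul, tau_apply, hz, hg]
    show y * w⁻¹ * (w * (y * w⁻¹) * w⁻¹) * (w * w) = y * y
    group
  rw [← h2]
  exact h1

end Pool.Agent.H6.FF
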