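import Pool.Agent.H6.FF.S0
import Pool.Agent.H6.FF.KSum
import Pool.Agent.H6.FF.Jmp
import Pool.Agent.H6.FF.Lin
import Pool.Agent.H6.FF.Tau

set_option autoImplicit false

/-!
PROJECT FF (MP_bf82d2_ag, BoundedGroup, note 6093), module G0E.
Case G0: sums over the linear characters `θ` trivial on `K`.
PROOF. `m = orderOf (s r) = k o`, `k = ko K (s r) = index`, `o = oo K (s r) ≤ |K|`. For `c = s r` or its conjugate by `s α` (in `H`, of order `m`,
`c ^ j ∈ K` iff `k ∣ j`): `∑ θ, fixs (tw ψ θ) c m = (1/m) ∑_{j < m} ψ (c^j) ∑ θ, θ (c^j) = (k/m) ∑_{l < o} ψ (c^(k l))` (`lin_sum`), of absolute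
value `≤ ψ 1`. Likewise `∑ θ, angs (tw ψ θ) c m = (k/m) ∑_{l < o} eps m (k l) conj (ψ (c^(k l)))`; the term `l = 0` is `(1/o) (m - 1)/2 * ψ 1
≥ (k/2 - 1/2) ψ 1`, the others have absolute value `≤ (1/o) * (o/2) * ψ 1` each, at most `o` of them (`eps m (k l) = eps o l` for `0 < l < o`,
`‖eps o l‖ ≤ ∑_{a < o} a/o ≤ o/2`), together `≤ o ψ 1 / 2`; so the sum for one `c` is `≥ k/2 ψ 1 - (|K| + 1) ψ 1`. `g0_jump`: `jump` with
`θ c θ c' = 1` since `c c' ∈ K` (`dat_inv`).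
-/

namespace Pool.Agent.H6.FF

open Finset Module
open Pool.Agent.H82.CO (chi quadInv nu genus eps zeta)
open Pool.Agent.H11.GQ (nuK)

variable {G : Type} [Group G] [Fintype G] {N : ℕ} {s : Fin N → G} {K H : Subgroup G} [K.Normal] [H.Normal] [Fintype H]
  {α β r : Fin N} {b : ℝ}

private lemma zeta_pow_G0E {k o : ℕ} (hk : 0 < k) (ho : 0 < o) : zeta (k * o) ^ k = zeta o := by
  unfold zeta
  rw [← Complex.exp_nat_mul]
  congr 1
  have h1 : (k : ℂ) ≠ 0 := by exact_mod_cast hk.ne'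
  have h2 : (o : ℂ) ≠ 0 := by exact_mod_cast ho.ne'
  push_cast
  field_simp

private lemma eps_mul_G0E {k o j : ℕ} (hk : 0 < k) (ho : 0 < o) (hj : j < o) :
    eps (k * o) (k * j) = eps o j + if j = 0 then ((k : ℂ) - 1) * o / 2 else 0 := by
  rcases Nat.eq_zero_or_pos j with h | h
  · subst h
    rw [if_pos rfl, mul_zero, Pool.Agent.H82.CO.eps_zero (Nat.mul_pos hk ho),
      Pool.Agent.H82.CO.eps_zero ho]
    push_cast
    ring
  · rw [if_neg h.ne', add_zero, Pool.Agent.H82.CO.eps_eq (Nat.mul_pos hk h)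
      (Nat.mul_lt_mul_of_pos_left hj hk), Pool.Agent.H82.CO.eps_eq h hj, pow_mul,
      zeta_pow_G0E hk ho]

/-- sums over the multiples of `k` -/
private lemma sum_dvd_G0E {k o : ℕ} (hk : 0 < k) (f : ℕ → ℂ) :
    ∑ l ∈ range (k * o), (if k ∣ l then f l else 0) = ∑ j ∈ range o, f (k * j) := by
  rw [← sum_filter]
  symm
  refine sum_bij (fun j _ => k * j) ?_ ?_ ?_ ?_
  · intro j hj
    rw [mem_filter, mem_range]
    exact ⟨Nat.mul_lt_mul_of_pos_left (mem_range.1 hj) hk, dvd_mul_right _ _⟩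
  · intro a _ b _ hab
    exact Nat.eq_of_mul_eq_mul_left hk hab
  · intro l hl
    rw [mem_filter, mem_range] at hl
    obtain ⟨h1, j, rfl⟩ := hl
    exact ⟨j, mem_range.2 (Nat.lt_of_mul_lt_mul_left h1), rfl⟩
  · intro j _
    rfl

private lemma sum_id_G0E (n : ℕ) : ∑ a ∈ range n, (a : ℝ) = n * (n - 1) / 2 := by
  induction n with
  | zero => simp
  | succ n ih =>
    rw [sum_range_succ, ih]
    push_cast
    ring

private lemma norm_eps_G0E {o : ℕ} (ho : 0 < o) (l : ℕ) : ‖eps o l‖ ≤ (o : ℝ) / 2 := by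
  have hz : ‖zeta o‖ = 1 := Complex.norm_eq_one_of_pow_eq_one (Pool.Agent.H82.CO.zeta_prim ho).pow_eq_one ho.ne'
  have ho' : (0 : ℝ) < o := by exact_mod_cast ho
  unfold eps
  calc ‖∑ a ∈ range o, ((a : ℂ) / o) * zeta o ^ (a * l)‖
      ≤ ∑ a ∈ range o, ‖((a : ℂ) / o) * zeta o ^ (a * l)‖ := norm_sum_le _ _
    _ = ∑ a ∈ range o, (a : ℝ) / o := by
        refine sum_congr rfl fun a _ => ?_
        rw [norm_mul, norm_pow, hz, one_pow, mul_one, norm_div, Complex.norm_natCast, Complex.norm_natCast]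
    _ = (o * (o - 1) / 2) / o := by rw [← sum_div, sum_id_G0E]
    _ ≤ (o : ℝ) / 2 := by
        rw [div_le_iff₀ ho']
        nlinarith

private lemma cel_coe_G0E {G : Type} [Group G] {H : Subgroup G} {g : G} (h : g ∈ H) : ((cel H g : H) : G) = g := by
  unfold cel
  rw [dif_pos h]

/-- the two elements are conjugates of `s r` -/
private lemma pow_G0E {K H : Subgroup G} [K.Normal] {g u : G} {c : H} (hc : (c : G) = u * g * u⁻¹) (j : ℕ) :
    c ^ j ∈ K.subgroupOf H ↔ ko K g ∣ j := by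
  rw [Subgroup.mem_subgroupOf, Subgroup.coe_pow, hc, conj_pow, ← pow_mem_iff K g j]
  constructor
  · intro h
    have h3 := Subgroup.Normal.conj_mem (inferInstance : K.Normal) _ h u⁻¹
    have h4 : u⁻¹ * (u * g ^ j * u⁻¹) * u⁻¹⁻¹ = g ^ j := by group
    rwa [h4] at h3
  · intro h
    exact Subgroup.Normal.conj_mem inferInstance _ h u

open Classical in
private lemma sumL_G0E (S : S0 s K H α β r b) {c : H} {u : G} (hc : (c : G) = u * s r * u⁻¹) (F : ℕ → ℂ)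
    (t : (H → ℂ) → H → ℂ)
    (ht : ∀ x, ∑ θ ∈ lin (K.subgroupOf H), t θ x = if x ∈ K.subgroupOf H then ((K.subgroupOf H).index : ℂ) else 0) :
    ∑ θ ∈ lin (K.subgroupOf H), (1 / (orderOf (s r) : ℂ)) * ∑ j ∈ range (orderOf (s r)), F j * t θ (c ^ j) =
      (1 / (oo K (s r) : ℂ)) * ∑ l ∈ range (oo K (s r)), F (ko K (s r) * l) := by
  obtain ⟨hko, hk, ho, -, -⟩ := ko_mul_oo K (s r)
  rw [← mul_sum, sum_comm, ← hko]
  have h1 : ∀ j ∈ range (ko K (s r) * oo K (s r)), ∑ θ ∈ lin (K.subgroupOf H), F j * t θ (c ^ j) =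
      if ko K (s r) ∣ j then F j * (ko K (s r) : ℂ) else 0 := by
    intro j _
    rw [← mul_sum, ht, S.idx]
    by_cases h : ko K (s r) ∣ j
    · rw [if_pos h, if_pos ((pow_G0E hc j).2 h)]
    · rw [if_neg h, if_neg fun h' => h ((pow_G0E hc j).1 h'), mul_zero]
  rw [sum_congr rfl h1, sum_dvd_G0E hk, ← sum_mul]
  have hkC : (ko K (s r) : ℂ) ≠ 0 := by exact_mod_cast hk.ne'
  have hoC : (oo K (s r) : ℂ) ≠ 0 := by exact_mod_cast ho.ne'
  push_cast
  field_simp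

private lemma fix1_G0E (S : S0 s K H α β r b) {ψ : H → ℂ} (hψ : IsIrr ψ) {c : H} {u : G}
    (hc : (c : G) = u * s r * u⁻¹) :
    ∑ θ ∈ lin (K.subgroupOf H), (fixs (tw ψ θ) c (orderOf (s r))).re ≤ (ψ 1).re := by
  classical
  obtain ⟨-, -, -, -, -, -, hcomm, -⟩ := dat_facts S.dat
  obtain ⟨hko, hk, ho, -, -⟩ := ko_mul_oo K (s r)
  have ho' : (0 : ℝ) < oo K (s r) := by exact_mod_cast ho
  have h1 := sumL_G0E S hc (fun j => ψ (c ^ j)) (fun θ x => θ x) (fun x => by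
    have := lin_sum (K.subgroupOf H) hcomm x
    rw [this])
  have h2 : ∑ θ ∈ lin (K.subgroupOf H), (fixs (tw ψ θ) c (orderOf (s r))).re =
      (∑ θ ∈ lin (K.subgroupOf H), (1 / (orderOf (s r) : ℂ)) * ∑ j ∈ range (orderOf (s r)), ψ (c ^ j) * θ (c ^ j)).re := by
    rw [Complex.re_sum]
    rfl
  rw [h2, h1]
  refine le_trans (Complex.re_le_norm _) ?_
  rw [norm_mul, norm_div, norm_one, Complex.norm_natCast]
  have h3 : ‖∑ l ∈ range (oo K (s r)), ψ (c ^ (ko K (s r) * l))‖ ≤ (oo K (s r) : ℝ) * (ψ 1).re := by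
    calc ‖∑ l ∈ range (oo K (s r)), ψ (c ^ (ko K (s r) * l))‖
        ≤ ∑ l ∈ range (oo K (s r)), ‖ψ (c ^ (ko K (s r) * l))‖ := norm_sum_le _ _
      _ ≤ ∑ _l ∈ range (oo K (s r)), (ψ 1).re := sum_le_sum fun l _ => norm_le_of_irr hψ _
      _ = (oo K (s r) : ℝ) * (ψ 1).re := by rw [sum_const, card_range, nsmul_eq_mul]
  calc 1 / (oo K (s r) : ℝ) * ‖∑ l ∈ range (oo K (s r)), ψ (c ^ (ko K (s r) * l))‖
      ≤ 1 / (oo K (s r) : ℝ) * ((oo K (s r) : ℝ) * (ψ 1).re) := mul_le_mul_of_nonneg_left h3 (by positivity)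
    _ = (ψ 1).re := by field_simp

private lemma ang1_G0E (S : S0 s K H α β r b) {ψ : H → ℂ} (hψ : IsIrr ψ) {c : H} {u : G}
    (hc : (c : G) = u * s r * u⁻¹) :
    (((K.subgroupOf H).index : ℝ) - 1 - (Nat.card K : ℝ)) / 2 * (ψ 1).re ≤
      ∑ θ ∈ lin (K.subgroupOf H), (angs (tw ψ θ) c (orderOf (s r))).re := by
  classical
  obtain ⟨-, -, -, -, -, -, hcomm, -⟩ := dat_facts S.dat
  obtain ⟨hko, hk, ho, -, hoK⟩ := ko_mul_oo K (s r)
  have ho' : (0 : ℝ) < oo K (s r) := by exact_mod_cast ho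
  have hoC : (oo K (s r) : ℂ) ≠ 0 := by exact_mod_cast ho.ne'
  have hoK' : (oo K (s r) : ℝ) ≤ Nat.card K := by exact_mod_cast hoK
  have hψ0 : 0 ≤ (ψ 1).re := le_trans (norm_nonneg _) (norm_le_of_irr hψ 1)
  have h1 := sumL_G0E S hc (fun j => eps (orderOf (s r)) j * (starRingEnd ℂ) (ψ (c ^ j)))
    (fun θ x => (starRingEnd ℂ) (θ x)) (fun x => by
      have h := congrArg (starRingEnd ℂ) (lin_sum (K.subgroupOf H) hcomm x)
      rw [map_sum] at h
      rw [h]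
      by_cases hx : x ∈ K.subgroupOf H
      · rw [if_pos hx, Complex.conj_natCast]
      · rw [if_neg hx, map_zero])
  have h2 : ∑ θ ∈ lin (K.subgroupOf H), (angs (tw ψ θ) c (orderOf (s r))).re =
      (∑ θ ∈ lin (K.subgroupOf H), (1 / (orderOf (s r) : ℂ)) * ∑ j ∈ range (orderOf (s r)),
        eps (orderOf (s r)) j * (starRingEnd ℂ) (ψ (c ^ j)) * (starRingEnd ℂ) (θ (c ^ j))).re := by
    rw [Complex.re_sum]
    refine sum_congr rfl fun θ _ => ?_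
    congr 1
    unfold angs
    congr 1
    refine sum_congr rfl fun j _ => ?_
    show eps (orderOf (s r)) j * (starRingEnd ℂ) (ψ (c ^ j) * θ (c ^ j)) = _
    rw [map_mul, mul_assoc]
  rw [h2, h1]
  have h3 : ∀ l ∈ range (oo K (s r)), eps (orderOf (s r)) (ko K (s r) * l) *
      (starRingEnd ℂ) (ψ (c ^ (ko K (s r) * l))) =
      eps (oo K (s r)) l * (starRingEnd ℂ) (ψ (c ^ (ko K (s r) * l))) +
        (if l = 0 then ((ko K (s r) : ℂ) - 1) * (oo K (s r) : ℂ) / 2 * (starRingEnd ℂ) (ψ 1) else 0) := by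
    intro l hl
    rw [← hko, eps_mul_G0E hk ho (mem_range.1 hl), add_mul]
    congr 1
    by_cases h7 : l = 0
    · rw [if_pos h7, if_pos h7, h7, mul_zero, pow_zero]
    · rw [if_neg h7, if_neg h7, zero_mul]
  rw [sum_congr rfl h3, sum_add_distrib, sum_ite_eq' (range (oo K (s r))) 0, if_pos (mem_range.2 ho), mul_add,
    Complex.add_re]
  have h4 : (1 / (oo K (s r) : ℂ) * (((ko K (s r) : ℂ) - 1) * (oo K (s r) : ℂ) / 2 * (starRingEnd ℂ) (ψ 1))).re =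
      ((ko K (s r) : ℝ) - 1) / 2 * (ψ 1).re := by
    have h5 : 1 / (oo K (s r) : ℂ) * (((ko K (s r) : ℂ) - 1) * (oo K (s r) : ℂ) / 2 * (starRingEnd ℂ) (ψ 1)) =
        (((((ko K (s r) : ℝ) - 1) / 2 : ℝ)) : ℂ) * (starRingEnd ℂ) (ψ 1) := by
      push_cast
      field_simp
    rw [h5, Complex.re_ofReal_mul, Complex.conj_re]
  have h6 : ‖1 / (oo K (s r) : ℂ) * ∑ l ∈ range (oo K (s r)), eps (oo K (s r)) l *
      (starRingEnd ℂ) (ψ (c ^ (ko K (s r) * l)))‖ ≤ (oo K (s r) : ℝ) / 2 * (ψ 1).re := by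
    rw [norm_mul, norm_div, norm_one, Complex.norm_natCast]
    have h7 : ‖∑ l ∈ range (oo K (s r)), eps (oo K (s r)) l * (starRingEnd ℂ) (ψ (c ^ (ko K (s r) * l)))‖ ≤
        (oo K (s r) : ℝ) * ((oo K (s r) : ℝ) / 2 * (ψ 1).re) := by
      calc ‖∑ l ∈ range (oo K (s r)), eps (oo K (s r)) l * (starRingEnd ℂ) (ψ (c ^ (ko K (s r) * l)))‖
          ≤ ∑ l ∈ range (oo K (s r)), ‖eps (oo K (s r)) l * (starRingEnd ℂ) (ψ (c ^ (ko K (s r) * l)))‖ :=
            norm_sum_le _ _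
        _ ≤ ∑ _l ∈ range (oo K (s r)), (oo K (s r) : ℝ) / 2 * (ψ 1).re := by
            refine sum_le_sum fun l _ => ?_
            rw [norm_mul, RCLike.norm_conj]
            exact mul_le_mul (norm_eps_G0E ho l) (norm_le_of_irr hψ _) (norm_nonneg _) (by positivity)
        _ = (oo K (s r) : ℝ) * ((oo K (s r) : ℝ) / 2 * (ψ 1).re) := by rw [sum_const, card_range, nsmul_eq_mul]
    calc 1 / (oo K (s r) : ℝ) * ‖∑ l ∈ range (oo K (s r)), eps (oo K (s r)) l *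
          (starRingEnd ℂ) (ψ (c ^ (ko K (s r) * l)))‖
        ≤ 1 / (oo K (s r) : ℝ) * ((oo K (s r) : ℝ) * ((oo K (s r) : ℝ) / 2 * (ψ 1).re)) :=
          mul_le_mul_of_nonneg_left h7 (by positivity)
      _ = (oo K (s r) : ℝ) / 2 * (ψ 1).re := by field_simp
  have h8 := (abs_le.1 (le_trans (Complex.abs_re_le_norm _) h6)).1
  rw [h4, S.idx]
  nlinarith [mul_le_mul_of_nonneg_right hoK' hψ0]

private lemma c1_G0E (S : S0 s K H α β r b) : ((cel H (s r) : H) : G) = 1 * s r * 1⁻¹ := by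
  rw [cel_coe_G0E S.rH]
  group

private lemma c2_G0E (S : S0 s K H α β r b) :
    ((cel H (s α * s r * (s α)⁻¹) : H) : G) = s α * s r * (s α)⁻¹ :=
  cel_coe_G0E (Subgroup.Normal.conj_mem inferInstance _ S.rH _)

theorem g0_sumfix (S : S0 s K H α β r b) {ψ : H → ℂ} (hψ : IsIrr ψ) :
    ∑ θ ∈ lin (K.subgroupOf H), (fixs (tw ψ θ) (cel H (s r)) (orderOf (s r))).re ≤ (ψ 1).re ∧
      ∑ θ ∈ lin (K.subgroupOf H), (fixs (tw ψ θ) (cel H (s α * s r * (s α)⁻¹)) (orderOf (s r))).re ≤ (ψ 1).re :=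
  ⟨fix1_G0E S hψ (c1_G0E S), fix1_G0E S hψ (c2_G0E S)⟩

theorem g0_sumaa (S : S0 s K H α β r b) {ψ : H → ℂ} (hψ : IsIrr ψ) :
    ((K.subgroupOf H).index : ℝ) * (ψ 1).re - (2 * (Nat.card K : ℝ) + 2) * (ψ 1).re ≤
      ∑ θ ∈ lin (K.subgroupOf H), (aa s r H (s α) (tw ψ θ)).re := by
  have h1 := ang1_G0E S hψ (c1_G0E S)
  have h2 := ang1_G0E S hψ (c2_G0E S)
  have h3 : ∑ θ ∈ lin (K.subgroupOf H), (aa s r H (s α) (tw ψ θ)).re =
      ∑ θ ∈ lin (K.subgroupOf H), (angs (tw ψ θ) (cel H (s r)) (orderOf (s r))).re +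
        ∑ θ ∈ lin (K.subgroupOf H), (angs (tw ψ θ) (cel H (s α * s r * (s α)⁻¹)) (orderOf (s r))).re := by
    rw [← sum_add_distrib]
    rfl
  rw [h3]
  have hψ0 : 0 ≤ (ψ 1).re := le_trans (norm_nonneg _) (norm_le_of_irr hψ 1)
  have hK : (0 : ℝ) ≤ Nat.card K := Nat.cast_nonneg _
  nlinarith [mul_nonneg hK hψ0]

theorem g0_jump (S : S0 s K H α β r b) {ψ : H → ℂ} (hψ : IsIrr ψ) {θ θ' : H → ℂ} (hθ : θ ∈ lin (K.subgroupOf H))
    (hθ' : θ' ∈ lin (K.subgroupOf H)) :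
    (aa s r H (s α) (tw ψ θ')).re ≤ (aa s r H (s α) (tw ψ θ)).re + (ψ 1).re := by
  have ho : 0 < orderOf (s r) := orderOf_pos _
  have e1 := cel_coe_G0E S.rH
  have e2 := c2_G0E S
  have p1 : cel H (s r) ^ orderOf (s r) = 1 := by
    apply Subtype.ext
    rw [Subgroup.coe_pow, e1, pow_orderOf_eq_one]
    rfl
  have p2 : cel H (s α * s r * (s α)⁻¹) ^ orderOf (s r) = 1 := by
    apply Subtype.ext
    rw [Subgroup.coe_pow, e2, conj_pow, pow_orderOf_eq_one, mul_one, mul_inv_cancel]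
    rfl
  have q : cel H (s α * s r * (s α)⁻¹) * cel H (s r) ∈ K.subgroupOf H := by
    rw [Subgroup.mem_subgroupOf, Subgroup.coe_mul, e1, e2]
    exact dat_inv S.dat S.rH
  have q1 : ∀ η : H → ℂ, η ∈ lin (K.subgroupOf H) →
      η (cel H (s r)) * η (cel H (s α * s r * (s α)⁻¹)) = 1 := by
    intro η hη
    obtain ⟨l1, l2, -⟩ := lin_props hη
    rw [mul_comm, ← l1.2.1]
    exact l2 _ q
  exact jump hψ (cel H (s r)) (cel H (s α * s r * (s α)⁻¹)) ho p1 p2 (lin_props hθ).1 (lin_props hθ').1 (q1 θ hθ) (q1 θ' hθ')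

end Pool.Agent.H6.FF
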