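import Pool.Agent.H6.FF.KSum
import Pool.Agent.H6.FF.Eig
import Pool.Agent.H6.FF.IrrB

set_option autoImplicit false

/-!
PROJECT FF (MP_bf82d2_ag, BoundedGroup, note 6093), module RkL.
The sum `Rk` of the ranks and the sum `Ak` of the angles.
PROOF. `ang_facts` for each `c = cc K H (s i) u`, `o = oo K (s i)` (`cc_pow`, `ko_mul_oo`: `c ^ o = 1`, `0 < o ≤ |K|`), summed with the
positive weights `(1/|H|) (1/k_i)`. `Rk_zero`: a sum of nonnegative terms is `0`. `Rk_of_triv`: `fixs ψ c o = ψ 1` as all powers of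
`c` are in `K`. `Rk_le`: every term is `≤ ψ 1`, there are `|G|` elements `u`, at most `N` indices, `1/k_i ≤ 1`. `Rk_avg`: exchange the
sums; `∑ ψ, ψ 1 * (ψ 1 - fixs ψ c o) = |H| - (1/o) ∑_{j < o} ∑ ψ, ψ 1 * ψ (c^j) = |H| (1 - 1/o)` by `reg_sum`, as `c ^ j = 1` iff
`o ∣ j` (`c` is a conjugate of `s i ^ k`, of order `o`), and `(ψ 1).im = 0` (`deg_of_irr`).
-/

namespace Pool.Agent.H6.FF

open Finset Module
open Pool.Agent.H82.CO (chi quadInv nu genus eps zeta)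
open Pool.Agent.H11.GQ (nuK)

variable {G : Type} [Group G] [Fintype G] {N : ℕ} (I : Finset (Fin N)) (s : Fin N → G) (K H : Subgroup G) [K.Normal]
  [H.Normal]

private theorem one_cc_RkL (hKH : K ≤ H) (g u : G) (j : ℕ) :
    cc K H g u ^ j = 1 ↔ oo K g ∣ j := by
  obtain ⟨h1, _, _⟩ := cc_pow K H hKH g u j
  rw [oo, orderOf_dvd_iff_pow_eq_one, ← pow_mul, ← OneMemClass.coe_eq_one, h1]
  constructor
  · intro h
    have h2 := congrArg (fun x => u⁻¹ * x * u) h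
    simpa [mul_assoc] using h2
  · intro h
    rw [h]
    simp

private theorem term_RkL (hKH : K ≤ H) {ψ : H → ℂ} (hψ : IsIrr ψ) (g u : G) :
    ∃ a a' r : ℝ, angs ψ (cc K H g u) (oo K g) = a ∧ angs (cj ψ) (cc K H g u) (oo K g) = a' ∧
      (ψ 1 - fixs ψ (cc K H g u) (oo K g)).re = r ∧
      (cj ψ 1 - fixs (cj ψ) (cc K H g u) (oo K g)).re = r ∧ a + a' = r ∧ 0 ≤ r ∧ r ≤ (ψ 1).re ∧
      r / Nat.card K ≤ a ∧ r / Nat.card K ≤ a' ∧ (r = 0 → ∀ k : ℕ, ψ (cc K H g u ^ k) = ψ 1) := by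
  have : Fintype H := Fintype.ofFinite H
  obtain ⟨_, _, ho, _, hoK⟩ := ko_mul_oo K g
  obtain ⟨_, _, hc⟩ := cc_pow K H hKH g u 0
  obtain ⟨a, a', r, e1, e2, e3, e4, e5, h1, h2, h3, h4, h5⟩ := ang_facts hψ (cc K H g u) ho hc
  have hdiv : r / Nat.card K ≤ r / oo K g := by
    apply div_le_div_of_nonneg_left h1
    · exact_mod_cast ho
    · exact_mod_cast hoK
  refine ⟨a, a', r, e1, e2, ?_, ?_, e5, h1, h2, hdiv.trans h3, hdiv.trans h4, h5⟩
  · rw [e3]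
    simp
  · rw [e4]
    simp [cj]

omit [H.Normal] in
private theorem pos_RkL : (0 : ℝ) < 1 / (Nat.card H : ℝ) := by
  have : 0 < Nat.card H := Nat.card_pos
  positivity

private theorem kpos_RkL (g : G) : (0 : ℝ) < 1 / (ko K g : ℝ) := by
  have : 0 < ko K g := (ko_mul_oo K g).2.1
  positivity

theorem Ak_facts (hKH : K ≤ H) {ψ : H → ℂ} (hψ : IsIrr ψ) :
    ∃ a a' : ℝ, Ak I s K H ψ = a ∧ Ak I s K H (cj ψ) = a' ∧ a + a' = Rk I s K H ψ ∧ 0 ≤ Rk I s K H ψ ∧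
      Rk I s K H ψ / Nat.card K ≤ a ∧ Rk I s K H ψ / Nat.card K ≤ a' := by
  choose a a' r e1 e2 e3 e4 e5 h1 h2 h3 h4 h5 using fun (i : Fin N) (u : G) => term_RkL K H hKH hψ (s i) u
  have hR : Rk I s K H ψ = (1 / (Nat.card H : ℝ)) * ∑ i ∈ I, (1 / (ko K (s i) : ℝ)) * ∑ u : G, r i u := by
    unfold Rk
    simp only [e3]
  have hH := (pos_RkL H).le
  have hk : ∀ i, (0 : ℝ) ≤ 1 / (ko K (s i) : ℝ) := fun i => (kpos_RkL K (s i)).le
  have key : ∀ b : Fin N → G → ℝ, (∀ i u, r i u / Nat.card K ≤ b i u) →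
      Rk I s K H ψ / Nat.card K ≤ (1 / (Nat.card H : ℝ)) * ∑ i ∈ I, (1 / (ko K (s i) : ℝ)) * ∑ u : G, b i u := by
    intro b hb
    rw [hR, mul_div_assoc, sum_div]
    refine mul_le_mul_of_nonneg_left (sum_le_sum fun i _ => ?_) hH
    rw [mul_div_assoc, sum_div]
    exact mul_le_mul_of_nonneg_left (sum_le_sum fun u _ => hb i u) (hk i)
  refine ⟨(1 / (Nat.card H : ℝ)) * ∑ i ∈ I, (1 / (ko K (s i) : ℝ)) * ∑ u : G, a i u,
    (1 / (Nat.card H : ℝ)) * ∑ i ∈ I, (1 / (ko K (s i) : ℝ)) * ∑ u : G, a' i u, ?_, ?_, ?_, ?_, key a h3, key a' h4⟩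
  · unfold Ak
    simp only [e1]
    push_cast
    rfl
  · unfold Ak
    simp only [e2]
    push_cast
    rfl
  · rw [hR, ← mul_add, ← sum_add_distrib]
    congr 1
    refine sum_congr rfl fun i _ => ?_
    rw [← mul_add, ← sum_add_distrib]
    simp only [e5]
  · rw [hR]
    exact mul_nonneg hH (sum_nonneg fun i _ => mul_nonneg (hk i) (sum_nonneg fun u _ => h1 i u))

theorem Rk_cj (hKH : K ≤ H) {ψ : H → ℂ} (hψ : IsIrr ψ) : Rk I s K H (cj ψ) = Rk I s K H ψ := by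
  choose a a' r e1 e2 e3 e4 e5 h1 h2 h3 h4 h5 using fun (i : Fin N) (u : G) => term_RkL K H hKH hψ (s i) u
  unfold Rk
  simp only [e3, e4]

theorem Rk_zero (hKH : K ≤ H) {ψ : H → ℂ} (hψ : IsIrr ψ) (h : Rk I s K H ψ = 0) {i : Fin N} (hi : i ∈ I) (u : G) (k : ℕ) :
    ψ (cc K H (s i) u ^ k) = ψ 1 := by
  choose a a' r e1 e2 e3 e4 e5 h1 h2 h3 h4 h5 using fun (i : Fin N) (u : G) => term_RkL K H hKH hψ (s i) u
  refine h5 i u ?_ k
  unfold Rk at h
  simp only [e3] at h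
  rcases mul_eq_zero.1 h with h | h
  · exact absurd h (pos_RkL H).ne'
  rw [sum_eq_zero_iff_of_nonneg fun i _ => mul_nonneg (kpos_RkL K (s i)).le (sum_nonneg fun u _ => h1 i u)] at h
  rcases mul_eq_zero.1 (h i hi) with h | h
  · exact absurd h (kpos_RkL K (s i)).ne'
  rw [sum_eq_zero_iff_of_nonneg fun u _ => h1 i u] at h
  exact h u (mem_univ u)

private theorem fixs_triv_RkL (hKH : K ≤ H) {ψ : H → ℂ} (h : ∀ k : H, (k : G) ∈ K → ψ k = ψ 1) (g u : G) :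
    fixs ψ (cc K H g u) (oo K g) = ψ 1 := by
  have ho : 0 < oo K g := (ko_mul_oo K g).2.2.1
  have ho' : (oo K g : ℂ) ≠ 0 := by exact_mod_cast ho.ne'
  unfold fixs
  rw [sum_congr rfl fun j _ => h _ (cc_pow K H hKH g u j).2.1, sum_const, card_range, nsmul_eq_mul]
  field_simp

theorem Rk_of_triv (hKH : K ≤ H) {ψ : H → ℂ} (h : ∀ k : H, (k : G) ∈ K → ψ k = ψ 1) : Rk I s K H ψ = 0 := by
  unfold Rk
  simp [fixs_triv_RkL K H hKH h]

theorem Rk_le (hKH : K ≤ H) {ψ : H → ℂ} (hψ : IsIrr ψ) :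
    Rk I s K H ψ ≤ (Nat.card G : ℝ) / Nat.card H * N * (ψ 1).re := by
  choose a a' r e1 e2 e3 e4 e5 h1 h2 h3 h4 h5 using fun (i : Fin N) (u : G) => term_RkL K H hKH hψ (s i) u
  unfold Rk
  simp only [e3]
  have hψ0 : 0 ≤ (ψ 1).re := by
    have : Fintype H := Fintype.ofFinite H
    exact (norm_nonneg _).trans (norm_le_of_irr hψ 1)
  have hterm : ∀ i, (1 / (ko K (s i) : ℝ)) * ∑ u : G, r i u ≤ (Nat.card G : ℝ) * (ψ 1).re := by
    intro i
    have hko : (1 : ℝ) ≤ (ko K (s i) : ℝ) := by exact_mod_cast (ko_mul_oo K (s i)).2.1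
    have hle1 : 1 / (ko K (s i) : ℝ) ≤ 1 := by
      rw [div_le_one (by positivity)]
      exact hko
    have hs : ∑ u : G, r i u ≤ (Nat.card G : ℝ) * (ψ 1).re := by
      refine (sum_le_sum fun u _ => h2 i u).trans ?_
      rw [sum_const, nsmul_eq_mul, Finset.card_univ, Nat.card_eq_fintype_card]
    have hs0 : 0 ≤ ∑ u : G, r i u := sum_nonneg fun u _ => h1 i u
    calc (1 / (ko K (s i) : ℝ)) * ∑ u : G, r i u ≤ 1 * ∑ u : G, r i u :=
          mul_le_mul_of_nonneg_right hle1 hs0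
      _ ≤ _ := by rw [one_mul]; exact hs
  have hI : (I.card : ℝ) ≤ N := by
    have := Finset.card_le_univ I
    rw [Fintype.card_fin] at this
    exact_mod_cast this
  calc (1 / (Nat.card H : ℝ)) * ∑ i ∈ I, (1 / (ko K (s i) : ℝ)) * ∑ u : G, r i u
      ≤ (1 / (Nat.card H : ℝ)) * ∑ i ∈ I, (Nat.card G : ℝ) * (ψ 1).re :=
        mul_le_mul_of_nonneg_left (sum_le_sum fun i _ => hterm i) (pos_RkL H).le
    _ = (1 / (Nat.card H : ℝ)) * (I.card * ((Nat.card G : ℝ) * (ψ 1).re)) := by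
        rw [sum_const, nsmul_eq_mul]
    _ ≤ (1 / (Nat.card H : ℝ)) * (N * ((Nat.card G : ℝ) * (ψ 1).re)) := by
        refine mul_le_mul_of_nonneg_left ?_ (pos_RkL H).le
        exact mul_le_mul_of_nonneg_right hI (by positivity)
    _ = _ := by ring

private theorem avg_RkL [Fintype H] (hKH : K ≤ H) (g u : G) :
    ∑ ψ ∈ irr H, (ψ 1).re * (ψ 1 - fixs ψ (cc K H g u) (oo K g)).re =
      (Nat.card H : ℝ) * (1 - 1 / (oo K g : ℝ)) := by
  classical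
  have ho : 0 < oo K g := (ko_mul_oo K g).2.2.1
  have ho' : (oo K g : ℂ) ≠ 0 := by exact_mod_cast ho.ne'
  have e1 : ∀ ψ ∈ irr H, (ψ 1).re * (ψ 1 - fixs ψ (cc K H g u) (oo K g)).re =
      (ψ 1 * (ψ 1 - fixs ψ (cc K H g u) (oo K g))).re := by
    intro ψ hψ
    obtain ⟨d, _, hd⟩ := deg_of_irr (mem_irr.1 hψ)
    rw [hd]
    simp
  rw [sum_congr rfl e1, ← Complex.re_sum]
  have e2 : ∑ ψ ∈ irr H, ψ 1 * (ψ 1 - fixs ψ (cc K H g u) (oo K g)) =
      ((Nat.card H : ℝ) * (1 - 1 / (oo K g : ℝ)) : ℝ) := by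
    have e3 : ∀ ψ : H → ℂ, ψ 1 * (ψ 1 - fixs ψ (cc K H g u) (oo K g)) = ψ 1 * ψ 1 -
        (1 / (oo K g : ℂ)) * ∑ j ∈ range (oo K g), ψ 1 * ψ (cc K H g u ^ j) := by
      intro ψ
      unfold fixs
      rw [← mul_sum]
      ring
    simp only [e3]
    rw [sum_sub_distrib, ← mul_sum, sum_comm, reg_sum]
    simp only [reg_sum, one_cc_RkL K H hKH]
    rw [sum_ite, sum_const, sum_const_zero, add_zero, nsmul_eq_mul]
    have e4 : (range (oo K g)).filter (fun j => oo K g ∣ j) = {0} := by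
      ext j
      rw [mem_filter, mem_range, mem_singleton]
      constructor
      · rintro ⟨h1, h2⟩
        exact Nat.eq_zero_of_dvd_of_lt h2 h1
      · rintro rfl
        exact ⟨ho, dvd_zero _⟩
    rw [e4, card_singleton, if_pos trivial]
    push_cast
    ring
  rw [e2, Complex.ofReal_re]

theorem Rk_avg [Fintype H] (hKH : K ≤ H) : ∑ ψ ∈ irr H, (ψ 1).re * Rk I s K H ψ =
    (Nat.card G : ℝ) * ∑ i ∈ I, (1 / (ko K (s i) : ℝ)) * (1 - 1 / (oo K (s i) : ℝ)) := by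
  have hH : (Nat.card H : ℝ) ≠ 0 := by
    have : 0 < Nat.card H := Nat.card_pos
    positivity
  have e1 : ∀ ψ : H → ℂ, (ψ 1).re * Rk I s K H ψ = (1 / (Nat.card H : ℝ)) * ∑ i ∈ I, (1 / (ko K (s i) : ℝ)) *
      ∑ u : G, (ψ 1).re * (ψ 1 - fixs ψ (cc K H (s i) u) (oo K (s i))).re := by
    intro ψ
    unfold Rk
    simp only [mul_sum]
    refine sum_congr rfl fun i _ => sum_congr rfl fun u _ => ?_
    ring
  simp only [e1]
  rw [← mul_sum, sum_comm]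
  have e2 : ∀ i ∈ I, ∑ ψ ∈ irr H, (1 / (ko K (s i) : ℝ)) *
      ∑ u : G, (ψ 1).re * (ψ 1 - fixs ψ (cc K H (s i) u) (oo K (s i))).re =
      (Nat.card H : ℝ) * ((Nat.card G : ℝ) * ((1 / (ko K (s i) : ℝ)) * (1 - 1 / (oo K (s i) : ℝ)))) := by
    intro i _
    rw [← mul_sum, sum_comm]
    simp only [avg_RkL K H hKH]
    rw [sum_const, nsmul_eq_mul, Finset.card_univ, Nat.card_eq_fintype_card (α := G)]
    ring
  rw [sum_congr rfl e2, ← mul_sum, ← mul_sum]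
  field_simp

/-- multiplication by a linear character trivial on `K` changes nothing -/
theorem Ak_tw (hKH : K ≤ H) {ψ θ : H → ℂ} (hθ : ∀ k : H, (k : G) ∈ K → θ k = 1) :
    Ak I s K H (tw ψ θ) = Ak I s K H ψ ∧ Rk I s K H (tw ψ θ) = Rk I s K H ψ := by
  have e1 : ∀ (g u : G) (j : ℕ), tw ψ θ (cc K H g u ^ j) = ψ (cc K H g u ^ j) := by
    intro g u j
    unfold tw
    rw [hθ _ (cc_pow K H hKH g u j).2.1, mul_one]
  have e2 : tw ψ θ 1 = ψ 1 := by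
    unfold tw
    rw [hθ 1 (by simp), mul_one]
  constructor
  · unfold Ak angs
    simp only [e1]
  · unfold Rk fixs
    simp only [e1, e2]

end Pool.Agent.H6.FF
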