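import Pool.Agent.H6.FF.Fx
import Pool.Agent.H6.FF.Tau

set_option autoImplicit false

/-!
PROJECT FF (MP_bf82d2_ag, BoundedGroup, note 6093), module Star.
PROOF. `n = |G|`. By definition `2 n quadInv s = ∑ g, (chi s g ^ 2 + chi s (g ^ 2))`, so the real part of that sum is `≤ 4 n`. The rest, without
the `chi s g ^ 2` with `g ∈ H` and the `chi s (g * g)` with `g ∈ H w = w H`, is `≥ - 16 b^4 n`: for `g ∉ H`: `g ∉ K`, `g ≠ 1`, the `i` with
`u⁻¹ g u ∈ zpowers (s i)` have `s i ∉ H` (`H` normal), so `‖chi s g‖ ≤ 1 + b * fx s g ≤ 1 + b^2` (`norm_chi_le`, `D.ob`, `D.fxb`) and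
`(chi s g ^ 2).re ≥ - (1 + b^2)^2`. For `w⁻¹ g ∉ H`: if `g * g ∉ K`: `(chi s (g*g)).re = 1 - fx / 2 ≥ - b / 2`; the `g` with
`g * g ∈ K` are at most `b` (`D.cnt`), for them `(chi s (g*g)).re ≥ - 6 n` (`re_chi`, `fx_le`; `chi_one'` if `g * g = 1`: `nu s ≥ 0`).
Sum: `≤ 4 n + (1 + b^2)^2 n + b n / 2 + 6 n b ≤ 20 b^4 n ≤ 20 b^5 |H|` (`D.ind`).
-/

namespace Pool.Agent.H6.FF

open Finset Module
open Pool.Agent.H82.CO (chi quadInv nu genus eps zeta)

variable {G : Type} [Group G] [Fintype G] {N : ℕ}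

theorem nonH_Star {s : Fin N → G} {K H : Subgroup G} [K.Normal] [H.Normal] {w : G} {b : ℝ}
    (hb : 1 ≤ b) (D : Dat s K H w b) {g : G} (hg : g ∉ H) : -(4 * b ^ 4) ≤ (chi s g ^ 2).re := by
  have h1 : g ≠ 1 := fun h => hg (h ▸ H.one_mem)
  have hgK : g ∉ K := fun h => hg (D.KH h)
  have h2 := norm_chi_le s h1 (M := b) (by linarith) (fun i ⟨u, hu⟩ => D.ob i fun hi => hg (by
    have h3 : u⁻¹ * g * u ∈ H := (Subgroup.zpowers_le.2 hi) hu
    have h4 : u * (u⁻¹ * g * u) * u⁻¹ ∈ H := ‹H.Normal›.conj_mem _ h3 u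
    have h5 : u * (u⁻¹ * g * u) * u⁻¹ = g := by group
    rwa [h5] at h4))
  have h3 : fx s g ≤ b := D.fxb g hgK
  have h4 : ‖chi s g‖ ≤ 2 * b ^ 2 := by nlinarith
  have h5 : |(chi s g ^ 2).re| ≤ ‖chi s g ^ 2‖ := Complex.abs_re_le_norm _
  rw [norm_pow] at h5
  have h6 : ‖chi s g‖ ^ 2 ≤ (2 * b ^ 2) ^ 2 := pow_le_pow_left₀ (norm_nonneg _) h4 2
  have h7 := (abs_le.1 h5).1
  have h8 : (2 * b ^ 2) ^ 2 = 4 * b ^ 4 := by ring
  linarith

theorem sq_Star {s : Fin N → G} (hN : N ≤ 5) (g : G) : -(3 * (Nat.card G : ℝ)) ≤ (chi s g).re := by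
  have hn : (0 : ℝ) ≤ (Nat.card G : ℝ) := Nat.cast_nonneg _
  by_cases h1 : g = 1
  · rw [h1, chi_one', Complex.ofReal_re]
    have h2 : 0 ≤ nu s := by
      unfold Pool.Agent.H82.CO.nu
      refine Finset.sum_nonneg fun i _ => ?_
      have h3 : (1 : ℝ) ≤ (orderOf (s i) : ℝ) := by exact_mod_cast orderOf_pos (s i)
      have h4 : 1 / (orderOf (s i) : ℝ) ≤ 1 := by
        rw [div_le_one (by linarith)]
        exact h3
      linarith
    nlinarith [mul_nonneg hn h2]
  · rw [re_chi s h1]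
    have h2 := fx_le s g
    have h3 : (N : ℝ) ≤ 5 := by exact_mod_cast hN
    have h4 := mul_le_mul_of_nonneg_left h3 hn
    linarith

theorem star {s : Fin N → G} (hN : N ≤ 5) {K H : Subgroup G} [K.Normal] [H.Normal] [Fintype H] {w : G} {b : ℝ} (hb : 1 ≤ b)
    (D : Dat s K H w b) (hd : (quadInv s).re ≤ 2) :
    (∑ x : H, (chi s x ^ 2 + chi s (x * w * (x * w)))).re ≤ 20 * b ^ 5 * Nat.card H := by
  classical
  obtain ⟨n, hn⟩ : ∃ n : ℝ, n = (Nat.card G : ℝ) := ⟨_, rfl⟩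
  have hn1 : (1 : ℝ) ≤ n := by
    rw [hn]
    exact_mod_cast Nat.card_pos (α := G)
  -- the total sum
  have htot : ∑ g : G, (chi s g ^ 2).re + ∑ g : G, (chi s (g * g)).re ≤ 4 * n := by
    have h1 : ∑ g : G, (chi s g ^ 2).re + ∑ g : G, (chi s (g * g)).re =
        2 * n * (quadInv s).re := by
      have h2 : (2 * (n : ℂ)) * quadInv s = ∑ g : G, (chi s g ^ 2 + chi s (g ^ 2)) := by
        unfold Pool.Agent.H82.CO.quadInv
        have h3 : (n : ℂ) = (Nat.card G : ℂ) := by rw [hn]; simp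
        have h4 : (n : ℂ) ≠ 0 := by
          rw [Ne, Complex.ofReal_eq_zero]
          linarith
        rw [← h3, ← mul_assoc, mul_one_div, div_self (mul_ne_zero two_ne_zero h4), one_mul]
      have h3 : ((2 * (n : ℂ)) * quadInv s).re = 2 * n * (quadInv s).re := by
        have h4 : (2 * (n : ℂ)) = ((2 * n : ℝ) : ℂ) := by push_cast; ring
        rw [h4, Complex.re_ofReal_mul]
      rw [← h3, h2, Complex.re_sum, ← Finset.sum_add_distrib]
      refine Finset.sum_congr rfl fun g _ => ?_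
      rw [Complex.add_re, pow_two g]
    rw [h1]
    nlinarith
  -- the two sums over H
  have hA : ∑ x : H, (chi s (x : G) ^ 2).re =
      ∑ g ∈ (univ : Finset G).filter (fun g => g ∈ H), (chi s g ^ 2).re :=
    (Finset.sum_subtype _ (p := fun g => g ∈ H) (fun x => by simp) fun g => (chi s g ^ 2).re).symm
  have hB : ∑ x : H, (chi s ((x : G) * w * (x * w))).re =
      ∑ g ∈ (univ : Finset G).filter (fun g => w⁻¹ * g ∈ H), (chi s (g * g)).re := by
    have h1 : ∑ x : H, (chi s ((x : G) * w * (x * w))).re =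
        ∑ g ∈ (univ : Finset G).filter (fun g => g ∈ H), (chi s (g * w * (g * w))).re :=
      (Finset.sum_subtype _ (p := fun g => g ∈ H) (fun x => by simp)
        fun g => (chi s (g * w * (g * w))).re).symm
    rw [h1, Finset.sum_filter, Finset.sum_filter, ← Equiv.sum_comp (Equiv.mulRight w)
      (fun g => if w⁻¹ * g ∈ H then (chi s (g * g)).re else 0)]
    refine Finset.sum_congr rfl fun g _ => ?_
    rw [Equiv.coe_mulRight]
    have h2 : w⁻¹ * (g * w) ∈ H ↔ g ∈ H := by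
      constructor
      · intro h
        have h3 := ‹H.Normal›.conj_mem _ h w
        have h4 : w * (w⁻¹ * (g * w)) * w⁻¹ = g := by group
        rwa [h4] at h3
      · intro h
        have h3 := ‹H.Normal›.conj_mem _ h w⁻¹
        have h4 : w⁻¹ * g * w⁻¹⁻¹ = w⁻¹ * (g * w) := by group
        rwa [h4] at h3
    simp only [h2]
  have hX : (∑ x : H, (chi s x ^ 2 + chi s (x * w * (x * w)))).re =
      ∑ g ∈ (univ : Finset G).filter (fun g => g ∈ H), (chi s g ^ 2).re +
      ∑ g ∈ (univ : Finset G).filter (fun g => w⁻¹ * g ∈ H), (chi s (g * g)).re := by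
    rw [← hA, ← hB, Complex.re_sum, ← Finset.sum_add_distrib]
    exact Finset.sum_congr rfl fun x _ => Complex.add_re _ _
  -- the rests
  have hcardG : ((univ : Finset G).card : ℝ) = n := by
    rw [hn, Nat.card_eq_fintype_card, Finset.card_univ]
  have hR1 : -(n * (4 * b ^ 4)) ≤
      ∑ g ∈ (univ : Finset G).filter (fun g => ¬ g ∈ H), (chi s g ^ 2).re := by
    have h1 : ∑ g ∈ (univ : Finset G).filter (fun g => ¬ g ∈ H), (-(4 * b ^ 4)) ≤
        ∑ g ∈ (univ : Finset G).filter (fun g => ¬ g ∈ H), (chi s g ^ 2).re :=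
      Finset.sum_le_sum fun g hg => nonH_Star hb D (Finset.mem_filter.1 hg).2
    rw [Finset.sum_const, nsmul_eq_mul] at h1
    have h2 : (((univ : Finset G).filter (fun g => ¬ g ∈ H)).card : ℝ) ≤ n := by
      rw [← hcardG]
      exact_mod_cast Finset.card_filter_le _ _
    have h3 : 0 ≤ 4 * b ^ 4 := by positivity
    have h4 := mul_le_mul_of_nonneg_right h2 h3
    linarith
  have hR2 : -(n * (b / 2) + 3 * n * b) ≤
      ∑ g ∈ (univ : Finset G).filter (fun g => ¬ w⁻¹ * g ∈ H), (chi s (g * g)).re := by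
    have h1 : ∑ g ∈ (univ : Finset G).filter (fun g => ¬ w⁻¹ * g ∈ H),
        (-(b / 2) - if g * g ∈ K then 3 * n else 0) ≤
        ∑ g ∈ (univ : Finset G).filter (fun g => ¬ w⁻¹ * g ∈ H), (chi s (g * g)).re := by
      refine Finset.sum_le_sum fun g hg => ?_
      split_ifs with h2
      · have h3 := sq_Star (s := s) hN (g * g)
        rw [← hn] at h3
        linarith
      · have h3 : g * g ≠ 1 := fun h => h2 (h ▸ K.one_mem)
        rw [re_chi s h3]
        have h4 := D.fxb _ h2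
        linarith
    rw [Finset.sum_sub_distrib, Finset.sum_const, nsmul_eq_mul, ← Finset.sum_filter,
      Finset.sum_const, nsmul_eq_mul, Finset.filter_filter] at h1
    have h2 : (((univ : Finset G).filter (fun g => ¬ w⁻¹ * g ∈ H)).card : ℝ) ≤ n := by
      rw [← hcardG]
      exact_mod_cast Finset.card_filter_le _ _
    have h3 : (((univ : Finset G).filter (fun g => ¬ w⁻¹ * g ∈ H ∧ g * g ∈ K)).card : ℝ) ≤ b := by
      have h4 := D.cnt
      rw [Nat.card_eq_fintype_card, Fintype.card_subtype] at h4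
      exact h4
    have h4 := mul_le_mul_of_nonneg_right h2 (by linarith : 0 ≤ b / 2)
    have h5 := mul_le_mul_of_nonneg_right h3 (by linarith : 0 ≤ 3 * n)
    linarith
  have hS1 := Finset.sum_filter_add_sum_filter_not (univ : Finset G) (fun g => g ∈ H)
    (fun g => (chi s g ^ 2).re)
  have hS2 := Finset.sum_filter_add_sum_filter_not (univ : Finset G) (fun g => w⁻¹ * g ∈ H)
    (fun g => (chi s (g * g)).re)
  rw [hX]
  have hfin : ∑ g ∈ (univ : Finset G).filter (fun g => g ∈ H), (chi s g ^ 2).re +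
      ∑ g ∈ (univ : Finset G).filter (fun g => w⁻¹ * g ∈ H), (chi s (g * g)).re ≤
      4 * n + n * (4 * b ^ 4) + (n * (b / 2) + 3 * n * b) := by linarith
  refine hfin.trans ?_
  have hb4 : b ≤ b ^ 4 := by
    calc b = b ^ 1 := (pow_one b).symm
      _ ≤ b ^ 4 := pow_le_pow_right₀ hb (by norm_num)
  have h14 : 1 ≤ b ^ 4 := one_le_pow₀ hb
  have h1 : 4 * n + n * (4 * b ^ 4) + (n * (b / 2) + 3 * n * b) ≤ n * (20 * b ^ 4) := by
    have h2 : n * (4 + 4 * b ^ 4 + (b / 2 + 3 * b)) ≤ n * (20 * b ^ 4) :=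
      mul_le_mul_of_nonneg_left (by linarith) (by linarith)
    linarith
  refine h1.trans ?_
  have h2 := D.ind
  rw [← hn] at h2
  have h3 := mul_le_mul_of_nonneg_right h2 (by positivity : 0 ≤ 20 * b ^ 4)
  calc n * (20 * b ^ 4) ≤ b * (Nat.card H : ℝ) * (20 * b ^ 4) := h3
    _ = 20 * b ^ 5 * Nat.card H := by ring

end Pool.Agent.H6.FF
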