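import Pool.Agent.H6.FF.G0B
import Pool.Agent.H6.FF.G0E
import Pool.Agent.H6.FF.Fib
import Pool.Agent.H6.FF.Sta
import Pool.Agent.H6.FF.Star
import Pool.Agent.H6.FF.RkL
import Pool.Agent.H6.FF.IrrE
import Pool.Agent.H11.GQ.Rep

set_option autoImplicit false

/-!
PROJECT FF (MP_bf82d2_ag, BoundedGroup, note 6093), module G0C.
Case G0: the possible values of `Rk`.
PROOF. `f x = chi s x` on `H`, the trace of `σ` (`exists_chi`) composed with `H.subtype`; `τ = tau H (s α)`; `dat_facts S.dat`. `R = Rk (univ.erase r) s K H ψ`.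
`L = lin (K.subgroupOf H)`, `|L| = index` (`lin_card`). `(ψ 1).re ≤ b` for all `ψ ∈ irr H` (`deg_le_index` for `A.subgroupOf H`, index `≤ A.index`).
`∑ θ ∈ L, TT (tw ψ θ) ≤ b^2 * 20 b^5` (`sum_tw_le`, `sum_TT`, `star`, `TT_nonneg`). Call `θ ∈ L` exceptional if `TT (tw ψ θ) ≠ 0` (then `≥ 1`, `TT_cases`), or
`tw ψ θ = 1` (at most one `θ`), or one of the two `fixs (tw ψ θ) ..` is not `0` (then it is `≥ 1`, being a natural number by `fixs_eq`; at most
`2 (ψ 1).re ≤ 2 b` such `θ` by `g0_sumfix`): at most `20 b^7 + 1 + 2 b ≤ 23 b^7` exceptional `θ`. For `θ` not exceptional,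
`m = ip f (tw ψ θ)`, `m' = ip f (cj (tw ψ θ))` natural numbers (`TT_cases`): `m + m' = R` (`g0_ip` for `tw ψ θ` and its conjugate, `Ak_facts`, `Ak_tw`, `g0_aa`,
`Rk_cj`), `fs (tw ψ θ) = fs ψ` (`θ = 1` on `K`), and `TT = 0`: `fs = 1`: `m = m' = 0`, `R = 0`; `fs = -1`: `m = m' ∈ {0, 1}`, `R ∈ {0, 2}`; `fs = 0`: `m = 0` or
`m' = 0`, so `m ∈ {0, R}`. Suppose `fs = 0` and `R > ψ 1` (`≥ 1`). By `g0_jump` and `g0_ip` `m` for `θ'` minus `m` for `θ` (both not exceptional) is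
`≤ ψ 1 < R`, so all `m` are `0` or all are `R`; in the second case replace `ψ` by `cj ψ` (and `θ` by `cj θ`): all `m' = 0`. So assume all `m = 0`. Then
`∑ θ, m_θ ≤ 23 b^7 * (2 + R) ≤ 23 b^7 * 12 b` (`m ≤ m + m' ≤ 2 + R`, `Rk_le`: `R ≤ 2 N ψ 1 ≤ 10 b`), but by `g0_ip` and `g0_sumaa`
`∑ θ, m_θ ≥ index * Ak - (2 |K| + 2) ψ 1 ≥ index * R / |K| - 4 b^2 ≥ index / b - 4 b^2` (`Ak_facts`). Contradiction to `hbig`.
-/

namespace Pool.Agent.H6.FF

open Finset Module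
open Pool.Agent.H82.CO (chi quadInv nu genus eps zeta)
open Pool.Agent.H11.GQ (nuK)

variable {G : Type} [Group G] [Fintype G] {N : ℕ} {s : Fin N → G} {K H A : Subgroup G} [K.Normal] [H.Normal] [Fintype H]
  {α β r : Fin N} {b : ℝ}

private lemma cj_tw_G0C (ψ θ : H → ℂ) : cj (tw ψ θ) = tw (cj ψ) (cj θ) := by
  funext x
  exact map_mul _ _ _

private lemma cj_cj_G0C (ψ : H → ℂ) : cj (cj ψ) = ψ := by
  funext x
  exact Complex.conj_conj _

private lemma re_cj_G0C (ψ : H → ℂ) : (cj ψ 1).re = (ψ 1).re := Complex.conj_re _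

private lemma re_tw_G0C {ψ θ : H → ℂ} (hθ : θ ∈ lin (K.subgroupOf H)) : (tw ψ θ 1).re = (ψ 1).re := by
  show (ψ 1 * θ 1).re = _
  rw [(lin_props hθ).1.1, mul_one]

private lemma triv_G0C {θ : H → ℂ} (hθ : θ ∈ lin (K.subgroupOf H)) (k : H) (hk : (k : G) ∈ K) : θ k = 1 :=
  (lin_props hθ).2.1 k (Subgroup.mem_subgroupOf.2 hk)

open Classical in
private lemma re_ip_G0C (S : S0 s K H α β r b) {φ : H → ℂ} (hφ : φ ∈ irr H) :
    (ip (fun x : H => chi s x) φ).re = (if φ = (fun _ => 1) then (1 : ℝ) else 0) - (φ 1).re +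
      (Ak (univ.erase r) s K H φ).re + (aa s r H (s α) φ).re := by
  rw [g0_ip S (mem_irr.1 hφ), Complex.add_re, Complex.add_re, Complex.sub_re]
  split_ifs <;> simp

open Classical in
private lemma re_sum_G0C (S : S0 s K H α β r b) {φ : H → ℂ} (hφ : φ ∈ irr H) :
    (ip (fun x : H => chi s x) φ).re + (ip (fun x : H => chi s x) (cj φ)).re =
      2 * (if φ = (fun _ => 1) then (1 : ℝ) else 0) + Rk (univ.erase r) s K H φ -
        (fixs φ (cel H (s r)) (orderOf (s r))).re -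
        (fixs φ (cel H (s α * s r * (s α)⁻¹)) (orderOf (s r))).re := by
  have hφ' : cj φ ∈ irr H := mem_irr.2 (irr_cj (mem_irr.1 hφ))
  rw [re_ip_G0C S hφ, re_ip_G0C S hφ', re_cj_G0C]
  obtain ⟨a, a', ha, ha', hsum, -, -, -⟩ := Ak_facts (univ.erase r) s K H S.dat.KH (mem_irr.1 hφ)
  obtain ⟨c, c', f, f', hc, hc', hf, hf', hcc, -, -⟩ := g0_aa (mem_irr.1 hφ) S
  rw [ha, ha', hc, hc', hf, hf', ← hsum]
  have h1 : (cj φ = fun _ => 1) ↔ (φ = fun _ => 1) := by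
    constructor
    · intro h
      rw [← cj_cj_G0C φ, h]
      funext x
      exact map_one _
    · intro h
      rw [h]
      funext x
      exact map_one _
  simp only [h1, Complex.ofReal_re]
  linarith

private lemma cel_pow_G0C {g : G} (hg : g ∈ H) : (cel H g) ^ orderOf g = 1 := by
  apply Subtype.ext
  rw [cel, dif_pos hg]
  push_cast
  exact pow_orderOf_eq_one g

private lemma cel_pow'_G0C {g : G} (hg : g ∈ H) (w : G) : (cel H (w * g * w⁻¹)) ^ orderOf g = 1 := by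
  have h : w * g * w⁻¹ ∈ H := ‹H.Normal›.conj_mem g hg w
  apply Subtype.ext
  rw [cel, dif_pos h]
  push_cast
  rw [conj_pow, pow_orderOf_eq_one, mul_one, mul_inv_cancel]

private lemma fixs_G0C {φ : H → ℂ} (hφ : φ ∈ irr H) (c : H) {o : ℕ} (ho : 0 < o) (hc : c ^ o = 1) :
    (fixs φ c o).re = 0 ∨ 1 ≤ (fixs φ c o).re := by
  obtain ⟨d, t, -, ht, h⟩ := eig (mem_irr.1 hφ) c ho hc
  rw [fixs_eq ho ht h, Complex.ofReal_re, Finset.sum_boole]
  rcases Nat.eq_zero_or_pos ((univ.filter fun l : Fin d => t l = 0).card) with h0 | h0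
  · left
    rw [h0, Nat.cast_zero]
  · right
    exact_mod_cast h0

/-- all multiplicities zero: contradiction -/
private lemma core_G0C (hN : N ≤ 5) (hb : 1 ≤ b) (S : S0 s K H α β r b)
    (hL : ((lin (K.subgroupOf H)).card : ℝ) = ((K.subgroupOf H).index : ℝ))
    (hbig : 300 * b ^ 9 < ((K.subgroupOf H).index : ℝ)) {ψ : H → ℂ} (hψ : ψ ∈ irr H) (hdeg : (ψ 1).re ≤ b)
    (hR : (ψ 1).re < Rk (univ.erase r) s K H ψ) (X : Finset (H → ℂ)) (hX : X ⊆ lin (K.subgroupOf H))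
    (hXc : (X.card : ℝ) ≤ 23 * b ^ 7)
    (h1 : ∀ θ ∈ lin (K.subgroupOf H), (ip (fun x : H => chi s x) (tw ψ θ)).re ≤ 2 + Rk (univ.erase r) s K H ψ)
    (h0 : ∀ θ ∈ lin (K.subgroupOf H), θ ∉ X → (ip (fun x : H => chi s x) (tw ψ θ)).re = 0) : False := by
  classical
  obtain ⟨n, hn⟩ : ∃ n : ℝ, n = ((K.subgroupOf H).index : ℝ) := ⟨_, rfl⟩
  obtain ⟨R, hRd⟩ : ∃ R : ℝ, R = Rk (univ.erase r) s K H ψ := ⟨_, rfl⟩
  obtain ⟨d, hd⟩ : ∃ d : ℝ, d = (ψ 1).re := ⟨_, rfl⟩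
  obtain ⟨k, hk⟩ : ∃ k : ℝ, k = (Nat.card K : ℝ) := ⟨_, rfl⟩
  have hd1 : 1 ≤ d := by
    obtain ⟨e, he, he'⟩ := deg_of_irr (mem_irr.1 hψ)
    rw [hd, he', Complex.natCast_re]
    exact_mod_cast he
  have hk1 : 1 ≤ k := by
    rw [hk]
    exact_mod_cast Nat.card_pos (α := K)
  have hkb : k ≤ b := by rw [hk]; exact S.dat.kb
  -- the upper bound of `R`
  have hRb : R ≤ 10 * b := by
    have h2 := Rk_le (univ.erase r) s K H S.dat.KH (mem_irr.1 hψ)
    have h3 : (Nat.card G : ℝ) / Nat.card H = 2 := by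
      have h4 : (0 : ℝ) < Nat.card H := by exact_mod_cast Nat.card_pos (α := H)
      rw [S.card]
      push_cast
      field_simp
    rw [h3, ← hRd, ← hd] at h2
    have h5 : (N : ℝ) ≤ 5 := by exact_mod_cast hN
    have h6 : 2 * (N : ℝ) * d ≤ 2 * 5 * b := by
      have h7 : (0 : ℝ) ≤ (N : ℝ) := Nat.cast_nonneg _
      nlinarith
    linarith
  -- the sum of the multiplicities, from above
  have hup : ∑ θ ∈ lin (K.subgroupOf H), (ip (fun x : H => chi s x) (tw ψ θ)).re ≤ 276 * b ^ 8 := by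
    have h2 : ∑ θ ∈ lin (K.subgroupOf H), (ip (fun x : H => chi s x) (tw ψ θ)).re =
        ∑ θ ∈ X, (ip (fun x : H => chi s x) (tw ψ θ)).re :=
      (sum_subset hX fun θ hθ hθX => h0 θ hθ hθX).symm
    have h3 : ∑ θ ∈ X, (ip (fun x : H => chi s x) (tw ψ θ)).re ≤ X.card • (2 + R) :=
      sum_le_card_nsmul _ _ _ fun θ hθ => by rw [hRd]; exact h1 θ (hX hθ)
    rw [h2]
    refine h3.trans ?_
    rw [nsmul_eq_mul]
    have h4 : 2 + R ≤ 12 * b := by linarith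
    have h5 : (0 : ℝ) ≤ 2 + R := by
      have : d < R := by rw [hd, hRd]; exact hR
      linarith
    calc (X.card : ℝ) * (2 + R) ≤ (23 * b ^ 7) * (12 * b) :=
          mul_le_mul hXc h4 h5 (by positivity)
      _ = 276 * b ^ 8 := by ring
  -- and from below
  have hlo : n * ((Ak (univ.erase r) s K H ψ).re) - (2 * k + 2) * d ≤
      ∑ θ ∈ lin (K.subgroupOf H), (ip (fun x : H => chi s x) (tw ψ θ)).re := by
    have h2 : ∀ θ ∈ lin (K.subgroupOf H), -d + (Ak (univ.erase r) s K H ψ).re + (aa s r H (s α) (tw ψ θ)).re ≤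
        (ip (fun x : H => chi s x) (tw ψ θ)).re := by
      intro θ hθ
      rw [re_ip_G0C S (tw_mem hψ hθ), re_tw_G0C hθ, ← hd,
        (Ak_tw (univ.erase r) s K H S.dat.KH (triv_G0C hθ)).1]
      have h3 : (0 : ℝ) ≤ if tw ψ θ = (fun _ => 1) then (1 : ℝ) else 0 := by split_ifs <;> norm_num
      linarith
    have h3 := sum_le_sum h2
    rw [sum_add_distrib, sum_const, nsmul_eq_mul, hL, ← hn] at h3
    have h4 := g0_sumaa S (mem_irr.1 hψ)
    rw [← hn, ← hd, ← hk] at h4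
    linarith
  obtain ⟨a, a', ha, -, -, -, hle, -⟩ := Ak_facts (univ.erase r) s K H S.dat.KH (mem_irr.1 hψ)
  rw [ha, Complex.ofReal_re] at hlo
  rw [← hRd, ← hk] at hle
  have hn0 : 300 * b ^ 9 < n := by rw [hn]; exact hbig
  have hR1 : 1 ≤ R := by
    have : d < R := by rw [hd, hRd]; exact hR
    linarith
  have hb0 : 0 < b := by linarith
  have ha1 : 1 / b ≤ a := by
    refine le_trans ?_ hle
    rw [div_le_div_iff₀ hb0 (by linarith)]
    nlinarith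
  have h7 : n * (1 / b) ≤ n * a := mul_le_mul_of_nonneg_left ha1 (by
    have : (0 : ℝ) ≤ 300 * b ^ 9 := by positivity
    linarith)
  have h8 : 300 * b ^ 8 < n * (1 / b) := by
    rw [mul_one_div, lt_div_iff₀ hb0]
    calc 300 * b ^ 8 * b = 300 * b ^ 9 := by ring
      _ < n := hn0
  have h9 : (2 * k + 2) * d ≤ 4 * b ^ 2 := by
    have h10 : 2 * k + 2 ≤ 4 * b := by linarith
    have h11 : d ≤ b := by rw [hd]; exact hdeg
    calc (2 * k + 2) * d ≤ (4 * b) * b := mul_le_mul h10 h11 (by linarith) (by linarith)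
      _ = 4 * b ^ 2 := by ring
  have h12 : b ^ 2 ≤ b ^ 8 := pow_le_pow_right₀ hb (by norm_num)
  nlinarith

theorem g0_R (hp : (List.ofFn s).prod = 1) (hg : Subgroup.closure (Set.range s) = ⊤) (hN : N ≤ 5)
    (hd : (quadInv s).re ≤ 2) (hb : 1 ≤ b) (S : S0 s K H α β r b)
    (hA : ∀ a ∈ A, ∀ c ∈ A, a * c = c * a) (hAi : (A.index : ℝ) ≤ b)
    (hbig : 300 * b ^ 9 < ((K.subgroupOf H).index : ℝ)) {z : H} (hz : (z : G) = s α * s α) {ψ : H → ℂ} (hψ : ψ ∈ irr H) :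
    Rk (univ.erase r) s K H ψ = 0 ∨ (Rk (univ.erase r) s K H ψ = 2 ∧ fs (tau H (s α)) z ψ = -1) ∨
      Rk (univ.erase r) s K H ψ ≤ (ψ 1).re := by
  classical
  obtain ⟨E, _, _, _, σ, hσ, -⟩ := Pool.Agent.H11.GQ.exists_chi s hp hg
  obtain ⟨z', hz', hzt, hττ, hsqK, hsq', hcomm, hchiτ, hcl⟩ := dat_facts S.dat
  obtain rfl : z' = z := Subtype.ext (hz'.trans hz.symm)
  obtain ⟨σH, hσH⟩ : ∃ σH : Representation ℂ H E, σH = σ.comp H.subtype := ⟨_, rfl⟩
  have hfσ : ∀ x : H, LinearMap.trace ℂ E (σH x) = chi s x := by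
    intro x
    rw [hσH]
    exact hσ x
  have hbb : ∀ ψ ∈ irr H, (ψ 1).re ≤ b := by
    intro ψ' h
    have h1 := deg_le_index (mem_irr.1 h) (A.subgroupOf H) (fun a ha c hc => Subtype.ext (hA a ha c hc))
    have h2 : (A.subgroupOf H).index ≤ A.index := by
      have h3 : A.relIndex H ≤ A.relIndex ⊤ := by
        refine Subgroup.relIndex_le_of_le_right le_top ?_
        rw [Subgroup.relIndex_top_right]
        exact Subgroup.index_ne_zero_of_finite
      rwa [Subgroup.relIndex_top_right] at h3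
    have h4 : ((A.subgroupOf H).index : ℝ) ≤ (A.index : ℝ) := by exact_mod_cast h2
    linarith
  have hB : ((1 / (Nat.card H : ℂ)) * ∑ x : H, ((fun x : H => chi s x) x ^ 2 +
      (fun x : H => chi s x) (x * tau H (s α) x * z'))).re ≤ 20 * b ^ 5 := by
    have h1 := star hN hb S.dat hd
    have h2 : ∑ x : H, ((fun x : H => chi s x) x ^ 2 + (fun x : H => chi s x) (x * tau H (s α) x * z')) =
        ∑ x : H, (chi s x ^ 2 + chi s (x * s α * (x * s α))) := by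
      refine sum_congr rfl fun x _ => ?_
      show chi s (x : G) ^ 2 + chi s ((x * tau H (s α) x * z' : H) : G) = _
      rw [hsq' x]
    have h3 : (0 : ℝ) < Nat.card H := by exact_mod_cast Nat.card_pos
    have h4 : (1 / (Nat.card H : ℂ)) = ((1 / (Nat.card H : ℝ) : ℝ) : ℂ) := by push_cast; rfl
    rw [h2, h4, Complex.re_ofReal_mul, one_div_mul_eq_div, div_le_iff₀ h3]
    exact h1
  have hLc : ((lin (K.subgroupOf H)).card : ℝ) = ((K.subgroupOf H).index : ℝ) := by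
    exact_mod_cast lin_card (K.subgroupOf H) hcomm
  -- the four quantities
  obtain ⟨T, hT⟩ : ∃ T : (H → ℂ) → ℝ, T = fun θ => TT (tau H (s α)) z' (fun x : H => chi s x) (tw ψ θ) := ⟨_, rfl⟩
  obtain ⟨D, hD⟩ : ∃ D : (H → ℂ) → ℝ, D = fun θ => if tw ψ θ = (fun _ => 1) then (1 : ℝ) else 0 := ⟨_, rfl⟩
  obtain ⟨F, hF⟩ : ∃ F : (H → ℂ) → ℝ, F = fun θ => (fixs (tw ψ θ) (cel H (s r)) (orderOf (s r))).re := ⟨_, rfl⟩
  obtain ⟨F', hF'⟩ : ∃ F' : (H → ℂ) → ℝ,
    F' = fun θ => (fixs (tw ψ θ) (cel H (s α * s r * (s α)⁻¹)) (orderOf (s r))).re := ⟨_, rfl⟩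
  have hmem : ∀ θ ∈ lin (K.subgroupOf H), tw ψ θ ∈ irr H := fun θ hθ => tw_mem hψ hθ
  have cT : ∀ θ ∈ lin (K.subgroupOf H), T θ = 0 ∨ 1 ≤ T θ := by
    intro θ hθ
    obtain ⟨m, m', -, -, h⟩ := TT_cases (tau H (s α)) z' hzt hττ σH (f := fun x : H => chi s x) hfσ hchiτ
      (mem_irr.1 (hmem θ hθ))
    have hnat : ∀ k : ℕ, (k : ℝ) = 0 ∨ 1 ≤ (k : ℝ) := by
      intro k
      rcases Nat.eq_zero_or_pos k with h0 | h0
      · left; rw [h0, Nat.cast_zero]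
      · right; exact_mod_cast h0
    rw [hT]
    show TT _ _ _ _ = 0 ∨ 1 ≤ TT _ _ _ _
    rcases h with ⟨-, h⟩ | ⟨-, -, h⟩ | ⟨-, -, h⟩
    · rw [h]; exact_mod_cast hnat (m * m')
    · rw [h]; exact_mod_cast hnat (m * m + m)
    · rw [h]
      have h2 : ((m * m - m : ℕ) : ℝ) = (m : ℝ) * m - m := by
        rw [Nat.cast_sub (Nat.le_mul_self m)]
        push_cast
        ring
      rw [← h2]
      exact hnat _
  have cD : ∀ θ ∈ lin (K.subgroupOf H), D θ = 0 ∨ 1 ≤ D θ := by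
    intro θ _
    rw [hD]
    show (if tw ψ θ = (fun _ => 1) then (1 : ℝ) else 0) = 0 ∨ 1 ≤ (if tw ψ θ = (fun _ => 1) then (1 : ℝ) else 0)
    split_ifs
    · right; exact le_refl _
    · left; rfl
  have cF : ∀ θ ∈ lin (K.subgroupOf H), F θ = 0 ∨ 1 ≤ F θ := by
    intro θ hθ
    rw [hF]
    exact fixs_G0C (hmem θ hθ) _ (orderOf_pos _) (cel_pow_G0C S.rH)
  have cF' : ∀ θ ∈ lin (K.subgroupOf H), F' θ = 0 ∨ 1 ≤ F' θ := by
    intro θ hθ
    rw [hF']
    exact fixs_G0C (hmem θ hθ) _ (orderOf_pos _) (cel_pow'_G0C S.rH (s α))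
  have sT : ∑ θ ∈ lin (K.subgroupOf H), T θ ≤ 20 * b ^ 7 := by
    have h1 := sum_tw_le (K.subgroupOf H) hcomm (T := TT (tau H (s α)) z' (fun x : H => chi s x))
      (fun ψ' h => TT_nonneg (tau H (s α)) z' hzt hττ σH (f := fun x : H => chi s x) hfσ hchiτ (mem_irr.1 h)) hbb hψ
    rw [sum_TT (tau H (s α)) z' hcl] at h1
    rw [hT]
    refine h1.trans ?_
    have h2 : (0 : ℝ) ≤ b ^ 2 := by positivity
    calc b ^ 2 * _ ≤ b ^ 2 * (20 * b ^ 5) := mul_le_mul_of_nonneg_left hB h2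
      _ = 20 * b ^ 7 := by ring
  have sD : ∑ θ ∈ lin (K.subgroupOf H), D θ ≤ 1 := by
    rw [hD, Finset.sum_boole]
    have h1 : ((lin (K.subgroupOf H)).filter fun θ => tw ψ θ = (fun _ => 1)).card ≤ 1 := by
      rw [card_le_one]
      intro θ hθ θ' hθ'
      rw [mem_filter] at hθ hθ'
      funext x
      have h2 : ψ x * θ x = 1 := congrFun hθ.2 x
      have h3 : ψ x * θ' x = 1 := congrFun hθ'.2 x
      have h4 : ψ x ≠ 0 := left_ne_zero_of_mul (by rw [h2]; exact one_ne_zero)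
      exact mul_left_cancel₀ h4 (h2.trans h3.symm)
    exact_mod_cast h1
  obtain ⟨sF, sF'⟩ := g0_sumfix S (mem_irr.1 hψ)
  have sF : ∑ θ ∈ lin (K.subgroupOf H), F θ ≤ b := by rw [hF]; exact sF.trans (hbb ψ hψ)
  have sF' : ∑ θ ∈ lin (K.subgroupOf H), F' θ ≤ b := by rw [hF']; exact sF'.trans (hbb ψ hψ)
  -- the exceptional ones
  obtain ⟨X, hXd⟩ : ∃ X : Finset (H → ℂ), X = (lin (K.subgroupOf H)).filter
    (fun θ => ¬ (T θ = 0 ∧ D θ = 0 ∧ F θ = 0 ∧ F' θ = 0)) := ⟨_, rfl⟩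
  have hX : X ⊆ lin (K.subgroupOf H) := by rw [hXd]; exact filter_subset _ _
  have hnn : ∀ {Y : (H → ℂ) → ℝ}, (∀ θ ∈ lin (K.subgroupOf H), Y θ = 0 ∨ 1 ≤ Y θ) →
      ∀ θ ∈ lin (K.subgroupOf H), 0 ≤ Y θ := by
    intro Y hY θ hθ
    rcases hY θ hθ with h | h <;> linarith
  have hXc : (X.card : ℝ) ≤ 23 * b ^ 7 := by
    have h1 : X.card • (1 : ℝ) ≤ ∑ θ ∈ X, (T θ + D θ + F θ + F' θ) := by
      refine card_nsmul_le_sum _ _ _ fun θ hθ => ?_
      have hθL := hX hθ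
      rw [hXd, mem_filter] at hθ
      have t1 := hnn cT θ hθL
      have t2 := hnn cD θ hθL
      have t3 := hnn cF θ hθL
      have t4 := hnn cF' θ hθL
      rcases cT θ hθL with e1 | e1
      · rcases cD θ hθL with e2 | e2
        · rcases cF θ hθL with e3 | e3
          · rcases cF' θ hθL with e4 | e4
            · exact absurd ⟨e1, e2, e3, e4⟩ hθ.2
            · linarith
          · linarith
        · linarith
      · linarith
    have h2 : ∑ θ ∈ X, (T θ + D θ + F θ + F' θ) ≤ ∑ θ ∈ lin (K.subgroupOf H), (T θ + D θ + F θ + F' θ) := by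
      refine sum_le_sum_of_subset_of_nonneg hX fun θ hθ _ => ?_
      have t1 := hnn cT θ hθ
      have t2 := hnn cD θ hθ
      have t3 := hnn cF θ hθ
      have t4 := hnn cF' θ hθ
      linarith
    have h4 : ∑ θ ∈ lin (K.subgroupOf H), (T θ + D θ + F θ + F' θ) = ∑ θ ∈ lin (K.subgroupOf H), T θ +
        ∑ θ ∈ lin (K.subgroupOf H), D θ + ∑ θ ∈ lin (K.subgroupOf H), F θ + ∑ θ ∈ lin (K.subgroupOf H), F' θ := by
      rw [sum_add_distrib, sum_add_distrib, sum_add_distrib]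
    rw [h4] at h2
    rw [nsmul_eq_mul, mul_one] at h1
    have h3 : b ≤ b ^ 7 := by
      calc b = b ^ 1 := (pow_one b).symm
        _ ≤ b ^ 7 := pow_le_pow_right₀ hb (by norm_num)
    linarith
  -- the multiplicities
  have hcj : ∀ θ ∈ lin (K.subgroupOf H), cj (tw ψ θ) ∈ irr H := fun θ hθ =>
    mem_irr.2 (irr_cj (mem_irr.1 (hmem θ hθ)))
  have hsum : ∀ θ ∈ lin (K.subgroupOf H), (ip (fun x : H => chi s x) (tw ψ θ)).re +
      (ip (fun x : H => chi s x) (cj (tw ψ θ))).re = 2 * D θ + Rk (univ.erase r) s K H ψ - F θ - F' θ := by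
    intro θ hθ
    rw [re_sum_G0C S (hmem θ hθ), (Ak_tw (univ.erase r) s K H S.dat.KH (triv_G0C hθ)).2, hD, hF, hF']
  have hfs : ∀ θ ∈ lin (K.subgroupOf H), fs (tau H (s α)) z' (tw ψ θ) = fs (tau H (s α)) z' ψ := by
    intro θ hθ
    unfold fs
    congr 1
    refine sum_congr rfl fun x _ => ?_
    show ψ (x * tau H (s α) x * z') * θ (x * tau H (s α) x * z') = ψ (x * tau H (s α) x * z')
    rw [(lin_props hθ).2.1 _ (hsqK x), mul_one]
  have hmul : ∀ θ ∈ lin (K.subgroupOf H), θ ∉ X → ∃ m m' : ℕ,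
      (ip (fun x : H => chi s x) (tw ψ θ)).re = m ∧ (ip (fun x : H => chi s x) (cj (tw ψ θ))).re = m' ∧
      (m : ℝ) + m' = Rk (univ.erase r) s K H ψ ∧
      ((fs (tau H (s α)) z' ψ = 0 ∧ (m = 0 ∨ m' = 0)) ∨ (m = 0 ∧ m' = 0) ∨
        (fs (tau H (s α)) z' ψ = -1 ∧ m = 1 ∧ m' = 1)) := by
    intro θ hθ hθX
    obtain ⟨e1, e2, e3, e4⟩ : T θ = 0 ∧ D θ = 0 ∧ F θ = 0 ∧ F' θ = 0 := by
      by_contra h
      exact hθX (by rw [hXd, mem_filter]; exact ⟨hθ, h⟩)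
    obtain ⟨m, m', hm, hm', h⟩ := TT_cases (tau H (s α)) z' hzt hττ σH (f := fun x : H => chi s x) hfσ hchiτ
      (mem_irr.1 (hmem θ hθ))
    have hs := hsum θ hθ
    rw [e2, e3, e4, hm, hm', Complex.natCast_re, Complex.natCast_re] at hs
    rw [hfs θ hθ] at h
    have hT0 : TT (tau H (s α)) z' (fun x : H => chi s x) (tw ψ θ) = 0 := by rw [← e1, hT]
    rw [hT0] at h
    refine ⟨m, m', by rw [hm, Complex.natCast_re], by rw [hm', Complex.natCast_re], by linarith, ?_⟩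
    rcases h with ⟨h1, h2⟩ | ⟨-, h1, h2⟩ | ⟨h1, h2, h3⟩
    · left
      refine ⟨h1, ?_⟩
      have h3 : (m * m' : ℕ) = 0 := by exact_mod_cast h2.symm
      exact Nat.mul_eq_zero.1 h3
    · right; left
      have h3 : m * m + m = 0 := by exact_mod_cast h2.symm
      have h4 : m = 0 := by omega
      exact ⟨h4, by omega⟩
    · have h4 : m * m = m := by
        have h5 : (m : ℝ) * m = m := by linarith
        exact_mod_cast h5
      rcases Nat.eq_zero_or_pos m with h5 | h5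
      · right; left
        exact ⟨h5, by omega⟩
      · right; right
        have h6 : m = 1 := by
          have := Nat.eq_of_mul_eq_mul_right h5 (h4.trans (one_mul m).symm)
          exact this
        exact ⟨h1, h6, by omega⟩
  have hne : ∃ θ ∈ lin (K.subgroupOf H), θ ∉ X := by
    by_contra h
    push Not at h
    have h1 : (lin (K.subgroupOf H)).card ≤ X.card := card_le_card h
    have h2 : ((lin (K.subgroupOf H)).card : ℝ) ≤ (X.card : ℝ) := by exact_mod_cast h1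
    rw [hLc] at h2
    have h3 : b ^ 7 ≤ b ^ 9 := pow_le_pow_right₀ hb (by norm_num)
    have h4 : 0 < b ^ 9 := by positivity
    linarith
  obtain ⟨θ₀, hθ₀, hθ₀X⟩ := hne
  obtain ⟨m₀, m₀', hm₀, hm₀', hR₀, hc₀⟩ := hmul θ₀ hθ₀ hθ₀X
  rcases hc₀ with ⟨hfs0, hmm⟩ | ⟨e1, e2⟩ | ⟨hfs1, e1, e2⟩
  swap
  · left
    rw [← hR₀, e1, e2]
    norm_num
  swap
  · right; left
    refine ⟨?_, hfs1⟩
    rw [← hR₀, e1, e2]
    norm_num
  right; right
  by_contra hR
  push Not at hR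
  have hψd : 0 ≤ (ψ 1).re := (norm_nonneg _).trans (norm_le_of_irr (mem_irr.1 hψ) 1)
  have hfne : (fs (tau H (s α)) z' ψ : ℂ) ≠ -1 := by
    rw [hfs0]
    norm_num
  -- `m ∈ {0, R}`
  have hdich : ∀ θ ∈ lin (K.subgroupOf H), θ ∉ X →
      ((ip (fun x : H => chi s x) (tw ψ θ)).re = 0 ∧
        (ip (fun x : H => chi s x) (cj (tw ψ θ))).re = Rk (univ.erase r) s K H ψ) ∨
      ((ip (fun x : H => chi s x) (tw ψ θ)).re = Rk (univ.erase r) s K H ψ ∧
        (ip (fun x : H => chi s x) (cj (tw ψ θ))).re = 0) := by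
    intro θ hθ hθX
    obtain ⟨m, m', hm, hm', hs, h⟩ := hmul θ hθ hθX
    rcases h with ⟨-, h | h⟩ | ⟨h, h'⟩ | ⟨h, -⟩
    · left
      rw [h, Nat.cast_zero] at hm hs
      exact ⟨hm, by linarith⟩
    · right
      rw [h, Nat.cast_zero] at hm' hs
      exact ⟨by linarith, hm'⟩
    · exfalso
      rw [h, h', Nat.cast_zero] at hs
      linarith
    · exact absurd h hfne
  have hjump : ∀ θ ∈ lin (K.subgroupOf H), ∀ θ' ∈ lin (K.subgroupOf H), θ ∉ X → θ' ∉ X →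
      (ip (fun x : H => chi s x) (tw ψ θ)).re = 0 →
      (ip (fun x : H => chi s x) (tw ψ θ')).re = Rk (univ.erase r) s K H ψ → False := by
    intro θ hθ θ' hθ' hX1 hX2 h1 h2
    have hD1 : D θ = 0 := by
      by_contra h
      exact hX1 (by rw [hXd, mem_filter]; exact ⟨hθ, fun h' => h h'.2.1⟩)
    have hD2 : D θ' = 0 := by
      by_contra h
      exact hX2 (by rw [hXd, mem_filter]; exact ⟨hθ', fun h' => h h'.2.1⟩)
    have h3 := g0_jump S (mem_irr.1 hψ) hθ hθ'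
    have h4 := re_ip_G0C S (hmem θ hθ)
    have h5 := re_ip_G0C S (hmem θ' hθ')
    rw [hD] at hD1 hD2
    simp only at hD1 hD2
    rw [hD1, h1, re_tw_G0C hθ, (Ak_tw (univ.erase r) s K H S.dat.KH (triv_G0C hθ)).1] at h4
    rw [hD2, h2, re_tw_G0C hθ', (Ak_tw (univ.erase r) s K H S.dat.KH (triv_G0C hθ')).1] at h5
    linarith
  have hup : ∀ θ ∈ lin (K.subgroupOf H), (ip (fun x : H => chi s x) (tw ψ θ)).re ≤ 2 + Rk (univ.erase r) s K H ψ ∧
      (ip (fun x : H => chi s x) (cj (tw ψ θ))).re ≤ 2 + Rk (univ.erase r) s K H ψ := by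
    intro θ hθ
    obtain ⟨m, m', hm, hm', -⟩ := TT_cases (tau H (s α)) z' hzt hττ σH (f := fun x : H => chi s x) hfσ hchiτ
      (mem_irr.1 (hmem θ hθ))
    have hs := hsum θ hθ
    rw [hm, hm', Complex.natCast_re, Complex.natCast_re] at hs
    rw [hm, hm', Complex.natCast_re, Complex.natCast_re]
    have t1 := hnn cF θ hθ
    have t2 := hnn cF' θ hθ
    have t3 : D θ ≤ 1 := by
      rw [hD]
      show (if tw ψ θ = (fun _ => 1) then (1 : ℝ) else 0) ≤ 1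
      split_ifs <;> norm_num
    have t4 : (0 : ℝ) ≤ m := Nat.cast_nonneg _
    have t5 : (0 : ℝ) ≤ m' := Nat.cast_nonneg _
    constructor <;> linarith
  rcases hdich θ₀ hθ₀ hθ₀X with ⟨h1, -⟩ | ⟨h1, -⟩
  · refine core_G0C hN hb S hLc hbig hψ (hbb ψ hψ) hR X hX hXc (fun θ hθ => (hup θ hθ).1) ?_
    intro θ hθ hθX
    rcases hdich θ hθ hθX with ⟨h2, -⟩ | ⟨h2, -⟩
    · exact h2
    · exact (hjump θ₀ hθ₀ θ hθ hθ₀X hθX h1 h2).elim
  · have hψ' : cj ψ ∈ irr H := mem_irr.2 (irr_cj (mem_irr.1 hψ))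
    have hRc := Rk_cj (univ.erase r) s K H S.dat.KH (mem_irr.1 hψ)
    have hinj : (X.image cj).card ≤ X.card := card_image_le
    refine core_G0C hN hb S hLc hbig hψ' (hbb _ hψ') ?_ (X.image cj) ?_ ?_ ?_ ?_
    · rw [hRc, re_cj_G0C]
      exact hR
    · intro θ hθ
      obtain ⟨θ', hθ', rfl⟩ := mem_image.1 hθ
      exact cj_mem_lin (hX hθ')
    · refine le_trans ?_ hXc
      exact_mod_cast hinj
    · intro θ hθ
      have h2 := (hup (cj θ) (cj_mem_lin hθ)).2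
      rw [cj_tw_G0C, cj_cj_G0C] at h2
      rw [hRc]
      exact h2
    · intro θ hθ hθX
      have h3 : cj θ ∉ X := fun h => hθX (mem_image.2 ⟨cj θ, h, cj_cj_G0C θ⟩)
      rcases hdich (cj θ) (cj_mem_lin hθ) h3 with ⟨h2, -⟩ | ⟨-, h2⟩
      · exact (hjump (cj θ) (cj_mem_lin hθ) θ₀ hθ₀ h3 hθ₀X h2 h1).elim
      · rw [cj_tw_G0C, cj_cj_G0C] at h2
        exact h2

end Pool.Agent.H6.FF
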