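import Pool.Agent.H6.FF.S0
import Pool.Agent.H6.FF.RkL
import Pool.Agent.H6.FF.Lin
import Pool.Agent.H6.FF.Tau

set_option autoImplicit false

/-!
PROJECT FF (MP_bf82d2_ag, BoundedGroup, note 6093), module G0D.
Case G0: the final contradiction.
PROOF. `h = |H|`, `|G| = 2 h`, `W = ∑_{i ≠ r} (1/ko) (1 - 1/oo)`; `Rk_avg`: `∑ ψ, (ψ 1).re * R ψ = 2 h W`. `R θ = 0` for `θ ∈ lin (K.subgroupOf H)`
(`Rk_of_triv`), `∑ (ψ 1)^2 = h`, the `ψ ∉ lin` have `∑ (ψ 1)^2 = h - index` (`lin_card`, `lin_props`), index `≥ 1`. As `N ≥ 4` there is `i ∉ {α, β, r}`: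
`ko = 1`, `oo = orderOf (s i) ≥ 2`: `W ≥ 1/2`. If `R ψ ≤ (ψ 1).re` for all `ψ`: `2 h W ≤ h - index < h`, contradiction. Otherwise some `ψ` has
`R ψ > ψ 1`, so `R ψ = 2`, `fs = -1`, `ψ 1 = 1`, `ψ` linear (`lin_of_deg`); `fs_lin` for `y = s α` and `y = s β` (`(s α)⁻¹ (s β) ∈ H` by `S.two`): `ψ` is `-1` at
`s α * s α` and `s β * s β` (elements of `K ≤ H`, `S.dat.sq`), so these are not `1`, `oo K (s α), oo K (s β) ≥ 2` (`ko = 2`), `W ≥ 1/4 + 1/4 + 1/2 = 1`. But
`R ψ ≤ 2 (ψ 1).re` for all `ψ`, so `2 h W ≤ 2 (h - index) < 2 h`, contradiction.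
-/

namespace Pool.Agent.H6.FF

open Finset Module
open Pool.Agent.H82.CO (chi quadInv nu genus eps zeta)
open Pool.Agent.H11.GQ (nuK)

variable {G : Type} [Group G] [Fintype G] {N : ℕ} {s : Fin N → G} {K H : Subgroup G} [K.Normal] [H.Normal] [Fintype H]
  {α β r : Fin N} {b : ℝ}

private theorem term_nonneg_G0D (K : Subgroup G) [K.Normal] (g : G) :
    (0 : ℝ) ≤ (1 / (ko K g : ℝ)) * (1 - 1 / (oo K g : ℝ)) := by
  obtain ⟨_, _, ho, _, _⟩ := ko_mul_oo K g
  have h1 : (1 : ℝ) ≤ (oo K g : ℝ) := by exact_mod_cast ho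
  have h2 : 1 / (oo K g : ℝ) ≤ 1 := by
    rw [div_le_one (by positivity)]
    exact h1
  exact mul_nonneg (by positivity) (by linarith)

private theorem half_le_G0D {o : ℕ} (ho : 2 ≤ o) : (1 : ℝ) / 2 ≤ 1 - 1 / (o : ℝ) := by
  have h1 : (2 : ℝ) ≤ (o : ℝ) := by exact_mod_cast ho
  have h2 : 1 / (o : ℝ) ≤ 1 / 2 := one_div_le_one_div_of_le (by norm_num) h1
  linarith

private theorem two_le_order_G0D {g : G} (hg : g ≠ 1) : 2 ≤ orderOf g := by
  have h1 : 0 < orderOf g := orderOf_pos g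
  have h2 : orderOf g ≠ 1 := fun h => hg (orderOf_eq_one_iff.1 h)
  omega

/-- the sum of `(ψ 1).re * R ψ` when `R ψ ≤ C (ψ 1).re` and `R` vanishes at the trivial character -/
private theorem sum_le_G0D [Fintype H] (hKH : K ≤ H) (I : Finset (Fin N)) {C : ℝ} (hC : 0 ≤ C)
    (hR : ∀ ψ ∈ irr H, Rk I s K H ψ ≤ C * (ψ 1).re) :
    (Nat.card G : ℝ) * ∑ i ∈ I, (1 / (ko K (s i) : ℝ)) * (1 - 1 / (oo K (s i) : ℝ)) ≤
      C * ((Nat.card H : ℝ) - 1) := by
  classical
  obtain ⟨ψ₀, hψ₀⟩ : ∃ ψ₀ : H → ℂ, ψ₀ = fun _ => 1 := ⟨_, rfl⟩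
  have hlin : IsLin ψ₀ := by
    subst hψ₀
    exact ⟨rfl, fun x y => (mul_one _).symm, fun x => norm_one⟩
  have hmem : ψ₀ ∈ irr H := mem_irr.2 (irr_lin hlin)
  have h0 : Rk I s K H ψ₀ = 0 := by
    apply Rk_of_triv I s K H hKH
    intro k _
    subst hψ₀
    rfl
  have h1 : ψ₀ 1 = 1 := hlin.1
  rw [← Rk_avg I s K H hKH, ← sum_sq (H := H), ← add_sum_erase _ _ hmem, ← add_sum_erase _ _ hmem,
    h0, h1]
  have h2 : ∑ ψ ∈ (irr H).erase ψ₀, (ψ 1).re * Rk I s K H ψ ≤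
      C * ∑ ψ ∈ (irr H).erase ψ₀, (ψ 1).re ^ 2 := by
    rw [mul_sum]
    refine sum_le_sum fun ψ hψ => ?_
    have h3 := (mem_erase.1 hψ).2
    have h4 : 0 ≤ (ψ 1).re := by
      obtain ⟨d, _, hd⟩ := deg_of_irr (mem_irr.1 h3)
      rw [hd]
      simp
    calc (ψ 1).re * Rk I s K H ψ ≤ (ψ 1).re * (C * (ψ 1).re) :=
          mul_le_mul_of_nonneg_left (hR ψ h3) h4
      _ = C * (ψ 1).re ^ 2 := by ring
  rw [Complex.one_re]
  linarith

theorem g0_final (hN : 4 ≤ N) (hs : ∀ i, s i ≠ 1) (S : S0 s K H α β r b) {z : H} (hz : (z : G) = s α * s α)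
    (hR : ∀ ψ ∈ irr H, Rk (univ.erase r) s K H ψ = 0 ∨
      (Rk (univ.erase r) s K H ψ = 2 ∧ fs (tau H (s α)) z ψ = -1) ∨ Rk (univ.erase r) s K H ψ ≤ (ψ 1).re) : False := by
  classical
  have hh : (1 : ℝ) ≤ (Nat.card H : ℝ) := by
    have : 0 < Nat.card H := Nat.card_pos
    exact_mod_cast this
  have hG : (Nat.card G : ℝ) = 2 * (Nat.card H : ℝ) := by
    rw [S.card]
    push_cast
    rfl
  have hdeg : ∀ ψ ∈ irr H, 1 ≤ (ψ 1).re := by
    intro ψ hψ
    obtain ⟨d, h1, hd⟩ := deg_of_irr (mem_irr.1 hψ)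
    rw [hd, Complex.natCast_re]
    exact_mod_cast h1
  -- an index different from `α`, `β`, `r`
  obtain ⟨i, hiα, hiβ, hir⟩ : ∃ i : Fin N, i ≠ α ∧ i ≠ β ∧ i ≠ r := by
    by_contra hcon
    push Not at hcon
    have h1 : (univ : Finset (Fin N)) ⊆ {α, β, r} := by
      intro i _
      simp only [mem_insert, mem_singleton]
      by_cases h2 : i = α
      · exact Or.inl h2
      · by_cases h3 : i = β
        · exact Or.inr (Or.inl h3)
        · exact Or.inr (Or.inr (hcon i h2 h3))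
    have h2 := card_le_card h1
    rw [card_univ, Fintype.card_fin] at h2
    have h3 := card_le_three (a := α) (b := β) (c := r)
    omega
  have hki := S.ki i hiα hiβ hir
  have hti : (1 : ℝ) / 2 ≤ (1 / (ko K (s i) : ℝ)) * (1 - 1 / (oo K (s i) : ℝ)) := by
    have h1 : 2 ≤ oo K (s i) := by
      unfold oo
      rw [hki, pow_one]
      exact two_le_order_G0D (hs i)
    have h2 := half_le_G0D h1
    rw [hki]
    push_cast
    linarith
  by_cases hcase : ∀ ψ ∈ irr H, Rk (univ.erase r) s K H ψ ≤ 1 * (ψ 1).re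
  · have h1 := sum_le_G0D S.dat.KH (univ.erase r) zero_le_one hcase
    have h2 : (1 : ℝ) / 2 ≤
        ∑ i ∈ univ.erase r, (1 / (ko K (s i) : ℝ)) * (1 - 1 / (oo K (s i) : ℝ)) :=
      hti.trans (single_le_sum (f := fun i => (1 / (ko K (s i) : ℝ)) * (1 - 1 / (oo K (s i) : ℝ)))
        (fun j _ => term_nonneg_G0D K (s j)) (mem_erase.2 ⟨hir, mem_univ i⟩))
    rw [hG] at h1
    nlinarith
  · push Not at hcase
    obtain ⟨ψ, hψ, hlt⟩ := hcase
    rw [one_mul] at hlt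
    have hψ1 := hdeg ψ hψ
    rcases hR ψ hψ with h | ⟨h2, hfs⟩ | h
    · linarith
    · obtain ⟨d, hd1, hd⟩ := deg_of_irr (mem_irr.1 hψ)
      have hdd : d = 1 := by
        rw [h2, hd, Complex.natCast_re] at hlt
        have h3 : d < 2 := by exact_mod_cast hlt
        omega
      have hone : ψ 1 = 1 := by rw [hd, hdd, Nat.cast_one]
      have hlin := lin_of_deg (mem_irr.1 hψ) hone
      have hne : ∀ (y : G) (hyH : y * y ∈ H), (s α)⁻¹ * y ∈ H → y * y ≠ 1 := by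
        intro y hyH hy h1
        have h3 := fs_lin H (s α) z hz hlin hfs ⟨y * y, hyH⟩ y hy rfl
        have h4 : (⟨y * y, hyH⟩ : H) = 1 := Subtype.ext h1
        rw [h4, hone] at h3
        norm_num at h3
      have hαinv : (s α)⁻¹ ∉ H := fun h => S.dat.wH (by simpa using H.inv_mem h)
      have hα1 : s α * s α ≠ 1 :=
        hne (s α) (S.two _ _ S.dat.wH S.dat.wH) (by rw [inv_mul_cancel]; exact H.one_mem)
      have hβ1 : s β * s β ≠ 1 :=
        hne (s β) (S.two _ _ S.βH S.βH) (S.two _ _ hαinv S.βH)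
      have hterm : ∀ j, ko K (s j) = 2 → s j * s j ≠ 1 →
          (1 : ℝ) / 4 ≤ (1 / (ko K (s j) : ℝ)) * (1 - 1 / (oo K (s j) : ℝ)) := by
        intro j hj hj1
        have h1 : 2 ≤ oo K (s j) := by
          unfold oo
          rw [hj, pow_two]
          exact two_le_order_G0D hj1
        have h3 := half_le_G0D h1
        rw [hj]
        push_cast
        linarith
      have htα := hterm α S.kα hα1
      have htβ := hterm β S.kβ hβ1
      have hall : ∀ φ ∈ irr H, Rk (univ.erase r) s K H φ ≤ 2 * (φ 1).re := by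
        intro φ hφ
        have h1 := hdeg φ hφ
        rcases hR φ hφ with h | ⟨h, _⟩ | h <;> linarith
      have h1 := sum_le_G0D S.dat.KH (univ.erase r) zero_le_two hall
      have hsub : ({α, β, i} : Finset (Fin N)) ⊆ univ.erase r := by
        intro j hj
        rw [mem_insert, mem_insert, mem_singleton] at hj
        rw [mem_erase]
        refine ⟨?_, mem_univ _⟩
        rcases hj with rfl | rfl | rfl
        · exact S.ne2
        · exact S.ne3
        · exact hir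
      have h3 : ∑ j ∈ ({α, β, i} : Finset (Fin N)), (1 / (ko K (s j) : ℝ)) * (1 - 1 / (oo K (s j) : ℝ)) ≤
          ∑ j ∈ univ.erase r, (1 / (ko K (s j) : ℝ)) * (1 - 1 / (oo K (s j) : ℝ)) :=
        sum_le_sum_of_subset_of_nonneg hsub fun j _ _ => term_nonneg_G0D K (s j)
      have hαβ : α ∉ ({β, i} : Finset (Fin N)) := by
        rw [mem_insert, mem_singleton]
        rintro (h | h)
        · exact S.ne1 h
        · exact hiα h.symm
      have hβi : β ∉ ({i} : Finset (Fin N)) := by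
        rw [mem_singleton]
        exact fun h => hiβ h.symm
      rw [sum_insert hαβ, sum_insert hβi, sum_singleton] at h3
      rw [hG] at h1
      nlinarith
    · linarith

end Pool.Agent.H6.FF
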