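import Pool.Agent.H6.FF.EK
import Pool.Agent.H6.FF.KSum

set_option autoImplicit false

/-!
PROJECT FF (MP_bf82d2_ag, BoundedGroup, note 6093), module G1A.
Case G1: consequences of the formula for `F`.
PROOF. `fd_off`: `F g = 1` and `g ∉ K`: the sum of the `fx s (g k) ≥ 0` is `0`; `k = 1`. `fd_fix`: `F g ≠ 1` and `|F g| = 1`: `Re F g < 1`, so some
`fx s (g k) ≠ 0`, `fx_eq_zero`; an element of `zpowers (s i)` is `s i ^ j`, `j : ℕ` (finite order). `fd_pow`: `(g k)^(k_i) =
u (s i ^ k_i)^j u⁻¹ ∈ K`, so `g ^ k_i ∈ K`. `fd_mem`: if `F (s i ^ j) = 1` and `s i ^ j ∉ K` then `fx s (s i ^ j) = 0`, but `u = 1` is a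
fixed point. `fd_ord`: `orderOf_eq` from `fd_mem` and `pow_mem_iff`. `fd_sq`: `F g = -1`: `g k = u s i ^ j u⁻¹` by `fd_fix`, `(g k)^2 = u s i ^ (2j) u⁻¹`,
`F (s i ^ (2 j)) = 1`, so it is in `K` by `fd_mem`, and `g * g ∈ K`.
-/

namespace Pool.Agent.H6.FF

open Finset Module
open Pool.Agent.H82.CO (chi quadInv nu genus eps zeta)
open Pool.Agent.H11.GQ (nuK)

variable {G : Type} [Group G] [Fintype G] {N : ℕ} {s : Fin N → G} {K : Subgroup G} [K.Normal] {F : G →* ℂˣ}

open Classical in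
private lemma term_nonneg_G1A (s : Fin N → G) (K : Subgroup G) (g k : G) :
    0 ≤ (if k ∈ K then fx s (g * k) else 0 : ℝ) := by
  by_cases h : k ∈ K
  · rw [if_pos h]
    exact fx_nonneg s _
  · rw [if_neg h]

omit [Fintype G] in
private lemma quot_G1A (K : Subgroup G) [K.Normal] {g k : G} (hk : k ∈ K) :
    (QuotientGroup.mk (g * k) : G ⧸ K) = QuotientGroup.mk g := by
  rw [QuotientGroup.mk_mul, (QuotientGroup.eq_one_iff k).2 hk, mul_one]

theorem fd_off (hF : FData s K F) {g : G} (h : F g = 1) (hg : g ∉ K) : fx s g = 0 := by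
  have h1 := hF.2.2 g hg
  rw [h, Units.val_one, Complex.one_re, sub_self, mul_zero] at h1
  rw [Finset.sum_eq_zero_iff_of_nonneg fun k _ => term_nonneg_G1A s K g k] at h1
  have h2 := h1 1 (mem_univ 1)
  rw [if_pos K.one_mem, mul_one] at h2
  exact h2

theorem fd_fix (hF : FData s K F) {g : G} (h : F g ≠ 1) :
    ∃ k ∈ K, ∃ (i : Fin N) (u : G) (j : ℕ), g * k = u * s i ^ j * u⁻¹ := by
  have hg : g ∉ K := fun hg => h (hF.1 g hg)
  have h1 := hF.2.2 g hg
  have h2 : (F g : ℂ).re < 1 := by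
    by_contra hc
    push Not at hc
    have h3 := hF.2.1 g
    have h4 : (F g : ℂ).re = 1 := le_antisymm (by
      rw [← h3]
      exact Complex.re_le_norm _) hc
    have h5 : (F g : ℂ).im = 0 := by
      have h6 := Complex.sq_norm (F g : ℂ)
      rw [h3, Complex.normSq_apply, h4] at h6
      nlinarith
    apply h
    apply Units.ext
    rw [Units.val_one]
    exact Complex.ext (by rw [h4, Complex.one_re]) (by rw [h5, Complex.one_im])
  have hK : (0 : ℝ) < Nat.card K := by exact_mod_cast Nat.card_pos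
  have h3 : 0 < 2 * (Nat.card K : ℝ) * (1 - (F g : ℂ).re) := by
    have : 0 < 1 - (F g : ℂ).re := by linarith
    positivity
  rw [← h1] at h3
  obtain ⟨k, -, hk⟩ := Finset.exists_ne_zero_of_sum_ne_zero h3.ne'
  have hkK : k ∈ K := by
    by_contra hc
    exact hk (if_neg hc)
  rw [if_pos hkK, Ne, fx_eq_zero] at hk
  push Not at hk
  obtain ⟨i, u, hiu⟩ := hk
  rw [← mem_powers_iff_mem_zpowers, Submonoid.mem_powers_iff] at hiu
  obtain ⟨j, hj⟩ := hiu
  refine ⟨k, hkK, i, u, j, ?_⟩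
  rw [hj]
  group

theorem fd_pow (hF : FData s K F) {g : G} (h : F g ≠ 1) : ∃ i : Fin N, g ^ ko K (s i) ∈ K := by
  obtain ⟨k, hk, i, u, j, e⟩ := fd_fix hF h
  refine ⟨i, ?_⟩
  obtain ⟨-, -, -, hmem, -⟩ := ko_mul_oo K (s i)
  have h1 : (g * k) ^ ko K (s i) ∈ K := by
    rw [e, conj_pow]
    refine Subgroup.Normal.conj_mem inferInstance _ ?_ u
    rw [← pow_mul, mul_comm, pow_mul]
    exact pow_mem hmem j
  rw [← QuotientGroup.eq_one_iff, QuotientGroup.mk_pow, quot_G1A K hk] at h1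
  rw [← QuotientGroup.eq_one_iff, QuotientGroup.mk_pow]
  exact h1

theorem fd_mem (hF : FData s K F) (i : Fin N) (j : ℕ) : F (s i) ^ j = 1 ↔ s i ^ j ∈ K := by
  rw [← map_pow]
  constructor
  · intro h
    by_contra hc
    have h1 := fd_off hF h hc
    rw [fx_eq_zero] at h1
    apply h1 i 1
    rw [inv_one, one_mul, mul_one]
    exact pow_mem (Subgroup.mem_zpowers (s i)) j
  · intro h
    exact hF.1 _ h

theorem fd_ord (hF : FData s K F) (i : Fin N) : orderOf (F (s i)) = ko K (s i) := by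
  apply Nat.dvd_antisymm
  · rw [orderOf_dvd_iff_pow_eq_one, fd_mem hF]
    exact (ko_mul_oo K (s i)).2.2.2.1
  · rw [← pow_mem_iff, ← fd_mem hF]
    exact pow_orderOf_eq_one _

theorem fd_sq (hF : FData s K F) {g : G} (h : F g = -1) : g * g ∈ K := by
  have hne : F g ≠ 1 := by
    rw [h]
    intro h1
    have h2 := congrArg Units.val h1
    rw [Units.val_neg, Units.val_one] at h2
    norm_num at h2
  obtain ⟨k, hk, i, u, j, e⟩ := fd_fix hF hne
  have h1 : F (g * k) = -1 := by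
    rw [map_mul, hF.1 k hk, h, mul_one]
  have h2 : F (s i) ^ j = -1 := by
    rw [e, map_mul, map_mul, map_inv, map_pow] at h1
    rw [← h1, mul_comm (F u), mul_assoc, mul_inv_cancel, mul_one]
  have h3 : s i ^ (j * 2) ∈ K := by
    rw [← fd_mem hF, pow_mul, h2]
    norm_num
  have h4 : (g * k) ^ 2 ∈ K := by
    rw [e, conj_pow, ← pow_mul]
    exact Subgroup.Normal.conj_mem inferInstance _ h3 u
  rw [← QuotientGroup.eq_one_iff, QuotientGroup.mk_pow, quot_G1A K hk, ← QuotientGroup.mk_pow,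
    QuotientGroup.eq_one_iff, pow_two] at h4
  exact h4

end Pool.Agent.H6.FF
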