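import Pool.Agent.H6.FF.G1A
import Pool.Agent.H6.FF.Small

set_option autoImplicit false

/-!
PROJECT FF (MP_bf82d2_ag, BoundedGroup, note 6093), module G1B.
Case G1: `-1` is a value of `F`.
PROOF. Suppose not. Then every `F g` has odd order (if the order is `2 l`, `F (g ^ l) = -1`), in particular all `ko K (s i)` are odd
(`fd_ord`). If `F x ≠ 1`: `x ^ ko K (s i) ∈ K` for some `i` (`fd_pow`): `inv_odd`, `small`. If `F x = 1`: some `s i` has `ko > 1` (the sum `nuK`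
is `2`), `r = s i`, `F r ≠ 1`, `F (x r) ≠ 1`: `r ^ k ∈ K`, `(x r) ^ k' ∈ K`, `k`, `k'` odd, `M = k k'`. For `a ∈ A`:
`(x r)^M a (x r)^(-M) = (r^M a r^(-M))⁻¹` (`x` inverts all elements of `A`, `r a r⁻¹ ∈ A`; `M` odd), and modulo `K` the left side is
`a`, the right side `a⁻¹`. So `a * a ∈ K` for all `a ∈ A`, `small`.
-/

namespace Pool.Agent.H6.FF

open Finset Module
open Pool.Agent.H11.GQ (nuK)

private lemma conj_G1B {G : Type} [Group G] (A : Subgroup G) [A.Normal] {x : G}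
    (hx : ∀ a ∈ A, x * a * x⁻¹ = a⁻¹) (r : G) {a : G} (ha : a ∈ A) (j : ℕ) :
    (x * r) ^ j * a * ((x * r) ^ j)⁻¹ = (r ^ j * a * (r ^ j)⁻¹) ^ ((-1 : ℤ) ^ j) := by
  induction j with
  | zero => simp
  | succ j ih =>
    set c := r ^ j * a * (r ^ j)⁻¹ with hc
    have hcA : c ∈ A := Subgroup.Normal.conj_mem inferInstance _ ha _
    have h1 : (x * r) ^ (j + 1) * a * ((x * r) ^ (j + 1))⁻¹ =
        (x * r) * ((x * r) ^ j * a * ((x * r) ^ j)⁻¹) * (x * r)⁻¹ := by
      rw [pow_succ' (x * r) j, mul_inv_rev]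
      simp only [mul_assoc]
    have h2 : r ^ (j + 1) * a * (r ^ (j + 1))⁻¹ = r * c * r⁻¹ := by
      rw [pow_succ' r j, mul_inv_rev, hc]
      simp only [mul_assoc]
    have h3 : (x * r) * c * (x * r)⁻¹ = (r * c * r⁻¹)⁻¹ := by
      rw [← hx _ (Subgroup.Normal.conj_mem inferInstance _ hcA r), mul_inv_rev]
      simp only [mul_assoc]
    rw [h1, ih, ← conj_zpow, h3, h2, pow_succ, mul_neg_one, zpow_neg, inv_zpow]

private lemma sq_G1B {G : Type} [Group G] (K A : Subgroup G) [K.Normal] [A.Normal] {x : G}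
    (hx : ∀ a ∈ A, x * a * x⁻¹ = a⁻¹) (r : G) {M : ℕ} (hM : Odd M) (h1 : r ^ M ∈ K)
    (h2 : (x * r) ^ M ∈ K) : ∀ a ∈ A, a * a ∈ K := by
  intro a ha
  have h3 := conj_G1B A hx r ha M
  rw [hM.neg_one_pow, zpow_neg, zpow_one] at h3
  have h5 : QuotientGroup.mk' K (r ^ M) = 1 := (QuotientGroup.eq_one_iff _).2 h1
  have h6 : QuotientGroup.mk' K ((x * r) ^ M) = 1 := (QuotientGroup.eq_one_iff _).2 h2
  have h4 := congrArg (QuotientGroup.mk' K) h3
  rw [map_mul, map_mul, map_inv, map_inv, map_mul, map_mul, map_inv, h5, h6, inv_one, one_mul,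
    mul_one] at h4
  have h7 : QuotientGroup.mk' K (a * a) = 1 := by
    rw [map_mul]
    exact eq_inv_iff_mul_eq_one.1 h4
  exact (QuotientGroup.eq_one_iff _).1 h7

theorem g1_neg (b : ℕ) : ∃ C : ℕ, ∀ (G : Type) [Group G] [Fintype G] (N : ℕ) (_hN : N ≤ 5) (s : Fin N → G)
    (_hg : Subgroup.closure (Set.range s) = ⊤) (K A : Subgroup G) [K.Normal] [A.Normal] (_hK : Nat.card K ≤ b)
    (_hAi : A.index ≤ b) (_hA : ∀ a ∈ A, ∀ c ∈ A, a * c = c * a) (x : G) (_hx : ∀ a ∈ A, x * a * x⁻¹ = a⁻¹)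
    (_hν : nuK s K = 2) (F : G →* ℂˣ) (_hF : FData s K F), C < Nat.card G → ∃ w, F w = -1 := by
  obtain ⟨C, hC⟩ := small b
  refine ⟨C, fun G _ _ N hN s hg K A _ _ hK hAi hA x hx hν F hF hlt => ?_⟩
  by_contra hcon
  push Not at hcon
  have key : ¬ ∀ a ∈ A, a * a ∈ K := fun h2 =>
    absurd (hC G N hN s hg K A hK hAi hA h2) (not_le.2 hlt)
  have hodd : ∀ g, Odd (orderOf (F g)) := by
    intro g
    have hfin : 0 < orderOf (F g) := by
      rw [orderOf_pos_iff, isOfFinOrder_iff_pow_eq_one]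
      exact ⟨Fintype.card G, Fintype.card_pos, by rw [← map_pow, pow_card_eq_one, map_one]⟩
    by_contra h
    rw [Nat.not_odd_iff_even] at h
    obtain ⟨l, hl⟩ := h
    have hl0 : 0 < l := by omega
    have h1 : (F g) ^ l ≠ 1 := pow_ne_one_of_lt_orderOf hl0.ne' (by omega)
    have h2 : (F g) ^ l * (F g) ^ l = 1 := by rw [← pow_add, ← hl, pow_orderOf_eq_one]
    apply hcon (g ^ l)
    rw [map_pow]
    have h3 : (((F g) ^ l : ℂˣ) : ℂ) * (((F g) ^ l : ℂˣ) : ℂ) = 1 := by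
      rw [← Units.val_mul, h2, Units.val_one]
    rcases mul_self_eq_one_iff.1 h3 with h4 | h4
    · exact absurd (Units.ext h4) h1
    · exact Units.ext (by rw [h4, Units.val_neg, Units.val_one])
  have hko : ∀ i, Odd (ko K (s i)) := fun i => by rw [← fd_ord hF i]; exact hodd _
  by_cases hx1 : F x = 1
  · obtain ⟨i, hi⟩ : ∃ i, ko K (s i) ≠ 1 := by
      by_contra h
      push Not at h
      have h0 : nuK s K = 0 := by
        unfold nuK
        refine sum_eq_zero fun i _ => ?_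
        have h1 := h i
        unfold ko at h1
        rw [h1]
        norm_num
      rw [h0] at hν
      norm_num at hν
    have hr : F (s i) ≠ 1 := fun h0 => hi (by rw [← fd_ord hF i, h0, orderOf_one])
    obtain ⟨i1, h1⟩ := fd_pow hF hr
    obtain ⟨i2, h2⟩ := fd_pow hF (g := x * s i) (by rw [map_mul, hx1, one_mul]; exact hr)
    refine key (sq_G1B K A hx (s i) ((hko i1).mul (hko i2)) ?_ ?_)
    · rw [pow_mul]
      exact K.pow_mem h1 _
    · rw [mul_comm, pow_mul]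
      exact K.pow_mem h2 _
  · obtain ⟨i, hi⟩ := fd_pow hF hx1
    exact key (inv_odd K A hx (hko i) hi)

end Pool.Agent.H6.FF
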