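import Pool.Agent.H6.FF.G1A
import Pool.Agent.H6.FF.Ar
import Pool.Agent.H6.FF.Tau

set_option autoImplicit false

/-!
PROJECT FF (MP_bf82d2_ag, BoundedGroup, note 6093), module G1C.
Case G1: the data. `H = F.ker`.
PROOF. `ko K (s i) ≤ 6` (`ar_six`, `nuK` is the sum), `oo K (s i) ≤ |K|` (`ko_mul_oo`), so `orderOf (s i) ≤ 6 |K|`. `sq`: `F g = F w = -1`, `fd_sq`.
`ind`: every value of `F` is `1` or a power of some `F (s i)` (`fd_fix`), so a 60-th root of unity; `G / ker F` embeds in the group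
of the 60-th roots of unity, `|G| ≤ 60 |ker F|`. `cnt`: let `g * g ∈ K`, `w⁻¹ g ∉ H`: `F g ^ 2 = 1`, `F g ≠ -1`, so `F g = 1`; then
`w g w⁻¹ g ∈ K` (`(w g)(w g) ∈ K`, `w w ∈ K`) so `g⁻¹ w g ∈ w K`. By `fd_fix` `w k0 = v s i ^ j v⁻¹`. For each such `g`: `y = g⁻¹ (w k0) g ∈ w K` and
`u = g⁻¹ v` satisfy `u⁻¹ y u = s i ^ j`; different `g` have different `u` (and `y = u s_i^j u⁻¹`). So the number of the `g` is
`≤ orderOf (s i) * ∑_{k ∈ K} fx s (w k) = orderOf (s i) * 4 |K| ≤ 24 |K|^2` (`FData` for `g = w`).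
`off`: `fd_off`, `chi_eq_one`.
-/

namespace Pool.Agent.H6.FF

open Finset Module
open Pool.Agent.H82.CO (chi quadInv nu genus eps zeta)
open Pool.Agent.H11.GQ (nuK)

variable {G : Type} [Group G] [Fintype G] {N : ℕ}

private theorem sq_one_G1C {x : ℂˣ} (h : x * x = 1) : x = 1 ∨ x = -1 := by
  have h1 : (x : ℂ) * (x : ℂ) = 1 := by
    rw [← Units.val_mul, h, Units.val_one]
  rcases mul_self_eq_one_iff.1 h1 with h2 | h2
  · left
    exact Units.ext h2
  · right
    apply Units.ext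
    rw [h2, Units.val_neg, Units.val_one]

private theorem neg_ne_G1C : (-1 : ℂˣ) ≠ 1 := by
  intro h
  have h1 := congrArg (fun x : ℂˣ => (x : ℂ)) h
  simp only [Units.val_neg, Units.val_one] at h1
  norm_num at h1

private theorem order_le_G1C {s : Fin N → G} {K : Subgroup G} [K.Normal] (hν : nuK s K = 2) (i : Fin N) :
    ko K (s i) ≤ 6 ∧ orderOf (s i) ≤ 6 * Nat.card K := by
  have h1 : ko K (s i) ≤ 6 := ar_six (fun i => ko K (s i)) (fun i => (ko_mul_oo K (s i)).2.1) hν i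
  obtain ⟨h2, -, -, -, h3⟩ := ko_mul_oo K (s i)
  exact ⟨h1, h2 ▸ Nat.mul_le_mul h1 h3⟩

private theorem index_G1C {s : Fin N → G} {K : Subgroup G} [K.Normal] {F : G →* ℂˣ} (hF : FData s K F)
    (hν : nuK s K = 2) : Nat.card G ≤ 60 * Nat.card F.ker := by
  have h1 : ∀ g, F g ^ 60 = 1 := by
    intro g
    by_cases hg : F g = 1
    · rw [hg, one_pow]
    · obtain ⟨k, hk, i, u, j, hgk⟩ := fd_fix hF hg
      have h2 : F g = F (s i) ^ j := by
        have h3 := congrArg F hgk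
        rw [map_mul, hF.1 k hk, mul_one, map_mul, map_mul, map_pow, map_inv, mul_comm (F u), mul_assoc,
          mul_inv_cancel, mul_one] at h3
        exact h3
      have h4 : ko K (s i) ∣ 60 := by
        have h5 := (order_le_G1C hν i).1
        have h6 := (ko_mul_oo K (s i)).2.1
        interval_cases ko K (s i) <;> decide
      have h7 : F (s i) ^ 60 = 1 := by
        rw [← orderOf_dvd_iff_pow_eq_one, fd_ord hF i]
        exact h4
      rw [h2, ← pow_mul, mul_comm, pow_mul, h7, one_pow]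
  have h2 : F.range ≤ rootsOfUnity 60 ℂ := by
    rintro _ ⟨g, rfl⟩
    rw [mem_rootsOfUnity]
    exact h1 g
  have h3 : Nat.card F.range ≤ 60 := by
    refine (Nat.card_le_card_of_injective _ (Subgroup.inclusion_injective h2)).trans ?_
    exact card_rootsOfUnity ℂ 60
  have h4 := Subgroup.card_mul_index F.ker
  rw [Subgroup.index_ker] at h4
  calc Nat.card G = Nat.card F.ker * Nat.card F.range := h4.symm
    _ ≤ Nat.card F.ker * 60 := Nat.mul_le_mul_left _ h3
    _ = 60 * Nat.card F.ker := mul_comm _ _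

private theorem count_G1C {s : Fin N → G} {K : Subgroup G} [K.Normal] {F : G →* ℂˣ} (hF : FData s K F)
    (hν : nuK s K = 2) {w : G} (hw : F w = -1) :
    (Nat.card {g : G // w⁻¹ * g ∉ F.ker ∧ g * g ∈ K} : ℝ) ≤ 24 * (Nat.card K : ℝ) ^ 2 := by
  classical
  have hw1 : F w ≠ 1 := by rw [hw]; exact neg_ne_G1C
  have hwK : w ∉ K := fun h => hw1 (hF.1 w h)
  have hww := fd_sq hF hw
  obtain ⟨k0, hk0, i, v, j, hv⟩ := fd_fix hF hw1
  have hmem : ∀ g : G, w⁻¹ * g ∉ F.ker → g * g ∈ K → w⁻¹ * (g⁻¹ * (w * k0) * g) ∈ K := by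
    intro g hg1 hg2
    have h1 : F g * F g = 1 := by rw [← map_mul]; exact hF.1 _ hg2
    have h2 : F g = 1 := by
      rcases sq_one_G1C h1 with h | h
      · exact h
      · exfalso
        apply hg1
        rw [MonoidHom.mem_ker, map_mul, map_inv, hw, h, inv_mul_cancel]
    have h3 : F (w * g) = -1 := by rw [map_mul, h2, mul_one, hw]
    have h4 := fd_sq hF h3
    rw [← QuotientGroup.eq_one_iff] at hg2 h4 hww ⊢
    have hk0' : ((k0 : G) : G ⧸ K) = 1 := (QuotientGroup.eq_one_iff _).2 hk0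
    simp only [QuotientGroup.mk_mul, QuotientGroup.mk_inv, hk0', mul_one] at hg2 h4 hww ⊢
    have hg3 : ((g : G) : G ⧸ K)⁻¹ = g := inv_eq_of_mul_eq_one_left hg2
    have hw3 : ((w : G) : G ⧸ K)⁻¹ = w := inv_eq_of_mul_eq_one_left hww
    rw [hg3, hw3]
    simpa only [mul_assoc] using h4
  set T : G → Finset G := fun k => univ.filter fun u => u⁻¹ * (w * k) * u ∈ Subgroup.zpowers (s i) with hT
  have hcard : Nat.card {g : G // w⁻¹ * g ∉ F.ker ∧ g * g ∈ K} ≤
      ∑ k ∈ univ.filter (fun k : G => k ∈ K), (T k).card := by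
    rw [Nat.card_eq_fintype_card, Fintype.card_subtype]
    refine le_trans ?_ card_biUnion_le
    refine Finset.card_le_card_of_injOn (fun g => g⁻¹ * v) ?_ ?_
    · intro g hg
      have hg' : w⁻¹ * g ∉ F.ker ∧ g * g ∈ K := by simpa using hg
      rw [Finset.mem_coe, mem_biUnion]
      refine ⟨w⁻¹ * (g⁻¹ * (w * k0) * g), mem_filter.2 ⟨mem_univ _, hmem g hg'.1 hg'.2⟩, ?_⟩
      rw [hT, mem_filter]
      refine ⟨mem_univ _, ?_⟩
      have e : (g⁻¹ * v)⁻¹ * (w * (w⁻¹ * (g⁻¹ * (w * k0) * g))) * (g⁻¹ * v) = s i ^ j := by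
        rw [hv]
        group
      rw [e]
      exact ⟨j, by simp⟩
    · intro g _ g' _ h
      have h' : g⁻¹ * v = g'⁻¹ * v := h
      exact inv_injective (mul_right_cancel h')
  have hfxT : ∀ k, ((T k).card : ℝ) ≤ orderOf (s i) * fx s (w * k) := by
    intro k
    have hm : (0 : ℝ) < orderOf (s i) := by exact_mod_cast orderOf_pos (s i)
    have h1 : (1 / (orderOf (s i) : ℝ)) * (Nat.card {u : G // u⁻¹ * (w * k) * u ∈ Subgroup.zpowers (s i)} : ℝ) ≤
        fx s (w * k) := by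
      unfold fx
      exact Finset.single_le_sum (f := fun i => (1 / (orderOf (s i) : ℝ)) *
        (Nat.card {u : G // u⁻¹ * (w * k) * u ∈ Subgroup.zpowers (s i)} : ℝ)) (fun i _ => by positivity) (mem_univ i)
    have h2 : Nat.card {u : G // u⁻¹ * (w * k) * u ∈ Subgroup.zpowers (s i)} = (T k).card := by
      rw [Nat.card_eq_fintype_card, Fintype.card_subtype]
    rw [h2] at h1
    calc ((T k).card : ℝ) = orderOf (s i) * ((1 / (orderOf (s i) : ℝ)) * (T k).card) := by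
          field_simp
      _ ≤ _ := mul_le_mul_of_nonneg_left h1 hm.le
  have hsum : ∑ k ∈ univ.filter (fun k : G => k ∈ K), fx s (w * k) = 4 * (Nat.card K : ℝ) := by
    have h1 := hF.2.2 w hwK
    have h2 : ((F w : ℂˣ) : ℂ).re = -1 := by rw [hw]; simp
    rw [h2] at h1
    rw [Finset.sum_filter]
    refine Eq.trans (Eq.trans ?_ h1) (by ring)
    exact Finset.sum_congr rfl fun k _ => by congr
  have hord : (orderOf (s i) : ℝ) ≤ 6 * (Nat.card K : ℝ) := by exact_mod_cast (order_le_G1C hν i).2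
  calc (Nat.card {g : G // w⁻¹ * g ∉ F.ker ∧ g * g ∈ K} : ℝ)
      ≤ ∑ k ∈ univ.filter (fun k : G => k ∈ K), ((T k).card : ℝ) := by exact_mod_cast hcard
    _ ≤ ∑ k ∈ univ.filter (fun k : G => k ∈ K), orderOf (s i) * fx s (w * k) := Finset.sum_le_sum fun k _ => hfxT k
    _ = orderOf (s i) * (4 * (Nat.card K : ℝ)) := by rw [← Finset.mul_sum, hsum]
    _ ≤ 6 * (Nat.card K : ℝ) * (4 * (Nat.card K : ℝ)) := mul_le_mul_of_nonneg_right hord (by positivity)
    _ = 24 * (Nat.card K : ℝ) ^ 2 := by ring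

theorem g1_dat {s : Fin N → G} {K : Subgroup G} [K.Normal] {F : G →* ℂˣ} (hF : FData s K F) (hν : nuK s K = 2) {w : G}
    (hw : F w = -1) {b : ℝ} (hb : 1 ≤ b) (hK : (Nat.card K : ℝ) ≤ b) (hfx : ∀ g, g ∉ K → fx s g ≤ 4 * (Nat.card K : ℝ)) :
    Dat s K F.ker w (60 * b ^ 2) ∧ ∀ x ∈ F.ker, x ∉ K → chi s x = 1 := by
  have hb2 : b ≤ b ^ 2 := by nlinarith
  have hb1 : (1 : ℝ) ≤ b ^ 2 := hb.trans hb2
  have hK0 : (0 : ℝ) ≤ Nat.card K := Nat.cast_nonneg _
  refine ⟨⟨fun k hk => hF.1 k hk, ?_, ?_, ?_, ?_, ?_, ?_, ?_⟩, ?_⟩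
  · rw [MonoidHom.mem_ker, hw]
    exact neg_ne_G1C
  · intro g hg
    rw [MonoidHom.mem_ker, map_mul, map_inv, inv_mul_eq_one] at hg
    exact fd_sq hF (hg.symm.trans hw)
  · intro g hg
    have := hfx g hg
    linarith
  · intro i _
    have h1 : (orderOf (s i) : ℝ) ≤ 6 * (Nat.card K : ℝ) := by exact_mod_cast (order_le_G1C hν i).2
    linarith
  · have h1 := count_G1C hF hν hw
    have h2 : (Nat.card K : ℝ) ^ 2 ≤ b ^ 2 := pow_le_pow_left₀ hK0 hK 2
    linarith
  · have h1 : (Nat.card G : ℝ) ≤ 60 * (Nat.card F.ker : ℝ) := by exact_mod_cast index_G1C hF hν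
    refine h1.trans (mul_le_mul_of_nonneg_right ?_ (Nat.cast_nonneg _))
    linarith
  · linarith
  · intro x hx hxK
    exact chi_eq_one s (fun h => hxK (h ▸ K.one_mem)) (fd_off hF hx hxK)

end Pool.Agent.H6.FF
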