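import Pool.Agent.H6.FF.FamA
import Pool.Agent.H6.FF.Star
import Pool.Agent.H6.FF.RkL
import Pool.Agent.H6.FF.IrrE
import Pool.Agent.H11.GQ.Rep

set_option autoImplicit false

/-!
PROJECT FF (MP_bf82d2_ag, BoundedGroup, note 6093), module G1D.
Case G1: the possible values of `Rk`.
PROOF. `f x = chi s x` on `H` is the trace of `σ` (`exists_chi`) composed with `H.subtype`. `dat_facts D` gives the hypotheses of `g1_fam` for
`τ = tau H w` (`z` is determined by `z = w * w` in `G`) and `K.subgroupOf H`. `hb`: `deg_le_index` for `A.subgroupOf H`, of index `≤ A.index`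
(`Subgroup.relIndex_le_index`...). `hB` with `B = 20 b^5`: `star`. Then `m = mu .. ψ = Ak univ s K H ψ` (`mu_all`, `nuK = 2`),
likewise for `cj ψ`; `Ak_facts`: `m + m' = Rk`, `m, m' ≥ Rk / |K|`. So `fs = 0`: `m m' = 0` gives `Rk ≤ 0`; `fs = 1`: `Rk = 0`; `fs = -1`:
`m = m' ∈ {0, 1}`.
-/

namespace Pool.Agent.H6.FF

open Finset Module
open Pool.Agent.H82.CO (chi quadInv nu genus eps zeta)
open Pool.Agent.H11.GQ (nuK)

variable {G : Type} [Group G] [Fintype G] {N : ℕ}

theorem g1_R {s : Fin N → G} (hp : (List.ofFn s).prod = 1) (hg : Subgroup.closure (Set.range s) = ⊤) (hN : N ≤ 5)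
    (hd : (quadInv s).re ≤ 2) {K H A : Subgroup G} [K.Normal] [H.Normal] [Fintype H] {w : G} {b : ℝ} (hb : 1 ≤ b)
    (D : Dat s K H w b) (hν : nuK s K = 2) (hoff : ∀ x ∈ H, x ∉ K → chi s x = 1)
    (hA : ∀ a ∈ A, ∀ c ∈ A, a * c = c * a) (hAi : (A.index : ℝ) ≤ b)
    (hbig : 20 * b ^ 7 + 1 < ((K.subgroupOf H).index : ℝ)) {z : H} (hz : (z : G) = w * w) {ψ : H → ℂ} (hψ : ψ ∈ irr H) :
    Rk univ s K H ψ = 0 ∨ (Rk univ s K H ψ = 2 ∧ fs (tau H w) z ψ = -1) := by
  obtain ⟨E, _, _, _, σ, hσ, -⟩ := Pool.Agent.H11.GQ.exists_chi s hp hg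
  obtain ⟨z', hz', hzt, hττ, hsqK, hsq', hcomm, hchiτ, hcl⟩ := dat_facts D
  obtain rfl : z' = z := Subtype.ext (hz'.trans hz.symm)
  obtain ⟨σH, hσH⟩ : ∃ σH : Representation ℂ H E, σH = σ.comp H.subtype := ⟨_, rfl⟩
  have hfσ : ∀ x : H, LinearMap.trace ℂ E (σH x) = chi s x := by
    intro x
    rw [hσH]
    exact hσ x
  have hbb : ∀ ψ ∈ irr H, (ψ 1).re ≤ b := by
    intro ψ' h
    have h1 := deg_le_index (mem_irr.1 h) (A.subgroupOf H) (fun a ha c hc => Subtype.ext (hA a ha c hc))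
    have h2 : (A.subgroupOf H).index ≤ A.index := by
      have h3 : A.relIndex H ≤ A.relIndex ⊤ := by
        refine Subgroup.relIndex_le_of_le_right le_top ?_
        rw [Subgroup.relIndex_top_right]
        exact Subgroup.index_ne_zero_of_finite
      rwa [Subgroup.relIndex_top_right] at h3
    have h4 : ((A.subgroupOf H).index : ℝ) ≤ (A.index : ℝ) := by exact_mod_cast h2
    linarith
  have hB : ((1 / (Nat.card H : ℂ)) * ∑ x : H, ((fun x : H => chi s x) x ^ 2 +
      (fun x : H => chi s x) (x * tau H w x * z'))).re ≤ 20 * b ^ 5 := by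
    have h1 := star hN hb D hd
    have h2 : ∑ x : H, ((fun x : H => chi s x) x ^ 2 + (fun x : H => chi s x) (x * tau H w x * z')) =
        ∑ x : H, (chi s x ^ 2 + chi s (x * w * (x * w))) := by
      refine sum_congr rfl fun x _ => ?_
      show chi s (x : G) ^ 2 + chi s ((x * tau H w x * z' : H) : G) = _
      rw [hsq' x]
    have h3 : (0 : ℝ) < Nat.card H := by exact_mod_cast Nat.card_pos
    have h4 : (1 / (Nat.card H : ℂ)) = ((1 / (Nat.card H : ℝ) : ℝ) : ℂ) := by push_cast; rfl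
    rw [h2, h4, Complex.re_ofReal_mul, one_div_mul_eq_div, div_le_iff₀ h3]
    exact h1
  have hbig' : b ^ 2 * (20 * b ^ 5) + 1 < ((K.subgroupOf H).index : ℝ) := by
    have h1 : b ^ 2 * (20 * b ^ 5) = 20 * b ^ 7 := by ring
    rw [h1]
    exact hbig
  obtain ⟨m, m', hm, hm', hcases⟩ := g1_fam (tau H w) z' hzt hττ (K.subgroupOf H) hcomm hsqK σH
    (f := fun x : H => chi s x) hfσ hchiτ
    (fun x hx => hoff x x.2 fun h => hx (Subgroup.mem_subgroupOf.2 h)) hbb hB hbig' hψ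
  have hmu : ∀ ψ' : H → ℂ, mu (K.subgroupOf H) (fun x : H => chi s x - 1) ψ' = Ak univ s K H ψ' := by
    intro ψ'
    rw [mu_all s K H D.KH ψ', hν]
    push_cast
    ring
  obtain ⟨a, a', ha, ha', hsum, h0, hle, hle'⟩ := Ak_facts univ s K H D.KH (mem_irr.1 hψ)
  have e1 : a = m := by
    have h1 : (a : ℂ) = (m : ℂ) := by rw [← ha, ← hmu, ← hm]
    exact_mod_cast h1
  have e2 : a' = m' := by
    have h1 : (a' : ℂ) = (m' : ℂ) := by rw [← ha', ← hmu, ← hm']
    exact_mod_cast h1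
  have hK : (0 : ℝ) < Nat.card K := by exact_mod_cast Nat.card_pos
  have hzero : ∀ c : ℝ, c = 0 → Rk univ s K H ψ / Nat.card K ≤ c → Rk univ s K H ψ = 0 := by
    intro c hc h1
    rw [hc, div_le_iff₀ hK, zero_mul] at h1
    exact le_antisymm h1 h0
  rcases hcases with ⟨-, h2⟩ | ⟨-, h2, -⟩ | ⟨h1, h2, h3⟩
  · left
    rcases Nat.mul_eq_zero.1 h2 with h4 | h4
    · exact hzero a (by rw [e1, h4]; simp) hle
    · exact hzero a' (by rw [e2, h4]; simp) hle'
  · left
    exact hzero a (by rw [e1, h2]; simp) hle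
  · rcases Nat.lt_or_ge m 1 with h4 | h4
    · left
      exact hzero a (by rw [e1, show m = 0 by omega]; simp) hle
    · right
      have h5 : m = 1 := le_antisymm h3 h4
      refine ⟨?_, h1⟩
      rw [← hsum, e1, e2, ← h2, h5]
      norm_num

end Pool.Agent.H6.FF
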