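import Pool.Agent.H6.FF.RkL
import Pool.Agent.H6.FF.Lin
import Pool.Agent.H6.FF.Tau
import Pool.Agent.H6.FF.Ar

set_option autoImplicit false

/-!
PROJECT FF (MP_bf82d2_ag, BoundedGroup, note 6093), module G1E.
Case G1: `H` has index 2, `N = 4`, exactly one `oo` is not `1`.
PROOF. `n = |G|`, `h = |H|`, `S = ∑ (1/ko) (1 - 1/oo)`; `Rk_avg`: `∑ ψ, (ψ 1).re * Rk ψ = n S`. `Rk ψ ≤ 2 ≤ 2 (ψ 1).re` and `Rk θ = 0` for
`θ ∈ lin (K.subgroupOf H)` (`Rk_of_triv`), so `n S ≤ 2 (∑_{ψ ∉ lin} (ψ 1)^2) = 2 (h - index) < 2 h` (`sum_sq`, `lin_card`, `lin_props`).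
`g1_two`: if some `ko K (s i) = 1` then `oo K (s i) = orderOf (s i) ≥ 2` and `S ≥ 1/2`, so `n < 4 h`; `H` is the kernel of `F`, `G / H` is
isomorphic to the image of `F`, which contains `-1`, so it has 2 elements (if it contains `ζ ≠ ± 1` it also contains `-ζ`: at least 4
elements). Otherwise all `ko ≥ 2`, so by `ar_four` all `ko = 2`, all `F (s i) = -1` (order 2 in `ℂˣ`), the image of `F` is `{1, -1}`
(`s` generates). `ko` is the order of `F (s i) = ± 1`.
`g1_four`: Let `ψ 1 = 1`, `Rk ψ = 2`: then `fs = -1`, `ψ` is linear (`lin_of_deg`), so by `fs_lin` `ψ (cc K H (s i) u) = -1` for all `u` and all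
`i` with `ko K (s i) = 2` (`cc` is the square of `u s_i u⁻¹ ∉ H`); `fixs = (1/o) ∑ (-1)^j = 0` (`(-1)^o = 1`). There are four such `i`
(`ar_mix`), so `Rk ≥ 4 (1/h) (1/2) n = 4`, contradiction. So `Rk ψ ≤ (ψ 1).re` for all `ψ`, and `n S ≤ h - index < h`, `S < 1/2`. If some
`ko = 1`: `S ≥ 1/2`. So all `ko = 2`, `N = 4` (`ar_four`); two indices with `oo ≥ 2` would give `S ≥ 1/2`. Not all `oo = 1`:
`genus s = 1 + n (nu - 2) / 2` and `nu - 2 = nu - nuK = S`.
-/

namespace Pool.Agent.H6.FF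

open Finset Module
open Pool.Agent.H82.CO (chi quadInv nu genus eps zeta)
open Pool.Agent.H11.GQ (nuK)

variable {G : Type} [Group G] [Fintype G] {N : ℕ}

private theorem term_nn_G1E (K : Subgroup G) [K.Normal] (g : G) :
    0 ≤ (1 / (ko K g : ℝ)) * (1 - 1 / (oo K g : ℝ)) := by
  obtain ⟨-, hk, ho, -, -⟩ := ko_mul_oo K g
  have h1 : (1 : ℝ) ≤ (oo K g : ℝ) := by exact_mod_cast ho
  have h2 : 1 / (oo K g : ℝ) ≤ 1 := by
    rw [div_le_one (by linarith)]
    exact h1
  exact mul_nonneg (by positivity) (by linarith)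

/-- the average of the ranks -/
private theorem sum_lt_G1E {s : Fin N → G} {K H : Subgroup G} [K.Normal] [H.Normal] [Fintype H] (hKH : K ≤ H)
    (hcomm : ∀ x y : H, x * y * x⁻¹ * y⁻¹ ∈ K.subgroupOf H) {c : ℝ} (hc : 0 < c)
    (hle : ∀ ψ ∈ irr H, Rk univ s K H ψ ≤ c * (ψ 1).re) :
    (Nat.card G : ℝ) * ∑ i, (1 / (ko K (s i) : ℝ)) * (1 - 1 / (oo K (s i) : ℝ)) < c * Nat.card H := by
  classical
  rw [← Rk_avg univ s K H hKH]
  have h1 : ∀ ψ ∈ irr H, (ψ 1).re * Rk univ s K H ψ ≤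
      c * ((ψ 1).re ^ 2 - if ψ ∈ lin (K.subgroupOf H) then 1 else 0) := by
    intro ψ hψ
    by_cases hl : ψ ∈ lin (K.subgroupOf H)
    · obtain ⟨⟨h2, -, -⟩, h3, -⟩ := lin_props hl
      rw [if_pos hl, h2, Rk_of_triv univ s K H hKH]
      · simp
      · intro k hk
        rw [h2]
        exact h3 k (Subgroup.mem_subgroupOf.2 hk)
    · rw [if_neg hl]
      have h4 : 0 ≤ (ψ 1).re := (norm_nonneg _).trans (norm_le_of_irr (mem_irr.1 hψ) 1)
      have h5 := mul_le_mul_of_nonneg_left (hle ψ hψ) h4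
      linarith
  have h2 := sum_le_sum h1
  rw [← mul_sum, sum_sub_distrib, sum_sq, ← sum_filter, sum_const, nsmul_eq_mul, mul_one] at h2
  have h3 : (irr H).filter (fun ψ => ψ ∈ lin (K.subgroupOf H)) = lin (K.subgroupOf H) := by
    ext ψ
    rw [mem_filter]
    exact ⟨fun h => h.2, fun h => ⟨mem_irr.2 (lin_props h).2.2, h⟩⟩
  rw [h3, lin_card _ hcomm] at h2
  have h4 : 0 < (K.subgroupOf H).index := Nat.pos_of_ne_zero Subgroup.FiniteIndex.index_ne_zero
  have h5 : (0 : ℝ) < ((K.subgroupOf H).index : ℝ) := by exact_mod_cast h4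
  have h6 := mul_pos hc h5
  linarith

private theorem half_G1E {s : Fin N → G} {K : Subgroup G} [K.Normal] (hs : ∀ i, s i ≠ 1) {i : Fin N}
    (hi : ko K (s i) = 1) : 1 / 2 ≤ ∑ i, (1 / (ko K (s i) : ℝ)) * (1 - 1 / (oo K (s i) : ℝ)) := by
  have h1 : 1 / 2 ≤ (1 / (ko K (s i) : ℝ)) * (1 - 1 / (oo K (s i) : ℝ)) := by
    obtain ⟨h2, -, h3, -, -⟩ := ko_mul_oo K (s i)
    rw [hi, one_mul] at h2
    have h4 : orderOf (s i) ≠ 1 := fun h => hs i (orderOf_eq_one_iff.1 h)
    have h5 : 2 ≤ oo K (s i) := by omega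
    have h6 : (2 : ℝ) ≤ (oo K (s i) : ℝ) := by exact_mod_cast h5
    have h7 : 1 / (oo K (s i) : ℝ) ≤ 1 / 2 := one_div_le_one_div_of_le (by norm_num) h6
    rw [hi]
    norm_num at h7 ⊢
    linarith
  exact h1.trans (single_le_sum (f := fun i => (1 / (ko K (s i) : ℝ)) * (1 - 1 / (oo K (s i) : ℝ)))
    (fun j _ => term_nn_G1E K (s j)) (mem_univ i))

private theorem neg_ne_G1E : (-1 : ℂˣ) ≠ 1 := by
  intro h
  have h1 := congrArg Units.val h
  norm_num at h1

private theorem index_G1E {H : Subgroup G} {F : G →* ℂˣ} (hker : ∀ g, g ∈ H ↔ F g = 1) {w : G} (hw : F w = -1) :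
    Nat.card G = Nat.card F.range * Nat.card H ∧ 2 ∣ Nat.card F.range ∧ 0 < Nat.card F.range := by
  have h1 : H = F.ker := by
    ext g
    rw [hker, MonoidHom.mem_ker]
  refine ⟨?_, ?_, Nat.card_pos⟩
  · rw [← Subgroup.index_ker, ← h1, Subgroup.index_mul_card]
  · have h2 : orderOf (⟨-1, MonoidHom.mem_range.2 ⟨w, hw⟩⟩ : F.range) = 2 := by
      rw [Subgroup.orderOf_mk]
      have : Fact (Nat.Prime 2) := ⟨Nat.prime_two⟩
      exact orderOf_eq_prime (by norm_num) neg_ne_G1E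
    rw [← h2]
    exact orderOf_dvd_natCard _

omit [Fintype G] in
private theorem nuK_G1E {s : Fin N → G} {K : Subgroup G} [K.Normal] (hν : nuK s K = 2) :
    ∑ i, (1 - 1 / (ko K (s i) : ℝ)) = 2 := hν

theorem g1_two {s : Fin N → G} {K H : Subgroup G} [K.Normal] [H.Normal] [Fintype H] {F : G →* ℂˣ}
    (hker : ∀ g, g ∈ H ↔ F g = 1) {w : G} (hw : F w = -1) (hord : ∀ i, orderOf (F (s i)) = ko K (s i)) (hKH : K ≤ H)
    (hν : nuK s K = 2) (hs : ∀ i, s i ≠ 1) (hN : 4 ≤ N) (hg : Subgroup.closure (Set.range s) = ⊤)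
    (hcomm : ∀ x y : H, x * y * x⁻¹ * y⁻¹ ∈ K.subgroupOf H) {z : H}
    (hR : ∀ ψ ∈ irr H, Rk univ s K H ψ = 0 ∨ (Rk univ s K H ψ = 2 ∧ fs (tau H w) z ψ = -1)) :
    Nat.card G = 2 * Nat.card H ∧ ∀ i, ko K (s i) = 1 ∨ ko K (s i) = 2 := by
  obtain ⟨hi1, hi2, hi3⟩ := index_G1E hker hw
  have hHpos : 0 < Nat.card H := Nat.card_pos
  have main : Nat.card F.range = 2 := by
    by_cases h1 : ∃ i, ko K (s i) = 1
    · obtain ⟨i, hi⟩ := h1
      have h2 := half_G1E hs hi
      have h3 : ∀ ψ ∈ irr H, Rk univ s K H ψ ≤ 2 * (ψ 1).re := by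
        intro ψ hψ
        obtain ⟨d, hd1, hd⟩ := deg_of_irr (mem_irr.1 hψ)
        have hd2 : (1 : ℝ) ≤ (ψ 1).re := by
          rw [hd, Complex.natCast_re]
          exact_mod_cast hd1
        rcases hR ψ hψ with h | ⟨h, -⟩ <;> rw [h] <;> linarith
      have h4 := sum_lt_G1E hKH hcomm (by norm_num : (0 : ℝ) < 2) h3
      have h5 : (0 : ℝ) < Nat.card G := by
        have : 0 < Nat.card G := Nat.card_pos
        exact_mod_cast this
      have h6 : (Nat.card G : ℝ) * (1 / 2) < 2 * Nat.card H :=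
        (mul_le_mul_of_nonneg_left h2 h5.le).trans_lt h4
      have h7 : (Nat.card G : ℝ) < 4 * Nat.card H := by linarith
      have h8 : Nat.card G < 4 * Nat.card H := by exact_mod_cast h7
      rw [hi1] at h8
      have h9 : Nat.card F.range < 4 := Nat.lt_of_mul_lt_mul_right h8
      omega
    · push Not at h1
      have h2 : ∀ i, 2 ≤ ko K (s i) := by
        intro i
        have h3 := (ko_mul_oo K (s i)).2.1
        have h4 := h1 i
        omega
      obtain ⟨-, h3⟩ := ar_four hN (fun i => ko K (s i)) h2 (nuK_G1E hν)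
      have h4 : ∀ i, F (s i) ^ 2 = 1 := by
        intro i
        have h5 := pow_orderOf_eq_one (F (s i))
        rw [hord i, h3 i] at h5
        exact h5
      have h5 : ∀ g, F g ^ 2 = 1 := by
        intro g
        have h6 : Subgroup.closure (Set.range s) ≤ ((powMonoidHom 2).comp F).ker := by
          rw [Subgroup.closure_le]
          rintro _ ⟨i, rfl⟩
          exact h4 i
        have h7 : g ∈ Subgroup.closure (Set.range s) := by
          rw [hg]
          exact Subgroup.mem_top g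
        exact h6 h7
      have h6 : ∀ g, F g = 1 ∨ F g = -1 := by
        intro g
        have h7 : ((F g : ℂˣ) : ℂ) ^ 2 = 1 := by
          have := congrArg Units.val (h5 g)
          simpa using this
        have h8 : ((F g : ℂˣ) : ℂ) = 1 ∨ ((F g : ℂˣ) : ℂ) = -1 := mul_self_eq_one_iff.1 (by rw [← sq]; exact h7)
        rcases h8 with h8 | h8
        · left
          exact Units.ext h8
        · right
          exact Units.ext (by simpa using h8)
      have h7 : (F.range : Set ℂˣ) ⊆ {1, -1} := by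
        rintro _ ⟨g, rfl⟩
        rcases h6 g with h | h
        · left; exact h
        · right; exact h
      have h8 : Nat.card F.range ≤ 2 := by
        have h9 : Nat.card F.range = (F.range : Set ℂˣ).ncard := Nat.card_coe_set_eq _
        rw [h9]
        refine (Set.ncard_le_ncard h7 (Set.toFinite _)).trans ?_
        exact Set.ncard_pair neg_ne_G1E.symm |>.le
      omega
  refine ⟨by rw [hi1, main], fun i => ?_⟩
  have h1 : orderOf (⟨F (s i), MonoidHom.mem_range.2 ⟨s i, rfl⟩⟩ : F.range) ∣ Nat.card F.range := orderOf_dvd_natCard _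
  rw [Subgroup.orderOf_mk, hord i, main] at h1
  exact (Nat.dvd_prime Nat.prime_two).1 h1

/-- a linear character with `ψ c = -1` has no fixed part -/
private theorem fixs_lin_G1E {H : Type} [Group H] {θ : H → ℂ} (hθ : IsLin θ) {c : H} (hc : θ c = -1) {o : ℕ} (ho : c ^ o = 1) :
    fixs θ c o = 0 := by
  have h1 : ∀ j : ℕ, θ (c ^ j) = (-1) ^ j := by
    intro j
    induction j with
    | zero => rw [pow_zero, pow_zero, hθ.1]
    | succ j ih => rw [pow_succ, pow_succ, hθ.2.1, ih, hc]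
  have h2 : ((-1 : ℂ)) ^ o = 1 := by rw [← h1, ho, hθ.1]
  have h3 : ∑ j ∈ range o, ((-1 : ℂ)) ^ j = 0 := by
    have h4 := geom_sum_mul (-1 : ℂ) o
    rw [h2, sub_self] at h4
    rcases mul_eq_zero.1 h4 with h5 | h5
    · exact h5
    · norm_num at h5
  unfold fixs
  rw [sum_congr rfl fun j _ => h1 j, h3, mul_zero]

/-- the terms of `Rk` are not negative -/
private theorem fixs_le_G1E {H : Type} [Group H] {θ : H → ℂ} (hθ : IsLin θ) (c : H) (o : ℕ) :
    0 ≤ (θ 1 - fixs θ c o).re := by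
  have h1 : ‖fixs θ c o‖ ≤ 1 := by
    unfold fixs
    rw [norm_mul]
    have h2 : ‖∑ j ∈ range o, θ (c ^ j)‖ ≤ o := by
      refine (norm_sum_le _ _).trans ?_
      rw [sum_congr rfl fun j _ => hθ.2.2 (c ^ j), sum_const, card_range, nsmul_eq_mul, mul_one]
    rcases Nat.eq_zero_or_pos o with ho | ho
    · subst ho
      simp
    · have ho' : (0 : ℝ) < o := by exact_mod_cast ho
      have h3 : ‖(1 / (o : ℂ))‖ = 1 / (o : ℝ) := by simp
      rw [h3]
      calc 1 / (o : ℝ) * ‖∑ j ∈ range o, θ (c ^ j)‖ ≤ 1 / (o : ℝ) * o :=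
            mul_le_mul_of_nonneg_left h2 (by positivity)
        _ = 1 := by field_simp
  have h2 : (fixs θ c o).re ≤ ‖fixs θ c o‖ := Complex.re_le_norm _
  rw [hθ.1, Complex.sub_re, Complex.one_re]
  linarith

private theorem Rk_le_deg_G1E {s : Fin N → G} {K H : Subgroup G} [K.Normal] [H.Normal] [Fintype H] {F : G →* ℂˣ}
    (hker : ∀ g, g ∈ H ↔ F g = 1) {w : G} (hw : F w = -1) (hord : ∀ i, orderOf (F (s i)) = ko K (s i)) (hKH : K ≤ H)
    (hν : nuK s K = 2) {z : H} (hz : (z : G) = w * w)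
    (hR : ∀ ψ ∈ irr H, Rk univ s K H ψ = 0 ∨ (Rk univ s K H ψ = 2 ∧ fs (tau H w) z ψ = -1))
    (hcard : Nat.card G = 2 * Nat.card H) (hko : ∀ i, ko K (s i) = 1 ∨ ko K (s i) = 2) :
    ∀ ψ ∈ irr H, Rk univ s K H ψ ≤ 1 * (ψ 1).re := by
  classical
  intro ψ hψ
  obtain ⟨d, hd1, hd⟩ := deg_of_irr (mem_irr.1 hψ)
  have hd2 : (ψ 1).re = d := by rw [hd, Complex.natCast_re]
  rw [one_mul, hd2]
  rcases hR ψ hψ with h | ⟨h, hfs⟩
  · rw [h]; positivity
  rcases Nat.lt_or_ge d 2 with h2 | h2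
  swap
  · rw [h]
    exact_mod_cast h2
  exfalso
  have hd3 : d = 1 := by omega
  have hψ1 : ψ 1 = 1 := by rw [hd, hd3]; simp
  have hl : IsLin ψ := lin_of_deg (mem_irr.1 hψ) hψ1
  have key : ∀ i, ko K (s i) = 2 → ∀ u : G, (ψ 1 - fixs ψ (cc K H (s i) u) (oo K (s i))).re = 1 := by
    intro i hi u
    have h3 : F (s i) = -1 := by
      have h4 := hord i
      rw [hi] at h4
      have h5 : F (s i) ^ 2 = 1 := by rw [← h4]; exact pow_orderOf_eq_one _
      have h7 : ((F (s i) : ℂˣ) : ℂ) ^ 2 = 1 := by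
        have := congrArg Units.val h5
        simpa using this
      have h8 : ((F (s i) : ℂˣ) : ℂ) = 1 ∨ ((F (s i) : ℂˣ) : ℂ) = -1 := mul_self_eq_one_iff.1 (by rw [← sq]; exact h7)
      rcases h8 with h8 | h8
      · exfalso
        have h9 : F (s i) = 1 := Units.ext h8
        rw [h9, orderOf_one] at h4
        omega
      · exact Units.ext (by simpa using h8)
    have h4 : w⁻¹ * (u * s i * u⁻¹) ∈ H := by
      rw [hker, map_mul, map_mul, map_mul, map_inv, map_inv, hw, h3]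
      have h5 : F u * (-1) * (F u)⁻¹ = (-1 : ℂˣ) := by
        rw [mul_comm (F u) (-1), mul_assoc, mul_inv_cancel, mul_one]
      rw [h5]
      exact inv_mul_cancel _
    have h5 : ((cc K H (s i) u : H) : G) = u * s i * u⁻¹ * (u * s i * u⁻¹) := by
      have h6 := (cc_pow K H hKH (s i) u 1).1
      rw [pow_one, mul_one, hi] at h6
      rw [h6, sq]
      group
    have h6 := fs_lin H w z hz hl hfs (cc K H (s i) u) (u * s i * u⁻¹) h4 h5
    have h7 := fixs_lin_G1E hl h6 (cc_pow K H hKH (s i) u 0).2.2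
    rw [h7, hψ1]
    simp
  have hHpos : (0 : ℝ) < Nat.card H := by
    have : 0 < Nat.card H := Nat.card_pos
    exact_mod_cast this
  have hGpos : (Nat.card G : ℝ) = 2 * Nat.card H := by exact_mod_cast hcard
  have hge : 4 ≤ Rk univ s K H ψ := by
    unfold Rk
    have h3 : ∑ i ∈ univ.filter (fun i => ko K (s i) = 2), (Nat.card H : ℝ) ≤
        ∑ i, (1 / (ko K (s i) : ℝ)) * ∑ u : G, (ψ 1 - fixs ψ (cc K H (s i) u) (oo K (s i))).re := by
      have h4 : ∀ i ∈ univ.filter (fun i => ko K (s i) = 2), (Nat.card H : ℝ) =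
          (1 / (ko K (s i) : ℝ)) * ∑ u : G, (ψ 1 - fixs ψ (cc K H (s i) u) (oo K (s i))).re := by
        intro i hi
        have hi2 := (mem_filter.1 hi).2
        rw [sum_congr rfl fun u _ => key i hi2 u, sum_const, nsmul_eq_mul, mul_one, Finset.card_univ,
          ← Nat.card_eq_fintype_card, hGpos, hi2]
        push_cast
        ring
      rw [sum_congr rfl h4]
      refine sum_le_sum_of_subset_of_nonneg (filter_subset _ _) fun i _ _ => ?_
      exact mul_nonneg (by positivity) (sum_nonneg fun u _ => fixs_le_G1E hl _ _)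
    rw [sum_const, nsmul_eq_mul, ar_mix (fun i => ko K (s i)) hko (nuK_G1E hν)] at h3
    rw [div_mul_eq_mul_div, one_mul, le_div_iff₀ hHpos]
    exact_mod_cast h3
  linarith

theorem g1_four {s : Fin N → G} {K H : Subgroup G} [K.Normal] [H.Normal] [Fintype H] {F : G →* ℂˣ}
    (hker : ∀ g, g ∈ H ↔ F g = 1) {w : G} (hw : F w = -1) (hord : ∀ i, orderOf (F (s i)) = ko K (s i)) (hKH : K ≤ H)
    (hν : nuK s K = 2) (hs : ∀ i, s i ≠ 1) (hN : 4 ≤ N) (hgen : 1 < genus s)
    (hcomm : ∀ x y : H, x * y * x⁻¹ * y⁻¹ ∈ K.subgroupOf H) {z : H} (hz : (z : G) = w * w)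
    (hR : ∀ ψ ∈ irr H, Rk univ s K H ψ = 0 ∨ (Rk univ s K H ψ = 2 ∧ fs (tau H w) z ψ = -1))
    (hcard : Nat.card G = 2 * Nat.card H) (hko : ∀ i, ko K (s i) = 1 ∨ ko K (s i) = 2) :
    N = 4 ∧ (∀ i, ko K (s i) = 2) ∧ ∃ i0, 2 ≤ oo K (s i0) ∧ ∀ i, i ≠ i0 → oo K (s i) = 1 := by
  classical
  have h1 := sum_lt_G1E hKH hcomm one_pos (Rk_le_deg_G1E hker hw hord hKH hν hz hR hcard hko)
  have hHpos : (0 : ℝ) < Nat.card H := by
    have : 0 < Nat.card H := Nat.card_pos
    exact_mod_cast this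
  have hGr : (Nat.card G : ℝ) = 2 * Nat.card H := by exact_mod_cast hcard
  rw [hGr, one_mul] at h1
  have h2 : ∑ i, (1 / (ko K (s i) : ℝ)) * (1 - 1 / (oo K (s i) : ℝ)) < 1 / 2 := by
    by_contra hcon
    push Not at hcon
    have h3 := mul_le_mul_of_nonneg_left hcon hHpos.le
    linarith
  have h3 : ∀ i, ko K (s i) = 2 := by
    intro i
    rcases hko i with h | h
    · exact absurd (half_G1E hs h) (not_le.2 h2)
    · exact h
  obtain ⟨h4, -⟩ := ar_four hN (fun i => ko K (s i)) (fun i => (h3 i).ge) (nuK_G1E hν)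
  refine ⟨h4, h3, ?_⟩
  have hterm : ∀ i, 2 ≤ oo K (s i) → 1 / 4 ≤ (1 / (ko K (s i) : ℝ)) * (1 - 1 / (oo K (s i) : ℝ)) := by
    intro i hi
    have h6 : (2 : ℝ) ≤ (oo K (s i) : ℝ) := by exact_mod_cast hi
    have h7 : 1 / (oo K (s i) : ℝ) ≤ 1 / 2 := one_div_le_one_div_of_le (by norm_num) h6
    rw [h3 i]
    push_cast
    linarith
  have h5 : ∃ i0, 2 ≤ oo K (s i0) := by
    by_contra hcon
    push Not at hcon
    have h6 : ∀ i, orderOf (s i) = 2 := by
      intro i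
      obtain ⟨h7, -, h8, -, -⟩ := ko_mul_oo K (s i)
      have h9 := hcon i
      have h10 : oo K (s i) = 1 := by omega
      rw [h3 i, h10] at h7
      omega
    unfold genus at hgen
    rw [sum_congr rfl fun i _ => by rw [h6 i], sum_const, Finset.card_univ, Fintype.card_fin, nsmul_eq_mul, h4] at hgen
    norm_num at hgen
  obtain ⟨i0, hi0⟩ := h5
  refine ⟨i0, hi0, fun i hi => ?_⟩
  by_contra hcon
  have h6 : 2 ≤ oo K (s i) := by
    have h7 := (ko_mul_oo K (s i)).2.2.1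
    omega
  have h8 : ∑ j ∈ ({i, i0} : Finset (Fin N)), (1 / (ko K (s j) : ℝ)) * (1 - 1 / (oo K (s j) : ℝ)) ≤
      ∑ j, (1 / (ko K (s j) : ℝ)) * (1 - 1 / (oo K (s j) : ℝ)) :=
    sum_le_sum_of_subset_of_nonneg (subset_univ _) fun j _ _ => term_nn_G1E K (s j)
  rw [sum_pair hi] at h8
  have h9 := hterm i h6
  have h10 := hterm i0 hi0
  linarith

end Pool.Agent.H6.FF
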