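import Mathlib

set_option autoImplicit false

/-!
PROJECT FF (MP_bf82d2_ag, BoundedGroup, note 6093), module Grp.
Group theory: four elements with product `1`, three of them involutions.
PROOF. `grp_nf`: `i0 = 3`: `x, y, z = s 0, s 1, s 2`; `i0 = 0`: `s 1, s 2, s 3`; `i0 = 1`: `s 2, s 3, s 0`; `i0 = 2`: `s 3, s 0, s 1`
(`fin_cases i0`, rotate the relation `s 0 * s 1 * s 2 * s 3 = 1`); `s i0` is in the subgroup generated by the other three.
`grp_comm`: in `Q = G / P` the involutions `x, y, z` satisfy `(x y z)^2 = 1`, so `a = x y` and `b = y z` commute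
(`a b = x z`, `b a = y (z x y)`, `(z x y)^2 = 1` (a conjugate of `x y z`), so `z x y = y x z`, `b a = x z`), and `x a x = a⁻¹`, `x b x = b⁻¹`
(`x y z = z y x`). The subgroup `Q0` generated by `a`, `b` is abelian, inverted by `x`, normalized by `x, y, z` and `Q0 ∪ x Q0` is all of `Q`
(it is closed under multiplication by `x`, `y = x a`, `z = x a b`). `a, b ∈ H / P`, `x ∉ H / P`, so `H / P = Q0`, abelian, and the elements outside
`H` are `x q`, `(x q)^2 = (x q x) q = 1`.
`grp_count`: for `g ∉ H`, `a = x y`, `b = y z` (in `H`): the four squares `g^2, (g a)^2, (g b)^2, (g a b)^2` are `1` or `c`; their product does not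
depend on `g`: with `q (u) = (g⁻¹ u g) u` (`= g⁻² (g u)²`, so central, `1` or `c`) for `u ∈ H` one has `q (a b) = q a * q b * (a⁻¹ b⁻¹ a b)`, so the
product is `a⁻¹ b⁻¹ a b`. For `g = x`: `x^2 = 1`, `(x a)^2 = y^2 = 1`, `(x b)^2 = (x y z)^2 = c`, `(x a b)^2 = z^2 = 1`: the product is `c`. So for
every `g ∉ H` an odd number of the four squares is `1`, so at least one, and three for `g = x`. Sum over `g ∉ H` (`|H|` elements; `g ↦ g a`
etc. are bijections of the complement of `H`): `4 * #{g ∉ H, g^2 = 1} ≥ |H| + 2`.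
-/

namespace Pool.Agent.H6.FF

variable {G : Type} [Group G]

private theorem nf_aux_grp (s : Fin 4 → G) (hg : Subgroup.closure (Set.range s) = ⊤) (i0 j1 j2 j3 : Fin 4)
    (hrel : s j1 * s j2 * s j3 * s i0 = 1) (hall : ∀ i, i = i0 ∨ i = j1 ∨ i = j2 ∨ i = j3)
    (h1 : s j1 * s j1 = 1) (h2 : s j2 * s j2 = 1) (h3 : s j3 * s j3 = 1) :
    ∃ x y z : G, x * x = 1 ∧ y * y = 1 ∧ z * z = 1 ∧ (∃ i, x = s i) ∧ (∃ i, y = s i) ∧ (∃ i, z = s i) ∧
      x * y * z = (s i0)⁻¹ ∧ Subgroup.closure {x, y, z} = ⊤ := by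
  have hxyz : s j1 * s j2 * s j3 = (s i0)⁻¹ := eq_inv_of_mul_eq_one_left hrel
  refine ⟨s j1, s j2, s j3, h1, h2, h3, ⟨j1, rfl⟩, ⟨j2, rfl⟩, ⟨j3, rfl⟩, hxyz, ?_⟩
  rw [eq_top_iff, ← hg, Subgroup.closure_le]
  rintro g ⟨i, rfl⟩
  have m1 : s j1 ∈ Subgroup.closure ({s j1, s j2, s j3} : Set G) := Subgroup.subset_closure (by simp)
  have m2 : s j2 ∈ Subgroup.closure ({s j1, s j2, s j3} : Set G) := Subgroup.subset_closure (by simp)
  have m3 : s j3 ∈ Subgroup.closure ({s j1, s j2, s j3} : Set G) := Subgroup.subset_closure (by simp)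
  rcases hall i with rfl | rfl | rfl | rfl
  · have h4 : (s j1 * s j2 * s j3)⁻¹ ∈ Subgroup.closure ({s j1, s j2, s j3} : Set G) :=
      Subgroup.inv_mem _ (Subgroup.mul_mem _ (Subgroup.mul_mem _ m1 m2) m3)
    rw [hxyz, inv_inv] at h4
    exact h4
  · exact m1
  · exact m2
  · exact m3

theorem grp_nf (s : Fin 4 → G) (hp : (List.ofFn s).prod = 1) (hg : Subgroup.closure (Set.range s) = ⊤) (i0 : Fin 4)
    (h : ∀ i, i ≠ i0 → s i * s i = 1) :
    ∃ x y z : G, x * x = 1 ∧ y * y = 1 ∧ z * z = 1 ∧ (∃ i, x = s i) ∧ (∃ i, y = s i) ∧ (∃ i, z = s i) ∧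
      x * y * z = (s i0)⁻¹ ∧ Subgroup.closure {x, y, z} = ⊤ := by
  have hp4 : s 0 * s 1 * s 2 * s 3 = 1 := by
    rw [← hp]
    simp [List.ofFn_succ, mul_assoc]
  have r1 : s 1 * s 2 * s 3 * s 0 = 1 := by
    have h1 : s 0 * (s 1 * s 2 * s 3) = 1 := by rw [← hp4]; simp only [mul_assoc]
    exact mul_eq_one_comm.1 h1
  have r2 : s 2 * s 3 * s 0 * s 1 = 1 := by
    have h1 : s 1 * (s 2 * s 3 * s 0) = 1 := by rw [← r1]; simp only [mul_assoc]
    exact mul_eq_one_comm.1 h1
  have r3 : s 3 * s 0 * s 1 * s 2 = 1 := by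
    have h1 : s 2 * (s 3 * s 0 * s 1) = 1 := by rw [← r2]; simp only [mul_assoc]
    exact mul_eq_one_comm.1 h1
  fin_cases i0
  · exact nf_aux_grp s hg 0 1 2 3 r1 (by decide) (h 1 (by decide)) (h 2 (by decide)) (h 3 (by decide))
  · exact nf_aux_grp s hg 1 2 3 0 r2 (by decide) (h 2 (by decide)) (h 3 (by decide)) (h 0 (by decide))
  · exact nf_aux_grp s hg 2 3 0 1 r3 (by decide) (h 3 (by decide)) (h 0 (by decide)) (h 1 (by decide))
  · exact nf_aux_grp s hg 3 0 1 2 hp4 (by decide) (h 0 (by decide)) (h 1 (by decide)) (h 2 (by decide))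

/-- The structure of a group generated by three involutions `X, Y, Z` with `(X Y Z)^2 = 1`. -/
private theorem three_grp {Q : Type} [Group Q] {X Y Z : Q} (hX : X * X = 1) (hY : Y * Y = 1) (hZ : Z * Z = 1)
    (hgen : Subgroup.closure {X, Y, Z} = ⊤) (h : X * Y * Z * (X * Y * Z) = 1) :
    (∀ q ∈ Subgroup.closure ({X * Y, Y * Z} : Set Q), ∀ r ∈ Subgroup.closure ({X * Y, Y * Z} : Set Q), q * r = r * q) ∧
    (∀ q ∈ Subgroup.closure ({X * Y, Y * Z} : Set Q), X * q * X = q⁻¹) ∧
    ∀ q : Q, q ∈ Subgroup.closure ({X * Y, Y * Z} : Set Q) ∨ X * q ∈ Subgroup.closure ({X * Y, Y * Z} : Set Q) := by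
  have iX : X⁻¹ = X := inv_eq_of_mul_eq_one_left hX
  have iY : Y⁻¹ = Y := inv_eq_of_mul_eq_one_left hY
  have iZ : Z⁻¹ = Z := inv_eq_of_mul_eq_one_left hZ
  have h1 : X * Y * Z = Z * Y * X := by
    have h2 : X * Y * Z = (X * Y * Z)⁻¹ := eq_inv_of_mul_eq_one_left h
    rw [mul_inv_rev, mul_inv_rev, iX, iY, iZ, ← mul_assoc] at h2
    exact h2
  set A := X * Y with hA
  set B := Y * Z with hB
  have hAB : A * B = X * Z := by
    rw [hA, hB]
    calc X * Y * (Y * Z) = X * (Y * Y) * Z := by simp only [mul_assoc]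
      _ = X * Z := by rw [hY, mul_one]
  have hBA : B * A = X * Z := by
    have e1 : Y * Z * X = X * Z * Y := by
      calc Y * Z * X = X * (X * Y * Z) * X := by
            rw [← mul_assoc, ← mul_assoc, hX, one_mul]
        _ = X * (Z * Y * X) * X := by rw [h1]
        _ = X * Z * Y * (X * X) := by simp only [mul_assoc]
        _ = X * Z * Y := by rw [hX, mul_one]
    rw [hA, hB]
    calc Y * Z * (X * Y) = Y * Z * X * Y := by simp only [mul_assoc]
      _ = X * Z * Y * Y := by rw [e1]
      _ = X * Z * (Y * Y) := by simp only [mul_assoc]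
      _ = X * Z := by rw [hY, mul_one]
  have hXA : X * A * X = A⁻¹ := by
    rw [hA, mul_inv_rev, iX, iY, ← mul_assoc, hX, one_mul]
  have hXB : X * B * X = B⁻¹ := by
    rw [hB, mul_inv_rev, iY, iZ]
    calc X * (Y * Z) * X = (X * Y * Z) * X := by simp only [mul_assoc]
      _ = Z * Y * X * X := by rw [h1]
      _ = Z * Y * (X * X) := by simp only [mul_assoc]
      _ = Z * Y := by rw [hX, mul_one]
  have hcomm : ∀ q ∈ Subgroup.closure ({A, B} : Set Q), ∀ r ∈ Subgroup.closure ({A, B} : Set Q), q * r = r * q := by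
    have hAq : ∀ q ∈ Subgroup.closure ({A, B} : Set Q), A * q = q * A ∧ B * q = q * B := by
      intro q hq
      induction hq using Subgroup.closure_induction with
      | mem u hu =>
        rcases hu with hu | hu
        · rw [hu]
          exact ⟨rfl, by rw [hAB, hBA]⟩
        · rw [Set.mem_singleton_iff.1 hu]
          exact ⟨by rw [hAB, hBA], rfl⟩
      | one => simp
      | mul u v _ _ hu hv =>
        constructor
        · rw [← mul_assoc, hu.1, mul_assoc, hv.1, mul_assoc]
        · rw [← mul_assoc, hu.2, mul_assoc, hv.2, mul_assoc]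
      | inv u _ hu =>
        exact ⟨(Commute.inv_right hu.1), (Commute.inv_right hu.2)⟩
    intro q hq r hr
    induction hq using Subgroup.closure_induction with
    | mem u hu =>
      rcases hu with hu | hu
      · rw [hu]
        exact (hAq r hr).1
      · rw [Set.mem_singleton_iff.1 hu]
        exact (hAq r hr).2
    | one => simp
    | mul u v _ _ hu hv => rw [mul_assoc, hv, ← mul_assoc, hu, mul_assoc]
    | inv u _ hu => exact (Commute.inv_left hu)
  have hinv : ∀ q ∈ Subgroup.closure ({A, B} : Set Q), X * q * X = q⁻¹ := by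
    intro q hq
    induction hq using Subgroup.closure_induction with
    | mem u hu =>
      rcases hu with hu | hu
      · rw [hu]
        exact hXA
      · rw [Set.mem_singleton_iff.1 hu]
        exact hXB
    | one => simp [hX]
    | mul u v hu' hv' hu hv =>
      calc X * (u * v) * X = (X * u * X) * (X * v * X) := by
            rw [show (X * u * X) * (X * v * X) = X * u * (X * X) * v * X by simp only [mul_assoc], hX]
            simp only [mul_assoc, one_mul]
        _ = u⁻¹ * v⁻¹ := by rw [hu, hv]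
        _ = (v * u)⁻¹ := by rw [mul_inv_rev]
        _ = (u * v)⁻¹ := by rw [hcomm v hv' u hu']
    | inv u _ hu =>
      have h5 : X * u⁻¹ * X = (X * u * X)⁻¹ := by
        rw [mul_inv_rev, mul_inv_rev, iX, ← mul_assoc]
      rw [h5, hu]
  refine ⟨hcomm, hinv, ?_⟩
  have mA : A ∈ Subgroup.closure ({A, B} : Set Q) := Subgroup.subset_closure (by simp)
  have mB : B ∈ Subgroup.closure ({A, B} : Set Q) := Subgroup.subset_closure (by simp)
  have hYA : Y = X * A := by
    rw [hA, ← mul_assoc, hX, one_mul]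
  have hZA : Z = X * (A * B) := by
    rw [hAB, ← mul_assoc, hX, one_mul]
  have step : ∀ u ∈ Subgroup.closure ({A, B} : Set Q), ∀ q : Q,
      (q ∈ Subgroup.closure ({A, B} : Set Q) ∨ X * q ∈ Subgroup.closure ({A, B} : Set Q)) →
      ((X * u) * q ∈ Subgroup.closure ({A, B} : Set Q) ∨ X * ((X * u) * q) ∈ Subgroup.closure ({A, B} : Set Q)) := by
    intro u hu q hq
    rcases hq with hq | hq
    · right
      have e : X * ((X * u) * q) = u * q := by
        rw [← mul_assoc, ← mul_assoc, hX, one_mul]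
      rw [e]
      exact Subgroup.mul_mem _ hu hq
    · left
      have e : (X * u) * q = (X * u * X) * (X * q) := by
        rw [show (X * u * X) * (X * q) = X * u * (X * X) * q by simp only [mul_assoc], hX, mul_one]
      rw [e, hinv u hu]
      exact Subgroup.mul_mem _ (Subgroup.inv_mem _ hu) hq
  intro q
  have hq : q ∈ Subgroup.closure ({X, Y, Z} : Set Q) := by rw [hgen]; trivial
  have hmul : ∀ w ∈ ({X, Y, Z} : Set Q), ∀ q : Q,
      (q ∈ Subgroup.closure ({A, B} : Set Q) ∨ X * q ∈ Subgroup.closure ({A, B} : Set Q)) →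
      (w * q ∈ Subgroup.closure ({A, B} : Set Q) ∨ X * (w * q) ∈ Subgroup.closure ({A, B} : Set Q)) := by
    intro w hw q hq
    rcases hw with hw | hw | hw
    · rw [hw]
      have := step 1 (Subgroup.one_mem _) q hq
      rwa [mul_one] at this
    · rw [hw, hYA]
      exact step A mA q hq
    · rw [Set.mem_singleton_iff.1 hw, hZA]
      exact step (A * B) (Subgroup.mul_mem _ mA mB) q hq
  induction hq using Subgroup.closure_induction_left with
  | one => exact Or.inl (Subgroup.one_mem _)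
  | mul_left w hw q _ ih => exact hmul w hw q ih
  | inv_mul_cancel w hw q _ ih =>
    have hwi : w⁻¹ = w := by
      rcases hw with hw | hw | hw
      · rw [hw, iX]
      · rw [hw, iY]
      · rw [Set.mem_singleton_iff.1 hw, iZ]
    rw [hwi]
    exact hmul w hw q ih

theorem grp_comm (H P : Subgroup G) [H.Normal] [P.Normal] (hPH : P ≤ H) (hH : ∀ a b, a ∉ H → b ∉ H → a * b ∈ H)
    {x y z : G} (hx : x * x = 1) (hy : y * y = 1) (hz : z * z = 1) (hxH : x ∉ H) (hyH : y ∉ H) (hzH : z ∉ H)
    (hgen : Subgroup.closure {x, y, z} = ⊤) (hP : x * y * z * (x * y * z) ∈ P) :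
    (∀ a ∈ H, ∀ b ∈ H, a * b * a⁻¹ * b⁻¹ ∈ P) ∧ ∀ a, a ∉ H → a * a ∈ P := by
  let π : G →* G ⧸ P := QuotientGroup.mk' P
  have hπ : ∀ g, π g = 1 ↔ g ∈ P := fun g => QuotientGroup.eq_one_iff g
  have hsur : Function.Surjective π := QuotientGroup.mk'_surjective P
  have gen' : Subgroup.closure ({π x, π y, π z} : Set (G ⧸ P)) = ⊤ := by
    have h1 : Subgroup.map π (Subgroup.closure {x, y, z}) = Subgroup.closure (π '' {x, y, z}) :=
      MonoidHom.map_closure π _
    rw [hgen] at h1
    have h2 : π '' {x, y, z} = {π x, π y, π z} := by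
      rw [Set.image_insert_eq, Set.image_insert_eq, Set.image_singleton]
    rw [h2] at h1
    rw [← h1]
    exact Subgroup.map_top_of_surjective π hsur
  obtain ⟨c1, c2, c3⟩ := three_grp (X := π x) (Y := π y) (Z := π z) (by rw [← map_mul, hx, map_one])
    (by rw [← map_mul, hy, map_one]) (by rw [← map_mul, hz, map_one]) gen' (by
      rw [← map_mul, ← map_mul, ← map_mul, hπ]
      exact hP)
  set Q0 := Subgroup.closure ({π x * π y, π y * π z} : Set (G ⧸ P)) with hQ0
  have hmap : ∀ g, π g ∈ Subgroup.map π H → g ∈ H := by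
    rintro g ⟨k, hk, hkg⟩
    have h1 : π (k⁻¹ * g) = 1 := by
      rw [map_mul, map_inv, hkg, inv_mul_cancel]
    have h2 : k⁻¹ * g ∈ H := hPH ((hπ _).1 h1)
    have h3 := H.mul_mem hk h2
    rwa [mul_inv_cancel_left] at h3
  have hle : Q0 ≤ Subgroup.map π H := by
    rw [hQ0, Subgroup.closure_le]
    intro q hq
    rcases hq with hq | hq
    · rw [hq]
      exact ⟨x * y, hH x y hxH hyH, map_mul π x y⟩
    · rw [Set.mem_singleton_iff.1 hq]
      exact ⟨y * z, hH y z hyH hzH, map_mul π y z⟩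
  have hHQ : ∀ g ∈ H, π g ∈ Q0 := by
    intro g hg
    rcases c3 (π g) with h | h
    · exact h
    · exfalso
      have h1 : x * g ∈ H := hmap _ (by rw [map_mul]; exact hle h)
      have h2 := H.mul_mem h1 (H.inv_mem hg)
      rw [mul_inv_cancel_right] at h2
      exact hxH h2
  constructor
  · intro a ha b hb
    rw [← hπ, map_mul, map_mul, map_mul, map_inv, map_inv, c1 _ (hHQ a ha) _ (hHQ b hb)]
    group
  · intro a ha
    rw [← hπ, map_mul]
    rcases c3 (π a) with h | h
    · exact absurd (hmap a (hle h)) ha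
    · have h1 := c2 _ h
      have hXX : π x * π x = 1 := by rw [← map_mul, hx, map_one]
      have h2 : π x * (π x * π a) * π x = π a * π x := by
        rw [← mul_assoc, hXX, one_mul]
      rw [h2] at h1
      have h3 : π a * π x * (π x * π a) = 1 := by
        rw [h1, inv_mul_cancel]
      calc π a * π a = π a * (π x * π x) * π a := by rw [hXX, mul_one]
        _ = π a * π x * (π x * π a) := by simp only [mul_assoc]
        _ = 1 := h3

private theorem odd_grp {c : G} (hc : c ≠ 1) (hcc : c * c = 1) (p q r t : G) (hp : p = 1 ∨ p = c) (hq : q = 1 ∨ q = c)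
    (hr : r = 1 ∨ r = c) (ht : t = 1 ∨ t = c) (h : p * q * r * t = c) : p = 1 ∨ q = 1 ∨ r = 1 ∨ t = 1 := by
  by_contra hne
  push Not at hne
  obtain ⟨h1, h2, h3, h4⟩ := hne
  have e1 := hp.resolve_left h1
  have e2 := hq.resolve_left h2
  have e3 := hr.resolve_left h3
  have e4 := ht.resolve_left h4
  rw [e1, e2, e3, e4, mul_assoc, hcc, one_mul] at h
  exact hc h.symm

theorem grp_count [Fintype G] (H : Subgroup G) [H.Normal] (hH : ∀ a b, a ∉ H → b ∉ H → a * b ∈ H)
    {x y z c : G} (hx : x * x = 1) (hy : y * y = 1) (hz : z * z = 1) (hxH : x ∉ H) (hyH : y ∉ H) (hzH : z ∉ H)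
    (hc : c ≠ 1) (hcc : c * c = 1) (hcen : ∀ g, c * g = g * c) (hsq : ∀ g, g ∉ H → g * g = 1 ∨ g * g = c)
    (hxyz : x * y * z * (x * y * z) = c) :
    Nat.card H + 2 ≤ 4 * Nat.card {g : G // g ∉ H ∧ g * g = 1} := by
  classical
  set a := x * y with ha
  set b := y * z with hb
  have haH : a ∈ H := hH x y hxH hyH
  have hbH : b ∈ H := hH y z hyH hzH
  have hnm : ∀ g u, g ∉ H → u ∈ H → g * u ∉ H := by
    intro g u hg hu h
    have := H.mul_mem h (H.inv_mem hu)
    rw [mul_inv_cancel_right] at this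
    exact hg this
  -- squares are central and have square `1`
  have cen : ∀ p : G, (p = 1 ∨ p = c) → ∀ g, p * g = g * p := by
    rintro p (rfl | rfl) g
    · simp
    · exact hcen g
  have sq1 : ∀ p : G, (p = 1 ∨ p = c) → p * p = 1 := by
    rintro p (rfl | rfl)
    · simp
    · exact hcc
  have cl : ∀ p q : G, (p = 1 ∨ p = c) → (q = 1 ∨ q = c) → (p * q = 1 ∨ p * q = c) := by
    rintro p q (rfl | rfl) (rfl | rfl)
    · simp
    · simp
    · simp
    · left; exact hcc
  -- the product of the four squares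
  have key : ∀ g, g ∉ H → (g * g) * ((g * a) * (g * a)) * ((g * b) * (g * b)) * ((g * (a * b)) * (g * (a * b))) =
      a⁻¹ * b⁻¹ * a * b := by
    intro g hg
    have s0 := hsq g hg
    have s1 := hsq (g * a) (hnm g a hg haH)
    have s2 := hsq (g * b) (hnm g b hg hbH)
    have s3 := hsq (g * (a * b)) (hnm g (a * b) hg (H.mul_mem haH hbH))
    set p0 := g * g with hp0
    set p1 := (g * a) * (g * a) with hp1
    set p2 := (g * b) * (g * b) with hp2
    set p3 := (g * (a * b)) * (g * (a * b)) with hp3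
    -- conj
    have q1 : g⁻¹ * a * g = p0 * p1 * a⁻¹ := by
      have e : p1 = p0 * (g⁻¹ * a * g) * a := by
        rw [hp1, hp0]
        group
      rw [e]
      calc g⁻¹ * a * g = (p0 * p0) * (g⁻¹ * a * g) := by rw [sq1 p0 s0, one_mul]
        _ = p0 * (p0 * (g⁻¹ * a * g) * a) * a⁻¹ := by group
    have q2 : g⁻¹ * b * g = p0 * p2 * b⁻¹ := by
      have e : p2 = p0 * (g⁻¹ * b * g) * b := by
        rw [hp2, hp0]
        group
      rw [e]
      calc g⁻¹ * b * g = (p0 * p0) * (g⁻¹ * b * g) := by rw [sq1 p0 s0, one_mul]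
        _ = p0 * (p0 * (g⁻¹ * b * g) * b) * b⁻¹ := by group
    have q3 : p3 = p0 * (g⁻¹ * a * g) * (g⁻¹ * b * g) * (a * b) := by
      rw [hp3, hp0]
      group
    have z0 := cen p0 s0
    have z1 := cen p1 s1
    have z2 := cen p2 s2
    have o0 := sq1 p0 s0
    have o1 := sq1 p1 s1
    have o2 := sq1 p2 s2
    rw [q1, q2] at q3
    -- `p3 = p0 p0 p1 p0 p2 a⁻¹ b⁻¹ a b`
    have q4 : p3 = p0 * p1 * p2 * (a⁻¹ * b⁻¹ * a * b) := by
      rw [q3]
      have w1 : p0 * (p0 * p1 * a⁻¹) = p1 * a⁻¹ := by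
        rw [← mul_assoc, ← mul_assoc, o0, one_mul]
      rw [w1]
      have w2 : p1 * a⁻¹ * (p0 * p2 * b⁻¹) = p0 * p1 * p2 * (a⁻¹ * b⁻¹) := by
        calc p1 * a⁻¹ * (p0 * p2 * b⁻¹) = p1 * (a⁻¹ * p0) * p2 * b⁻¹ := by simp only [mul_assoc]
          _ = p1 * (p0 * a⁻¹) * p2 * b⁻¹ := by rw [z0 a⁻¹]
          _ = (p1 * p0) * (a⁻¹ * p2) * b⁻¹ := by simp only [mul_assoc]
          _ = (p0 * p1) * (p2 * a⁻¹) * b⁻¹ := by rw [z0 p1, z2 a⁻¹]
          _ = p0 * p1 * p2 * (a⁻¹ * b⁻¹) := by simp only [mul_assoc]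
      rw [w2]
      simp only [mul_assoc]
    rw [q4]
    have hP : (p0 * p1 * p2) * (p0 * p1 * p2) = 1 := sq1 _ (cl _ _ (cl _ _ s0 s1) s2)
    rw [← mul_assoc, hP, one_mul]
  have kx : a⁻¹ * b⁻¹ * a * b = c := by
    have e := key x hxH
    have e1 : x * a = y := by rw [ha, ← mul_assoc, hx, one_mul]
    have e2 : x * b = x * y * z := by rw [hb, ← mul_assoc]
    have e3 : x * (a * b) = z := by
      rw [ha, hb]
      calc x * (x * y * (y * z)) = (x * x) * (y * y) * z := by simp only [mul_assoc]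
        _ = z := by rw [hx, hy, one_mul, one_mul]
    rw [e1, e2, e3, hx, hy, hz, hxyz, one_mul, one_mul, mul_one] at e
    exact e.symm
  let f : G → ℕ := fun g => if g ∉ H ∧ g * g = 1 then 1 else 0
  have hf1 : ∀ g, g ∉ H → g * g = 1 → f g = 1 := fun g h1 h2 => if_pos ⟨h1, h2⟩
  have hT : Nat.card {g : G // g ∉ H ∧ g * g = 1} = ∑ g, f g := by
    rw [Nat.card_eq_fintype_card, Fintype.card_subtype, Finset.card_filter]
  have hshift : ∀ u : G, ∑ g, f (g * u) = ∑ g, f g := fun u => Equiv.sum_comp (Equiv.mulRight u) f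
  let L : G → ℕ := fun g => (if g ∉ H then 1 else 0) + (if g = x then 2 else 0)
  have hL : ∀ g, L g ≤ f g + f (g * a) + f (g * b) + f (g * (a * b)) := by
    intro g
    by_cases hg : g ∈ H
    · have hgx : g ≠ x := fun h => hxH (h ▸ hg)
      show (if g ∉ H then 1 else 0) + (if g = x then 2 else 0) ≤ _
      rw [if_neg (not_not.2 hg), if_neg hgx]
      omega
    · show (if g ∉ H then 1 else 0) + (if g = x then 2 else 0) ≤ _
      rw [if_pos hg]
      by_cases hgx : g = x
      · rw [if_pos hgx]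
        have f0 : f g = 1 := hf1 g hg (by rw [hgx]; exact hx)
        have f1 : f (g * a) = 1 := by
          refine hf1 _ (hnm g a hg haH) ?_
          have e1 : x * a = y := by rw [ha, ← mul_assoc, hx, one_mul]
          rw [hgx, e1]
          exact hy
        have f3 : f (g * (a * b)) = 1 := by
          refine hf1 _ (hnm g _ hg (H.mul_mem haH hbH)) ?_
          have e3 : x * (a * b) = z := by
            rw [ha, hb]
            calc x * (x * y * (y * z)) = (x * x) * (y * y) * z := by simp only [mul_assoc]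
              _ = z := by rw [hx, hy, one_mul, one_mul]
          rw [hgx, e3]
          exact hz
        omega
      · rw [if_neg hgx]
        have s0 := hsq g hg
        have s1 := hsq (g * a) (hnm g a hg haH)
        have s2 := hsq (g * b) (hnm g b hg hbH)
        have s3 := hsq (g * (a * b)) (hnm g (a * b) hg (H.mul_mem haH hbH))
        rcases odd_grp hc hcc _ _ _ _ s0 s1 s2 s3 ((key g hg).trans kx) with h | h | h | h
        · have := hf1 _ hg h
          omega
        · have := hf1 _ (hnm g a hg haH) h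
          omega
        · have := hf1 _ (hnm g b hg hbH) h
          omega
        · have := hf1 _ (hnm g _ hg (H.mul_mem haH hbH)) h
          omega
  have hsum : ∑ g, L g ≤ 4 * ∑ g, f g := by
    calc ∑ g, L g ≤ ∑ g, (f g + f (g * a) + f (g * b) + f (g * (a * b))) := Finset.sum_le_sum fun g _ => hL g
      _ = 4 * ∑ g, f g := by
        rw [Finset.sum_add_distrib, Finset.sum_add_distrib, Finset.sum_add_distrib, hshift, hshift, hshift]
        ring
  have hLs : ∑ g, L g = (Finset.univ.filter (fun g : G => g ∉ H)).card + 2 := by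
    show ∑ g, ((if g ∉ H then 1 else 0) + (if g = x then 2 else 0)) = _
    rw [Finset.sum_add_distrib, Finset.sum_ite_eq' Finset.univ x, if_pos (Finset.mem_univ x), Finset.card_filter]
  have hcompl : Nat.card H ≤ (Finset.univ.filter (fun g : G => g ∉ H)).card := by
    rw [Nat.card_eq_fintype_card, ← Finset.card_univ]
    refine Finset.card_le_card_of_injOn (fun h : H => x * (h : G)) ?_ ?_
    · intro h _
      rw [Finset.mem_coe, Finset.mem_filter]
      exact ⟨Finset.mem_univ _, hnm x h hxH h.2⟩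
    · intro h _ h' _ hh
      exact Subtype.ext (mul_left_cancel hh)
  rw [hT]
  omega

end Pool.Agent.H6.FF
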