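import Pool.Agent.H6.FF.RkL
import Pool.Agent.H6.FF.Lin
import Pool.Agent.H6.FF.Tau
import Pool.Agent.H6.FF.FS
import Pool.Agent.H6.FF.Grp

set_option autoImplicit false

/-!
PROJECT FF (MP_bf82d2_ag, BoundedGroup, note 6093), module G1F.
Case G1: the final contradiction.
PROOF. `h = |H|`, `|G| = 2 h`; `c = s i0 ^ 2`, `p = oo K (s i0) = orderOf c ≥ 2`; the other `s i` are involutions (`oo = 1`, `ko = 2`). `grp_nf`:
`x, y, z`; `P = Subgroup.normalClosure {c} ≤ K` (`c ∈ K`). `(x y z)^2 = c⁻¹ ∈ P`. `grp_comm`: commutators of `H` and squares of elements outside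
`H` are in `P`. `I = #{g ∉ H, g g = 1} ≥ 1` (`x`). `∑ ψ, ψ 1 * fs ψ = #{u ∈ H, u τ(u) z = 1} = I` (`reg_sum`; `u ↦ u w` is a bijection from `H` to the
complement, `dat_facts`). `Rk ψ = 0` implies `ψ = ψ 1` on the conjugates of `c` (`Rk_zero` for `i0`, `cc` is the conjugate of `c`), hence on `P`
(`triv_mul`: the `x` with `ψ (x y) = ψ y` for all `y` form a subgroup), so `ψ ∈ lin (P.subgroupOf H)` (`mem_lin_of`); these are `h / |P|` characters,
of degree 1, `fs ≤ 1` (`fs_cases`). For the others `Rk = 2`, `fs = -1`; `∑_{Rk = 2} ψ 1 = (1/2) ∑ ψ 1 * Rk ψ = (1/2) (2 h) (1/2) (1 - 1/p)` (`Rk_avg`).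
So `1 ≤ I ≤ h / |P| - (h/2) (1 - 1/p)`. `p ∣ |P|` (`orderOf_dvd`, `c ∈ P`): so `1/p > (1 - 1/p)/2`, `p = 2`, `|P| < 4`, `|P| = 2`, `P = {1, c}`, `c` is
central (`g c g⁻¹ ∈ P`, `≠ 1`), `c⁻¹ = c`. As `∑ ψ 1 * Rk ψ > 0` some `ψ` has `Rk ψ = 2`. `central_scalar`: `ψ (c u) = ζ ψ u`, `ζ^2 = 1`; `ζ = 1`
would give `Rk ψ = 0` (`Rk` only sees powers of `c`). So `ψ c = - ψ 1`, `fixs ψ c 2 = 0`, `Rk ψ = (1/h) (1/2) (2 h) ψ 1 = ψ 1 = 2`, and
`-1 = fs = (1/h) (2 I - 2 (h - I))`, so `4 I = h`. But `grp_count` gives `h + 2 ≤ 4 I`.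
-/

namespace Pool.Agent.H6.FF

open Finset Module
open Pool.Agent.H82.CO (chi quadInv nu genus eps zeta)
open Pool.Agent.H11.GQ (nuK)

private theorem sum_fs_G1F {H : Type} [Group H] [Fintype H] (τ : H ≃* H) (z : H) :
    ∑ ψ ∈ irr H, ψ 1 * fs τ z ψ = ((Nat.card {x : H // x * τ x * z = 1} : ℕ) : ℂ) := by
  classical
  have hn : (Nat.card H : ℂ) ≠ 0 := by exact_mod_cast Nat.card_pos.ne'
  unfold fs
  have e1 : ∀ ψ ∈ irr H, ψ 1 * ((1 / (Nat.card H : ℂ)) * ∑ x, ψ (x * τ x * z)) =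
      (1 / (Nat.card H : ℂ)) * ∑ x, ψ 1 * ψ (x * τ x * z) := by
    intro ψ _
    rw [← mul_sum]
    ring
  rw [sum_congr rfl e1, ← mul_sum, sum_comm]
  simp only [reg_sum]
  rw [sum_ite, sum_const, sum_const_zero, add_zero, nsmul_eq_mul,
    Nat.card_eq_fintype_card (α := {x : H // x * τ x * z = 1}), Fintype.card_subtype]
  field_simp

variable {G : Type} [Group G] [Fintype G]

omit [Fintype G] in
private theorem cardI_G1F {H : Subgroup G} [H.Normal] {w : G} {z : H} (hwH : w ∉ H)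
    (hH : ∀ a c : G, a ∉ H → c ∉ H → a * c ∈ H)
    (hsq : ∀ x : H, ((x * tau H w x * z : H) : G) = x * w * (x * w)) :
    Nat.card {x : H // x * tau H w x * z = 1} = Nat.card {g : G // g ∉ H ∧ g * g = 1} := by
  have hwi : w⁻¹ ∉ H := fun h => hwH (by simpa using H.inv_mem h)
  refine Nat.card_congr
    { toFun := fun x => ⟨(x.1 : G) * w, ?_, ?_⟩
      invFun := fun g => ⟨⟨g.1 * w⁻¹, hH _ _ g.2.1 hwi⟩, ?_⟩
      left_inv := ?_
      right_inv := ?_ }
  · intro h
    exact hwH (by simpa using H.mul_mem (H.inv_mem x.1.2) h)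
  · rw [← hsq, x.2]
    rfl
  · apply Subtype.ext
    rw [hsq]
    show g.1 * w⁻¹ * w * (g.1 * w⁻¹ * w) = 1
    rw [inv_mul_cancel_right]
    exact g.2.2
  · intro x
    apply Subtype.ext
    apply Subtype.ext
    simp
  · intro g
    apply Subtype.ext
    simp

private theorem mem_lin_G1F {s : Fin 4 → G} {K H : Subgroup G} [K.Normal] [H.Normal] [Fintype H] (hKH : K ≤ H)
    {i0 : Fin 4} (hk : ko K (s i0) = 2) {P : Subgroup G} [P.Normal]
    (hP : P = Subgroup.normalClosure {s i0 ^ 2}) (hcom : ∀ a b : H, a * b * a⁻¹ * b⁻¹ ∈ P.subgroupOf H)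
    {ψ : H → ℂ} (hψ : ψ ∈ irr H) (h0 : Rk univ s K H ψ = 0) : ψ ∈ lin (P.subgroupOf H) := by
  have hψ' := mem_irr.1 hψ
  refine mem_lin_of _ hcom hψ ?_
  let T : Subgroup G :=
    { carrier := {x | ∃ hx : x ∈ H, ∀ y, ψ (⟨x, hx⟩ * y) = ψ y}
      mul_mem' := by
        rintro a b ⟨ha, ha'⟩ ⟨hb, hb'⟩
        refine ⟨H.mul_mem ha hb, fun y => ?_⟩
        have h1 : (⟨a * b, H.mul_mem ha hb⟩ : H) * y = ⟨a, ha⟩ * (⟨b, hb⟩ * y) := by
          apply Subtype.ext
          simp [mul_assoc]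
        rw [h1, ha', hb']
      one_mem' := by
        refine ⟨H.one_mem, fun y => ?_⟩
        have h1 : (⟨1, H.one_mem⟩ : H) * y = y := by
          apply Subtype.ext
          simp
        rw [h1]
      inv_mem' := by
        rintro a ⟨ha, ha'⟩
        refine ⟨H.inv_mem ha, fun y => ?_⟩
        rw [← ha' (⟨a⁻¹, H.inv_mem ha⟩ * y)]
        congr 1
        apply Subtype.ext
        simp }
  have hT : P ≤ T := by
    rw [hP]
    refine (Subgroup.closure_le T).2 ?_
    intro g hg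
    obtain ⟨a, ha, hag⟩ := Group.mem_conjugatesOfSet_iff.1 hg
    rw [Set.mem_singleton_iff] at ha
    rw [ha] at hag
    obtain ⟨u, hu⟩ := isConj_iff.1 hag
    obtain ⟨e1, e2, -⟩ := cc_pow K H hKH (s i0) u 1
    rw [hk, mul_one, hu] at e1
    have e3 := Rk_zero univ s K H hKH hψ' h0 (mem_univ i0) u 1
    have hgH : g ∈ H := by
      rw [← e1]
      exact SetLike.coe_mem _
    have e4 : (cc K H (s i0) u ^ 1 : H) = ⟨g, hgH⟩ := Subtype.ext e1
    rw [e4] at e3
    exact ⟨hgH, fun y => triv_mul hψ' e3 y⟩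
  intro k hk'
  obtain ⟨hx, h⟩ := hT (Subgroup.mem_subgroupOf.1 hk')
  have h2 := h 1
  rw [mul_one] at h2
  exact h2

private theorem rk_G1F {s : Fin 4 → G} {K H : Subgroup G} [K.Normal] [H.Normal] [Fintype H] (hKH : K ≤ H)
    (hcard : Nat.card G = 2 * Nat.card H)
    (hko : ∀ i, ko K (s i) = 2) {i0 : Fin 4} (h0 : oo K (s i0) = 2) (h1 : ∀ i, i ≠ i0 → oo K (s i) = 1)
    (hcen : ∀ g, s i0 ^ 2 * g = g * s i0 ^ 2) (cH : H) (hcH : (cH : G) = s i0 ^ 2) (ψ : H → ℂ) :
    Rk univ s K H ψ = (ψ 1 - (1 / 2) * (ψ 1 + ψ cH)).re := by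
  have hh : (Nat.card H : ℝ) ≠ 0 := by
    have : 0 < Nat.card H := Nat.card_pos
    positivity
  have hcc : ∀ u, cc K H (s i0) u = cH := by
    intro u
    obtain ⟨e1, -, -⟩ := cc_pow K H hKH (s i0) u 1
    rw [hko i0, mul_one, pow_one] at e1
    apply Subtype.ext
    rw [e1, hcH, ← hcen, mul_inv_cancel_right]
  unfold Rk
  rw [sum_eq_single i0]
  · rw [hko i0, h0]
    have e2 : ∀ u ∈ (univ : Finset G), (ψ 1 - fixs ψ (cc K H (s i0) u) 2).re =
        (ψ 1 - (1 / 2) * (ψ 1 + ψ cH)).re := by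
      intro u _
      rw [hcc u]
      unfold fixs
      rw [sum_range_succ, sum_range_succ, sum_range_zero, pow_zero, pow_one, zero_add]
      push_cast
      rfl
    rw [sum_congr rfl e2, sum_const, nsmul_eq_mul, Finset.card_univ, ← Nat.card_eq_fintype_card, hcard]
    push_cast
    field_simp
  · intro i _ hi
    rw [h1 i hi]
    have e2 : ∀ u ∈ (univ : Finset G), (ψ 1 - fixs ψ (cc K H (s i) u) 1).re = 0 := by
      intro u _
      unfold fixs
      simp
    rw [sum_congr rfl e2, sum_const_zero, mul_zero]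
  · intro h
    exact absurd (mem_univ i0) h

private theorem num_G1F {L q p h : ℕ} (hL : L * q = h) (hp : 2 ≤ p) (hq : p ∣ q) (hh : 0 < h) {I : ℝ} (hI : 1 ≤ I)
    (hle : I ≤ L - (1 / 2) * (h * (1 - 1 / (p : ℝ)))) : p = 2 ∧ q = 2 := by
  obtain ⟨m, hm⟩ := hq
  have hLpos : 0 < L := by
    rcases Nat.eq_zero_or_pos L with h0 | h0
    · rw [h0] at hL
      omega
    · exact h0
  have hmpos : 0 < m := by
    rcases Nat.eq_zero_or_pos m with h0 | h0
    · rw [hm, h0] at hL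
      simp at hL
      omega
    · exact h0
  have hpR : (0 : ℝ) < p := by exact_mod_cast (by omega : 0 < p)
  have hLR : (0 : ℝ) < L := by exact_mod_cast hLpos
  have hhR : (h : ℝ) = L * (p * m) := by
    rw [← hL, hm]
    push_cast
    ring
  have h1 : (h : ℝ) * (1 - 1 / (p : ℝ)) = L * (m * (p - 1)) := by
    rw [hhR]
    field_simp
  rw [h1] at hle
  have h2 : (L : ℝ) * (m * (p - 1)) < L * 2 := by linarith
  have h3 : (m : ℝ) * (p - 1) < 2 := lt_of_mul_lt_mul_left h2 hLR.le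
  obtain ⟨p', rfl⟩ : ∃ p', p = p' + 1 := ⟨p - 1, by omega⟩
  have h4 : m * p' < 2 := by
    have : ((m * p' : ℕ) : ℝ) < 2 := by
      push_cast at h3 ⊢
      linarith
    exact_mod_cast this
  have h5 : 1 ≤ p' := by omega
  have h6 : p' = 1 := by nlinarith
  have h7 : m = 1 := by
    rw [h6] at h4
    omega
  rw [hm, h6, h7]
  exact ⟨rfl, rfl⟩

theorem g1_final {s : Fin 4 → G} (hp : (List.ofFn s).prod = 1) (hg : Subgroup.closure (Set.range s) = ⊤)
    {K H : Subgroup G} [K.Normal] [H.Normal] [Fintype H] {w : G} {b : ℝ} (D : Dat s K H w b)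
    (hcard : Nat.card G = 2 * Nat.card H) (hH : ∀ a c : G, a ∉ H → c ∉ H → a * c ∈ H) (hsH : ∀ i, s i ∉ H)
    (hko : ∀ i, ko K (s i) = 2) {i0 : Fin 4} (h0 : 2 ≤ oo K (s i0)) (h1 : ∀ i, i ≠ i0 → oo K (s i) = 1)
    {z : H} (hz : (z : G) = w * w)
    (hR : ∀ ψ ∈ irr H, Rk univ s K H ψ = 0 ∨ (Rk univ s K H ψ = 2 ∧ fs (tau H w) z ψ = -1)) : False := by
  classical
  obtain ⟨z0, hz0, hzz, hττ, -, hsq, -, -, -⟩ := dat_facts D
  have hzz0 : z0 = z := Subtype.ext (hz0.trans hz.symm)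
  subst hzz0
  have hcardpos : 0 < Nat.card H := Nat.card_pos
  have hhR : (0 : ℝ) < Nat.card H := by exact_mod_cast hcardpos
  obtain ⟨c, hc⟩ : ∃ c : G, c = s i0 ^ 2 := ⟨_, rfl⟩
  have hcK : c ∈ K := by
    have h2 := (ko_mul_oo K (s i0)).2.2.2.1
    rwa [hko i0, ← hc] at h2
  have hoc : orderOf c = oo K (s i0) := by
    unfold oo
    rw [hko i0, hc]
  have hinv : ∀ i, i ≠ i0 → s i * s i = 1 := by
    intro i hi
    have h2 := (ko_mul_oo K (s i)).1
    rw [hko i, h1 i hi] at h2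
    have h3 := pow_orderOf_eq_one (s i)
    rw [← h2, mul_one, pow_two] at h3
    exact h3
  obtain ⟨x, y, z', hx, hy, hz', ⟨ix, hix⟩, ⟨iy, hiy⟩, ⟨iz, hiz⟩, hxyz, hgen⟩ := grp_nf s hp hg i0 hinv
  have hxH : x ∉ H := by rw [hix]; exact hsH ix
  have hyH : y ∉ H := by rw [hiy]; exact hsH iy
  have hzH : z' ∉ H := by rw [hiz]; exact hsH iz
  have hprod : x * y * z' * (x * y * z') = c⁻¹ := by
    rw [hxyz, hc]
    group
  obtain ⟨P, hP⟩ : ∃ P : Subgroup G, P = Subgroup.normalClosure {c} := ⟨_, rfl⟩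
  have hPn : P.Normal := by
    rw [hP]
    exact Subgroup.normalClosure_normal
  have hcP : c ∈ P := by
    rw [hP]
    exact Subgroup.subset_normalClosure (Set.mem_singleton c)
  have hPK : P ≤ K := by
    rw [hP]
    refine Subgroup.normalClosure_le_normal ?_
    simpa using hcK
  have hPH : P ≤ H := hPK.trans D.KH
  obtain ⟨hcom, hsqP⟩ := grp_comm H P hPH hH hx hy hz' hxH hyH hzH hgen (by rw [hprod]; exact P.inv_mem hcP)
  have hcomP : ∀ a b : H, a * b * a⁻¹ * b⁻¹ ∈ P.subgroupOf H := by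
    intro a b
    rw [Subgroup.mem_subgroupOf]
    exact hcom a a.2 b b.2
  have hlin : ∀ ψ ∈ irr H, Rk univ s K H ψ = 0 → ψ ∈ lin (P.subgroupOf H) := by
    intro ψ hψ h
    exact mem_lin_G1F D.KH (hko i0) (by rw [hP, hc]) hcomP hψ h
  have hL : (lin (P.subgroupOf H)).card * Nat.card P = Nat.card H := by
    rw [lin_card _ hcomP, ← Subgroup.index_mul_card (P.subgroupOf H),
      Nat.card_congr (Subgroup.subgroupOfEquivOfLe hPH).toEquiv]
  -- the number of involutions outside `H`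
  obtain ⟨I, hI⟩ : ∃ I : ℕ, I = Nat.card {g : G // g ∉ H ∧ g * g = 1} := ⟨_, rfl⟩
  have hI1 : 1 ≤ I := by
    rw [hI]
    have : Nonempty {g : G // g ∉ H ∧ g * g = 1} := ⟨⟨x, hxH, hx⟩⟩
    exact Nat.card_pos
  have hIH : Nat.card {x : H // x * tau H w x * z0 = 1} = I := by
    rw [hI]
    exact cardI_G1F D.wH hH hsq
  have hsumI : ∑ ψ ∈ irr H, (ψ 1 * fs (tau H w) z0 ψ).re = (I : ℝ) := by
    rw [← Complex.re_sum, sum_fs_G1F, hIH, Complex.natCast_re]
  -- the sum of the ranks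
  have havg : ∑ ψ ∈ irr H, (ψ 1).re * Rk univ s K H ψ =
      (Nat.card H : ℝ) * (1 - 1 / (oo K (s i0) : ℝ)) := by
    rw [Rk_avg univ s K H D.KH, sum_eq_single i0, hko i0, hcard]
    · push_cast
      ring
    · intro i _ hi
      rw [h1 i hi]
      simp
    · intro h
      exact absurd (mem_univ i0) h
  have hbound : (I : ℝ) ≤ (lin (P.subgroupOf H)).card -
      (1 / 2) * ((Nat.card H : ℝ) * (1 - 1 / (oo K (s i0) : ℝ))) := by
    rw [← hsumI, ← havg, mul_sum]
    have e1 : ∑ ψ ∈ irr H, (if ψ ∈ lin (P.subgroupOf H) then (1 : ℝ) else 0) ≤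
        (lin (P.subgroupOf H)).card := by
      rw [sum_ite, sum_const, sum_const_zero, add_zero, nsmul_eq_mul, mul_one]
      have : ((irr H).filter fun ψ => ψ ∈ lin (P.subgroupOf H)) ⊆ lin (P.subgroupOf H) := by
        intro ψ hψ
        exact (mem_filter.1 hψ).2
      exact_mod_cast card_le_card this
    have e2 : ∑ ψ ∈ irr H, (ψ 1 * fs (tau H w) z0 ψ).re ≤
        ∑ ψ ∈ irr H, ((if ψ ∈ lin (P.subgroupOf H) then (1 : ℝ) else 0) -
          (1 / 2) * ((ψ 1).re * Rk univ s K H ψ)) := by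
      refine sum_le_sum fun ψ hψ => ?_
      rcases hR ψ hψ with h | ⟨h, h'⟩
      · rw [h, if_pos (hlin ψ hψ h), mul_zero, mul_zero, sub_zero, (lin_props (hlin ψ hψ h)).1.1, one_mul]
        rcases fs_cases (tau H w) z0 hzz hττ (mem_irr.1 hψ) with h2 | ⟨h2 | h2, -⟩
        · rw [h2]
          simp
        · rw [h2]
          simp
        · rw [h2]
          simp
      · rw [h, h']
        have h2 : (0 : ℝ) ≤ if ψ ∈ lin (P.subgroupOf H) then (1 : ℝ) else 0 := by
          split_ifs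
          · exact zero_le_one
          · exact le_refl 0
        have h3 : (ψ 1 * -1).re = -(ψ 1).re := by simp
        rw [h3]
        linarith
    rw [sum_sub_distrib] at e2
    linarith
  have hpq := num_G1F hL h0 (by rw [← hoc]; exact Subgroup.orderOf_dvd_natCard P hcP) hcardpos
    (by exact_mod_cast hI1 : (1 : ℝ) ≤ I) hbound
  obtain ⟨hp2, hq2⟩ := hpq
  -- `P = {1, c}`
  have hc1 : c ≠ 1 := by
    intro h
    rw [h, orderOf_one, hp2] at hoc
    omega
  have hcc : c * c = 1 := by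
    have h2 := pow_orderOf_eq_one c
    rwa [hoc, hp2, pow_two] at h2
  have hPset : ({1, c} : Set G) = (P : Set G) := by
    refine Set.eq_of_subset_of_ncard_le ?_ ?_ (Set.toFinite _)
    · rintro g (rfl | hg)
      · exact P.one_mem
      · rw [Set.mem_singleton_iff] at hg
        rw [hg]
        exact hcP
    · rw [Set.ncard_pair hc1.symm]
      have : (P : Set G).ncard = Nat.card P := (Nat.card_coe_set_eq _).symm
      rw [this, hq2]
  have hPm : ∀ g ∈ P, g = 1 ∨ g = c := by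
    intro g hg
    have h2 : g ∈ ({1, c} : Set G) := by
      rw [hPset]
      exact hg
    rcases h2 with h2 | h2
    · exact Or.inl h2
    · exact Or.inr h2
  have hcen : ∀ g, c * g = g * c := by
    intro g
    have h2 := hPn.conj_mem c hcP g
    rcases hPm _ h2 with h3 | h3
    · exfalso
      apply hc1
      have h4 : c = g⁻¹ * (g * c * g⁻¹) * g := by group
      rw [h4, h3]
      group
    · have h4 : g * c = g * c * g⁻¹ * g := by group
      rw [h4, h3]
  have hsq2 : ∀ g, g ∉ H → g * g = 1 ∨ g * g = c := fun g hg => hPm _ (hsqP g hg)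
  have hcnt := grp_count H hH hx hy hz' hxH hyH hzH hc1 hcc hcen hsq2 (by
    rw [hprod]
    exact inv_eq_of_mul_eq_one_left hcc)
  rw [← hI] at hcnt
  -- a character with `Rk = 2`
  have hex : ∃ ψ ∈ irr H, Rk univ s K H ψ = 2 ∧ fs (tau H w) z0 ψ = -1 := by
    by_contra hcon
    push Not at hcon
    have h2 : ∑ ψ ∈ irr H, (ψ 1).re * Rk univ s K H ψ = 0 := by
      refine sum_eq_zero fun ψ hψ => ?_
      rcases hR ψ hψ with h | ⟨h, h'⟩
      · rw [h, mul_zero]
      · exact absurd h' (hcon ψ hψ h)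
    rw [havg, hp2] at h2
    have h3 : (Nat.card H : ℝ) * (1 - 1 / ((2 : ℕ) : ℝ)) > 0 := by
      apply mul_pos hhR
      norm_num
    linarith
  obtain ⟨ψ, hψ, hRψ, hfs⟩ := hex
  have hψ' := mem_irr.1 hψ
  obtain ⟨cH, hcH⟩ : ∃ cH : H, (cH : G) = c := ⟨⟨c, hPH hcP⟩, rfl⟩
  have hcHcen : ∀ u : H, cH * u = u * cH := by
    intro u
    apply Subtype.ext
    show (cH : G) * u = u * cH
    rw [hcH, hcen]
  obtain ⟨ζ, -, hζ⟩ := central_scalar hψ' hcHcen
  obtain ⟨d, hd1, hd⟩ := deg_of_irr hψ'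
  have hd0 : (d : ℂ) ≠ 0 := by exact_mod_cast (by omega : d ≠ 0)
  have hψc : ψ cH = ζ * d := by
    have h2 := hζ 1
    rwa [mul_one, hd] at h2
  have hζ2 : ζ * ζ = 1 := by
    have h2 := hζ cH
    have h3 : cH * cH = 1 := by
      apply Subtype.ext
      show (cH : G) * cH = 1
      rw [hcH, hcc]
    rw [h3, hψc, hd] at h2
    have h4 : (ζ * ζ - 1) * d = 0 := by linear_combination -h2
    rcases mul_eq_zero.1 h4 with h5 | h5
    · linear_combination h5
    · exact absurd h5 hd0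
  have hrk := rk_G1F D.KH hcard hko hp2 h1 (by rw [← hc]; exact hcen) cH (hcH.trans hc) ψ
  rw [hRψ, hψc, hd] at hrk
  have hζ1 : ζ = -1 := by
    rcases mul_self_eq_one_iff.1 hζ2 with h2 | h2
    · exfalso
      rw [h2] at hrk
      have h3 : ((d : ℂ) - 1 / 2 * (d + 1 * d)) = 0 := by ring
      rw [h3] at hrk
      simp at hrk
    · exact h2
  have hd2 : (d : ℂ) = 2 := by
    rw [hζ1] at hrk
    have h3 : ((d : ℂ) - 1 / 2 * (d + -1 * d)) = d := by ring
    rw [h3, Complex.natCast_re] at hrk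
    exact_mod_cast hrk.symm
  have hval : ∀ u : H, ψ (u * tau H w u * z0) = if u * tau H w u * z0 = 1 then 2 else -2 := by
    intro u
    split_ifs with h2
    · rw [h2, hd, hd2]
    · have huw : (u : G) * w ∉ H := by
        intro h3
        exact D.wH (by simpa using H.mul_mem (H.inv_mem u.2) h3)
      rcases hsq2 _ huw with h3 | h3
      · exfalso
        apply h2
        apply Subtype.ext
        rw [hsq, h3]
        rfl
      · have h4 : u * tau H w u * z0 = cH := by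
          apply Subtype.ext
          rw [hsq, h3, hcH]
        rw [h4, hψc, hζ1, hd2]
        norm_num
  have hfs2 : (1 / (Nat.card H : ℂ)) * (4 * (I : ℂ) - 2 * (Nat.card H : ℂ)) = -1 := by
    rw [← hfs]
    unfold fs
    congr 1
    rw [sum_congr rfl fun u _ => hval u, sum_ite, sum_const, sum_const, nsmul_eq_mul, nsmul_eq_mul]
    have e1 : (univ.filter fun u : H => u * tau H w u * z0 = 1).card = I := by
      rw [← hIH, Nat.card_eq_fintype_card, Fintype.card_subtype]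
    have e2 : (univ.filter fun u : H => ¬ u * tau H w u * z0 = 1).card + I = Nat.card H := by
      rw [← e1, add_comm, card_filter_add_card_filter_not, Finset.card_univ, Nat.card_eq_fintype_card]
    have e3 : ((univ.filter fun u : H => ¬ u * tau H w u * z0 = 1).card : ℂ) = (Nat.card H : ℂ) - I := by
      rw [← e2]
      push_cast
      ring
    rw [e1, e3]
    ring
  have hhC : (Nat.card H : ℂ) ≠ 0 := by exact_mod_cast hcardpos.ne'
  have hfin : 4 * (I : ℂ) = (Nat.card H : ℂ) := by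
    field_simp at hfs2
    linear_combination hfs2
  have hfin' : 4 * I = Nat.card H := by exact_mod_cast hfin
  omega

end Pool.Agent.H6.FF
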