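import Pool.Agent.H6.FF.G1B
import Pool.Agent.H6.FF.G1C
import Pool.Agent.H6.FF.G1D
import Pool.Agent.H6.FF.G1E
import Pool.Agent.H6.FF.G1F
import Pool.Agent.H6.FF.G0A
import Pool.Agent.H6.FF.G0C
import Pool.Agent.H6.FF.G0D
import Pool.Agent.H11.GQ.Main
import Pool.Agent.H81.NF.Struct

set_option autoImplicit false

/-!
PROJECT FF (MP_bf82d2_ag, BoundedGroup, note 6093), module Main.  Assembly.
-/

namespace Pool.Agent.H6.FF

open Finset Module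
open Pool.Agent.H82.CO (chi quadInv nu genus eps zeta)
open Pool.Agent.H11.GQ (nuK)

private theorem index_big_main {G : Type} [Group G] [Fintype G] {K H : Subgroup G} (hKH : K ≤ H) {b b' t : ℝ}
    (hb0 : 0 < b) (hb' : 0 < b') (hK : (Nat.card K : ℝ) ≤ b) (hi : (Nat.card G : ℝ) ≤ b' * Nat.card H)
    (hbig : b' * b * t < Nat.card G) (ht : 0 ≤ t) : t < ((K.subgroupOf H).index : ℝ) := by
  have h1 : Nat.card (K.subgroupOf H) * (K.subgroupOf H).index = Nat.card H := Subgroup.card_mul_index _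
  have h2 : Nat.card (K.subgroupOf H) = Nat.card K := Nat.card_congr (Subgroup.subgroupOfEquivOfLe hKH).toEquiv
  rw [h2] at h1
  have h3 : (Nat.card K : ℝ) * ((K.subgroupOf H).index : ℝ) = Nat.card H := by exact_mod_cast h1
  by_contra hcon
  push Not at hcon
  have h4 : (Nat.card H : ℝ) ≤ b * t := by
    rw [← h3]
    exact mul_le_mul hK hcon (Nat.cast_nonneg _) hb0.le
  have h5 : b' * (Nat.card H : ℝ) ≤ b' * (b * t) := mul_le_mul_of_nonneg_left h4 hb'.le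
  linarith [mul_assoc b' b t]

theorem g1_bound (b : ℕ) (hb : 1 ≤ b) : ∃ C : ℕ, ∀ (G : Type) [Group G] [Fintype G] (N : ℕ) (_hN : 4 ≤ N) (_hN5 : N ≤ 5)
    (s : Fin N → G) (_hs : ∀ i, s i ≠ 1) (_hp : (List.ofFn s).prod = 1) (_hg : Subgroup.closure (Set.range s) = ⊤)
    (_hgen : 1 < genus s) (_hd : (quadInv s).re ≤ 2) (K A : Subgroup G) [K.Normal] [A.Normal] (_hK : Nat.card K ≤ b)
    (_hAi : A.index ≤ b) (_hA : ∀ a ∈ A, ∀ c ∈ A, a * c = c * a) (x : G) (_hx : ∀ a ∈ A, x * a * x⁻¹ = a⁻¹)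
    (_hfx : ∀ g, g ∉ K → fx s g ≤ 4 * (Nat.card K : ℝ)) (_hν : nuK s K = 2) (F : G →* ℂˣ) (_hF : FData s K F),
    Nat.card G ≤ C := by
  obtain ⟨C1, h1⟩ := g1_neg b
  obtain ⟨b', hb'⟩ : ∃ b' : ℕ, b' = 60 * b ^ 2 := ⟨_, rfl⟩
  refine ⟨C1 + b' * b * (20 * b' ^ 7 + 1), fun G _ _ N hN hN5 s hs hp hg hgen hd K A _ _ hK hAi hA x hx hfx hν F hF => ?_⟩
  by_contra hcon
  push Not at hcon
  obtain ⟨w, hw⟩ := h1 G N hN5 s hg K A hK hAi hA x hx hν F hF (by omega)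
  have hbR : (1 : ℝ) ≤ b := by exact_mod_cast hb
  have hKR : (Nat.card K : ℝ) ≤ b := by exact_mod_cast hK
  have hbb : (60 * (b : ℝ) ^ 2) = (b' : ℝ) := by rw [hb']; push_cast; ring
  obtain ⟨D, hoff⟩ := g1_dat hF hν hw hbR hKR hfx
  rw [hbb] at D
  have hb'1 : (1 : ℝ) ≤ b' := by
    rw [← hbb]
    nlinarith
  have hbb' : (b : ℝ) ≤ b' := by
    rw [← hbb]
    nlinarith
  have hcR : (b' : ℝ) * b * (20 * (b' : ℝ) ^ 7 + 1) < Nat.card G := by
    have : b' * b * (20 * b' ^ 7 + 1) < Nat.card G := by omega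
    exact_mod_cast this
  have hidx : 20 * (b' : ℝ) ^ 7 + 1 < ((K.subgroupOf F.ker).index : ℝ) :=
    index_big_main D.KH (by linarith) (by linarith) hKR D.ind hcR (by positivity)
  have : Fintype F.ker := Fintype.ofFinite _
  obtain ⟨z, hz, -, -, -, -, hcomm, -, -⟩ := dat_facts D
  have hAR : (A.index : ℝ) ≤ b' := by
    have : (A.index : ℝ) ≤ b := by exact_mod_cast hAi
    linarith
  have hR : ∀ ψ ∈ irr F.ker, Rk univ s K F.ker ψ = 0 ∨ (Rk univ s K F.ker ψ = 2 ∧ fs (tau F.ker w) z ψ = -1) :=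
    fun ψ hψ => g1_R hp hg hN5 hd hb'1 D hν hoff hA hAR hidx hz hψ
  have hker : ∀ g, g ∈ F.ker ↔ F g = 1 := fun g => MonoidHom.mem_ker
  have hord := fun i => fd_ord hF i
  obtain ⟨hcard, hko⟩ := g1_two hker hw hord D.KH hν hs hN hg hcomm hR
  obtain ⟨hN4, hko2, i0, h0, h0'⟩ := g1_four hker hw hord D.KH hν hs hN hgen hcomm hz hR hcard hko
  subst hN4
  have hi2 : F.ker.index = 2 := by
    have h3 : Nat.card F.ker * F.ker.index = Nat.card G := Subgroup.card_mul_index _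
    rw [hcard, mul_comm 2] at h3
    exact Nat.eq_of_mul_eq_mul_left Nat.card_pos h3
  refine g1_final hp hg D hcard ?_ ?_ hko2 h0 h0' hz hR
  · intro a c ha hc
    rw [Subgroup.mul_mem_iff_of_index_two hi2]
    exact iff_of_false ha hc
  · intro i hi
    rw [hker] at hi
    have h3 := hord i
    rw [hi, orderOf_one, hko2 i] at h3
    omega

theorem g0_bound (b : ℕ) (hb : 1 ≤ b) : ∃ C : ℕ, ∀ (G : Type) [Group G] [Fintype G] (N : ℕ) (_hN : 4 ≤ N) (_hN5 : N ≤ 5)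
    (s : Fin N → G) (_hs : ∀ i, s i ≠ 1) (_hp : (List.ofFn s).prod = 1) (_hg : Subgroup.closure (Set.range s) = ⊤)
    (_hd : (quadInv s).re ≤ 2) (K A : Subgroup G) [K.Normal] [A.Normal] (_hK : Nat.card K ≤ b)
    (_hAi : A.index ≤ b) (_hA : ∀ a ∈ A, ∀ c ∈ A, a * c = c * a) (x : G) (_hx : ∀ a ∈ A, x * a * x⁻¹ = a⁻¹)
    (_hfx : ∀ g, g ∉ K → fx s g ≤ 4 * (Nat.card K : ℝ)) (_hν : (Nat.card G : ℝ) * (2 - nuK s K) = 2 * (Nat.card K : ℝ)),
    Nat.card G ≤ C := by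
  obtain ⟨C1, h1⟩ := g0_dat b hb
  obtain ⟨b', hb'⟩ : ∃ b' : ℕ, b' = 60 * b ^ 2 := ⟨_, rfl⟩
  refine ⟨C1 + b' * b * (300 * b' ^ 9), fun G _ _ N hN hN5 s hs hp hg hd K A _ _ hK hAi hA x hx hfx hν => ?_⟩
  by_contra hcon
  push Not at hcon
  obtain ⟨H, hH, α, β, r, S⟩ := h1 G N hN5 s hp hg K A hK hAi hA x hx hfx hν (by omega)
  have hbR : (1 : ℝ) ≤ b := by exact_mod_cast hb
  have hKR : (Nat.card K : ℝ) ≤ b := by exact_mod_cast hK
  have hbb : (60 * (b : ℝ) ^ 2) = (b' : ℝ) := by rw [hb']; push_cast; ring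
  rw [hbb] at S
  have hb'1 : (1 : ℝ) ≤ b' := by
    rw [← hbb]
    nlinarith
  have hbb' : (b : ℝ) ≤ b' := by
    rw [← hbb]
    nlinarith
  have hcR : (b' : ℝ) * b * (300 * (b' : ℝ) ^ 9) < Nat.card G := by
    have : b' * b * (300 * b' ^ 9) < Nat.card G := by omega
    exact_mod_cast this
  have hidx : 300 * (b' : ℝ) ^ 9 < ((K.subgroupOf H).index : ℝ) :=
    index_big_main S.dat.KH (by linarith) (by linarith) hKR S.dat.ind hcR (by positivity)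
  have : Fintype H := Fintype.ofFinite _
  obtain ⟨z, hz, -⟩ := dat_facts S.dat
  have hAR : (A.index : ℝ) ≤ b' := by
    have : (A.index : ℝ) ≤ b := by exact_mod_cast hAi
    linarith
  exact g0_final hN hs S hz fun ψ hψ => g0_R hp hg hN5 hd hb'1 S hA hAR hidx hz hψ

/-- The order of a non-abelian group satisfying `(*)` is bounded. -/
theorem main : ∃ n0 : ℕ, ∀ (G : Type) [Group G] [Fintype G] (N : ℕ) (_hN : 4 ≤ N)
    (s : Fin N → G) (_hs : ∀ i, s i ≠ 1) (_hna : ∃ a b : G, a * b ≠ b * a)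
    (_hprod : (List.ofFn s).prod = 1) (_hgen : Subgroup.closure (Set.range s) = ⊤)
    (_hg : 1 < genus s) (_hd : (quadInv s).re ≤ (N : ℝ) - 3), Nat.card G ≤ n0 := by
  obtain ⟨B1, hB1⟩ := Pool.Agent.H11.GQ.main
  obtain ⟨B2, hB2⟩ := Pool.Agent.H81.NF.structure_thm
  obtain ⟨b, hb⟩ : ∃ b : ℕ, b = B1 + B2 + 1 := ⟨_, rfl⟩
  obtain ⟨C1, hC1⟩ := g1_bound b (by omega)
  obtain ⟨C0, hC0⟩ := g0_bound b (by omega)
  refine ⟨C1 + C0 + 47, fun G _ _ N hN s hs hna hprod hgen hg hd => ?_⟩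
  obtain ⟨K, hKn, hK, hν⟩ := hB1 G N hN s hs hna hprod hgen hg hd
  obtain ⟨A, hAn, hA, hAi, x, hx⟩ := hB2 G N hN s hs hna hprod hgen hg hd
  by_cases hN6 : 6 ≤ N
  · have := (Pool.Agent.H82.CO.bounds s hs hN6 hd).2.1
    omega
  have hN5 : N ≤ 5 := by omega
  have hd2 : (quadInv s).re ≤ 2 := by
    have : (N : ℝ) ≤ 5 := by exact_mod_cast hN5
    linarith
  obtain ⟨hfx, h1 | h0⟩ := ek s hprod hgen K hν
  · obtain ⟨hν2, F, hF⟩ := h1
    have := hC1 G N hN hN5 s hs hprod hgen hg hd2 K A (by omega) (by omega) hA x hx hfx hν2 F hF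
    omega
  · have := hC0 G N hN hN5 s hs hprod hgen hd2 K A (by omega) (by omega) hA x hx hfx h0
    omega

end Pool.Agent.H6.FF
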