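import Pool.Agent.H6.FF.Defs

set_option autoImplicit false

/-!
PROJECT FF (MP_bf82d2_ag, BoundedGroup, note 6093), module S0.  Definitions for case G0.
-/

namespace Pool.Agent.H6.FF

variable {G : Type} [Group G] {N : ℕ}

/-- the structure in case G0: `G / K` is dihedral, `w = s α` -/
structure S0 (s : Fin N → G) (K H : Subgroup G) [K.Normal] (α β r : Fin N) (b : ℝ) : Prop where
  ne1 : α ≠ β
  ne2 : α ≠ r
  ne3 : β ≠ r
  kα : ko K (s α) = 2
  kβ : ko K (s β) = 2
  ki : ∀ i, i ≠ α → i ≠ β → i ≠ r → ko K (s i) = 1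
  dat : Dat s K H (s α) b
  rH : s r ∈ H
  βH : s β ∉ H
  card : Nat.card G = 2 * Nat.card H
  idx : (K.subgroupOf H).index = ko K (s r)
  two : ∀ a c : G, a ∉ H → c ∉ H → a * c ∈ H

/-- the sum of the angles of `s r` and of its conjugate by `w` -/
noncomputable def aa (s : Fin N → G) (r : Fin N) (H : Subgroup G) (w : G) (ψ : H → ℂ) : ℂ :=
  angs ψ (cel H (s r)) (orderOf (s r)) + angs ψ (cel H (w * s r * w⁻¹)) (orderOf (s r))

end Pool.Agent.H6.FF
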